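import Mathlib

set_option autoImplicit false

namespace Pool.Agent.Lib.MP_bfe725_co

open Real in
/-- Real inequality behind the strengthened Bertrand postulate. -/
theorem real_main_inequality' {x : ℝ} (x_large : (512 : ℝ) ≤ x) :
    x * (x + 1) * (2 * x) ^ √(2 * x) * 4 ^ (2 * x / 3) ≤ 4 ^ x := by
  let f : ℝ → ℝ := fun x => log x + log (x + 1) + √(2 * x) * log (2 * x) - log 4 / 3 * x
  have hf' : ∀ x, 0 < x → 0 < x * (x + 1) * (2 * x) ^ √(2 * x) / 4 ^ (x / 3) := fun x h =>
    div_pos (mul_pos (mul_pos h (by linarith)) (rpow_pos_of_pos (mul_pos two_pos h) _))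
      (rpow_pos_of_pos four_pos _)
  have hf : ∀ x, 0 < x → f x = log (x * (x + 1) * (2 * x) ^ √(2 * x) / 4 ^ (x / 3)) := by
    intro x h5
    have h6 := mul_pos (zero_lt_two' ℝ) h5
    have h7 := rpow_pos_of_pos h6 (√(2 * x))
    have h8 : 0 < x + 1 := by linarith
    rw [log_div (mul_pos (mul_pos h5 h8) h7).ne' (rpow_pos_of_pos four_pos _).ne',
      log_mul (mul_pos h5 h8).ne' h7.ne', log_mul h5.ne' h8.ne',
      log_rpow h6, log_rpow zero_lt_four, ← mul_div_right_comm, ← mul_div, mul_comm x]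
  have h5 : 0 < x := lt_of_lt_of_le (by norm_num1) x_large
  rw [← div_le_one (rpow_pos_of_pos four_pos x), ← div_div_eq_mul_div, ← rpow_sub four_pos, ←
    mul_div 2 x, mul_div_left_comm, ← mul_one_sub, (by norm_num1 : (1 : ℝ) - 2 / 3 = 1 / 3),
    mul_one_div, ← log_nonpos_iff (hf' x h5).le, ← hf x h5]
  have hlog1 : ConcaveOn ℝ (Set.Ioi (0.5 : ℝ)) (fun x : ℝ => log (x + 1)) := by
    have h1 := strictConcaveOn_log_Ioi.concaveOn.translate_left 1
    have h2 : (fun z : ℝ => 1 + z) ⁻¹' Set.Ioi (0 : ℝ) = Set.Ioi (-1 : ℝ) := by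
      ext z
      simp only [Set.mem_preimage, Set.mem_Ioi]
      constructor <;> intro h <;> linarith
    rw [h2] at h1
    exact h1.subset (Set.Ioi_subset_Ioi (by norm_num)) (convex_Ioi 0.5)
  have hsq : ConcaveOn ℝ (Set.Ioi (0.5 : ℝ)) (fun x : ℝ => √(2 * x) * log (2 * x)) := by
    have h1 := (strictConcaveOn_sqrt_mul_log_Ioi.concaveOn.comp_linearMap
      ((2 : ℝ) • LinearMap.id))
    have h2 : ((2 : ℝ) • (LinearMap.id : ℝ →ₗ[ℝ] ℝ)) ⁻¹' Set.Ioi (1 : ℝ) = Set.Ioi (0.5 : ℝ) := by
      ext z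
      simp only [Set.mem_preimage, LinearMap.smul_apply, LinearMap.id_coe, id_eq, smul_eq_mul,
        Set.mem_Ioi]
      constructor <;> intro h <;> linarith
    rw [h2] at h1
    exact h1
  have h : ConcaveOn ℝ (Set.Ioi 0.5) f := by
    apply ConcaveOn.sub
    · apply ConcaveOn.add
      · apply ConcaveOn.add
        · exact strictConcaveOn_log_Ioi.concaveOn.subset
            (Set.Ioi_subset_Ioi (by norm_num)) (convex_Ioi 0.5)
        · exact hlog1
      · exact hsq
    apply ConvexOn.smul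
    · refine div_nonneg (log_nonneg (by norm_num1)) (by norm_num1)
    · exact convexOn_id (convex_Ioi (0.5 : ℝ))
  suffices ∃ x1 x2, 0.5 < x1 ∧ x1 < x2 ∧ x2 ≤ x ∧ 0 ≤ f x1 ∧ f x2 ≤ 0 by
    obtain ⟨x1, x2, h1, h2, h0, h3, h4⟩ := this
    exact (h.right_le_of_le_left'' h1 ((h1.trans h2).trans_le h0) h2 h0 (h4.trans h3)).trans h4
  refine ⟨18, 512, by norm_num1, by norm_num1, x_large, ?_, ?_⟩
  · have : √(2 * 18 : ℝ) = 6 := (sqrt_eq_iff_mul_self_eq_of_pos (by norm_num1)).mpr (by norm_num1)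
    rw [hf _ (by norm_num1), log_nonneg_iff (by positivity), this, one_le_div (by norm_num1)]
    norm_num1
  · have : √(2 * 512) = 32 :=
      (sqrt_eq_iff_mul_self_eq_of_pos (by norm_num1)).mpr (by norm_num1)
    rw [hf _ (by norm_num1), log_nonpos_iff (hf' _ (by norm_num1)).le, this,
        div_le_one (by positivity)]
    have e1 : (2 * 512 : ℝ) ^ (32 : ℝ) = 2 ^ (320 : ℝ) := by
      have : (2 * 512 : ℝ) = 2 ^ (10 : ℝ) := by
        rw [show (10 : ℝ) = ((10 : ℕ) : ℝ) by norm_num, rpow_natCast]; norm_num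
      rw [this, ← rpow_mul (by norm_num)]
      norm_num
    have e2 : (4 : ℝ) ^ ((512 : ℝ) / 3) = 2 ^ ((1024 : ℝ) / 3) := by
      have : (4 : ℝ) = 2 ^ (2 : ℝ) := by
        rw [show (2 : ℝ) = ((2 : ℕ) : ℝ) by norm_num, rpow_natCast]; norm_num
      rw [this, ← rpow_mul (by norm_num)]
      norm_num
    rw [e1, e2]
    have e3 : (512 * (512 + 1) : ℝ) ≤ 2 ^ (21 : ℝ) := by
      rw [show (21 : ℝ) = ((21 : ℕ) : ℝ) by norm_num, rpow_natCast]; norm_num
    calc (512 * (512 + 1) : ℝ) * 2 ^ (320 : ℝ) ≤ 2 ^ (21 : ℝ) * 2 ^ (320 : ℝ) := by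
          gcongr
      _ = 2 ^ (341 : ℝ) := by rw [← rpow_add (by norm_num)]; norm_num
      _ ≤ 2 ^ ((1024 : ℝ) / 3) := by
          apply rpow_le_rpow_of_exponent_le <;> norm_num

open Nat in
theorem main_inequality' {n : ℕ} (n_large : 512 ≤ n) :
    n * (n + 1) * (2 * n) ^ sqrt (2 * n) * 4 ^ (2 * n / 3) ≤ 4 ^ n := by
  rw [← @cast_le ℝ]
  simp only [cast_mul, cast_pow, ← Real.rpow_natCast, cast_ofNat, cast_add, cast_one]
  refine _root_.trans ?_ (real_main_inequality' (by exact_mod_cast n_large))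
  gcongr
  · have n2_pos : 0 < 2 * n := by positivity
    exact mod_cast n2_pos
  · exact_mod_cast Real.nat_sqrt_le_real_sqrt
  · norm_num1
  · exact cast_div_le.trans (by norm_cast)

open Nat in
theorem centralBinom_le_of_no_prime (n : ℕ) (n_large : 4 < n)
    (no_prime : ∀ p : ℕ, p.Prime → n + 1 < p → 2 * n < p) :
    centralBinom n ≤ (n + 1) * ((2 * n) ^ sqrt (2 * n) * 4 ^ (2 * n / 3)) := by
  have n_pos : 0 < n := by omega
  have n2_pos : 1 ≤ 2 * n := by omega
  let f : ℕ → ℕ := fun x => x ^ n.centralBinom.factorization x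
  let S : Finset ℕ := {p ∈ Finset.range (2 * n / 3 + 1) | Nat.Prime p}
  -- the factorization
  have hfac : centralBinom n = f (n + 1) * ∏ p ∈ Finset.range (2 * n / 3 + 1), f p := by
    have hnot : n + 1 ∉ Finset.range (2 * n / 3 + 1) := by
      rw [Finset.mem_range]; omega
    rw [← Finset.prod_insert hnot]
    refine (Eq.trans ?_ n.prod_pow_factorization_centralBinom).symm
    apply Finset.prod_subset
    · intro x hx
      rw [Finset.mem_insert, Finset.mem_range] at hx
      rw [Finset.mem_range]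
      omega
    intro x hx h2x
    rw [Finset.mem_insert, Finset.mem_range, not_or] at h2x
    rw [Finset.mem_range, Nat.lt_succ_iff] at hx
    obtain ⟨hx1, h2x⟩ := h2x
    have h3x : 2 * n < 3 * x := by omega
    obtain h | h : ¬ x.Prime ∨ x ≤ n + 1 := by
      by_cases hxp : x.Prime
      · right
        by_contra hcon
        have := no_prime x hxp (by omega)
        omega
      · exact Or.inl hxp
    · simp only [f]
      rw [factorization_eq_zero_of_not_prime n.centralBinom h, Nat.pow_zero]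
    · simp only [f]
      rw [factorization_centralBinom_of_two_mul_self_lt_three_mul (by omega) (by omega) h3x,
        Nat.pow_zero]
  have hfirst : f (n + 1) ≤ n + 1 := by
    refine (pow_right_mono₀ (by omega) ?_).trans (pow_one (n + 1)).le
    apply Nat.factorization_choose_le_one
    nlinarith
  have hS : ∏ x ∈ S, f x = ∏ x ∈ Finset.range (2 * n / 3 + 1), f x := by
    refine Finset.prod_filter_of_ne fun p _ h => ?_
    contrapose h; dsimp only [f]
    rw [factorization_eq_zero_of_not_prime n.centralBinom h, _root_.pow_zero]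
  rw [hfac]
  apply Nat.mul_le_mul hfirst
  rw [← hS, ← Finset.prod_filter_mul_prod_filter_not S (· ≤ sqrt (2 * n))]
  apply mul_le_mul'
  · refine (Finset.prod_le_prod' fun p _ => (?_ : f p ≤ 2 * n)).trans ?_
    · exact pow_factorization_choose_le (mul_pos two_pos n_pos)
    have : (Finset.Icc 1 (sqrt (2 * n))).card = sqrt (2 * n) := by rw [card_Icc, Nat.add_sub_cancel]
    rw [Finset.prod_const]
    refine pow_right_mono₀ n2_pos ((Finset.card_le_card fun x hx => ?_).trans this.le)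
    obtain ⟨h1, h2⟩ := Finset.mem_filter.1 hx
    exact Finset.mem_Icc.mpr ⟨(Finset.mem_filter.1 h1).2.one_lt.le, h2⟩
  · refine le_trans ?_ (primorial_le_four_pow (2 * n / 3))
    refine (Finset.prod_le_prod' fun p hp => (?_ : f p ≤ p)).trans ?_
    · obtain ⟨h1, h2⟩ := Finset.mem_filter.1 hp
      refine (pow_right_mono₀ (Finset.mem_filter.1 h1).2.one_lt.le ?_).trans (pow_one p).le
      exact Nat.factorization_choose_le_one (sqrt_lt'.mp <| not_le.1 h2)
    refine Finset.prod_le_prod_of_subset_of_one_le' (Finset.filter_subset _ _) ?_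
    exact fun p hp _ => (Finset.mem_filter.1 hp).2.one_lt.le

theorem exists_prime_eventually (n : ℕ) (n_large : 512 ≤ n) :
    ∃ p : ℕ, p.Prime ∧ n + 1 < p ∧ p ≤ 2 * n := by
  have no_prime : 4 ^ n < n * n.centralBinom :=
    Nat.four_pow_lt_mul_centralBinom n (le_trans (by norm_num1) n_large)
  contrapose! no_prime
  have h1 := centralBinom_le_of_no_prime n (lt_of_lt_of_le (by norm_num1) n_large) no_prime
  calc n * n.centralBinom
      ≤ n * ((n + 1) * ((2 * n) ^ Nat.sqrt (2 * n) * 4 ^ (2 * n / 3))) := Nat.mul_le_mul_left n h1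
    _ = n * (n + 1) * (2 * n) ^ Nat.sqrt (2 * n) * 4 ^ (2 * n / 3) := by ring
    _ ≤ 4 ^ n := main_inequality' n_large

/-- A slight strengthening of Bertrand's postulate. -/
theorem exists_prime_add_one_lt (n : ℕ) (hn : 3 ≤ n) :
    ∃ p : ℕ, p.Prime ∧ n + 1 < p ∧ p ≤ 2 * n := by
  rcases Nat.lt_or_ge n 512 with h | h
  · rcases Nat.lt_or_ge n 4 with h1 | h1
    · exact ⟨5, by norm_num, by omega, by omega⟩
    rcases Nat.lt_or_ge n 6 with h2 | h2
    · exact ⟨7, by norm_num, by omega, by omega⟩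
    rcases Nat.lt_or_ge n 10 with h3 | h3
    · exact ⟨11, by norm_num, by omega, by omega⟩
    rcases Nat.lt_or_ge n 18 with h4 | h4
    · exact ⟨19, by norm_num, by omega, by omega⟩
    rcases Nat.lt_or_ge n 30 with h5 | h5
    · exact ⟨31, by norm_num, by omega, by omega⟩
    rcases Nat.lt_or_ge n 58 with h6 | h6
    · exact ⟨59, by norm_num, by omega, by omega⟩
    rcases Nat.lt_or_ge n 112 with h7 | h7
    · exact ⟨113, by norm_num, by omega, by omega⟩
    rcases Nat.lt_or_ge n 222 with h8 | h8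
    · exact ⟨223, by norm_num, by omega, by omega⟩
    rcases Nat.lt_or_ge n 442 with h9 | h9
    · exact ⟨443, by norm_num, by omega, by omega⟩
    · exact ⟨883, by norm_num, by omega, by omega⟩
  · exact exists_prime_eventually n h

/-- For `n ≥ 7` there is a prime `p` with `n / 2 < p ≤ n - 2`. -/
theorem exists_prime_half (n : ℕ) (hn : 7 ≤ n) : ∃ p : ℕ, p.Prime ∧ n < 2 * p ∧ p + 2 ≤ n := by
  rcases Nat.even_or_odd n with ⟨m, hm⟩ | ⟨m, hm⟩
  · obtain ⟨p, hp, h1, h2⟩ := exists_prime_add_one_lt (m - 1) (by omega)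
    exact ⟨p, hp, by omega, by omega⟩
  · obtain ⟨p, hp, h1, h2⟩ := Nat.exists_prime_lt_and_le_two_mul m (by omega)
    refine ⟨p, hp, by omega, ?_⟩
    have h3 : p ≠ 2 * m := by
      rintro rfl
      have h4 := (Nat.prime_mul_iff.mp hp)
      rcases h4 with ⟨_, h5⟩ | ⟨_, h5⟩
      · omega
      · omega
    omega

end Pool.Agent.Lib.MP_bfe725_co
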