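import Pool.Agent.Lib.MP_bfe725_co.PCP

/-!
# Partial congruence partitions of `H × H` : definitions for the classical groups

(helper93, problem MP_bfe725_co)
-/

set_option autoImplicit false

namespace Pool.Agent.Lib.MP_bfe725_co

/-- `p` is a primitive prime divisor of `q ^ m - 1` (`q` has order `m` modulo `p`) -/
def PPD (p q m : ℕ) : Prop :=
  p.Prime ∧ 0 < m ∧ p ∣ q ^ m - 1 ∧ ∀ k, 0 < k → k < m → ¬ p ∣ q ^ k - 1

/-- the hypotheses of the criterion `Crit.isGreatest` -/
structure Crit (H : Type) [Group H] (p r : ℕ) : Prop where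
  hp : p.Prime
  hr : r.Prime
  hpH : p ∣ Nat.card H
  hrH : r ∣ Nat.card H
  /-- `p`-subgroups are cyclic -/
  cyc : ∀ P : Subgroup H, IsPGroup p P → IsCyclic P
  /-- elements of order `p` normalise no nontrivial `r`-subgroup -/
  norm : ∀ (x : H) (S : Subgroup H), orderOf x = p → IsPGroup r S →
    (∀ s ∈ S, x * s * x⁻¹ ∈ S) → S = ⊥
  /-- a subgroup containing a Sylow `r`-subgroup and an element of order `p` is everything -/
  big : ∀ B : Subgroup H, ¬ r ∣ B.index → p ∣ Nat.card B → B = ⊤

/-- the same for a group with a central subgroup `Z`; it gives `Crit (H ⧸ Z) p r` -/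
structure CritZ (H : Type) [Group H] (Z : Subgroup H) (p r : ℕ) : Prop where
  hp : p.Prime
  hr : r.Prime
  hpH : p ∣ Nat.card H
  hrH : r ∣ Nat.card H
  cyc : ∀ P : Subgroup H, IsPGroup p P → IsCyclic P
  norm : ∀ (x : H) (S : Subgroup H), orderOf x = p → IsPGroup r S →
    (∀ s ∈ S, x * s * x⁻¹ ∈ S) → S = ⊥
  big : ∀ B : Subgroup H, Z ≤ B → ¬ r ∣ B.index → p ∣ Nat.card B → B = ⊤

/-- A group `H` acting faithfully on a space `V` and preserving a (symplectic, hermitian or
symmetric) form `f` and a function `q`; the vectors `v` with `q v = 0` are the singular ones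
(all vectors in the symplectic case, `q v = f v v` in the hermitian case, the quadratic form in
the orthogonal case). -/
structure Polar (F V H : Type) [Field F] [AddCommGroup V] [Module F V] [Group H] where
  ρ : H →* (V →ₗ[F] V)
  inj : Function.Injective ρ
  f : V → V → F
  q : V → F
  f_add_left : ∀ x y z, f (x + y) z = f x z + f y z
  f_smul_left : ∀ (c : F) (x y : V), f (c • x) y = c * f x y
  f_add_right : ∀ x y z, f x (y + z) = f x y + f x z
  f_smul_right : ∀ (c : F) (x y : V), f x y = 0 → f x (c • y) = 0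
  f_symm : ∀ x y, f x y = 0 → f y x = 0
  f_nondeg : ∀ x, (∀ y, f x y = 0) → x = 0
  f_inv : ∀ h x y, f (ρ h x) (ρ h y) = f x y
  q_inv : ∀ h x, q (ρ h x) = q x
  q_add : ∀ x y, f x y = 0 → q x = 0 → q y = 0 → q (x + y) = 0
  q_smul : ∀ (c : F) (x : V), q x = 0 → q (c • x) = 0
  f_self : ∀ x, q x = 0 → f x x = 0

namespace Polar

variable {F V H : Type} [Field F] [AddCommGroup V] [Module F V] [Group H] (P : Polar F V H)

/-- the root group of the singular vector `v`: it fixes `v` and is trivial on `v^⊥ / v` -/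
def root (v : V) : Subgroup H where
  carrier := {h | P.ρ h v = v ∧ ∀ y, P.f y v = 0 → ∃ c : F, P.ρ h y - y = c • v}
  one_mem' := ⟨by simp, fun y _ => ⟨0, by simp⟩⟩
  mul_mem' := by
    rintro a b ⟨ha, ha'⟩ ⟨hb, hb'⟩
    refine ⟨by rw [map_mul, Module.End.mul_apply, hb, ha], fun y hy => ?_⟩
    obtain ⟨c, hc⟩ := hb' y hy
    obtain ⟨d, hd⟩ := ha' y hy
    refine ⟨c + d, ?_⟩
    have h1 : P.ρ b y = y + c • v := by rw [← hc]; abel
    have h2 : P.ρ a y = y + d • v := by rw [← hd]; abel
    rw [map_mul, Module.End.mul_apply, h1, map_add, map_smul, ha, h2, add_smul]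
    abel
  inv_mem' := by
    rintro a ⟨ha, ha'⟩
    have hinv : ∀ z, P.ρ a⁻¹ (P.ρ a z) = z := by
      intro z
      rw [← Module.End.mul_apply, ← map_mul]
      simp
    have hv : P.ρ a⁻¹ v = v := by
      conv_lhs => rw [← ha]
      exact hinv v
    refine ⟨hv, fun y hy => ?_⟩
    obtain ⟨c, hc⟩ := ha' y hy
    refine ⟨-c, ?_⟩
    have h1 : P.ρ a y = y + c • v := by rw [← hc]; abel
    have h2 := hinv y
    rw [h1, map_add, map_smul, hv] at h2
    rw [eq_sub_of_add_eq h2, neg_smul]
    abel

/-- `T` is totally singular -/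
def TotSing (T : Submodule F V) : Prop := (∀ s ∈ T, ∀ t ∈ T, P.f s t = 0) ∧ ∀ t ∈ T, P.q t = 0

/-- `x` leaves no nonzero totally singular subspace invariant -/
def NI (x : H) : Prop :=
  ∀ T : Submodule F V, (∀ t ∈ T, P.ρ x t ∈ T) → P.TotSing T → T = ⊥

/-- the geometric hypotheses -/
structure Geom (Z : Subgroup H) : Prop where
  /-- there is a nonzero singular vector -/
  ex : ∃ v, v ≠ 0 ∧ P.q v = 0
  /-- the root group of `v` permutes transitively the singular points not orthogonal to `v` -/
  trans : ∀ u v w, P.q u = 0 → P.q v = 0 → P.q w = 0 → P.f u v ≠ 0 → P.f w v ≠ 0 →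
    ∃ h ∈ P.root v, ∃ c : F, c ≠ 0 ∧ P.ρ h u = c • w
  /-- two singular points have a common opposite singular point -/
  opp : ∀ v w, v ≠ 0 → w ≠ 0 → P.q v = 0 → P.q w = 0 →
    ∃ u, P.q u = 0 ∧ P.f u v ≠ 0 ∧ P.f u w ≠ 0
  /-- the root groups and `Z` generate `H` -/
  gen : ∀ B : Subgroup H, Z ≤ B → (∀ v, v ≠ 0 → P.q v = 0 → P.root v ≤ B) → B = ⊤

end Polar

/-! ### Forms -/

/-- nondegenerate alternating forms -/
structure Alt (F V : Type) [Field F] [AddCommGroup V] [Module F V] where
  f : V → V → F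
  add_left : ∀ x y z, f (x + y) z = f x z + f y z
  smul_left : ∀ (c : F) (x y : V), f (c • x) y = c * f x y
  self : ∀ x, f x x = 0
  nondeg : ∀ x, (∀ y, f x y = 0) → x = 0
  add_right : ∀ x y z, f x (y + z) = f x y + f x z
  smul_right : ∀ (c : F) (x y : V), f x (c • y) = c * f x y

/-- nondegenerate hermitian forms -/
structure Herm (F V : Type) [Field F] [StarRing F] [AddCommGroup V] [Module F V] where
  f : V → V → F
  add_left : ∀ x y z, f (x + y) z = f x z + f y z
  smul_left : ∀ (c : F) (x y : V), f (c • x) y = c * f x y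
  symm : ∀ x y, f y x = star (f x y)
  nondeg : ∀ x, (∀ y, f x y = 0) → x = 0

/-- the unitary root elements (Eichler-Siegel transformations of a hermitian form) -/
def Herm.IsTau {F V : Type} [Field F] [StarRing F] [AddCommGroup V] [Module F V] (h : Herm F V)
    (g : V → V) (v d : V) (b : F) : Prop :=
  h.f v v = 0 ∧ h.f d v = 0 ∧ b + star b + h.f d d = 0 ∧
    ∀ z, g z = z + h.f z v • d - h.f z d • v + (b * h.f z v) • v

/-- Siegel transformations of a quadratic form -/
def IsSiegel {F V : Type} [Field F] [AddCommGroup V] [Module F V] (Q : QuadraticForm F V)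
    (g : V → V) (v d : V) : Prop :=
  Q v = 0 ∧ QuadraticMap.polar Q d v = 0 ∧
    ∀ z, g z = z + QuadraticMap.polar Q z v • d - QuadraticMap.polar Q z d • v -
      (Q d * QuadraticMap.polar Q z v) • v

/-- the group generated by the Siegel transformations (for a nondegenerate form of dimension at
least `3` with a nonzero singular vector over a finite field this is `Ω(V, Q)`) -/
def EO {F V : Type} [Field F] [AddCommGroup V] [Module F V] (Q : QuadraticForm F V) :
    Subgroup (V ≃ₗ[F] V) :=
  Subgroup.closure {g | ∃ v d, IsSiegel Q g v d}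

end Pool.Agent.Lib.MP_bfe725_co
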