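import Pool.Agent.Lib.MP_bfe725_co.CDefs

/-!
# The criterion `Crit H p r → T(H × H) = 3`

(helper93, problem MP_bfe725_co)
-/

set_option autoImplicit false

namespace Pool.Agent.Lib.MP_bfe725_co

open Subgroup

/-- a `p'`-subgroup normalised by an element of order `p` is an `r'`-group if elements of order `p`
normalise no nontrivial `r`-subgroup (Frattini argument) -/
theorem crit_not_dvd {H : Type} [Group H] [Finite H] {p r : ℕ} (hp : p.Prime) (hr : r.Prime)
    (norm : ∀ (x : H) (S : Subgroup H), orderOf x = p → IsPGroup r S →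
      (∀ s ∈ S, x * s * x⁻¹ ∈ S) → S = ⊥)
    (K : Subgroup H) (hK : ¬ p ∣ Nat.card K) {x : H} (hx : orderOf x = p)
    (hxK : ∀ k ∈ K, x * k * x⁻¹ ∈ K) : ¬ r ∣ Nat.card K := by
  classical
  intro hrK
  have hfp : Fact p.Prime := ⟨hp⟩
  have hfr : Fact r.Prime := ⟨hr⟩
  -- `x` lies in the normaliser of `K`
  have hxN : x ∈ normalizer (K : Set H) := by
    rw [mem_normalizer_iff_map_conj_eq]
    apply Subgroup.eq_of_le_of_card_ge
    · rintro _ ⟨k, hk, rfl⟩
      exact hxK k hk
    · exact le_of_eq (Nat.card_congr (K.equivMapOfInjective (MulAut.conj x).toMonoidHom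
        (MulAut.conj x).injective).toEquiv)
  set M := normalizer (K : Set H) with hM
  set K' := K.subgroupOf M with hK'
  have hKM : K ≤ M := le_normalizer
  have hK'card : Nat.card K' = Nat.card K := Nat.card_congr (subgroupOfEquivOfLe hKM).toEquiv
  have hnorm : K'.Normal := by rw [hK', hM]; exact normal_in_normalizer
  obtain ⟨P⟩ : Nonempty (Sylow r K') := inferInstance
  have hFr := P.normalizer_sup_eq_top
  set N := normalizer ((P : Subgroup K').map K'.subtype : Set M) with hN
  -- `p` divides the order of `N`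
  have hpN : p ∣ Nat.card N := by
    have h1 : K'.index = K'.relIndex N := by
      rw [← relIndex_sup_right N K', hFr, relIndex_top_right]
    have h2 : p ∣ Nat.card M := by
      have := orderOf_dvd_natCard (⟨x, hxN⟩ : M)
      rwa [Subgroup.orderOf_mk, hx] at this
    rw [← K'.card_mul_index] at h2
    have h3 : p ∣ K'.index := by
      rcases hp.dvd_mul.mp h2 with h | h
      · exact absurd (hK'card ▸ h) hK
      · exact h
    rw [h1] at h3
    exact h3.trans (relIndex_dvd_card K' N)
  obtain ⟨y, hy⟩ := exists_prime_orderOf_dvd_card' p hpN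
  have hy' : orderOf ((y : M) : H) = p := by rw [Subgroup.orderOf_coe, Subgroup.orderOf_coe, hy]
  set S : Subgroup H := ((P : Subgroup K').map K'.subtype).map M.subtype with hS
  have hSr : IsPGroup r S := (P.isPGroup'.map K'.subtype).map M.subtype
  have hyS : ∀ s ∈ S, ((y : M) : H) * s * ((y : M) : H)⁻¹ ∈ S := by
    rintro _ ⟨s, hs, rfl⟩
    refine ⟨(y : M) * s * (y : M)⁻¹, ?_, rfl⟩
    have hyN : (y : M) ∈ N := y.2
    exact (mem_set_normalizer_iff.mp hyN s).1 hs
  have hbot := norm _ S hy' hSr hyS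
  rw [hS, Subgroup.map_eq_bot_iff_of_injective _ M.subtype_injective,
    Subgroup.map_eq_bot_iff_of_injective _ K'.subtype_injective] at hbot
  have h1 : r ∣ Nat.card P := P.dvd_card_of_dvd_card (by rw [hK'card]; exact hrK)
  rw [hbot, Subgroup.card_bot] at h1
  exact hr.one_lt.ne' (Nat.dvd_one.mp h1)

section

variable {H : Type} [Group H] [Finite H] {p r : ℕ}

theorem Crit.ne (h : Crit H p r) : r ≠ p := by
  rintro rfl
  have hf : Fact r.Prime := ⟨h.hr⟩
  obtain ⟨x, hx⟩ := exists_prime_orderOf_dvd_card' r h.hpH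
  have h1 : zpowers x = ⊥ := by
    refine h.norm x _ hx ?_ ?_
    · exact IsPGroup.of_card (n := 1) (by rw [Nat.card_zpowers, hx, pow_one])
    · rintro s ⟨k, rfl⟩
      refine ⟨k, ?_⟩
      simp only
      rw [(Commute.refl x).zpow_right k |>.eq]
      group
  rw [zpowers_eq_bot] at h1
  rw [h1, orderOf_one] at hx
  exact h.hr.one_lt.ne hx

/-- in a group with cyclic `p`-subgroups any two subgroups of order `p` are conjugate -/
theorem crit_conj (hp : p.Prime) (hcyc : ∀ P : Subgroup H, IsPGroup p P → IsCyclic P)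
    {x y : H} (hx : orderOf x = p) (hy : orderOf y = p) :
    ∃ g : H, g * x * g⁻¹ ∈ zpowers y := by
  classical
  have hf : Fact p.Prime := ⟨hp⟩
  have hgx : IsPGroup p (zpowers x) := IsPGroup.of_card (n := 1) (by
    rw [Nat.card_zpowers, hx, pow_one])
  have hgy : IsPGroup p (zpowers y) := IsPGroup.of_card (n := 1) (by
    rw [Nat.card_zpowers, hy, pow_one])
  obtain ⟨P, hP⟩ := hgx.exists_le_sylow
  obtain ⟨Q, hQ⟩ := hgy.exists_le_sylow
  obtain ⟨g, hg⟩ := MulAction.exists_smul_eq H P Q
  have hxP : x ∈ P := hP (mem_zpowers x)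
  have hyQ : y ∈ (Q : Subgroup H) := hQ (mem_zpowers y)
  have hxQ : g * x * g⁻¹ ∈ (Q : Subgroup H) := by
    rw [← hg]
    exact Subgroup.smul_mem_pointwise_smul x (MulAut.conj g) (P : Subgroup H) hxP
  refine ⟨g, ?_⟩
  have hcy : IsCyclic (Q : Subgroup H) := hcyc _ Q.isPGroup'
  have : Fintype (Q : Subgroup H) := Fintype.ofFinite _
  have hle := IsCyclic.card_pow_eq_one_le (α := (Q : Subgroup H)) (n := p) hp.pos
  -- the elements of `zpowers y` in `Q`
  set y' : (Q : Subgroup H) := ⟨y, hyQ⟩ with hy'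
  have hoy : orderOf y' = p := (Subgroup.orderOf_mk y hyQ).trans hy
  have hy1 : y' ^ p = 1 := by
    have := pow_orderOf_eq_one y'
    rwa [hoy] at this
  have hsub : (Finset.univ.filter fun a => a ∈ zpowers y') ⊆
      Finset.univ.filter fun a : (Q : Subgroup H) => a ^ p = 1 := by
    intro a ha
    simp only [Finset.mem_filter, Finset.mem_univ, true_and] at ha ⊢
    obtain ⟨k, rfl⟩ := ha
    simp only
    rw [← zpow_natCast, zpow_comm, zpow_natCast, hy1, one_zpow]
  have hcard : (Finset.univ.filter fun a => a ∈ zpowers y').card = p := by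
    have h1 : Nat.card (zpowers y') = p := by rw [Nat.card_zpowers, hoy]
    rw [Nat.card_eq_fintype_card, Fintype.card_subtype] at h1
    exact h1
  have heq := Finset.eq_of_subset_of_card_le hsub (by rw [hcard]; exact hle)
  have hmem : (⟨g * x * g⁻¹, hxQ⟩ : (Q : Subgroup H)) ∈
      Finset.univ.filter fun a : (Q : Subgroup H) => a ^ p = 1 := by
    simp only [Finset.mem_filter, Finset.mem_univ, true_and]
    apply Subtype.ext
    rw [SubmonoidClass.mk_pow]
    show (g * x * g⁻¹) ^ p = 1
    have hx1 : x ^ p = 1 := by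
      have := pow_orderOf_eq_one x
      rwa [hx] at this
    rw [conj_pow, hx1]
    group
  rw [← heq] at hmem
  simp only [Finset.mem_filter, Finset.mem_univ, true_and] at hmem
  obtain ⟨k, hk⟩ := hmem
  exact ⟨k, congrArg Subtype.val hk⟩

/-- no automorphism is fixed point free -/
theorem Crit.exists_fixed (h : Crit H p r) (α : H ≃* H) (hα : ∀ x, α x = x → x = 1) : False := by
  classical
  have hf : Fact p.Prime := ⟨h.hp⟩
  -- `x ↦ x⁻¹ α(x)` is injective on every subset
  have hinj : ∀ x y : H, x⁻¹ * α x = y⁻¹ * α y → x = y := by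
    intro x y hxy
    have h1 : α (x * y⁻¹) = x * y⁻¹ := by
      rw [map_mul, map_inv]
      have : α x = x * (y⁻¹ * α y) := by rw [← hxy]; group
      rw [this]
      group
    exact mul_inv_eq_one.mp (hα _ h1)
  have hsurj : ∀ u : H, ∃ x : H, x⁻¹ * α x = u :=
    (Finite.injective_iff_surjective (f := fun x : H => x⁻¹ * α x)).mp hinj
  -- an invariant Sylow `p`-subgroup
  obtain ⟨P₀⟩ : Nonempty (Sylow p H) := inferInstance
  obtain ⟨g, hg⟩ := MulAction.exists_smul_eq H P₀ ((α : MulAut H) • P₀)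
  obtain ⟨k, hk⟩ := hsurj g⁻¹
  have hk' : α k = k * g⁻¹ := by rw [← hk]; group
  set P : Sylow p H := k • P₀ with hP
  have memP : ∀ y : H, y ∈ (P : Subgroup H) ↔ k⁻¹ * y * k ∈ (P₀ : Subgroup H) := by
    intro y
    rw [hP, Sylow.coe_subgroup_smul, Subgroup.mem_pointwise_smul_iff_inv_smul_mem]
    simp [MulAut.smul_def]
  have hαP : ∀ y ∈ (P : Subgroup H), α y ∈ (P : Subgroup H) := by
    intro y hy
    rw [memP] at hy ⊢
    -- `α (k⁻¹ y k) ∈ g • P₀`
    have h1 : α (k⁻¹ * y * k) ∈ ((g • P₀ : Sylow p H) : Subgroup H) := by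
      rw [hg]
      exact Subgroup.smul_mem_pointwise_smul _ (α : MulAut H) (P₀ : Subgroup H) hy
    rw [Sylow.coe_subgroup_smul, Subgroup.mem_pointwise_smul_iff_inv_smul_mem] at h1
    have h2 : (MulAut.conj g)⁻¹ • α (k⁻¹ * y * k) = k⁻¹ * α y * k := by
      rw [← map_inv, MulAut.smul_def, MulAut.conj_apply, map_mul, map_mul, map_inv, hk']
      group
    rwa [h2] at h1
  -- `α` is onto on `P`
  have hαP' : ∀ y ∈ (P : Subgroup H), ∃ z ∈ (P : Subgroup H), α z = y := by
    intro y hy
    have h1 : Function.Injective (fun z : (P : Subgroup H) => (⟨α z, hαP z z.2⟩ : (P : Subgroup H))) := by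
      intro a b hab
      exact Subtype.ext (α.injective (congrArg Subtype.val hab))
    obtain ⟨z, hz⟩ := (Finite.injective_iff_surjective.mp h1) ⟨y, hy⟩
    exact ⟨z, z.2, congrArg Subtype.val hz⟩
  obtain ⟨c, hc⟩ := (h.cyc _ P.isPGroup').exists_generator
  -- elements of the normaliser act as powers
  have hpow : ∀ n ∈ normalizer ((P : Subgroup H) : Set H), ∃ j : ℤ,
      ∀ y ∈ (P : Subgroup H), n * y * n⁻¹ = y ^ j := by
    intro n hn
    have h1 : n * c * n⁻¹ ∈ (P : Subgroup H) := (mem_normalizer_iff.mp hn _).mp c.2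
    obtain ⟨j, hj⟩ := hc ⟨_, h1⟩
    have hj' : (c : H) ^ j = n * c * n⁻¹ := congrArg Subtype.val hj
    refine ⟨j, fun y hy => ?_⟩
    obtain ⟨l, hl⟩ := hc ⟨y, hy⟩
    have hl' : (c : H) ^ l = y := congrArg Subtype.val hl
    rw [← hl', ← conj_zpow, ← hj', ← zpow_mul, ← zpow_mul, mul_comm]
  -- the normaliser centralises `P`
  have hNC : normalizer ((P : Subgroup H) : Set H) ≤ centralizer ((P : Subgroup H) : Set H) := by
    intro n hn
    obtain ⟨j, hj⟩ := hpow n hn
    -- `u = n⁻¹ α(n)` centralises `P`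
    have hu : n⁻¹ * α n ∈ centralizer ((P : Subgroup H) : Set H) := by
      rw [mem_centralizer_iff]
      intro y hy
      obtain ⟨z, hz, rfl⟩ := hαP' y hy
      have h1 : α n * α z * (α n)⁻¹ = (α z) ^ j := by
        rw [← map_mul, ← map_inv, ← map_mul, hj z hz, map_zpow]
      have h2 := hj (α z) hy
      have h3 : α n * α z * (α n)⁻¹ = n * α z * n⁻¹ := by rw [h1, h2]
      calc α z * (n⁻¹ * α n) = n⁻¹ * (n * α z * n⁻¹) * α n := by group
        _ = n⁻¹ * (α n * α z * (α n)⁻¹) * α n := by rw [h3]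
        _ = n⁻¹ * α n * α z := by group
    -- `α` preserves the centraliser
    have hαC : ∀ d ∈ centralizer ((P : Subgroup H) : Set H),
        α d ∈ centralizer ((P : Subgroup H) : Set H) := by
      intro d hd
      rw [mem_centralizer_iff] at hd ⊢
      intro y hy
      obtain ⟨z, hz, rfl⟩ := hαP' y hy
      rw [← map_mul, ← map_mul, hd z hz]
    have h1 : Function.Injective (fun d : centralizer ((P : Subgroup H) : Set H) =>
        (⟨(d : H)⁻¹ * α d, mul_mem (inv_mem d.2) (hαC d d.2)⟩ :
          centralizer ((P : Subgroup H) : Set H))) := by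
      intro a b hab
      exact Subtype.ext (hinj _ _ (congrArg Subtype.val hab))
    obtain ⟨d, hd⟩ := (Finite.injective_iff_surjective.mp h1) ⟨_, hu⟩
    have hd' : (d : H)⁻¹ * α d = n⁻¹ * α n := congrArg Subtype.val hd
    rw [hinj _ _ hd'.symm]
    exact d.2
  -- Burnside
  have hcomp := MonoidHom.ker_transferSylow_isComplement' P hNC
  have hnd := MonoidHom.not_dvd_card_ker_transferSylow P hNC
  obtain ⟨x, hx⟩ := exists_prime_orderOf_dvd_card' p h.hpH
  have h1 := crit_not_dvd h.hp h.hr h.norm _ hnd hx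
    (fun k hk => (MonoidHom.transferSylow P hNC).normal_ker.conj_mem k hk x)
  have h2 := hcomp.card_mul_card
  have h3 : r ∣ Nat.card (MonoidHom.transferSylow P hNC).ker * Nat.card (P : Subgroup H) := by
    rw [h2]; exact h.hrH
  rcases h.hr.dvd_mul.mp h3 with h4 | h4
  · exact h1 h4
  · obtain ⟨n, hn⟩ := (IsPGroup.iff_card.mp P.isPGroup')
    rw [hn] at h4
    exact h.ne ((Nat.prime_dvd_prime_iff_eq h.hr h.hp).mp (h.hr.dvd_of_dvd_pow h4))

omit [Finite H] in
/-- order of a subgroup of `H × H` through a projection -/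
theorem crit_card_snd (U : Subgroup (H × H)) :
    Nat.card (U.map (MonoidHom.snd H H)) * Nat.card (U.comap (MonoidHom.inl H H)) =
      Nat.card U := by
  set f := (MonoidHom.snd H H).comp U.subtype with hf
  have h1 : f.ker.index = Nat.card f.range := Subgroup.index_ker f
  have h2 : f.range = U.map (MonoidHom.snd H H) := by
    rw [hf, MonoidHom.range_comp, Subgroup.range_subtype]
  have h3 : Nat.card f.ker = Nat.card (U.comap (MonoidHom.inl H H)) := by
    apply Nat.card_congr
    refine ⟨fun u => ⟨(u : U).1.1, ?_⟩, fun k => ⟨⟨(k, 1), ?_⟩, ?_⟩, ?_, ?_⟩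
    · have : ((u : U).1).2 = 1 := u.2
      show ((u : U).1.1, (1 : H)) ∈ U
      rw [← this]
      exact (u : U).2
    · exact k.2
    · rfl
    · intro u
      apply Subtype.ext
      apply Subtype.ext
      have : ((u : U).1).2 = 1 := u.2
      exact Prod.ext rfl this.symm
    · intro k
      rfl
  rw [← h2, ← h1, ← h3, mul_comm, Subgroup.card_mul_index]

omit [Finite H] in
theorem crit_card_fst (U : Subgroup (H × H)) :
    Nat.card (U.map (MonoidHom.fst H H)) * Nat.card (U.comap (MonoidHom.inr H H)) =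
      Nat.card U := by
  set f := (MonoidHom.fst H H).comp U.subtype with hf
  have h1 : f.ker.index = Nat.card f.range := Subgroup.index_ker f
  have h2 : f.range = U.map (MonoidHom.fst H H) := by
    rw [hf, MonoidHom.range_comp, Subgroup.range_subtype]
  have h3 : Nat.card f.ker = Nat.card (U.comap (MonoidHom.inr H H)) := by
    apply Nat.card_congr
    refine ⟨fun u => ⟨(u : U).1.2, ?_⟩, fun k => ⟨⟨(1, k), ?_⟩, ?_⟩, ?_, ?_⟩
    · have : ((u : U).1).1 = 1 := u.2
      show ((1 : H), (u : U).1.2) ∈ U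
      rw [← this]
      exact (u : U).2
    · exact k.2
    · rfl
    · intro u
      apply Subtype.ext
      apply Subtype.ext
      have : ((u : U).1).1 = 1 := u.2
      exact Prod.ext this.symm rfl
    · intro k
      rfl
  rw [← h2, ← h1, ← h3, mul_comm, Subgroup.card_mul_index]

/-- if both kernels are trivial, a subgroup of order `|H|` is the graph of an automorphism -/
theorem crit_graph (U : Subgroup (H × H)) (hU : Nat.card U = Nat.card H)
    (hK : U.comap (MonoidHom.inl H H) = ⊥) (hL : U.comap (MonoidHom.inr H H) = ⊥) :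
    ∃ φ : H ≃* H, ∀ h, (h, φ h) ∈ U := by
  have b1 : Function.Bijective ((MonoidHom.fst H H).comp U.subtype) := by
    refine (Nat.bijective_iff_injective_and_card _).mpr ⟨?_, hU⟩
    rw [injective_iff_map_eq_one]
    intro u hu
    have hu1 : (u : H × H).1 = 1 := hu
    have hu2 : (u : H × H).2 ∈ U.comap (MonoidHom.inr H H) := by
      show ((1 : H), (u : H × H).2) ∈ U
      rw [← hu1]; exact u.2
    rw [hL, Subgroup.mem_bot] at hu2
    exact Subtype.ext (Prod.ext hu1 hu2)
  have b2 : Function.Bijective ((MonoidHom.snd H H).comp U.subtype) := by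
    refine (Nat.bijective_iff_injective_and_card _).mpr ⟨?_, hU⟩
    rw [injective_iff_map_eq_one]
    intro u hu
    have hu1 : (u : H × H).2 = 1 := hu
    have hu2 : (u : H × H).1 ∈ U.comap (MonoidHom.inl H H) := by
      show ((u : H × H).1, (1 : H)) ∈ U
      rw [← hu1]; exact u.2
    rw [hK, Subgroup.mem_bot] at hu2
    exact Subtype.ext (Prod.ext hu2 hu1)
  refine ⟨(MulEquiv.ofBijective _ b1).symm.trans (MulEquiv.ofBijective _ b2), fun h => ?_⟩
  set u := (MulEquiv.ofBijective _ b1).symm h with hu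
  have h1 : (u : H × H).1 = h := (MulEquiv.ofBijective _ b1).apply_symm_apply h
  have h2 : ((MulEquiv.ofBijective _ b1).symm.trans (MulEquiv.ofBijective _ b2)) h =
    (u : H × H).2 := rfl
  rw [h2]
  have h3 : (h, (u : H × H).2) = (u : H × H) := Prod.ext h1.symm rfl
  rw [h3]
  exact u.2

/-- a component without elements of order `p` having a trivial coordinate is the graph of an
automorphism -/
theorem Crit.graph (h : Crit H p r) (U : Subgroup (H × H)) (hU : Nat.card U = Nat.card H)
    (h1 : ∀ z ∈ U, orderOf z = p → z.1 ≠ 1) (h2 : ∀ z ∈ U, orderOf z = p → z.2 ≠ 1) :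
    ∃ φ : H ≃* H, ∀ h, (h, φ h) ∈ U := by
  have hf : Fact p.Prime := ⟨h.hp⟩
  have hK : ¬ p ∣ Nat.card (U.comap (MonoidHom.inl H H)) := by
    intro hd
    obtain ⟨x, hx⟩ := exists_prime_orderOf_dvd_card' p hd
    refine h2 (MonoidHom.inl H H x) x.2 ?_ rfl
    rw [orderOf_injective (MonoidHom.inl H H) (fun a b hab => congrArg Prod.fst hab),
      Subgroup.orderOf_coe, hx]
  have hL : ¬ p ∣ Nat.card (U.comap (MonoidHom.inr H H)) := by
    intro hd
    obtain ⟨x, hx⟩ := exists_prime_orderOf_dvd_card' p hd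
    refine h1 (MonoidHom.inr H H x) x.2 ?_ rfl
    rw [orderOf_injective (MonoidHom.inr H H) (fun a b hab => congrArg Prod.snd hab),
      Subgroup.orderOf_coe, hx]
  obtain ⟨z, hz⟩ := exists_prime_orderOf_dvd_card' p (show p ∣ Nat.card U by
    rw [hU]; exact h.hpH)
  have hz' : orderOf (z : H × H) = p := by rw [Subgroup.orderOf_coe, hz]
  have hpow : (z : H × H) ^ p = 1 := by rw [← hz']; exact pow_orderOf_eq_one _
  have hx : orderOf (z : H × H).1 = p :=
    orderOf_eq_prime (congrArg Prod.fst hpow) (h1 _ z.2 hz')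
  have hy : orderOf (z : H × H).2 = p :=
    orderOf_eq_prime (congrArg Prod.snd hpow) (h2 _ z.2 hz')
  have hKr : ¬ r ∣ Nat.card (U.comap (MonoidHom.inl H H)) := by
    refine crit_not_dvd h.hp h.hr h.norm _ hK hx (fun k hk => ?_)
    show ((z : H × H).1 * k * ((z : H × H).1)⁻¹, (1 : H)) ∈ U
    have : (z : H × H) * (k, 1) * (z : H × H)⁻¹ ∈ U :=
      U.mul_mem (U.mul_mem z.2 hk) (U.inv_mem z.2)
    have he : (z : H × H) * (k, 1) * (z : H × H)⁻¹ =
        ((z : H × H).1 * k * ((z : H × H).1)⁻¹, (1 : H)) := by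
      apply Prod.ext
      · rfl
      · show (z : H × H).2 * 1 * ((z : H × H).2)⁻¹ = 1
        group
    rwa [he] at this
  have hLr : ¬ r ∣ Nat.card (U.comap (MonoidHom.inr H H)) := by
    refine crit_not_dvd h.hp h.hr h.norm _ hL hy (fun k hk => ?_)
    show ((1 : H), (z : H × H).2 * k * ((z : H × H).2)⁻¹) ∈ U
    have : (z : H × H) * (1, k) * (z : H × H)⁻¹ ∈ U :=
      U.mul_mem (U.mul_mem z.2 hk) (U.inv_mem z.2)
    have he : (z : H × H) * (1, k) * (z : H × H)⁻¹ =
        ((1 : H), (z : H × H).2 * k * ((z : H × H).2)⁻¹) := by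
      apply Prod.ext
      · show (z : H × H).1 * 1 * ((z : H × H).1)⁻¹ = 1
        group
      · rfl
    rwa [he] at this
  have hB : U.map (MonoidHom.snd H H) = ⊤ := by
    apply h.big
    · have e1 := crit_card_snd U
      have e2 := (U.map (MonoidHom.snd H H)).card_mul_index
      rw [hU, ← e2] at e1
      have e3 := Nat.eq_of_mul_eq_mul_left Nat.card_pos e1
      rw [← e3]; exact hKr
    · have e := orderOf_dvd_natCard (⟨(z : H × H).2, ⟨z, z.2, rfl⟩⟩ : U.map (MonoidHom.snd H H))
      rw [← Subgroup.orderOf_coe] at e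
      rw [← hy]
      exact e
  have hA : U.map (MonoidHom.fst H H) = ⊤ := by
    apply h.big
    · have e1 := crit_card_fst U
      have e2 := (U.map (MonoidHom.fst H H)).card_mul_index
      rw [hU, ← e2] at e1
      have e3 := Nat.eq_of_mul_eq_mul_left Nat.card_pos e1
      rw [← e3]; exact hLr
    · have e := orderOf_dvd_natCard (⟨(z : H × H).1, ⟨z, z.2, rfl⟩⟩ : U.map (MonoidHom.fst H H))
      rw [← Subgroup.orderOf_coe] at e
      rw [← hx]
      exact e
  have hK1 : U.comap (MonoidHom.inl H H) = ⊥ := by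
    have e1 := crit_card_snd U
    rw [hB, hU, Subgroup.card_top] at e1
    rw [← Subgroup.card_eq_one]
    exact Nat.eq_of_mul_eq_mul_left Nat.card_pos (by rw [e1, mul_one])
  have hL1 : U.comap (MonoidHom.inr H H) = ⊥ := by
    have e1 := crit_card_fst U
    rw [hA, hU, Subgroup.card_top] at e1
    rw [← Subgroup.card_eq_one]
    exact Nat.eq_of_mul_eq_mul_left Nat.card_pos (by rw [e1, mul_one])
  exact crit_graph U hU hK1 hL1

/-- the degree is at most three -/
theorem Crit.le_three (h : Crit H p r) {k : ℕ} (hk : k ∈ pcpDegrees (H × H)) : k ≤ 3 := by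
  classical
  obtain ⟨s, hs, U, hG, hU, hint⟩ := hk
  have hsH : s = Nat.card H := by
    rw [Nat.card_prod, ← sq] at hG
    exact (Nat.pow_left_injective (n := 2) (by norm_num) hG).symm
  have hf : Fact p.Prime := ⟨h.hp⟩
  have hcard : ∀ i j, Nat.card (U i) * Nat.card (U j) = Nat.card (H × H) := by
    intro i j
    rw [hU i, hU j, hG, sq]
  -- types
  let T1 : Fin k → Prop := fun i => ∃ z ∈ U i, orderOf z = p ∧ z.2 = 1
  let T2 : Fin k → Prop := fun i => ∃ z ∈ U i, orderOf z = p ∧ z.1 = 1
  let t : Fin k → Fin 3 := fun i => if T1 i then 0 else if T2 i then 1 else 2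
  have horder : ∀ z : H × H, orderOf z = p → z.2 = 1 → orderOf z.1 = p := by
    intro z hz hz2
    have hpow : z ^ p = 1 := by rw [← hz]; exact pow_orderOf_eq_one _
    refine orderOf_eq_prime (congrArg Prod.fst hpow) (fun h1 => ?_)
    have : z = 1 := Prod.ext h1 hz2
    rw [this, orderOf_one] at hz
    exact h.hp.one_lt.ne hz
  have horder' : ∀ z : H × H, orderOf z = p → z.1 = 1 → orderOf z.2 = p := by
    intro z hz hz2
    have hpow : z ^ p = 1 := by rw [← hz]; exact pow_orderOf_eq_one _
    refine orderOf_eq_prime (congrArg Prod.snd hpow) (fun h1 => ?_)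
    have : z = 1 := Prod.ext hz2 h1
    rw [this, orderOf_one] at hz
    exact h.hp.one_lt.ne hz
  have hinj : Function.Injective t := by
    intro i j hij
    by_contra hne
    by_cases hi : T1 i
    · have hj : T1 j := by
        by_contra hj
        have e1 : t i = 0 := if_pos hi
        have e2 : t j ≠ 0 := by
          simp only [t, if_neg hj]
          split_ifs <;> decide
        exact e2 (by rw [← hij, e1])
      obtain ⟨z, hz, hzp, hz2⟩ := hi
      obtain ⟨w, hw, hwp, hw2⟩ := hj
      obtain ⟨g, c, hc⟩ := crit_conj h.hp h.cyc (horder z hzp hz2) (horder w hwp hw2)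
      have h1 : z = 1 := by
        refine no_common_conj (A := U i) (B := U j) (g := (g, 1)) (hcard i j) (hint i j hne) hz
          ((U j).zpow_mem hw c) ?_
        apply Prod.ext
        · exact hc.symm
        · show 1 * z.2 * 1⁻¹ = w.2 ^ c
          rw [hz2, hw2]; simp
      rw [h1, orderOf_one] at hzp
      exact h.hp.one_lt.ne hzp
    by_cases hj : T1 j
    · have e1 : t j = 0 := if_pos hj
      have e2 : t i ≠ 0 := by
        simp only [t, if_neg hi]
        split_ifs <;> decide
      exact e2 (by rw [hij, e1])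
    by_cases hi2 : T2 i
    · have hj2 : T2 j := by
        by_contra hj2
        have e1 : t i = 1 := by simp only [t, if_neg hi, if_pos hi2]
        have e2 : t j = 2 := by simp only [t, if_neg hj, if_neg hj2]
        rw [hij, e2] at e1
        exact absurd e1 (by decide)
      obtain ⟨z, hz, hzp, hz2⟩ := hi2
      obtain ⟨w, hw, hwp, hw2⟩ := hj2
      obtain ⟨g, c, hc⟩ := crit_conj h.hp h.cyc (horder' z hzp hz2) (horder' w hwp hw2)
      have h1 : z = 1 := by
        refine no_common_conj (A := U i) (B := U j) (g := (1, g)) (hcard i j) (hint i j hne) hz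
          ((U j).zpow_mem hw c) ?_
        apply Prod.ext
        · show 1 * z.1 * 1⁻¹ = w.1 ^ c
          rw [hz2, hw2]; simp
        · exact hc.symm
      rw [h1, orderOf_one] at hzp
      exact h.hp.one_lt.ne hzp
    by_cases hj2 : T2 j
    · have e1 : t j = 1 := by simp only [t, if_neg hj, if_pos hj2]
      have e2 : t i = 2 := by simp only [t, if_neg hi, if_neg hi2]
      rw [← hij, e2] at e1
      exact absurd e1 (by decide)
    -- two graphs
    obtain ⟨φ, hφ⟩ := h.graph (U i) (by rw [hU i, hsH])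
      (fun z hz hzp h1 => hi2 ⟨z, hz, hzp, h1⟩) (fun z hz hzp h1 => hi ⟨z, hz, hzp, h1⟩)
    obtain ⟨ψ, hψ⟩ := h.graph (U j) (by rw [hU j, hsH])
      (fun z hz hzp h1 => hj2 ⟨z, hz, hzp, h1⟩) (fun z hz hzp h1 => hj ⟨z, hz, hzp, h1⟩)
    refine h.exists_fixed (φ.trans ψ.symm) (fun x hx => ?_)
    have h1 : φ x = ψ x := by
      rw [MulEquiv.trans_apply, MulEquiv.symm_apply_eq] at hx
      exact hx
    have h2 : (x, φ x) ∈ U i ⊓ U j := ⟨hφ x, by rw [h1]; exact hψ x⟩
    rw [hint i j hne, Subgroup.mem_bot] at h2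
    exact congrArg Prod.fst h2
  have := Fintype.card_le_of_injective t hinj
  simpa using this

/-- **Criterion.** -/
theorem Crit.isGreatest (h : Crit H p r) : IsGreatest (pcpDegrees (H × H)) 3 := by
  have hnt : Nontrivial H := by
    rw [← Finite.one_lt_card_iff_nontrivial]
    exact lt_of_lt_of_le h.hp.one_lt (Nat.le_of_dvd Nat.card_pos h.hpH)
  exact ⟨three_mem, fun k hk => h.le_three hk⟩

end

end Pool.Agent.Lib.MP_bfe725_co
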