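import Pool.Agent.Lib.MP_bfe725_co.Crit

/-!
# A general criterion for `T(H × H) = 3`

(helper93, problem MP_bfe725_co)
-/

set_option autoImplicit false

namespace Pool.Agent.Lib.MP_bfe725_co

open Subgroup

/-- hypotheses of the general criterion -/
structure CritG (H : Type) [Group H] (p : ℕ) : Prop where
  hp : p.Prime
  hpH : p ∣ Nat.card H
  /-- the subgroups of order `p` are conjugate -/
  conj : ∀ x y : H, orderOf x = p → orderOf y = p → ∃ g : H, g * x * g⁻¹ ∈ zpowers y
  /-- some element of order `p` is conjugate to another power of itself -/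
  rat : ∃ x g : H, ∃ j : ℕ, orderOf x = p ∧ g * x * g⁻¹ = x ^ j ∧ x ^ j ≠ x
  /-- no nontrivial factorisation of the order -/
  pair : ∀ (K B : Subgroup H) (x : H), orderOf x = p → (∀ k ∈ K, x * k * x⁻¹ ∈ K) →
    ¬ p ∣ Nat.card K → p ∣ Nat.card B → Nat.card K * Nat.card B = Nat.card H → K = ⊥

section

variable {H : Type} [Group H] [Finite H] {p : ℕ}

/-- no automorphism is fixed point free -/
theorem CritG.exists_fixed (h : CritG H p) (α : H ≃* H) (hα : ∀ x, α x = x → x = 1) : False := by
  classical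
  have hf : Fact p.Prime := ⟨h.hp⟩
  have hinj : ∀ x y : H, x⁻¹ * α x = y⁻¹ * α y → x = y := by
    intro x y hxy
    have h1 : α (x * y⁻¹) = x * y⁻¹ := by
      rw [map_mul, map_inv]
      have : α x = x * (y⁻¹ * α y) := by rw [← hxy]; group
      rw [this]
      group
    exact mul_inv_eq_one.mp (hα _ h1)
  have hsurj : ∀ u : H, ∃ x : H, x⁻¹ * α x = u :=
    (Finite.injective_iff_surjective (f := fun x : H => x⁻¹ * α x)).mp hinj
  obtain ⟨x, g, j, hx, hgx, hj⟩ := h.rat
  -- an invariant subgroup of order `p`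
  have hαx : orderOf (α x) = p := by
    rw [← hx]; exact orderOf_injective α.toMonoidHom α.injective x
  obtain ⟨a, ha⟩ := h.conj (α x) x hαx hx
  obtain ⟨i, hi⟩ := ha
  have hi' : x ^ i = a * α x * a⁻¹ := hi
  obtain ⟨k, hk⟩ := hsurj a
  have hk' : α k = k * a := by rw [← hk]; group
  set y := k * x * k⁻¹ with hy
  have hy1 : orderOf y = p := by
    rw [hy, ← hx]
    exact orderOf_injective (MulAut.conj k).toMonoidHom (MulAut.conj k).injective x
  have hαy : α y = y ^ i := by
    rw [hy, map_mul, map_mul, map_inv, hk', conj_zpow, hi']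
    group
  set n := k * g * k⁻¹ with hn
  have hny : n * y * n⁻¹ = y ^ j := by
    rw [hn, hy, conj_pow, ← hgx]
    group
  have hyj : y ^ j ≠ y := by
    intro e
    apply hj
    rw [hy, conj_pow] at e
    have := congrArg (fun z => k⁻¹ * z * k) e
    simpa [mul_assoc] using this
  -- `y` is a power of `y ^ i`
  obtain ⟨l, hl⟩ : ∃ l : ℤ, (y ^ i) ^ l = y := by
    have h1 : orderOf (y ^ i) = p := by
      rw [← hαy, ← hy1]; exact orderOf_injective α.toMonoidHom α.injective y
    have h2 : zpowers (y ^ i) = zpowers y := by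
      apply Subgroup.eq_of_le_of_card_ge
      · rw [zpowers_le]; exact zpow_mem (mem_zpowers y) i
      · rw [Nat.card_zpowers, Nat.card_zpowers, h1, hy1]
    have h3 : y ∈ zpowers (y ^ i) := by rw [h2]; exact mem_zpowers y
    exact h3
  -- `n⁻¹ α(n)` centralises `y`
  have hu : n⁻¹ * α n ∈ centralizer ({y} : Set H) := by
    rw [mem_centralizer_singleton_iff]
    have h1 : α n * y ^ i * (α n)⁻¹ = (y ^ i) ^ j := by
      rw [← hαy, ← map_inv, ← map_mul, ← map_mul, hny, map_pow]
    have h2 : α n * y * (α n)⁻¹ = y ^ j := by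
      have e1 : (α n * y ^ i * (α n)⁻¹) ^ l = ((y ^ i) ^ j) ^ l := by rw [h1]
      rw [conj_zpow, hl] at e1
      rw [e1, ← zpow_natCast, ← zpow_natCast, zpow_comm, hl]
    have h3 : α n * y * (α n)⁻¹ = n * y * n⁻¹ := by rw [h2, hny]
    calc n⁻¹ * α n * y = n⁻¹ * (α n * y * (α n)⁻¹) * α n := by group
      _ = n⁻¹ * (n * y * n⁻¹) * α n := by rw [h3]
      _ = y * (n⁻¹ * α n) := by group
  have hαC : ∀ d ∈ centralizer ({y} : Set H), α d ∈ centralizer ({y} : Set H) := by
    intro d hd
    rw [mem_centralizer_singleton_iff] at hd ⊢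
    have h1 : α d * y ^ i = y ^ i * α d := by
      rw [← hαy, ← map_mul, ← map_mul, hd]
    have h2 : Commute (α d) ((y ^ i) ^ l) := Commute.zpow_right h1 l
    rw [hl] at h2
    exact h2
  have h1 : Function.Injective (fun d : centralizer ({y} : Set H) =>
      (⟨(d : H)⁻¹ * α d, mul_mem (inv_mem d.2) (hαC d d.2)⟩ : centralizer ({y} : Set H))) := by
    intro a b hab
    exact Subtype.ext (hinj _ _ (congrArg Subtype.val hab))
  obtain ⟨d, hd⟩ := (Finite.injective_iff_surjective.mp h1) ⟨_, hu⟩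
  have hd' : (d : H)⁻¹ * α d = n⁻¹ * α n := congrArg Subtype.val hd
  have hnC : n ∈ centralizer ({y} : Set H) := by
    rw [hinj _ _ hd'.symm]; exact d.2
  rw [mem_centralizer_singleton_iff] at hnC
  apply hyj
  rw [← hny, hnC]
  group

/-- a component without elements of order `p` having a trivial coordinate is the graph of an
automorphism -/
theorem CritG.graph (h : CritG H p) (U : Subgroup (H × H)) (hU : Nat.card U = Nat.card H)
    (h1 : ∀ z ∈ U, orderOf z = p → z.1 ≠ 1) (h2 : ∀ z ∈ U, orderOf z = p → z.2 ≠ 1) :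
    ∃ φ : H ≃* H, ∀ h, (h, φ h) ∈ U := by
  have hf : Fact p.Prime := ⟨h.hp⟩
  have hK : ¬ p ∣ Nat.card (U.comap (MonoidHom.inl H H)) := by
    intro hd
    obtain ⟨x, hx⟩ := exists_prime_orderOf_dvd_card' p hd
    refine h2 (MonoidHom.inl H H x) x.2 ?_ rfl
    rw [orderOf_injective (MonoidHom.inl H H) (fun a b hab => congrArg Prod.fst hab),
      Subgroup.orderOf_coe, hx]
  have hL : ¬ p ∣ Nat.card (U.comap (MonoidHom.inr H H)) := by
    intro hd
    obtain ⟨x, hx⟩ := exists_prime_orderOf_dvd_card' p hd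
    refine h1 (MonoidHom.inr H H x) x.2 ?_ rfl
    rw [orderOf_injective (MonoidHom.inr H H) (fun a b hab => congrArg Prod.snd hab),
      Subgroup.orderOf_coe, hx]
  obtain ⟨z, hz⟩ := exists_prime_orderOf_dvd_card' p (show p ∣ Nat.card U by
    rw [hU]; exact h.hpH)
  have hz' : orderOf (z : H × H) = p := by rw [Subgroup.orderOf_coe, hz]
  have hpow : (z : H × H) ^ p = 1 := by rw [← hz']; exact pow_orderOf_eq_one _
  have hx : orderOf (z : H × H).1 = p :=
    orderOf_eq_prime (congrArg Prod.fst hpow) (h1 _ z.2 hz')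
  have hy : orderOf (z : H × H).2 = p :=
    orderOf_eq_prime (congrArg Prod.snd hpow) (h2 _ z.2 hz')
  have hpB : p ∣ Nat.card (U.map (MonoidHom.snd H H)) := by
    have e := orderOf_dvd_natCard (⟨(z : H × H).2, ⟨z, z.2, rfl⟩⟩ : U.map (MonoidHom.snd H H))
    rw [← Subgroup.orderOf_coe] at e
    rw [← hy]
    exact e
  have hpA : p ∣ Nat.card (U.map (MonoidHom.fst H H)) := by
    have e := orderOf_dvd_natCard (⟨(z : H × H).1, ⟨z, z.2, rfl⟩⟩ : U.map (MonoidHom.fst H H))
    rw [← Subgroup.orderOf_coe] at e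
    rw [← hx]
    exact e
  have hK1 : U.comap (MonoidHom.inl H H) = ⊥ := by
    refine h.pair _ (U.map (MonoidHom.snd H H)) _ hx (fun k hk => ?_) hK hpB
      (by rw [mul_comm, crit_card_snd, hU])
    show ((z : H × H).1 * k * ((z : H × H).1)⁻¹, (1 : H)) ∈ U
    have : (z : H × H) * (k, 1) * (z : H × H)⁻¹ ∈ U :=
      U.mul_mem (U.mul_mem z.2 hk) (U.inv_mem z.2)
    have he : (z : H × H) * (k, 1) * (z : H × H)⁻¹ =
        ((z : H × H).1 * k * ((z : H × H).1)⁻¹, (1 : H)) := by
      apply Prod.ext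
      · rfl
      · show (z : H × H).2 * 1 * ((z : H × H).2)⁻¹ = 1
        group
    rwa [he] at this
  have hL1 : U.comap (MonoidHom.inr H H) = ⊥ := by
    refine h.pair _ (U.map (MonoidHom.fst H H)) _ hy (fun k hk => ?_) hL hpA
      (by rw [mul_comm, crit_card_fst, hU])
    show ((1 : H), (z : H × H).2 * k * ((z : H × H).2)⁻¹) ∈ U
    have : (z : H × H) * (1, k) * (z : H × H)⁻¹ ∈ U :=
      U.mul_mem (U.mul_mem z.2 hk) (U.inv_mem z.2)
    have he : (z : H × H) * (1, k) * (z : H × H)⁻¹ =
        ((1 : H), (z : H × H).2 * k * ((z : H × H).2)⁻¹) := by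
      apply Prod.ext
      · show (z : H × H).1 * 1 * ((z : H × H).1)⁻¹ = 1
        group
      · rfl
    rwa [he] at this
  exact crit_graph U hU hK1 hL1

/-- the degree is at most three -/
theorem CritG.le_three (h : CritG H p) {k : ℕ} (hk : k ∈ pcpDegrees (H × H)) : k ≤ 3 := by
  classical
  obtain ⟨s, hs, U, hG, hU, hint⟩ := hk
  have hsH : s = Nat.card H := by
    rw [Nat.card_prod, ← sq] at hG
    exact (Nat.pow_left_injective (n := 2) (by norm_num) hG).symm
  have hf : Fact p.Prime := ⟨h.hp⟩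
  have hcard : ∀ i j, Nat.card (U i) * Nat.card (U j) = Nat.card (H × H) := by
    intro i j
    rw [hU i, hU j, hG, sq]
  -- types
  let T1 : Fin k → Prop := fun i => ∃ z ∈ U i, orderOf z = p ∧ z.2 = 1
  let T2 : Fin k → Prop := fun i => ∃ z ∈ U i, orderOf z = p ∧ z.1 = 1
  let t : Fin k → Fin 3 := fun i => if T1 i then 0 else if T2 i then 1 else 2
  have horder : ∀ z : H × H, orderOf z = p → z.2 = 1 → orderOf z.1 = p := by
    intro z hz hz2
    have hpow : z ^ p = 1 := by rw [← hz]; exact pow_orderOf_eq_one _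
    refine orderOf_eq_prime (congrArg Prod.fst hpow) (fun h1 => ?_)
    have : z = 1 := Prod.ext h1 hz2
    rw [this, orderOf_one] at hz
    exact h.hp.one_lt.ne hz
  have horder' : ∀ z : H × H, orderOf z = p → z.1 = 1 → orderOf z.2 = p := by
    intro z hz hz2
    have hpow : z ^ p = 1 := by rw [← hz]; exact pow_orderOf_eq_one _
    refine orderOf_eq_prime (congrArg Prod.snd hpow) (fun h1 => ?_)
    have : z = 1 := Prod.ext hz2 h1
    rw [this, orderOf_one] at hz
    exact h.hp.one_lt.ne hz
  have hinj : Function.Injective t := by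
    intro i j hij
    by_contra hne
    by_cases hi : T1 i
    · have hj : T1 j := by
        by_contra hj
        have e1 : t i = 0 := if_pos hi
        have e2 : t j ≠ 0 := by
          simp only [t, if_neg hj]
          split_ifs <;> decide
        exact e2 (by rw [← hij, e1])
      obtain ⟨z, hz, hzp, hz2⟩ := hi
      obtain ⟨w, hw, hwp, hw2⟩ := hj
      obtain ⟨g, c, hc⟩ := h.conj _ _ (horder z hzp hz2) (horder w hwp hw2)
      have h1 : z = 1 := by
        refine no_common_conj (A := U i) (B := U j) (g := (g, 1)) (hcard i j) (hint i j hne) hz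
          ((U j).zpow_mem hw c) ?_
        apply Prod.ext
        · exact hc.symm
        · show 1 * z.2 * 1⁻¹ = w.2 ^ c
          rw [hz2, hw2]; simp
      rw [h1, orderOf_one] at hzp
      exact h.hp.one_lt.ne hzp
    by_cases hj : T1 j
    · have e1 : t j = 0 := if_pos hj
      have e2 : t i ≠ 0 := by
        simp only [t, if_neg hi]
        split_ifs <;> decide
      exact e2 (by rw [hij, e1])
    by_cases hi2 : T2 i
    · have hj2 : T2 j := by
        by_contra hj2
        have e1 : t i = 1 := by simp only [t, if_neg hi, if_pos hi2]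
        have e2 : t j = 2 := by simp only [t, if_neg hj, if_neg hj2]
        rw [hij, e2] at e1
        exact absurd e1 (by decide)
      obtain ⟨z, hz, hzp, hz2⟩ := hi2
      obtain ⟨w, hw, hwp, hw2⟩ := hj2
      obtain ⟨g, c, hc⟩ := h.conj _ _ (horder' z hzp hz2) (horder' w hwp hw2)
      have h1 : z = 1 := by
        refine no_common_conj (A := U i) (B := U j) (g := (1, g)) (hcard i j) (hint i j hne) hz
          ((U j).zpow_mem hw c) ?_
        apply Prod.ext
        · show 1 * z.1 * 1⁻¹ = w.1 ^ c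
          rw [hz2, hw2]; simp
        · exact hc.symm
      rw [h1, orderOf_one] at hzp
      exact h.hp.one_lt.ne hzp
    by_cases hj2 : T2 j
    · have e1 : t j = 1 := by simp only [t, if_neg hj, if_pos hj2]
      have e2 : t i = 2 := by simp only [t, if_neg hi, if_neg hi2]
      rw [← hij, e2] at e1
      exact absurd e1 (by decide)
    -- two graphs
    obtain ⟨φ, hφ⟩ := h.graph (U i) (by rw [hU i, hsH])
      (fun z hz hzp h1 => hi2 ⟨z, hz, hzp, h1⟩) (fun z hz hzp h1 => hi ⟨z, hz, hzp, h1⟩)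
    obtain ⟨ψ, hψ⟩ := h.graph (U j) (by rw [hU j, hsH])
      (fun z hz hzp h1 => hj2 ⟨z, hz, hzp, h1⟩) (fun z hz hzp h1 => hj ⟨z, hz, hzp, h1⟩)
    refine h.exists_fixed (φ.trans ψ.symm) (fun x hx => ?_)
    have h1 : φ x = ψ x := by
      rw [MulEquiv.trans_apply, MulEquiv.symm_apply_eq] at hx
      exact hx
    have h2 : (x, φ x) ∈ U i ⊓ U j := ⟨hφ x, by rw [h1]; exact hψ x⟩
    rw [hint i j hne, Subgroup.mem_bot] at h2
    exact congrArg Prod.fst h2
  have := Fintype.card_le_of_injective t hinj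
  simpa using this

/-- **General criterion.** -/
theorem CritG.isGreatest (h : CritG H p) : IsGreatest (pcpDegrees (H × H)) 3 := by
  have hnt : Nontrivial H := by
    rw [← Finite.one_lt_card_iff_nontrivial]
    exact lt_of_lt_of_le h.hp.one_lt (Nat.le_of_dvd Nat.card_pos h.hpH)
  exact ⟨three_mem, fun k hk => h.le_three hk⟩

end

end Pool.Agent.Lib.MP_bfe725_co
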