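import Pool.Agent.Lib.MP_bfe725_co.CDefs

/-!
# The criterion for a quotient by a central subgroup (helper87, module QUOT)
-/

set_option autoImplicit false

namespace Pool.Agent.Lib.MP_bfe725_co

open scoped Pointwise

/-- a `p'`-subgroup normalised by an element of order `p` is also an `r'`-group -/
theorem quot_norm_step {H : Type} [Group H] [Finite H] {p r : ℕ} (hp : p.Prime) (hr : r.Prime)
    (hnorm : ∀ (x : H) (S : Subgroup H), orderOf x = p → IsPGroup r S →
      (∀ s ∈ S, x * s * x⁻¹ ∈ S) → S = ⊥)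
    (K : Subgroup H) (hK : ¬ p ∣ Nat.card K) (x : H) (hx : orderOf x = p)
    (hxK : ∀ k ∈ K, x * k * x⁻¹ ∈ K) : ¬ r ∣ Nat.card K := by
  have : Fact p.Prime := ⟨hp⟩
  have : Fact r.Prime := ⟨hr⟩
  intro hrK
  -- `x` lies in the normaliser of `K`
  have hxN : x ∈ Subgroup.normalizer (K : Set H) := by
    rw [Subgroup.mem_normalizer_iff]
    have hsurj : Function.Surjective (fun k : K => (⟨x * k * x⁻¹, hxK k k.2⟩ : K)) := by
      apply Finite.surjective_of_injective
      intro a b hab
      have := congrArg Subtype.val hab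
      apply Subtype.ext
      simpa using this
    intro h
    constructor
    · intro hh
      exact hxK h hh
    · intro hh
      obtain ⟨k, hk⟩ := hsurj ⟨x * h * x⁻¹, hh⟩
      have := congrArg Subtype.val hk
      have h2 : (k : H) = h := by simpa using this
      rw [← h2]
      exact k.2
  let X : Subgroup (Subgroup.normalizer (K : Set H)) := Subgroup.zpowers ⟨x, hxN⟩
  have hX : IsPGroup p X := by
    apply IsPGroup.of_card (n := 1)
    rw [Nat.card_zpowers, pow_one]
    rw [← hx]
    exact Subgroup.orderOf_mk x hxN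
  obtain ⟨S0⟩ : Nonempty (Sylow r K) := inferInstance
  have hcard : ¬ p ∣ Nat.card (Sylow r K) := by
    intro h
    apply hK
    refine h.trans ((Sylow.card_dvd_index S0).trans ?_)
    exact Subgroup.index_dvd_card _
  obtain ⟨S, hS⟩ := hX.nonempty_fixed_point_of_prime_not_dvd_card (Sylow r K) hcard
  have hfix := hS ⟨⟨x, hxN⟩, Subgroup.mem_zpowers _⟩
  have hfix2 : (⟨x, hxN⟩ : Subgroup.normalizer (K : Set H)) • (S : Subgroup K) = S := by
    have := congrArg Sylow.toSubgroup hfix
    exact this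
  have hbot := hnorm x ((S : Subgroup K).map K.subtype) hx (S.2.map _) (by
    rintro _ ⟨k, hk, rfl⟩
    have h1 : (⟨x, hxN⟩ : Subgroup.normalizer (K : Set H)) • k ∈ (S : Subgroup K) := by
      rw [← hfix2]
      exact Subgroup.smul_mem_pointwise_smul _ _ _ hk
    exact ⟨_, h1, rfl⟩)
  rw [Subgroup.map_eq_bot_iff_of_injective _ (Subgroup.subtype_injective K)] at hbot
  have h3 := S.dvd_card_of_dvd_card hrK
  rw [hbot, Subgroup.card_bot] at h3
  exact hr.one_lt.ne' (Nat.dvd_one.mp h3)

section

variable {H : Type} [Group H] [Finite H] {Z : Subgroup H} {p r : ℕ}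

theorem quot_not_dvd_r (hZ : Z ≤ Subgroup.center H) (h : CritZ H Z p r) :
    ¬ r ∣ Nat.card Z := by
  have : Fact p.Prime := ⟨h.hp⟩
  have : Fact r.Prime := ⟨h.hr⟩
  intro hd
  obtain ⟨x, hx⟩ := exists_prime_orderOf_dvd_card' (G := H) p h.hpH
  obtain ⟨z, hz⟩ := exists_prime_orderOf_dvd_card' (G := Z) r hd
  have hz' : orderOf (z : H) = r := by rw [← hz]; exact Subgroup.orderOf_coe z
  have hb := h.norm x (Subgroup.zpowers (z : H)) hx (by
    apply IsPGroup.of_card (n := 1)
    rw [Nat.card_zpowers, pow_one, hz']) (by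
    intro s hs
    have hsZ : s ∈ Z := by
      have : Subgroup.zpowers (z : H) ≤ Z := by
        rw [Subgroup.zpowers_le]; exact z.2
      exact this hs
    have := Subgroup.mem_center_iff.mp (hZ hsZ) x
    rw [this, mul_assoc, mul_inv_cancel, mul_one]
    exact hs)
  rw [Subgroup.zpowers_eq_bot] at hb
  rw [hb, orderOf_one] at hz'
  exact h.hr.one_lt.ne hz'

theorem quot_not_dvd_p (hZ : Z ≤ Subgroup.center H) (h : CritZ H Z p r) :
    ¬ p ∣ Nat.card Z := by
  have : Fact p.Prime := ⟨h.hp⟩
  have : Fact r.Prime := ⟨h.hr⟩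
  intro hd
  obtain ⟨z, hz⟩ := exists_prime_orderOf_dvd_card' (G := Z) p hd
  obtain ⟨y, hy⟩ := exists_prime_orderOf_dvd_card' (G := H) r h.hrH
  have hz' : orderOf (z : H) = p := by rw [← hz]; exact Subgroup.orderOf_coe z
  have hb := h.norm z (Subgroup.zpowers y) hz' (by
    apply IsPGroup.of_card (n := 1)
    rw [Nat.card_zpowers, pow_one, hy]) (by
    intro s hs
    have := Subgroup.mem_center_iff.mp (hZ z.2) s
    rw [← this, mul_assoc, mul_inv_cancel, mul_one]
    exact hs)
  rw [Subgroup.zpowers_eq_bot] at hb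
  rw [hb, orderOf_one] at hy
  exact h.hr.one_lt.ne hy

omit [Finite H] in
/-- elements of order `p` lift -/
theorem quot_lift [Z.Normal] (hp : p.Prime) (hpZ : ¬ p ∣ Nat.card Z) (x : H ⧸ Z)
    (hx : orderOf x = p) : ∃ y : H, orderOf y = p ∧ (QuotientGroup.mk y : H ⧸ Z) = x := by
  have : Fact p.Prime := ⟨hp⟩
  obtain ⟨y, rfl⟩ := QuotientGroup.mk_surjective x
  have hcop : Nat.Coprime (Nat.card Z) p :=
    ((Nat.Prime.coprime_iff_not_dvd hp).mpr hpZ).symm
  have hyp : y ^ p ∈ Z := by
    rw [← QuotientGroup.eq_one_iff, QuotientGroup.mk_pow, ← hx]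
    exact pow_orderOf_eq_one _
  have h1 : (y ^ p) ^ Nat.card Z = 1 := by
    have h0 := pow_card_eq_one' (G := Z) (x := ⟨y ^ p, hyp⟩)
    have h0' := congrArg Subtype.val h0
    rw [Subgroup.coe_pow, Subgroup.coe_one] at h0'
    exact h0'
  -- choose `k` with `|Z| k = 1` modulo `p`
  obtain ⟨k, -, hk⟩ := Nat.exists_mul_mod_eq_one_of_coprime hcop hp.one_lt
  refine ⟨y ^ (Nat.card Z * k), ?_, ?_⟩
  · have h2 : (y ^ (Nat.card Z * k)) ^ p = 1 := by
      rw [← pow_mul, show Nat.card Z * k * p = p * Nat.card Z * k by ring, pow_mul, pow_mul, h1,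
        one_pow]
    refine orderOf_eq_prime h2 ?_ 
    intro h3
    have h4 : (QuotientGroup.mk y : H ⧸ Z) ^ (Nat.card Z * k) = 1 := by
      rw [← QuotientGroup.mk_pow, h3]; rfl
    have h5 := orderOf_dvd_of_pow_eq_one h4
    rw [hx] at h5
    rw [Nat.mod_eq_zero_of_dvd h5] at hk
    exact absurd hk (by norm_num)
  · rw [QuotientGroup.mk_pow, ← pow_mod_orderOf, hx, hk, pow_one]

theorem quot_card_comap [Z.Normal] (S : Subgroup (H ⧸ Z)) :
    Nat.card (S.comap (QuotientGroup.mk' Z)) = Nat.card Z * Nat.card S := by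
  have h1 := Subgroup.card_mul_index (S.comap (QuotientGroup.mk' Z))
  rw [Subgroup.index_comap_of_surjective S (QuotientGroup.mk'_surjective Z)] at h1
  have h2 := Subgroup.card_mul_index S
  have h3 := Subgroup.card_eq_card_quotient_mul_card_subgroup Z
  have hpos : 0 < S.index := Nat.pos_of_ne_zero Subgroup.index_ne_zero_of_finite
  apply Nat.eq_of_mul_eq_mul_right hpos
  rw [h1, mul_assoc, h2, h3, mul_comm]

end

theorem CritZ.quot {H : Type} [Group H] [Finite H] {Z : Subgroup H} [Z.Normal]
    (hZ : Z ≤ Subgroup.center H) {p r : ℕ} (h : CritZ H Z p r) : Crit (H ⧸ Z) p r := by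
  have : Fact p.Prime := ⟨h.hp⟩
  have : Fact r.Prime := ⟨h.hr⟩
  have hrZ := quot_not_dvd_r hZ h
  have hpZ := quot_not_dvd_p hZ h
  have hpr : p ≠ r := by
    rintro rfl
    obtain ⟨x, hx⟩ := exists_prime_orderOf_dvd_card' (G := H) p h.hpH
    have hb := h.norm x (Subgroup.zpowers x) hx (by
      apply IsPGroup.of_card (n := 1)
      rw [Nat.card_zpowers, pow_one, hx]) (by
      intro s hs
      exact Subgroup.mul_mem _ (Subgroup.mul_mem _ (Subgroup.mem_zpowers x) hs)
        (Subgroup.inv_mem _ (Subgroup.mem_zpowers x)))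
    rw [Subgroup.zpowers_eq_bot] at hb
    rw [hb, orderOf_one] at hx
    exact h.hp.one_lt.ne hx
  have hcard := Subgroup.card_eq_card_quotient_mul_card_subgroup Z
  refine ⟨h.hp, h.hr, ?_, ?_, ?_, ?_, ?_⟩
  · have := h.hpH
    rw [hcard] at this
    exact (h.hp.dvd_mul.mp this).resolve_right hpZ
  · have := h.hrH
    rw [hcard] at this
    exact (h.hr.dvd_mul.mp this).resolve_right hrZ
  · -- cyclic `p`-subgroups
    intro P hP
    let K := P.comap (QuotientGroup.mk' Z)
    let f : K →* P := (QuotientGroup.mk' Z).subgroupComap P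
    have hf : Function.Surjective f :=
      (QuotientGroup.mk' Z).subgroupComap_surjective_of_surjective P
        (QuotientGroup.mk'_surjective Z)
    obtain ⟨Q⟩ : Nonempty (Sylow p K) := inferInstance
    have hQ : (Q : Subgroup K).map f = ⊤ := by
      have h1 : IsPGroup p (⊤ : Subgroup P) := hP.of_equiv Subgroup.topEquiv.symm
      have h2 := (Q.mapSurjective hf).3 h1 le_top
      exact h2.symm
    have hQc : IsCyclic (Q : Subgroup K) := by
      have h1 := h.cyc ((Q : Subgroup K).map K.subtype) (Q.2.map _)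
      exact isCyclic_of_surjective
        ((Q : Subgroup K).equivMapOfInjective K.subtype (Subgroup.subtype_injective K)).symm
        (MulEquiv.surjective _)
    have h3 : Function.Surjective (f.comp (Q : Subgroup K).subtype) := by
      intro y
      have : y ∈ (Q : Subgroup K).map f := by rw [hQ]; trivial
      obtain ⟨z, hz, rfl⟩ := this
      exact ⟨⟨z, hz⟩, rfl⟩
    exact isCyclic_of_surjective _ h3
  · -- no normalised `r`-subgroups
    intro x S hx hS hxS
    obtain ⟨y, hy, rfl⟩ := quot_lift h.hp hpZ x hx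
    have hpS : ¬ p ∣ Nat.card S := by
      intro hd
      obtain ⟨n, hn⟩ := IsPGroup.iff_card.mp hS
      rw [hn] at hd
      exact hpr ((Nat.prime_dvd_prime_iff_eq h.hp h.hr).mp (h.hp.dvd_of_dvd_pow hd))
    have hK := quot_norm_step h.hp h.hr h.norm (S.comap (QuotientGroup.mk' Z)) (by
      rw [quot_card_comap]
      intro hd
      rcases h.hp.dvd_mul.mp hd with h1 | h1
      · exact hpZ h1
      · exact hpS h1) y hy (by
      intro k hk
      rw [Subgroup.mem_comap] at hk ⊢
      exact hxS _ hk)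
    rw [quot_card_comap] at hK
    have hrS : ¬ r ∣ Nat.card S := fun hd => hK (hd.mul_left _)
    obtain ⟨n, hn⟩ := IsPGroup.iff_card.mp hS
    have hn0 : n = 0 := by
      by_contra h0
      exact hrS (hn ▸ dvd_pow_self r h0)
    rw [hn0, pow_zero] at hn
    exact Subgroup.eq_bot_of_card_eq S hn
  · intro B hB hpB
    have h1 : Nat.card B ∣ Nat.card (B.comap (QuotientGroup.mk' Z)) := by
      rw [quot_card_comap]; exact dvd_mul_left _ _
    have h2 := h.big (B.comap (QuotientGroup.mk' Z)) (by
      intro z hz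
      rw [Subgroup.mem_comap]
      have : QuotientGroup.mk' Z z = 1 := by
        rw [QuotientGroup.mk'_apply, QuotientGroup.eq_one_iff]; exact hz
      rw [this]
      exact B.one_mem) (by
      rw [Subgroup.index_comap_of_surjective B (QuotientGroup.mk'_surjective Z)]
      exact hB) (hpB.trans h1)
    rw [eq_top_iff]
    intro x _
    obtain ⟨y, rfl⟩ := QuotientGroup.mk_surjective x
    have : y ∈ B.comap (QuotientGroup.mk' Z) := by rw [h2]; trivial
    exact this

/-- if all elements of order `p` of `H` are conjugate, the same is true in `H ⧸ Z`, `Z` central -/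
theorem conj_quot {H : Type} [Group H] [Finite H] {Z : Subgroup H} [Z.Normal]
    (hZ : Z ≤ Subgroup.center H) {p : ℕ} (hp : p.Prime) (hpZ : ¬ p ∣ Nat.card Z)
    (h : ∀ x y : H, orderOf x = p → orderOf y = p → IsConj x y) (x y : H ⧸ Z)
    (hx : orderOf x = p) (hy : orderOf y = p) : IsConj x y := by
  obtain ⟨x', hx', rfl⟩ := quot_lift hp hpZ x hx
  obtain ⟨y', hy', rfl⟩ := quot_lift hp hpZ y hy
  exact (QuotientGroup.mk' Z).map_isConj (h x' y' hx' hy')

/-- in a finite cyclic group an element of order `p` is a power of any other one -/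
theorem quot_mem_zpowers {C : Type} [Group C] [Finite C] [IsCyclic C] {a b : C}
    (hab : orderOf a = orderOf b) : a ∈ Subgroup.zpowers b := by
  classical
  let _ := Fintype.ofFinite C
  have h1 : (Finset.univ.filter (fun x : C => x ^ orderOf b = 1)).card ≤ orderOf b :=
    IsCyclic.card_pow_eq_one_le (orderOf_pos b)
  have hs : ((Subgroup.zpowers b : Set C).toFinset).card = orderOf b := by
    rw [Set.toFinset_card, ← Nat.card_eq_fintype_card]
    exact Nat.card_zpowers b
  have hsub : (Subgroup.zpowers b : Set C).toFinset ⊆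
      Finset.univ.filter (fun x : C => x ^ orderOf b = 1) := by
    intro x hx
    rw [Set.mem_toFinset] at hx
    obtain ⟨k, rfl⟩ := hx
    rw [Finset.mem_filter]
    refine ⟨Finset.mem_univ _, ?_⟩
    show (b ^ k) ^ orderOf b = 1
    rw [← zpow_natCast, ← zpow_mul, mul_comm, zpow_mul, zpow_natCast, pow_orderOf_eq_one,
      one_zpow]
  have heq := Finset.eq_of_subset_of_card_le hsub (h1.trans hs.ge)
  have ha : a ∈ Finset.univ.filter (fun x : C => x ^ orderOf b = 1) := by
    rw [Finset.mem_filter, ← hab]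
    exact ⟨Finset.mem_univ _, pow_orderOf_eq_one a⟩
  rw [← heq, Set.mem_toFinset] at ha
  exact ha

/-- if the `p`-subgroups are cyclic and one element of order `p` is conjugate to its `g`-th power,
`g` a primitive root modulo `p`, then all elements of order `p` are conjugate -/
theorem conj_of_cyclic {H : Type} [Group H] [Finite H] {p : ℕ} (hp : p.Prime)
    (hcyc : ∀ P : Subgroup H, IsPGroup p P → IsCyclic P) {x y : H} {g : ℕ} (hx : orderOf x = p)
    (hy : y * x * y⁻¹ = x ^ g) (hg : ∀ k : ℕ, ¬ p ∣ k → ∃ j : ℕ, g ^ j ≡ k [MOD p]) (a b : H)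
    (ha : orderOf a = p) (hb : orderOf b = p) : IsConj a b := by
  have : Fact p.Prime := ⟨hp⟩
  -- all powers `x ^ (g ^ j)` are conjugate to `x`
  have hpow : ∀ j : ℕ, IsConj x (x ^ g ^ j) := by
    intro j
    induction j with
    | zero => rw [pow_zero, pow_one]
    | succ j ih =>
      refine ih.trans ?_
      rw [isConj_iff]
      refine ⟨y, ?_⟩
      rw [← conj_pow, hy, ← pow_mul, pow_succ, mul_comm]
  have key : ∀ c : H, orderOf c = p → IsConj x c := by
    intro c hc
    obtain ⟨P, hP⟩ := IsPGroup.exists_le_sylow (p := p) (P := Subgroup.zpowers x) (by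
      apply IsPGroup.of_card (n := 1)
      rw [Nat.card_zpowers, pow_one, hx])
    obtain ⟨Q, hQ⟩ := IsPGroup.exists_le_sylow (p := p) (P := Subgroup.zpowers c) (by
      apply IsPGroup.of_card (n := 1)
      rw [Nat.card_zpowers, pow_one, hc])
    obtain ⟨u, hu⟩ := MulAction.exists_smul_eq H Q P
    have hxP : x ∈ (P : Subgroup H) := hP (Subgroup.mem_zpowers x)
    have hcQ : c ∈ (Q : Subgroup H) := hQ (Subgroup.mem_zpowers c)
    have hcP : u * c * u⁻¹ ∈ (P : Subgroup H) := by
      rw [← hu]
      exact Subgroup.smul_mem_pointwise_smul c (MulAut.conj u) _ hcQ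
    have := hcyc P P.2
    have h1 : (⟨u * c * u⁻¹, hcP⟩ : (P : Subgroup H)) ∈ Subgroup.zpowers (⟨x, hxP⟩ : (P : Subgroup H)) := by
      apply quot_mem_zpowers
      rw [Subgroup.orderOf_mk, Subgroup.orderOf_mk, hx, ← hc]
      refine (SemiconjBy.orderOf_eq u ?_).symm
      show u * c = u * c * u⁻¹ * u
      group
    obtain ⟨k, hk⟩ := (mem_powers_iff_mem_zpowers.mpr h1)
    have hk' : x ^ k = u * c * u⁻¹ := by
      have := congrArg Subtype.val hk
      simpa using this
    have hpk : ¬ p ∣ k := by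
      rintro ⟨t, rfl⟩
      rw [pow_mul, ← hx, pow_orderOf_eq_one, one_pow] at hk'
      have h2 : c = 1 := by
        have := congrArg (fun z => u⁻¹ * z * u) hk'
        simpa [mul_assoc] using this.symm
      rw [h2, orderOf_one] at hc
      exact hp.one_lt.ne hc
    obtain ⟨j, hj⟩ := hg k hpk
    have h3 : x ^ g ^ j = u * c * u⁻¹ := by
      rw [← hk']
      rw [pow_eq_pow_iff_modEq, hx]
      exact hj
    refine (hpow j).trans ?_
    rw [h3]
    exact (isConj_iff.mpr ⟨u, rfl⟩ : IsConj c (u * c * u⁻¹)).symm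
  exact (key a ha).symm.trans (key b hb)

end Pool.Agent.Lib.MP_bfe725_co
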