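import Mathlib

set_option autoImplicit false

namespace Pool.Agent.Lib.MP_bfe725_co

/-- `IsPCP s U`: the family `U 0, ..., U (r-1)` is a partial congruence partition of order `s` and
degree `r` of the group `G`: `G` has order `s ^ 2`, every `U i` has order `s` and different
`U i` intersect trivially. (For `s ≥ 2` the `U i` are automatically pairwise different.) -/
def IsPCP {G : Type} [Group G] (s : ℕ) {r : ℕ} (U : Fin r → Subgroup G) : Prop :=
  Nat.card G = s ^ 2 ∧ (∀ i, Nat.card (U i) = s) ∧ ∀ i j, i ≠ j → U i ⊓ U j = ⊥

/-- The set of all degrees of partial congruence partitions of `G`; its largest element is the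
number `T(G)`. -/
def pcpDegrees (G : Type) [Group G] : Set ℕ :=
  {r | ∃ s : ℕ, 2 ≤ s ∧ ∃ U : Fin r → Subgroup G, IsPCP s U}

end Pool.Agent.Lib.MP_bfe725_co
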