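import Pool.Agent.Lib.MP_bfe725_co.CDefs

/-!
# Linear algebra over finite fields: operators of order a primitive prime divisor

(helper84, problem MP_bfe725_co)
-/

set_option autoImplicit false

namespace Pool.Agent.Lib.MP_bfe725_co

open Module

section lin

variable {F : Type} [Field F] [Finite F] {V : Type} [AddCommGroup V] [Module F V] [Finite V]

theorem ppd_not_dvd {p q m : ℕ} (h : PPD p q m) (hq : 0 < q) : ¬ p ∣ q := by
  intro hpq
  obtain ⟨hp, hm, hd, _⟩ := h
  have h1 : 1 ≤ q ^ m := Nat.one_le_pow _ _ hq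
  have h2 : p ∣ q ^ m := hpq.trans (dvd_pow_self q hm.ne')
  have h3 : p ∣ 1 := by
    have := Nat.dvd_sub h2 hd
    rwa [Nat.sub_sub_self h1] at this
  exact hp.one_lt.ne' (Nat.dvd_one.1 h3)

/-- an operator of `p`-power order on a space of dimension `< m` is trivial -/
theorem lin_trivial {p m k : ℕ} (h : PPD p (Nat.card F) m) {f : V →ₗ[F] V}
    (hf : f ^ p ^ k = 1) (hV : finrank F V < m) : f = 1 := by
  classical
  have hp := h.1
  have : Fact p.Prime := ⟨hp⟩
  let _ : Fintype V := Fintype.ofFinite V
  have hq : 1 < Nat.card F := Finite.one_lt_card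
  let φ : Function.End V := fun v => f v
  have hpow : ∀ (n : ℕ) (v : V), (φ ^ n) v = (f ^ n) v := by
    intro n
    induction n with
    | zero => intro v; rfl
    | succ n ih =>
      intro v
      rw [pow_succ, pow_succ, Module.End.mul_apply, ← ih]
      rfl
  have h1 : φ ^ p ^ k = 1 := by
    funext v
    rw [hpow, hf]; rfl
  have h2 := Equiv.Perm.card_fixedPoints_modEq (f := φ) (p := p) (n := k) h1
  let K : Submodule F V := LinearMap.ker (f - 1)
  have h3 : Nat.card (Function.fixedPoints (⇑f : V → V)) = Nat.card K := by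
    refine Nat.card_congr (Equiv.setCongr ?_)
    ext x
    simp only [Function.mem_fixedPoints, SetLike.mem_coe, K, LinearMap.mem_ker,
      LinearMap.sub_apply, Module.End.one_apply, sub_eq_zero]
    rfl
  rw [← Nat.card_eq_fintype_card, ← Nat.card_eq_fintype_card] at h2
  have h2' : Nat.card V ≡ Nat.card K [MOD p] := by rw [← h3]; exact h2
  rw [Module.natCard_eq_pow_finrank (K := F) (V := V),
    Module.natCard_eq_pow_finrank (K := F) (V := K)] at h2'
  have hle : finrank F K ≤ finrank F V := Submodule.finrank_le K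
  obtain ⟨d, hd⟩ := Nat.exists_eq_add_of_le hle
  have hd0 : d = 0 := by
    by_contra hne
    have h4 : p ∣ Nat.card F ^ finrank F V - Nat.card F ^ finrank F K :=
      (Nat.modEq_iff_dvd' (Nat.pow_le_pow_right (by omega) hle)).1 h2'.symm
    rw [hd, pow_add] at h4
    have h5 : Nat.card F ^ finrank F K * Nat.card F ^ d - Nat.card F ^ finrank F K
        = Nat.card F ^ finrank F K * (Nat.card F ^ d - 1) := by
      rw [Nat.mul_sub, mul_one]
    rw [h5] at h4
    rcases hp.dvd_mul.1 h4 with h6 | h6
    · exact ppd_not_dvd h (by omega) (hp.dvd_of_dvd_pow h6)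
    · exact h.2.2.2 d (by omega) (by omega) h6
  have hK : K = ⊤ := Submodule.eq_top_of_finrank_eq (by omega)
  have := LinearMap.ker_eq_top.1 hK
  exact sub_eq_zero.1 this

theorem lin_or {p m : ℕ} (h : PPD p (Nat.card F) m) {f : V →ₗ[F] V} (hf : f ^ p = 1)
    (hV : finrank F V < 2 * m) {W : Submodule F V} (hW : ∀ w ∈ W, f w ∈ W) :
    W ≤ LinearMap.ker (f - 1) ∨ LinearMap.range (f - 1) ≤ W := by
  have hsum := Submodule.finrank_quotient_add_finrank W
  by_cases h1 : finrank F W < m
  · left
    have hpow : ∀ (n : ℕ) (x : W), ((((f.restrict hW) ^ n) x : W) : V) = (f ^ n) x := by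
      intro n
      induction n with
      | zero => intro x; rfl
      | succ n ih =>
        intro x
        rw [pow_succ, pow_succ, Module.End.mul_apply, Module.End.mul_apply, ih]
        rfl
    have h2 : (f.restrict hW) ^ p ^ 1 = 1 := by
      rw [pow_one]
      ext x
      rw [hpow, hf]; rfl
    have h3 := lin_trivial h h2 h1
    intro w hw
    rw [LinearMap.mem_ker, LinearMap.sub_apply, Module.End.one_apply, sub_eq_zero]
    have := congrArg (fun g : W →ₗ[F] W => ((g ⟨w, hw⟩ : W) : V)) h3
    exact this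
  · right
    have h1' : finrank F (V ⧸ W) < m := by omega
    have hfin : Finite (V ⧸ W) := Finite.of_surjective _ (Submodule.mkQ_surjective W)
    have hW' : W ≤ Submodule.comap f W := hW
    have hpow : ∀ (n : ℕ) (x : V), ((W.mapQ W f hW') ^ n) (Submodule.Quotient.mk x)
        = Submodule.Quotient.mk ((f ^ n) x) := by
      intro n
      induction n with
      | zero => intro x; rfl
      | succ n ih =>
        intro x
        rw [pow_succ, pow_succ, Module.End.mul_apply, Module.End.mul_apply, ← ih]
        rfl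
    have h2 : (W.mapQ W f hW') ^ p ^ 1 = 1 := by
      rw [pow_one]
      refine LinearMap.ext fun y => ?_
      obtain ⟨x, rfl⟩ := Submodule.Quotient.mk_surjective W y
      rw [hpow, hf]; rfl
    have h3 := lin_trivial h h2 h1'
    rintro _ ⟨u, rfl⟩
    have := congrArg (fun g : (V ⧸ W) →ₗ[F] (V ⧸ W) => g (Submodule.Quotient.mk u)) h3
    have h4 : (Submodule.Quotient.mk (f u) : V ⧸ W) = Submodule.Quotient.mk u := this
    rw [Submodule.Quotient.eq] at h4
    exact h4

theorem natCast_ne_zero_of_ppd {p m : ℕ} (h : PPD p (Nat.card F) m) : (p : F) ≠ 0 := by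
  intro h0
  have : Fact p.Prime := ⟨h.1⟩
  have hc : CharP F p := by
    obtain ⟨r, hr⟩ := CharP.exists F
    have h1 : r ∣ p := (CharP.cast_eq_zero_iff F r p).1 h0
    have h2 : r.Prime := CharP.char_is_prime F r
    rw [← (Nat.prime_dvd_prime_iff_eq h2 h.1).1 h1]
    exact hr
  exact ppd_not_dvd h Nat.card_pos (by
    let _ : Fintype F := Fintype.ofFinite F
    obtain ⟨n, -, hn⟩ := FiniteField.card F p
    rw [Nat.card_eq_fintype_card, hn]
    exact dvd_pow_self p n.ne_zero)

omit [Finite V] in
theorem lin_disjoint {p m : ℕ} (h : PPD p (Nat.card F) m) {f : V →ₗ[F] V} (hf : f ^ p = 1) :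
    Disjoint (LinearMap.ker (f - 1)) (LinearMap.range (f - 1)) := by
  rw [Submodule.disjoint_def]
  rintro v hv ⟨u, hu⟩
  have hfv : ∀ i : ℕ, (f ^ i) v = v := by
    intro i
    induction i with
    | zero => rfl
    | succ i ih =>
      rw [pow_succ, Module.End.mul_apply]
      have : f v = v := by
        rw [LinearMap.mem_ker, LinearMap.sub_apply, Module.End.one_apply, sub_eq_zero] at hv
        exact hv
      rw [this, ih]
  have h1 := geom_sum_mul (f : Module.End F V) p
  rw [hf, sub_self] at h1
  have h2 := congrArg (fun g : Module.End F V => g u) h1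
  have h3 : (∑ i ∈ Finset.range p, (f : Module.End F V) ^ i) v = 0 := by
    rw [← hu]; exact h2
  rw [LinearMap.sum_apply, Finset.sum_congr rfl (fun i _ => hfv i), Finset.sum_const,
    Finset.card_range, ← Nat.cast_smul_eq_nsmul F, smul_eq_zero] at h3
  rcases h3 with h3 | h3
  · exact absurd h3 (natCast_ne_zero_of_ppd h)
  · exact h3

theorem lin_isCompl {p m : ℕ} (h : PPD p (Nat.card F) m) {f : V →ₗ[F] V} (hf : f ^ p = 1) :
    IsCompl (LinearMap.ker (f - 1)) (LinearMap.range (f - 1)) := by
  refine (Submodule.isCompl_iff_disjoint _ _ ?_).2 (lin_disjoint h hf)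
  rw [add_comm]
  exact (LinearMap.finrank_range_add_finrank_ker (f - 1)).ge

theorem lin_le_finrank {p m : ℕ} (h : PPD p (Nat.card F) m) {f : V →ₗ[F] V} (hf : f ^ p = 1)
    (h1 : f ≠ 1) : m ≤ finrank F (LinearMap.range (f - 1)) := by
  by_contra hlt
  push Not at hlt
  have hW : ∀ w ∈ LinearMap.range (f - 1), f w ∈ LinearMap.range (f - 1) := by
    rintro _ ⟨u, rfl⟩
    refine ⟨f u, ?_⟩
    simp [LinearMap.sub_apply]
  have hpow : ∀ (n : ℕ) (x : LinearMap.range (f - 1)),
      ((((f.restrict hW) ^ n) x : LinearMap.range (f - 1)) : V) = (f ^ n) x := by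
    intro n
    induction n with
    | zero => intro x; rfl
    | succ n ih =>
      intro x
      rw [pow_succ, pow_succ, Module.End.mul_apply, Module.End.mul_apply, ih]
      rfl
  have h2 : (f.restrict hW) ^ p ^ 1 = 1 := by
    rw [pow_one]
    ext x
    rw [hpow, hf]; rfl
  have h3 := lin_trivial h h2 hlt
  have h4 : LinearMap.range (f - 1) ≤ LinearMap.ker (f - 1) := by
    intro w hw
    rw [LinearMap.mem_ker, LinearMap.sub_apply, Module.End.one_apply, sub_eq_zero]
    exact congrArg (fun g : LinearMap.range (f - 1) →ₗ[F] LinearMap.range (f - 1) =>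
      ((g ⟨w, hw⟩ : LinearMap.range (f - 1)) : V)) h3
  have h5 : LinearMap.range (f - 1) = ⊥ := by
    have := lin_disjoint h hf
    exact this.eq_bot_of_ge h4
  exact h1 (sub_eq_zero.1 (LinearMap.range_eq_bot.1 h5))

theorem lin_cyclic {H : Type} [Group H] [Finite H] (ρ : H →* (V →ₗ[F] V))
    (hρ : Function.Injective ρ) {p m : ℕ} (h : PPD p (Nat.card F) m)
    (hV : finrank F V < 2 * m) (P : Subgroup H) (hP : IsPGroup p P) : IsCyclic P := by
  classical
  have hp : Fact p.Prime := ⟨h.1⟩
  rcases subsingleton_or_nontrivial P with hs | hn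
  · infer_instance
  have hcn := hP.center_nontrivial
  have hcp : IsPGroup p (Subgroup.center P) := hP.to_subgroup _
  obtain ⟨n, hn0, hcard⟩ := (hcp.nontrivial_iff_card).1 hcn
  obtain ⟨x, hx⟩ := exists_prime_orderOf_dvd_card' (G := Subgroup.center P) p
    (by rw [hcard]; exact dvd_pow_self p hn0.ne')
  have hxc : ∀ g : P, g * (x : P) = (x : P) * g := fun g => Subgroup.mem_center_iff.1 x.2 g
  have hxp : (x : P) ^ p = 1 := by
    have := pow_orderOf_eq_one x
    rw [hx] at this
    exact_mod_cast congrArg (Subtype.val) this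
  have hx1 : (x : P) ≠ 1 := by
    intro h0
    have : x = 1 := Subtype.ext h0
    rw [this, orderOf_one] at hx
    exact h.1.one_lt.ne hx
  let f : V →ₗ[F] V := ρ ((x : P) : H)
  have hf : f ^ p = 1 := by
    show ρ ((x : P) : H) ^ p = 1
    rw [← map_pow, ← Subgroup.coe_pow, hxp]; simp
  have hf1 : f ≠ 1 := by
    intro h0
    apply hx1
    have : ρ ((x : P) : H) = ρ 1 := by rw [map_one]; exact h0
    exact Subtype.ext (hρ this)
  have hcomm : ∀ g : P, ∀ v, f (ρ (g : H) v) = ρ (g : H) (f v) := by
    intro g v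
    show (ρ ((x : P) : H) * ρ (g : H)) v = (ρ (g : H) * ρ ((x : P) : H)) v
    rw [← map_mul, ← map_mul, ← Subgroup.coe_mul, ← Subgroup.coe_mul, hxc g]
  set R := LinearMap.range (f - 1) with hRdef
  set C := LinearMap.ker (f - 1) with hCdef
  have hRC : IsCompl C R := lin_isCompl h hf
  have hmR : m ≤ finrank F R := lin_le_finrank h hf hf1
  have hdim : finrank F C + finrank F R = finrank F V := Submodule.finrank_add_eq_of_isCompl hRC
  have hCm : finrank F C < m := by omega
  have hPR : ∀ g : P, ∀ w ∈ R, ρ (g : H) w ∈ R := by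
    rintro g _ ⟨u, rfl⟩
    refine ⟨ρ (g : H) u, ?_⟩
    simp only [LinearMap.sub_apply, Module.End.one_apply, map_sub, hcomm]
  have hPC : ∀ g : P, ∀ w ∈ C, ρ (g : H) w ∈ C := by
    intro g w hw
    rw [hCdef, LinearMap.mem_ker, LinearMap.sub_apply, Module.End.one_apply, sub_eq_zero] at hw ⊢
    rw [hcomm, hw]
  have hfR : ∀ w ∈ R, f w ∈ R := hPR (x : P)
  -- trivial on C
  have hPC1 : ∀ g : P, ∀ w ∈ C, ρ (g : H) w = w := by
    intro g w hw
    obtain ⟨k, hk⟩ := hP g
    have hpow : ∀ (n : ℕ) (y : C), (((((ρ (g : H)).restrict (hPC g)) ^ n) y : C) : V)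
        = (ρ (g : H) ^ n) y := by
      intro n
      induction n with
      | zero => intro y; rfl
      | succ n ih =>
        intro y
        rw [pow_succ, pow_succ, Module.End.mul_apply, Module.End.mul_apply, ih]
        rfl
    have h2 : ((ρ (g : H)).restrict (hPC g)) ^ p ^ k = 1 := by
      ext y
      rw [hpow, ← map_pow, ← Subgroup.coe_pow, hk]
      simp
    have h3 := lin_trivial h h2 hCm
    exact congrArg (fun φ : C →ₗ[F] C => ((φ ⟨w, hw⟩ : C) : V)) h3
  -- irreducibility
  have hirr : ∀ W : Submodule F V, W ≤ R → (∀ w ∈ W, f w ∈ W) → W = ⊥ ∨ W = R := by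
    intro W hWR hW
    rcases lin_or h hf hV hW with h' | h'
    · left
      exact le_bot_iff.1 (hRC.disjoint h' hWR)
    · right
      exact le_antisymm hWR h'
  let fR : Module.End F R := f.restrict hfR
  let D := Subring.centralizer ({fR} : Set (Module.End F R))
  have hRne : Nontrivial R := by
    have : 0 < finrank F R := lt_of_lt_of_le h.2.1 hmR
    exact Module.finrank_pos_iff.1 this
  have : Finite (Module.End F R) := Finite.of_injective (fun φ : Module.End F R => (φ : R → R))
    DFunLike.coe_injective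
  have hDfin : Finite D := Subtype.finite
  have hDcomm : ∀ a : D, ∀ v : R, (a : Module.End F R) (fR v) = fR ((a : Module.End F R) v) := by
    intro a v
    have := Subring.mem_centralizer_iff.1 a.2 fR (Set.mem_singleton _)
    exact (congrArg (fun φ : Module.End F R => φ v) this).symm
  have hDker : ∀ a : D, a ≠ 0 → ∀ v : R, (a : Module.End F R) v = 0 → v = 0 := by
    intro a ha v hv
    have hW := hirr ((LinearMap.ker (a : Module.End F R)).map R.subtype)
      (by rintro _ ⟨y, -, rfl⟩; exact y.2) (by
        rintro _ ⟨y, hy, rfl⟩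
        refine ⟨fR y, ?_, rfl⟩
        have hy' : (a : Module.End F R) y = 0 := hy
        show (a : Module.End F R) (fR y) = 0
        rw [hDcomm, hy', map_zero])
    rcases hW with hW | hW
    · have hv' : (v : V) ∈ (LinearMap.ker (a : Module.End F R)).map R.subtype := ⟨v, hv, rfl⟩
      rw [hW] at hv'
      exact Subtype.ext ((Submodule.mem_bot F).1 hv')
    · exfalso
      apply ha
      apply Subtype.ext
      refine LinearMap.ext fun y => ?_
      have : (y : V) ∈ (LinearMap.ker (a : Module.End F R)).map R.subtype := by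
        rw [hW]; exact y.2
      obtain ⟨z, hz, hzy⟩ := this
      have hzy' : z = y := Subtype.ext hzy
      rw [← hzy']
      exact hz
  have hDnt : Nontrivial D := by
    refine ⟨⟨0, 1, fun h01 => ?_⟩⟩
    obtain ⟨v, hv⟩ := exists_ne (0 : R)
    apply hv
    have := congrArg (fun a : D => (a : Module.End F R) v) h01
    exact this.symm
  have hDnz : NoZeroDivisors D := by
    refine ⟨fun {a b} hab => ?_⟩
    by_contra hcon
    push Not at hcon
    obtain ⟨v, hv⟩ := exists_ne (0 : R)
    have h1 : (a : Module.End F R) ((b : Module.End F R) v) = 0 :=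
      congrArg (fun c : D => (c : Module.End F R) v) hab
    exact hv (hDker b hcon.2 v (hDker a hcon.1 _ h1))
  have hDdom : IsDomain D := NoZeroDivisors.to_isDomain D
  have hfield : IsField D := Finite.isDomain_to_isField D
  let _ : CommRing D := { (inferInstance : Ring D) with mul_comm := hfield.mul_comm }
  have hmem : ∀ g : P, ((ρ (g : H)).restrict (hPR g) : Module.End F R) ∈ D := by
    intro g
    rw [Subring.mem_centralizer_iff]
    intro a ha
    rw [Set.mem_singleton_iff] at ha
    subst ha
    refine LinearMap.ext fun y => Subtype.ext ?_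
    exact hcomm g y
  let Φ : P →* D :=
    { toFun := fun g => ⟨(ρ (g : H)).restrict (hPR g), hmem g⟩
      map_one' := by
        apply Subtype.ext
        refine LinearMap.ext fun y => Subtype.ext ?_
        show ρ ((1 : P) : H) (y : V) = y
        rw [Subgroup.coe_one, map_one]; rfl
      map_mul' := by
        intro a b
        apply Subtype.ext
        refine LinearMap.ext fun y => Subtype.ext ?_
        show ρ ((a * b : P) : H) (y : V) = ρ (a : H) (ρ (b : H) y)
        rw [Subgroup.coe_mul, map_mul]; rfl }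
  have hΦ : Function.Injective Φ := by
    rw [injective_iff_map_eq_one]
    intro g hg
    apply Subtype.ext
    apply hρ
    rw [Subgroup.coe_one, map_one]
    refine LinearMap.ext fun v => ?_
    have hgR : ∀ w ∈ R, ρ (g : H) w = w := by
      intro w hw
      exact congrArg (fun a : D => (((a : Module.End F R) ⟨w, hw⟩ : R) : V)) hg
    have hv : v ∈ C ⊔ R := by rw [hRC.sup_eq_top]; trivial
    obtain ⟨a, ha, b, hb, rfl⟩ := Submodule.mem_sup.1 hv
    rw [map_add, hPC1 g a ha, hgR b hb]; rfl
  exact isCyclic_of_injective_ringHom Φ hΦ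

/-- an `r`-group acting on a nonzero space of characteristic `r` has a nonzero fixed vector -/
theorem lin_fixed {H : Type} [Group H] [Finite H] (ρ : H →* (V →ₗ[F] V)) {r : ℕ} (hr : r.Prime)
    [CharP F r] (S : Subgroup H) (hS : IsPGroup r S) (W : Submodule F V)
    (hW : ∀ s ∈ S, ∀ w ∈ W, ρ s w ∈ W) (hW0 : W ≠ ⊥) :
    ∃ w ∈ W, w ≠ 0 ∧ ∀ s ∈ S, ρ s w = w := by
  classical
  have : Fact r.Prime := ⟨hr⟩
  let _ : MulAction S W :=
    { smul := fun s w => ⟨ρ (s : H) (w : V), hW s s.2 w w.2⟩
      one_smul := by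
        intro w
        apply Subtype.ext
        show ρ ((1 : S) : H) (w : V) = w
        rw [Subgroup.coe_one, map_one]; rfl
      mul_smul := by
        intro a b w
        apply Subtype.ext
        show ρ ((a * b : S) : H) (w : V) = ρ (a : H) (ρ (b : H) w)
        rw [Subgroup.coe_mul, map_mul]; rfl }
  have hcard : r ∣ Nat.card W := by
    rw [Module.natCard_eq_pow_finrank (K := F)]
    have h1 : r ∣ Nat.card F := by
      let _ : Fintype F := Fintype.ofFinite F
      obtain ⟨n, -, hn⟩ := FiniteField.card F r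
      rw [Nat.card_eq_fintype_card, hn]
      exact dvd_pow_self r n.ne_zero
    refine h1.trans (dvd_pow_self _ ?_)
    intro h0
    exact hW0 (Submodule.finrank_eq_zero.1 h0)
  obtain ⟨b, hb, hb0⟩ := hS.exists_fixed_point_of_prime_dvd_card_of_fixed_point W hcard
    (a := (0 : W)) (by
      intro s
      apply Subtype.ext
      show ρ (s : H) ((0 : W) : V) = ((0 : W) : V)
      simp)
  refine ⟨b, b.2, fun h0 => hb0 (Subtype.ext h0.symm), fun s hs => ?_⟩
  exact congrArg Subtype.val (hb ⟨s, hs⟩)

omit [Finite F] [Finite V] in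
/-- if `B` has index prime to `r`, every `r`-subgroup is conjugate into `B` -/
theorem conj_into {H : Type} [Group H] [Finite H] {r : ℕ} (hr : r.Prime) {B S : Subgroup H}
    (hB : ¬ r ∣ B.index) (hS : IsPGroup r S) : ∃ g : H, ∀ s ∈ S, g * s * g⁻¹ ∈ B := by
  have : Fact r.Prime := ⟨hr⟩
  obtain ⟨b, hb⟩ := hS.nonempty_fixed_point_of_prime_not_dvd_card (H ⧸ B) hB
  obtain ⟨x, rfl⟩ := QuotientGroup.mk_surjective b
  refine ⟨x⁻¹, fun s hs => ?_⟩
  have h1 : ((s * x : H) : H ⧸ B) = (x : H ⧸ B) := hb ⟨s, hs⟩
  have h2 := QuotientGroup.eq.1 h1.symm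
  rw [inv_inv, mul_assoc]
  exact h2

end lin

end Pool.Agent.Lib.MP_bfe725_co
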