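import Mathlib
import Pool.Agent.Lib.MP_bfe725_co.CDefs
import Pool.Agent.Lib.MP_bfe725_co.Lin
import Pool.Agent.Lib.MP_bfe725_co.CritQuot

/-!
# Module EXC: elements of order `5` in `SL(6,2)` and `Sp(6,2)`

The two groups without a Zsigmondy prime: all elements of order `5` are conjugate.
-/

set_option autoImplicit false

namespace Pool.Agent.Lib.MP_bfe725_co

open Module

private theorem exc_ppd {q : ℕ} (hq : q = 2) : PPD 5 q 4 := by
  subst hq
  refine ⟨by norm_num, by norm_num, by norm_num, ?_⟩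
  intro k h0 h4
  interval_cases k <;> norm_num

private theorem exc_root (k : ℕ) (hk : ¬ 5 ∣ k) : ∃ j : ℕ, 2 ^ j ≡ k [MOD 5] := by
  have h : k % 5 = 1 ∨ k % 5 = 2 ∨ k % 5 = 3 ∨ k % 5 = 4 := by omega
  rcases h with h | h | h | h
  · exact ⟨0, by unfold Nat.ModEq; omega⟩
  · exact ⟨1, by unfold Nat.ModEq; omega⟩
  · exact ⟨3, by unfold Nat.ModEq; omega⟩
  · exact ⟨2, by unfold Nat.ModEq; omega⟩

private theorem exc_hom {F : Type} [Field F] [Finite F] (hF : Nat.card F = 2) :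
    ∃ φ : ZMod 2 →+* F, True := by
  haveI := Fintype.ofFinite F
  haveI : Fact (Nat.Prime 2) := ⟨Nat.prime_two⟩
  haveI : CharP F 2 := charP_of_card_eq_prime (by rw [← Nat.card_eq_fintype_card, hF])
  exact ⟨ZMod.castHom (dvd_refl 2) F, trivial⟩

/-! ### The linear group -/

private def excX : Matrix (Fin 6) (Fin 6) (ZMod 2) :=
  !![0, 0, 0, 1, 0, 0; 1, 0, 0, 1, 0, 0; 0, 1, 0, 1, 0, 0; 0, 0, 1, 1, 0, 0; 0, 0, 0, 0, 1, 0;
    0, 0, 0, 0, 0, 1]

private def excY : Matrix (Fin 6) (Fin 6) (ZMod 2) :=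
  !![1, 0, 1, 0, 0, 0; 0, 0, 1, 1, 0, 0; 0, 1, 1, 0, 0, 0; 0, 0, 1, 0, 0, 0; 0, 0, 0, 0, 1, 0;
    0, 0, 0, 0, 0, 1]

private theorem excX_pow : excX * excX * excX * excX * excX = 1 := by decide +kernel

private theorem excY_pow : excY * excY * excY * excY = 1 := by decide +kernel

private theorem excXY : excY * excX = excX * excX * excY := by decide +kernel

private theorem exc_det {A : Matrix (Fin 6) (Fin 6) (ZMod 2)} {n : ℕ} (hn : n ≠ 0)
    (h : A ^ n = 1) : A.det = 1 := by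
  have h1 : A.det ^ n = 1 := by rw [← Matrix.det_pow, h, Matrix.det_one]
  have h2 : ∀ a : ZMod 2, a ≠ 0 → a = 1 := by decide
  refine h2 _ fun h0 => ?_
  rw [h0, zero_pow hn] at h1
  exact zero_ne_one h1

theorem sl6_conj {F : Type} [Field F] [Finite F] (hF : Nat.card F = 2)
    (x y : Matrix.SpecialLinearGroup (Fin 6) F) (hx : orderOf x = 5) (hy : orderOf y = 5) :
    IsConj x y := by
  obtain ⟨φ, -⟩ := exc_hom hF
  have hX5 : excX ^ 5 = 1 := by
    rw [← excX_pow]; simp only [pow_succ, pow_zero, one_mul]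
  have hY4 : excY ^ 4 = 1 := by
    rw [← excY_pow]; simp only [pow_succ, pow_zero, one_mul]
  let X0 : Matrix.SpecialLinearGroup (Fin 6) (ZMod 2) := ⟨excX, exc_det (by norm_num) hX5⟩
  let Y0 : Matrix.SpecialLinearGroup (Fin 6) (ZMod 2) := ⟨excY, exc_det (by norm_num) hY4⟩
  have hX0 : X0 ^ 5 = 1 := Subtype.ext hX5
  have hYX : Y0 * X0 = X0 ^ 2 * Y0 := by
    refine Subtype.ext ?_
    show excY * excX = excX ^ 2 * excY
    rw [excXY, pow_two]
  set X := Matrix.SpecialLinearGroup.map φ X0 with hX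
  set Y := Matrix.SpecialLinearGroup.map φ Y0 with hY
  have h1 : X ^ 5 = 1 := by rw [hX, ← map_pow, hX0, map_one]
  have h2 : Y * X * Y⁻¹ = X ^ 2 := by
    rw [mul_inv_eq_iff_eq_mul, hX, hY, ← map_pow, ← map_mul, ← map_mul, hYX]
  have h3 : X ≠ 1 := by
    intro h
    have h4 : φ (excX 0 0) = (1 : Matrix (Fin 6) (Fin 6) F) 0 0 := by
      have := congrArg (fun g : Matrix.SpecialLinearGroup (Fin 6) F =>
        (g : Matrix (Fin 6) (Fin 6) F) 0 0) h
      exact this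
    have h5 : excX 0 0 = 0 := rfl
    rw [h5, map_zero, Matrix.one_apply_eq] at h4
    exact zero_ne_one h4
  haveI : Fact (Nat.Prime 5) := ⟨by norm_num⟩
  have h4 : orderOf X = 5 := orderOf_eq_prime h1 h3
  let ρ : Matrix.SpecialLinearGroup (Fin 6) F →* ((Fin 6 → F) →ₗ[F] (Fin 6 → F)) :=
    { toFun := fun g => Matrix.toLin' (g : Matrix (Fin 6) (Fin 6) F)
      map_one' := by
        rw [Matrix.SpecialLinearGroup.coe_one, Matrix.toLin'_one]; rfl
      map_mul' := fun a b => by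
        rw [Matrix.SpecialLinearGroup.coe_mul, Matrix.toLin'_mul]; rfl }
  have hρ : Function.Injective ρ := fun a b hab =>
    Subtype.ext (Matrix.toLin'.injective hab)
  have hcyc : ∀ P : Subgroup (Matrix.SpecialLinearGroup (Fin 6) F), IsPGroup 5 P → IsCyclic P :=
    fun P hP => lin_cyclic ρ hρ (exc_ppd hF) (by rw [Module.finrank_fin_fun]; norm_num) P hP
  exact conj_of_cyclic (by norm_num) hcyc h4 h2 exc_root x y hx hy

/-! ### The symplectic group -/

private def excS : Matrix (Fin 3 ⊕ Fin 3) (Fin 3 ⊕ Fin 3) (ZMod 2) :=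
  Matrix.fromBlocks !![1, 0, 0; 1, 1, 0; 0, 0, 1] !![1, 1, 0; 0, 0, 0; 0, 0, 0]
    !![1, 0, 0; 1, 1, 0; 0, 0, 0] !![0, 0, 0; 0, 1, 0; 0, 0, 1]

private def excR : Matrix (Fin 3 ⊕ Fin 3) (Fin 3 ⊕ Fin 3) (ZMod 2) :=
  Matrix.fromBlocks !![1, 0, 0; 1, 0, 0; 0, 0, 1] !![1, 1, 0; 1, 0, 0; 0, 0, 0]
    !![1, 1, 0; 0, 1, 0; 0, 0, 0] !![1, 1, 0; 1, 0, 0; 0, 0, 1]

private theorem excS_pow : excS * excS * excS * excS * excS = 1 := by decide +kernel

private theorem excSR : excR * excS = excS * excS * excR := by decide +kernel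

private theorem excS_symp : excS * Matrix.J (Fin 3) (ZMod 2) * excS.transpose
    = Matrix.J (Fin 3) (ZMod 2) := by decide +kernel

private theorem excR_symp : excR * Matrix.J (Fin 3) (ZMod 2) * excR.transpose
    = Matrix.J (Fin 3) (ZMod 2) := by decide +kernel

private theorem exc_J {F : Type} [Field F] (φ : ZMod 2 →+* F) :
    (Matrix.J (Fin 3) (ZMod 2)).map φ = Matrix.J (Fin 3) F := by
  unfold Matrix.J
  rw [Matrix.fromBlocks_map]
  congr 1
  · ext i j; simp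
  · ext i j
    rw [Matrix.map_apply, Matrix.neg_apply, Matrix.neg_apply, map_neg, Matrix.one_apply,
      Matrix.one_apply]
    split_ifs
    · rw [map_one]
    · rw [map_zero]
  · ext i j; simp [Matrix.one_apply, apply_ite φ]
  · ext i j; simp

private theorem exc_symp {F : Type} [Field F] (φ : ZMod 2 →+* F)
    {A : Matrix (Fin 3 ⊕ Fin 3) (Fin 3 ⊕ Fin 3) (ZMod 2)}
    (h : A * Matrix.J (Fin 3) (ZMod 2) * A.transpose = Matrix.J (Fin 3) (ZMod 2)) :
    φ.mapMatrix A ∈ Matrix.symplecticGroup (Fin 3) F := by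
  rw [SymplecticGroup.mem_iff, ← exc_J φ]
  have h1 : (φ.mapMatrix A).transpose = φ.mapMatrix A.transpose := rfl
  have h2 : (Matrix.J (Fin 3) (ZMod 2)).map φ = φ.mapMatrix (Matrix.J (Fin 3) (ZMod 2)) := rfl
  rw [h1, h2, ← map_mul, ← map_mul, h]

theorem sp6_conj {F : Type} [Field F] [Finite F] (hF : Nat.card F = 2)
    (x y : Matrix.symplecticGroup (Fin 3) F) (hx : orderOf x = 5) (hy : orderOf y = 5) :
    IsConj x y := by
  obtain ⟨φ, -⟩ := exc_hom hF
  let X : Matrix.symplecticGroup (Fin 3) F := ⟨φ.mapMatrix excS, exc_symp φ excS_symp⟩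
  let Y : Matrix.symplecticGroup (Fin 3) F := ⟨φ.mapMatrix excR, exc_symp φ excR_symp⟩
  have h1 : X ^ 5 = 1 := by
    refine Subtype.ext ?_
    show (φ.mapMatrix excS) ^ 5 = 1
    rw [← map_pow]
    have : excS ^ 5 = 1 := by
      rw [← excS_pow]; simp only [pow_succ, pow_zero, one_mul]
    rw [this, map_one]
  have h2 : Y * X * Y⁻¹ = X ^ 2 := by
    rw [mul_inv_eq_iff_eq_mul]
    refine Subtype.ext ?_
    show φ.mapMatrix excR * φ.mapMatrix excS = (φ.mapMatrix excS) ^ 2 * φ.mapMatrix excR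
    rw [← map_pow, ← map_mul, ← map_mul, excSR, pow_two]
  have h3 : X ≠ 1 := by
    intro h
    have h4 : φ (excS (Sum.inl 0) (Sum.inr 0))
        = (1 : Matrix (Fin 3 ⊕ Fin 3) (Fin 3 ⊕ Fin 3) F) (Sum.inl 0) (Sum.inr 0) := by
      have := congrArg (fun g : Matrix.symplecticGroup (Fin 3) F =>
        (g : Matrix (Fin 3 ⊕ Fin 3) (Fin 3 ⊕ Fin 3) F) (Sum.inl 0) (Sum.inr 0)) h
      exact this
    have h5 : excS (Sum.inl 0) (Sum.inr 0) = 1 := rfl
    rw [h5, map_one, Matrix.one_apply_ne (by simp)] at h4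
    exact one_ne_zero h4
  haveI : Fact (Nat.Prime 5) := ⟨by norm_num⟩
  have h4 : orderOf X = 5 := orderOf_eq_prime h1 h3
  haveI : Finite (Matrix (Fin 3 ⊕ Fin 3) (Fin 3 ⊕ Fin 3) F) := inferInstance
  let ρ : Matrix.symplecticGroup (Fin 3) F →*
      ((Fin 3 ⊕ Fin 3 → F) →ₗ[F] (Fin 3 ⊕ Fin 3 → F)) :=
    { toFun := fun g => Matrix.toLin' (g : Matrix (Fin 3 ⊕ Fin 3) (Fin 3 ⊕ Fin 3) F)
      map_one' := by
        show Matrix.toLin' (1 : Matrix (Fin 3 ⊕ Fin 3) (Fin 3 ⊕ Fin 3) F) = 1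
        rw [Matrix.toLin'_one]; rfl
      map_mul' := fun a b => by
        show Matrix.toLin' ((a : Matrix (Fin 3 ⊕ Fin 3) (Fin 3 ⊕ Fin 3) F)
          * (b : Matrix (Fin 3 ⊕ Fin 3) (Fin 3 ⊕ Fin 3) F)) = _
        rw [Matrix.toLin'_mul]; rfl }
  have hρ : Function.Injective ρ := fun a b hab =>
    Subtype.ext (Matrix.toLin'.injective hab)
  have hcyc : ∀ P : Subgroup (Matrix.symplecticGroup (Fin 3) F), IsPGroup 5 P → IsCyclic P :=
    fun P hP => lin_cyclic ρ hρ (exc_ppd hF)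
      (by rw [Module.finrank_fintype_fun_eq_card, Fintype.card_sum, Fintype.card_fin]; norm_num)
      P hP
  exact conj_of_cyclic (by norm_num) hcyc h4 h2 exc_root x y hx hy

end Pool.Agent.Lib.MP_bfe725_co
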