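import Pool.Agent.Lib.MP_bfe725_co.Crit
import Pool.Agent.Lib.MP_bfe725_co.CritQuot

/-!
# Auxiliary facts for the final theorems

(helper93, problem MP_bfe725_co)
-/

set_option autoImplicit false

namespace Pool.Agent.Lib.MP_bfe725_co

/-- the characteristic of a finite field -/
theorem fin_char (F : Type) [Field F] [Finite F] : ∃ r : ℕ, r.Prime ∧ CharP F r := by
  obtain ⟨r, hr⟩ := CharP.exists F
  exact ⟨r, CharP.char_is_prime F r, hr⟩

theorem fin_card_ge (F : Type) [Field F] [Finite F] : 2 ≤ Nat.card F :=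
  Finite.one_lt_card

/-- from `CritZ` to the quotient by the centre -/
theorem CritZ.isGreatest {H : Type} [Group H] [Finite H] {p r : ℕ}
    (h : CritZ H (Subgroup.center H) p r) :
    IsGreatest (pcpDegrees ((H ⧸ Subgroup.center H) × (H ⧸ Subgroup.center H))) 3 :=
  (h.quot le_rfl).isGreatest

/-- groups all of whose elements of order five are conjugate, modulo the centre -/
theorem fin_five {H : Type} [Group H] [Finite H]
    (hconj : ∀ x y : H, orderOf x = 5 → orderOf y = 5 → IsConj x y) (h5 : 5 ∣ Nat.card H) :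
    IsGreatest (pcpDegrees ((H ⧸ Subgroup.center H) × (H ⧸ Subgroup.center H))) 3 := by
  have hp : Nat.Prime 5 := by norm_num
  have hf : Fact (Nat.Prime 5) := ⟨hp⟩
  have hZ : ¬ 5 ∣ Nat.card (Subgroup.center H) := by
    intro hd
    obtain ⟨z, hz⟩ := exists_prime_orderOf_dvd_card' 5 hd
    have hz1 : orderOf (z : H) = 5 := by rw [Subgroup.orderOf_coe, hz]
    have hz2 : orderOf ((z : H) ^ 2) = 5 := by
      rw [orderOf_pow, hz1]; norm_num
    obtain ⟨g, hg⟩ := isConj_iff.mp (hconj _ _ hz1 hz2)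
    have hc : g * (z : H) = (z : H) * g := Subgroup.mem_center_iff.mp z.2 g
    rw [hc, mul_inv_cancel_right, sq] at hg
    have h1 : (z : H) = 1 := by
      have := mul_left_cancel (a := (z : H)) (b := 1) (c := (z : H)) (by rw [mul_one]; exact hg)
      exact this.symm
    rw [h1, orderOf_one] at hz1
    exact absurd hz1 (by norm_num)
  have hdvd : 5 ∣ Nat.card (H ⧸ Subgroup.center H) := by
    have := Subgroup.card_eq_card_quotient_mul_card_subgroup (Subgroup.center H)
    rw [this] at h5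
    exact (hp.dvd_mul.mp h5).resolve_right hZ
  have hc := conj_quot (Z := Subgroup.center H) le_rfl hp hZ hconj
  have hnt : Nontrivial (H ⧸ Subgroup.center H) := by
    rw [← Finite.one_lt_card_iff_nontrivial]
    exact lt_of_lt_of_le (by norm_num) (Nat.le_of_dvd Nat.card_pos hdvd)
  exact ⟨three_mem, fun r hr => le_three hp hdvd hc hr⟩

/-- nonzero solutions -/
theorem fin_count {V : Type} [AddCommGroup V] [Finite V] (q : V → Prop) (h0 : q 0) :
    Nat.card {v : V // q v} = Nat.card {v : V // v ≠ 0 ∧ q v} + 1 := by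
  classical
  have := Fintype.ofFinite V
  rw [Nat.card_eq_fintype_card, Nat.card_eq_fintype_card, Fintype.card_subtype,
    Fintype.card_subtype]
  have : (Finset.univ.filter fun v : V => q v) =
      insert 0 (Finset.univ.filter fun v : V => v ≠ 0 ∧ q v) := by
    ext v
    simp only [Finset.mem_filter, Finset.mem_univ, true_and, Finset.mem_insert]
    constructor
    · intro h
      by_cases hv : v = 0
      · exact Or.inl hv
      · exact Or.inr ⟨hv, h⟩
    · rintro (rfl | h)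
      · exact h0
      · exact h.2
  rw [this, Finset.card_insert_of_notMem (by simp)]

/-- primitive prime divisors of `q ^ (2 m) - 1` divide `q ^ m + 1` -/
theorem fin_ppd_plus {p q m : ℕ} (hq : 2 ≤ q) (hm : 0 < m) (h : PPD p q (2 * m)) :
    (p : ℤ) ∣ (q : ℤ) ^ m + 1 := by
  obtain ⟨hp, -, h1, h2⟩ := h
  have h3 := h2 m hm (by omega)
  have e1 : 1 ≤ q ^ (2 * m) := Nat.one_le_pow _ _ (by omega)
  have e2 : 1 ≤ q ^ m := Nat.one_le_pow _ _ (by omega)
  have h1' : (p : ℤ) ∣ (q : ℤ) ^ (2 * m) - 1 := by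
    have := Int.natCast_dvd_natCast.mpr h1
    rwa [Nat.cast_sub e1, Nat.cast_pow, Nat.cast_one] at this
  have h3' : ¬ (p : ℤ) ∣ (q : ℤ) ^ m - 1 := by
    intro hd
    apply h3
    rw [← Int.natCast_dvd_natCast, Nat.cast_sub e2, Nat.cast_pow, Nat.cast_one]
    exact hd
  have e3 : (q : ℤ) ^ (2 * m) - 1 = ((q : ℤ) ^ m - 1) * ((q : ℤ) ^ m + 1) := by
    rw [mul_comm 2 m, pow_mul]; ring
  rw [e3] at h1'
  exact ((Nat.prime_iff_prime_int.mp hp).dvd_or_dvd h1').resolve_left h3'

theorem fin_ppd_sq {p q m : ℕ} (hm : 0 < m) (h : PPD p q (2 * m)) : PPD p (q ^ 2) m := by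
  obtain ⟨hp, -, h1, h2⟩ := h
  refine ⟨hp, hm, by rw [← pow_mul]; exact h1, fun k hk hkm => ?_⟩
  rw [← pow_mul]
  exact h2 _ (by omega) (by omega)

/-! ### elements of order five in `SL₆(2)` and `Sp₆(2)` -/

theorem fin_charP {F : Type} [Field F] [Finite F] (hF : Nat.card F = 2) : CharP F 2 := by
  have := Fintype.ofFinite F
  have hf : Fact (Nat.Prime 2) := ⟨Nat.prime_two⟩
  exact charP_of_card_eq_prime (by rw [← hF, Nat.card_eq_fintype_card])

/-- an element of order five of `SL₆(2)` -/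
def finX : Matrix (Fin 6) (Fin 6) (ZMod 2) :=
  !![0, 0, 0, 1, 0, 0; 1, 0, 0, 1, 0, 0; 0, 1, 0, 1, 0, 0; 0, 0, 1, 1, 0, 0;
    0, 0, 0, 0, 1, 0; 0, 0, 0, 0, 0, 1]

theorem finX_pow : finX ^ 5 = 1 := by decide +kernel

theorem finX_ne : finX ≠ 1 := by decide +kernel

theorem fin_det {A : Matrix (Fin 6) (Fin 6) (ZMod 2)} {k : ℕ} (hk : k ≠ 0) (hA : A ^ k = 1) :
    A.det = 1 := by
  have h1 : A.det ^ k = 1 := by rw [← Matrix.det_pow, hA, Matrix.det_one]
  have h2 : ∀ a : ZMod 2, a = 0 ∨ a = 1 := by decide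
  rcases h2 A.det with h | h
  · rw [h, zero_pow hk] at h1
    exact absurd h1 (by decide)
  · exact h

theorem sl6_dvd {F : Type} [Field F] [Finite F] (hF : Nat.card F = 2) :
    5 ∣ Nat.card (Matrix.SpecialLinearGroup (Fin 6) F) := by
  have := fin_charP hF
  have hf : Fact (Nat.Prime 5) := ⟨by norm_num⟩
  set c : ZMod 2 →+* F := ZMod.castHom (dvd_refl 2) F with hc
  have hdX : (c.mapMatrix finX).det = 1 := by
    rw [← RingHom.map_det, fin_det (by norm_num) finX_pow, map_one]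
  have hinj : Function.Injective
      (c.mapMatrix : Matrix (Fin 6) (Fin 6) (ZMod 2) →+* Matrix (Fin 6) (Fin 6) F) := by
    intro a b hab
    ext i j
    exact c.injective (congrFun (congrFun hab i) j)
  let X : Matrix.SpecialLinearGroup (Fin 6) F := ⟨c.mapMatrix finX, hdX⟩
  have h : orderOf X = 5 := by
    apply orderOf_eq_prime
    · apply Subtype.ext
      show (c.mapMatrix finX) ^ 5 = 1
      rw [← map_pow, finX_pow, map_one]
    · intro h
      have h' : c.mapMatrix finX = 1 :=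
        congrArg (fun A : Matrix.SpecialLinearGroup (Fin 6) F => A.1) h
      exact finX_ne (hinj (by rw [h', map_one]))
  rw [← h]
  exact orderOf_dvd_natCard _

/-- an element of order five of `Sp₆(2)` -/
def finX' : Matrix (Fin 3 ⊕ Fin 3) (Fin 3 ⊕ Fin 3) (ZMod 2) :=
  Matrix.fromBlocks !![0, 0, 0; 0, 0, 0; 0, 0, 1] !![0, 1, 0; 1, 1, 0; 0, 0, 0]
    !![1, 1, 0; 1, 0, 0; 0, 0, 0] !![0, 1, 0; 1, 1, 0; 0, 0, 1]

theorem finX'_pow : finX' ^ 5 = 1 := by decide +kernel

theorem finX'_ne : finX' ≠ 1 := by decide +kernel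

theorem finX'_mem : finX' ∈ Matrix.symplecticGroup (Fin 3) (ZMod 2) := by
  rw [SymplecticGroup.mem_iff]
  decide +kernel

/-- entrywise image of a symplectic matrix -/
theorem fin_mem {R F : Type} [CommRing R] [Field F] (c : R →+* F)
    {A : Matrix (Fin 3 ⊕ Fin 3) (Fin 3 ⊕ Fin 3) R}
    (hA : A ∈ Matrix.symplecticGroup (Fin 3) R) :
    c.mapMatrix A ∈ Matrix.symplecticGroup (Fin 3) F := by
  rw [RingHom.mapMatrix_apply]
  exact SymplecticGroup.map_mem hA c

theorem fin_sp {F : Type} [Field F] [Finite F] (c : ZMod 2 →+* F)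
    {X : Matrix (Fin 3 ⊕ Fin 3) (Fin 3 ⊕ Fin 3) (ZMod 2)}
    (hX : X ∈ Matrix.symplecticGroup (Fin 3) (ZMod 2)) (h5 : X ^ 5 = 1) (h1 : X ≠ 1) :
    5 ∣ Nat.card (Matrix.symplecticGroup (Fin 3) F) := by
  have hf : Fact (Nat.Prime 5) := ⟨by norm_num⟩
  have hinj : Function.Injective (c.mapMatrix : Matrix (Fin 3 ⊕ Fin 3) (Fin 3 ⊕ Fin 3) (ZMod 2)
      →+* Matrix (Fin 3 ⊕ Fin 3) (Fin 3 ⊕ Fin 3) F) := by
    intro a b hab
    ext i j
    exact c.injective (congrFun (congrFun hab i) j)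
  have h : orderOf (⟨c.mapMatrix X, fin_mem c hX⟩ : Matrix.symplecticGroup (Fin 3) F) = 5 := by
    apply orderOf_eq_prime
    · apply Subtype.ext
      show (c.mapMatrix X) ^ 5 = 1
      rw [← map_pow, h5, map_one]
    · intro h
      have h' : c.mapMatrix X = 1 := congrArg Subtype.val h
      exact h1 (hinj (by rw [h', map_one]))
  rw [← h]
  exact orderOf_dvd_natCard _

theorem sp6_dvd {F : Type} [Field F] [Finite F] (hF : Nat.card F = 2) :
    5 ∣ Nat.card (Matrix.symplecticGroup (Fin 3) F) := by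
  have := fin_charP hF
  exact fin_sp (ZMod.castHom (dvd_refl 2) F) finX'_mem finX'_pow finX'_ne

end Pool.Agent.Lib.MP_bfe725_co
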