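import Pool.Agent.Lib.MP_bfe725_co.FinalAux

/-!
# Transport along isomorphisms and groups with one class of elements of order `p`

(helper93, problem MP_bfe725_co)
-/

set_option autoImplicit false

namespace Pool.Agent.Lib.MP_bfe725_co

theorem pcpDegrees_subset {G K : Type} [Group G] [Group K] (e : G ≃* K) :
    pcpDegrees G ⊆ pcpDegrees K := by
  rintro r ⟨s, hs, U, hG, hU, hd⟩
  refine ⟨s, hs, fun i => (U i).map e.toMonoidHom, ?_, fun i => ?_, fun i j hij => ?_⟩
  · rw [← hG]
    exact (Nat.card_congr e.toEquiv).symm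
  · rw [← hU i]
    exact (Nat.card_congr ((U i).equivMapOfInjective e.toMonoidHom e.injective).toEquiv).symm
  · rw [← Subgroup.map_inf _ _ _ e.injective, hd i j hij, Subgroup.map_bot]

theorem pcpDegrees_congr {G K : Type} [Group G] [Group K] (e : G ≃* K) :
    pcpDegrees G = pcpDegrees K :=
  Set.Subset.antisymm (pcpDegrees_subset e) (pcpDegrees_subset e.symm)

theorem isGreatest_congr {G K : Type} [Group G] [Group K] (e : Nonempty (G ≃* K))
    (h : IsGreatest (pcpDegrees (K × K)) 3) : IsGreatest (pcpDegrees (G × G)) 3 := by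
  obtain ⟨e⟩ := e
  rwa [pcpDegrees_congr (MulEquiv.prodCongr e e)]

/-- groups all of whose elements of order `p` are conjugate, modulo the centre -/
theorem fin_prime {H : Type} [Group H] [Finite H] {p : ℕ} (hp : p.Prime) (h3 : 3 ≤ p)
    (hconj : ∀ x y : H, orderOf x = p → orderOf y = p → IsConj x y) (h5 : p ∣ Nat.card H) :
    IsGreatest (pcpDegrees ((H ⧸ Subgroup.center H) × (H ⧸ Subgroup.center H))) 3 := by
  have hf : Fact (Nat.Prime p) := ⟨hp⟩
  have hZ : ¬ p ∣ Nat.card (Subgroup.center H) := by
    intro hd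
    obtain ⟨z, hz⟩ := exists_prime_orderOf_dvd_card' p hd
    have hz1 : orderOf (z : H) = p := by rw [Subgroup.orderOf_coe, hz]
    have hz2 : orderOf ((z : H) ^ 2) = p := by
      rw [orderOf_pow, hz1]
      have : Nat.gcd p 2 = 1 := by
        rw [← Nat.coprime_iff_gcd_eq_one, Nat.coprime_primes hp Nat.prime_two]
        omega
      rw [this, Nat.div_one]
    obtain ⟨g, hg⟩ := isConj_iff.mp (hconj _ _ hz1 hz2)
    have hc : g * (z : H) = (z : H) * g := Subgroup.mem_center_iff.mp z.2 g
    rw [hc, mul_inv_cancel_right, sq] at hg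
    have h1 : (z : H) = 1 := by
      have := mul_left_cancel (a := (z : H)) (b := 1) (c := (z : H)) (by rw [mul_one]; exact hg)
      exact this.symm
    rw [h1, orderOf_one] at hz1
    omega
  have hdvd : p ∣ Nat.card (H ⧸ Subgroup.center H) := by
    have := Subgroup.card_eq_card_quotient_mul_card_subgroup (Subgroup.center H)
    rw [this] at h5
    exact (hp.dvd_mul.mp h5).resolve_right hZ
  have hc := conj_quot (Z := Subgroup.center H) le_rfl hp hZ hconj
  have hnt : Nontrivial (H ⧸ Subgroup.center H) := by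
    rw [← Finite.one_lt_card_iff_nontrivial]
    exact lt_of_lt_of_le (by omega) (Nat.le_of_dvd Nat.card_pos hdvd)
  exact ⟨three_mem, fun r hr => le_three hp hdvd hc hr⟩

end Pool.Agent.Lib.MP_bfe725_co
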