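import Pool.Agent.Lib.MP_bfe725_co.Defs

set_option autoImplicit false

namespace Pool.Agent.Lib.MP_bfe725_co

/-- Complementary subgroups meet all conjugates of each other trivially. -/
theorem no_common_conj {G : Type} [Group G] [Finite G] {A B : Subgroup G}
    (hcard : Nat.card A * Nat.card B = Nat.card G) (hAB : A ⊓ B = ⊥) {a b g : G}
    (ha : a ∈ A) (hb : b ∈ B) (hab : g * a * g⁻¹ = b) : a = 1 := by
  have hc : Subgroup.IsComplement' B A := by
    apply Subgroup.isComplement'_of_card_mul_and_disjoint
    · rw [mul_comm]; exact hcard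
    · rw [disjoint_iff, inf_comm]; exact hAB
  obtain ⟨⟨u, v⟩, huv⟩ := hc.2 g
  -- `g = u * v` with `u ∈ B`, `v ∈ A`
  have hu : (u : G) ∈ B := u.2
  have hv : (v : G) ∈ A := v.2
  simp only at huv
  have h1 : (v : G) * a * (v : G)⁻¹ = (u : G)⁻¹ * b * (u : G) := by
    rw [← hab, ← huv]
    group
  have h2 : (v : G) * a * (v : G)⁻¹ ∈ A := A.mul_mem (A.mul_mem hv ha) (A.inv_mem hv)
  have h3 : (v : G) * a * (v : G)⁻¹ ∈ B := by
    rw [h1]
    exact B.mul_mem (B.mul_mem (B.inv_mem hu) hb) hu
  have h4 : (v : G) * a * (v : G)⁻¹ ∈ A ⊓ B := ⟨h2, h3⟩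
  rw [hAB, Subgroup.mem_bot] at h4
  have : (v : G) * a = v := by
    have := congrArg (· * (v : G)) h4
    simpa using this
  simpa using this

/-- The trivial partial congruence partition of degree three. -/
theorem three_mem {H : Type} [Group H] [Finite H] [Nontrivial H] : 3 ∈ pcpDegrees (H × H) := by
  refine ⟨Nat.card H, Finite.one_lt_card, ![Subgroup.prod ⊤ ⊥, Subgroup.prod ⊥ ⊤,
    (MonoidHom.prod (MonoidHom.id H) (MonoidHom.id H)).range], ?_, ?_, ?_⟩
  · rw [Nat.card_prod, sq]
  · intro i
    fin_cases i
    · show Nat.card (Subgroup.prod (⊤ : Subgroup H) (⊥ : Subgroup H)) = _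
      rw [Nat.card_congr (Subgroup.prodEquiv (⊤ : Subgroup H) (⊥ : Subgroup H)).toEquiv,
        Nat.card_prod]
      simp
    · show Nat.card (Subgroup.prod (⊥ : Subgroup H) (⊤ : Subgroup H)) = _
      rw [Nat.card_congr (Subgroup.prodEquiv (⊥ : Subgroup H) (⊤ : Subgroup H)).toEquiv,
        Nat.card_prod]
      simp
    · show Nat.card (MonoidHom.prod (MonoidHom.id H) (MonoidHom.id H)).range = _
      apply Nat.card_congr
      refine (MonoidHom.ofInjective (f := MonoidHom.prod (MonoidHom.id H) (MonoidHom.id H)) ?_).symm.toEquiv
      intro a b h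
      simpa using h
  · have key : ∀ i j : Fin 3, i < j → (![Subgroup.prod ⊤ ⊥, Subgroup.prod ⊥ ⊤,
        (MonoidHom.prod (MonoidHom.id H) (MonoidHom.id H)).range] : Fin 3 → Subgroup (H × H)) i ⊓
        (![Subgroup.prod ⊤ ⊥, Subgroup.prod ⊥ ⊤,
        (MonoidHom.prod (MonoidHom.id H) (MonoidHom.id H)).range] : Fin 3 → Subgroup (H × H)) j = ⊥ := by
      intro i j hij
      rw [eq_bot_iff]
      rintro ⟨x, y⟩ ⟨h1, h2⟩
      rw [Subgroup.mem_bot]
      fin_cases i <;> fin_cases j
      · exact absurd hij (by decide)
      · change (x, y) ∈ Subgroup.prod ⊤ ⊥ at h1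
        change (x, y) ∈ Subgroup.prod ⊥ ⊤ at h2
        rw [Subgroup.mem_prod] at h1 h2
        have h3 : y = 1 := by simpa using h1.2
        have h4 : x = 1 := by simpa using h2.1
        rw [h3, h4]; rfl
      · change (x, y) ∈ Subgroup.prod ⊤ ⊥ at h1
        change (x, y) ∈ (MonoidHom.prod (MonoidHom.id H) (MonoidHom.id H)).range at h2
        rw [Subgroup.mem_prod] at h1
        obtain ⟨z, hz⟩ := h2
        have h3 : y = 1 := by simpa using h1.2
        have h4 : z = x := congrArg Prod.fst hz
        have h5 : z = y := congrArg Prod.snd hz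
        rw [← h4, h5, h3]; rfl
      · exact absurd hij (by decide)
      · exact absurd hij (by decide)
      · change (x, y) ∈ Subgroup.prod ⊥ ⊤ at h1
        change (x, y) ∈ (MonoidHom.prod (MonoidHom.id H) (MonoidHom.id H)).range at h2
        rw [Subgroup.mem_prod] at h1
        obtain ⟨z, hz⟩ := h2
        have h3 : x = 1 := by simpa using h1.1
        have h4 : z = x := congrArg Prod.fst hz
        have h5 : z = y := congrArg Prod.snd hz
        rw [← h5, h4, h3]; rfl
      · exact absurd hij (by decide)
      · exact absurd hij (by decide)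
      · exact absurd hij (by decide)
    intro i j hij
    rcases lt_or_gt_of_ne hij with h | h
    · exact key i j h
    · rw [inf_comm]; exact key j i h

/-- If all elements of order `p` of `H` are conjugate, every partial congruence partition of
`H × H` has degree at most three. -/
theorem le_three {H : Type} [Group H] [Finite H] {p : ℕ} (hp : p.Prime)
    (hpH : p ∣ Nat.card H) (hconj : ∀ x y : H, orderOf x = p → orderOf y = p → IsConj x y)
    {r : ℕ} (hr : r ∈ pcpDegrees (H × H)) : r ≤ 3 := by
  classical
  obtain ⟨s, hs, U, hG, hU, hint⟩ := hr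
  have hsH : s = Nat.card H := by
    rw [Nat.card_prod, ← sq] at hG
    exact (Nat.pow_left_injective (n := 2) (by norm_num) hG).symm
  have : Fact p.Prime := ⟨hp⟩
  -- every component contains an element of order `p`
  have hel : ∀ i, ∃ z : H × H, z ∈ U i ∧ orderOf z = p := by
    intro i
    have : p ∣ Nat.card (U i) := by rw [hU i, hsH]; exact hpH
    obtain ⟨z, hz⟩ := exists_prime_orderOf_dvd_card' p this
    exact ⟨z, z.2, by rw [← hz]; exact Subgroup.orderOf_coe z⟩
  choose z hzU hzp using hel
  -- orders of the coordinates
  have hco : ∀ i, ((z i).1 = 1 ∨ orderOf (z i).1 = p) ∧ ((z i).2 = 1 ∨ orderOf (z i).2 = p) := by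
    intro i
    have hpow : z i ^ p = 1 := by rw [← hzp i]; exact pow_orderOf_eq_one _
    have h1 : (z i).1 ^ p = 1 := congrArg Prod.fst hpow
    have h2 : (z i).2 ^ p = 1 := congrArg Prod.snd hpow
    constructor
    · rcases (Nat.dvd_prime hp).mp (orderOf_dvd_of_pow_eq_one h1) with h | h
      · left; exact orderOf_eq_one_iff.mp h
      · right; exact h
    · rcases (Nat.dvd_prime hp).mp (orderOf_dvd_of_pow_eq_one h2) with h | h
      · left; exact orderOf_eq_one_iff.mp h
      · right; exact h
  -- the three types
  let t : Fin r → Fin 3 := fun i => if (z i).1 = 1 then 0 else if (z i).2 = 1 then 1 else 2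
  have hne : ∀ i, z i ≠ 1 := by
    intro i h
    have := hzp i
    rw [h, orderOf_one] at this
    exact hp.one_lt.ne this
  have hinj : Function.Injective t := by
    intro i j hij
    by_contra hij'
    -- the two elements are conjugate in `H × H`
    have hcj : IsConj (z i) (z j) := by
      have c1 : IsConj (z i).1 (z j).1 := by
        by_cases hi : (z i).1 = 1
        · have ht : t i = 0 := if_pos hi
          have hj : (z j).1 = 1 := by
            by_contra hj
            have : t j ≠ 0 := by
              simp only [t, if_neg hj]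
              split_ifs <;> decide
            exact this (by rw [← hij, ht])
          rw [hi, hj]
        · have hj : (z j).1 ≠ 1 := by
            intro hj
            have ht : t j = 0 := if_pos hj
            have : t i ≠ 0 := by
              simp only [t, if_neg hi]
              split_ifs <;> decide
            exact this (by rw [hij, ht])
          exact hconj _ _ ((hco i).1.resolve_left hi) ((hco j).1.resolve_left hj)
      have c2 : IsConj (z i).2 (z j).2 := by
        by_cases hi : (z i).2 = 1
        · have hi1 : (z i).1 ≠ 1 := fun h => hne i (Prod.ext h hi)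
          have ht : t i = 1 := by simp only [t, if_neg hi1, if_pos hi]
          have hj : (z j).2 = 1 := by
            by_contra hj
            have : t j ≠ 1 := by
              simp only [t, if_neg hj]
              split_ifs <;> decide
            exact this (by rw [← hij, ht])
          rw [hi, hj]
        · have hj : (z j).2 ≠ 1 := by
            intro hj
            have hj1 : (z j).1 ≠ 1 := fun h => hne j (Prod.ext h hj)
            have ht : t j = 1 := by simp only [t, if_neg hj1, if_pos hj]
            have : t i ≠ 1 := by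
              simp only [t, if_neg hi]
              split_ifs <;> decide
            exact this (by rw [hij, ht])
          exact hconj _ _ ((hco i).2.resolve_left hi) ((hco j).2.resolve_left hj)
      rw [isConj_iff] at c1 c2 ⊢
      obtain ⟨g1, hg1⟩ := c1
      obtain ⟨g2, hg2⟩ := c2
      exact ⟨(g1, g2), Prod.ext hg1 hg2⟩
    obtain ⟨g, hg⟩ := isConj_iff.mp hcj
    apply hne i
    apply no_common_conj (A := U i) (B := U j) (g := g) _ (hint i j hij') (hzU i) (hzU j) hg
    rw [hU i, hU j, hG, sq]
  have := Fintype.card_le_of_injective t hinj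
  simpa using this

end Pool.Agent.Lib.MP_bfe725_co
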