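import Pool.Agent.Lib.MP_bfe725_co.Defs
import Pool.Agent.Lib.MP_bfe725_co.PCP

set_option autoImplicit false

/-! Moved from the hand-in PSLTwo of helper16 (superseded by Linear). -/

namespace Pool.Agent.Lib.MP_bfe725_co.PSLTwoLib

open Pool.Agent.Lib.MP_bfe725_co Matrix

variable {F : Type} [Field F] [Finite F]

open Polynomial in
theorem sum_sq (x : F) : ∃ a b : F, a ^ 2 + b ^ 2 = x := by
  classical
  have := Fintype.ofFinite F
  by_cases hF : ringChar F = 2
  · obtain ⟨r, hr⟩ := FiniteField.isSquare_of_char_two hF x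
    exact ⟨r, 0, by rw [hr]; ring⟩
  · let f : F[X] := X ^ 2
    let g : F[X] := X ^ 2 - C x
    obtain ⟨a, b, hab⟩ : ∃ a b, f.eval a + g.eval b = 0 :=
      FiniteField.exists_root_sum_quadratic (degree_X_pow 2) (degree_X_pow_sub_C (by decide) _)
        (FiniteField.odd_card_of_char_ne_two hF)
    refine ⟨a, b, ?_⟩
    rw [← sub_eq_zero]
    simpa only [f, g, eval_C, eval_X, eval_pow, eval_sub, ← add_sub_assoc] using hab

/-- The standard element `J` of order four (two in characteristic two). -/
def J : SpecialLinearGroup (Fin 2) F := ⟨!![0, -1; 1, 0], by simp [Matrix.det_fin_two_of]⟩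

/-- Non-scalar matrices of determinant one and trace zero are conjugate to `J`. -/
theorem conj_J (A : SpecialLinearGroup (Fin 2) F) (htr : A.1 0 0 + A.1 1 1 = 0)
    (hns : ¬ (A.1 0 1 = 0 ∧ A.1 1 0 = 0 ∧ A.1 0 0 = A.1 1 1)) :
    ∃ P : SpecialLinearGroup (Fin 2) F, A * P = P * J := by
  obtain ⟨M, hM⟩ := A
  obtain ⟨a, b, c, d, rfl⟩ : ∃ a b c d, M = !![a, b; c, d] :=
    ⟨M 0 0, M 0 1, M 1 0, M 1 1, by ext i j; fin_cases i <;> fin_cases j <;> rfl⟩
  simp only [of_apply, cons_val', cons_val_zero, cons_val_one, cons_val_fin_one] at htr hns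
  have hd : d = -a := by linear_combination htr
  subst hd
  rw [Matrix.det_fin_two_of] at hM
  have hdet : -(a * a) - b * c = 1 := by linear_combination hM
  -- it is enough to solve `c x ^ 2 - 2 a x y - b y ^ 2 = 1`
  have hM' : (!![a, b; c, -a] : Matrix (Fin 2) (Fin 2) F).det = 1 := by
    rw [Matrix.det_fin_two_of]; exact hM
  let B : SpecialLinearGroup (Fin 2) F := ⟨!![a, b; c, -a], hM'⟩
  change ∃ P : SpecialLinearGroup (Fin 2) F, B * P = P * J
  have hsuff : ∀ x y : F, c * x ^ 2 - 2 * a * x * y - b * y ^ 2 = 1 →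
      ∃ P : SpecialLinearGroup (Fin 2) F, B * P = P * J := by
    intro x y hxy
    refine ⟨⟨!![x, a * x + b * y; y, c * x - a * y], ?_⟩, ?_⟩
    · rw [Matrix.det_fin_two_of]
      linear_combination hxy
    · apply Subtype.ext
      change (!![a, b; c, -a] : Matrix (Fin 2) (Fin 2) F) *
        !![x, a * x + b * y; y, c * x - a * y] =
        !![x, a * x + b * y; y, c * x - a * y] * !![0, -1; 1, 0]
      rw [Matrix.mul_fin_two, Matrix.mul_fin_two]
      ext i j
      fin_cases i <;> fin_cases j
      · change a * x + b * y = x * 0 + (a * x + b * y) * 1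
        ring
      · change a * (a * x + b * y) + b * (c * x - a * y) = x * (-1) + (a * x + b * y) * 0
        linear_combination (-x) * hdet
      · change c * x + -a * y = y * 0 + (c * x - a * y) * 1
        ring
      · change c * (a * x + b * y) + -a * (c * x - a * y) = y * (-1) + (c * x - a * y) * 0
        linear_combination (-y) * hdet
  by_cases hc : c = 0
  · subst hc
    by_cases hb : b = 0
    · subst hb
      have h2a : 2 * a ≠ 0 := by
        intro h
        apply hns
        refine ⟨rfl, rfl, ?_⟩
        linear_combination h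
      have h3 : 2 * a * (-1 / (2 * a)) = -1 := by
        rw [mul_div_assoc', mul_div_cancel_left₀ _ h2a]
      apply hsuff (-1 / (2 * a)) 1
      linear_combination (-1 : F) * h3
    · obtain ⟨u, x, hux⟩ := sum_sq (-b)
      apply hsuff x ((u - a * x) / b)
      field_simp
      linear_combination (-1 : F) * hux - x ^ 2 * hdet
  · obtain ⟨u, y, huy⟩ := sum_sq c
    apply hsuff ((u + a * y) / c) y
    field_simp
    linear_combination huy + y ^ 2 * hdet

/-- All elements of order two of `PSL(2, F)` are conjugate. -/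
theorem psl_conj (g h : ProjectiveSpecialLinearGroup (Fin 2) F) (hg : orderOf g = 2)
    (hh : orderOf h = 2) : IsConj g h := by
  have key : ∀ g : ProjectiveSpecialLinearGroup (Fin 2) F, orderOf g = 2 →
      IsConj g ((J : SpecialLinearGroup (Fin 2) F) : ProjectiveSpecialLinearGroup (Fin 2) F) := by
    intro g hg
    obtain ⟨A, rfl⟩ := QuotientGroup.mk_surjective g
    have h1 : A ∉ Subgroup.center (SpecialLinearGroup (Fin 2) F) := by
      intro h
      rw [← QuotientGroup.eq_one_iff] at h
      rw [h, orderOf_one] at hg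
      exact absurd hg (by norm_num)
    have h2 : A ^ 2 ∈ Subgroup.center (SpecialLinearGroup (Fin 2) F) := by
      rw [← QuotientGroup.eq_one_iff, QuotientGroup.mk_pow]
      have := pow_orderOf_eq_one (A : ProjectiveSpecialLinearGroup (Fin 2) F)
      rwa [hg] at this
    obtain ⟨r, hr, hr2⟩ := Matrix.SpecialLinearGroup.mem_center_iff.mp h2
    have hns : ¬ (A.1 0 1 = 0 ∧ A.1 1 0 = 0 ∧ A.1 0 0 = A.1 1 1) := by
      rintro ⟨e1, e2, e3⟩
      apply h1
      rw [Matrix.SpecialLinearGroup.mem_center_iff]
      refine ⟨A.1 0 0, ?_, ?_⟩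
      · have := A.2
        rw [Matrix.det_fin_two, e1, e2, ← e3] at this
        rw [Fintype.card_fin, sq]
        simpa using this
      · ext i j
        fin_cases i <;> fin_cases j
        · simp
        · simpa using e1.symm
        · simpa using e2.symm
        · simpa using e3
    -- the trace vanishes
    have htr : A.1 0 0 + A.1 1 1 = 0 := by
      have hsq : ∀ i j, (A ^ 2).1 i j = A.1 i 0 * A.1 0 j + A.1 i 1 * A.1 1 j := by
        intro i j
        rw [sq, Matrix.SpecialLinearGroup.coe_mul, Matrix.mul_apply, Fin.sum_univ_two]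
      have e00 := hsq 0 0
      have e01 := hsq 0 1
      have e10 := hsq 1 0
      have e11 := hsq 1 1
      rw [show (A ^ 2).1 = Matrix.scalar (Fin 2) r from hr2.symm] at e00 e01 e10 e11
      simp only [Matrix.scalar_apply, Matrix.diagonal_apply_eq, ne_eq, zero_ne_one,
        not_false_eq_true, Matrix.diagonal_apply_ne, one_ne_zero] at e00 e01 e10 e11
      by_contra hne
      apply hns
      refine ⟨?_, ?_, ?_⟩
      · have : (A.1 0 0 + A.1 1 1) * A.1 0 1 = 0 := by linear_combination -e01
        exact (mul_eq_zero.mp this).resolve_left hne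
      · have : (A.1 0 0 + A.1 1 1) * A.1 1 0 = 0 := by linear_combination -e10
        exact (mul_eq_zero.mp this).resolve_left hne
      · have : (A.1 0 0 + A.1 1 1) * (A.1 0 0 - A.1 1 1) = 0 := by
          linear_combination e11 - e00
        exact sub_eq_zero.mp ((mul_eq_zero.mp this).resolve_left hne)
    obtain ⟨P, hP⟩ := conj_J A htr hns
    apply IsConj.symm
    rw [isConj_iff]
    refine ⟨(P : ProjectiveSpecialLinearGroup (Fin 2) F), ?_⟩
    rw [← QuotientGroup.mk_mul, ← QuotientGroup.mk_inv, ← QuotientGroup.mk_mul, ← hP]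
    congr 1
    group
  exact (key g hg).trans (key h hh).symm

omit [Finite F] in
/-- The element `J` gives an element of order two of `PSL(2, F)`. -/
theorem two_dvd : 2 ∣ Nat.card (ProjectiveSpecialLinearGroup (Fin 2) F) := by
  have h : orderOf ((J : SpecialLinearGroup (Fin 2) F) :
      ProjectiveSpecialLinearGroup (Fin 2) F) = 2 := by
    apply orderOf_eq_prime
    · rw [← QuotientGroup.mk_pow, QuotientGroup.eq_one_iff, Matrix.SpecialLinearGroup.mem_center_iff]
      refine ⟨-1, by simp, ?_⟩
      rw [sq, Matrix.SpecialLinearGroup.coe_mul]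
      ext i j
      fin_cases i <;> fin_cases j <;> simp [J, Matrix.mul_apply, Fin.sum_univ_two]
    · rw [Ne, QuotientGroup.eq_one_iff, Matrix.SpecialLinearGroup.mem_center_iff]
      rintro ⟨r, -, hr⟩
      have := congrFun (congrFun hr 1) 0
      simp [J] at this
  have h2 := orderOf_dvd_natCard ((J : SpecialLinearGroup (Fin 2) F) :
      ProjectiveSpecialLinearGroup (Fin 2) F)
  rwa [h] at h2

/-- For every finite field `F` the largest degree of a partial congruence partition of
`PSL(2, F) × PSL(2, F)` is three. -/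
theorem psl_two : ∀ (F : Type) [Field F] [Finite F],
    IsGreatest (pcpDegrees (ProjectiveSpecialLinearGroup (Fin 2) F ×
      ProjectiveSpecialLinearGroup (Fin 2) F)) 3 := by
  intro F _ _
  have hnt : Nontrivial (ProjectiveSpecialLinearGroup (Fin 2) F) := by
    rw [← Finite.one_lt_card_iff_nontrivial]
    exact lt_of_lt_of_le one_lt_two (Nat.le_of_dvd Nat.card_pos two_dvd)
  exact ⟨three_mem, fun r hr => le_three Nat.prime_two two_dvd psl_conj hr⟩

end Pool.Agent.Lib.MP_bfe725_co.PSLTwoLib
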