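import Pool.Agent.Lib.MP_bfe725_co.CDefs

/-!
# Module PBIG (helper22): subgroups containing a Sylow subgroup in the defining characteristic
-/

set_option autoImplicit false

namespace Pool.Agent.Lib.MP_bfe725_co

open Module

set_option linter.unusedSectionVars false
set_option linter.unusedVariables false

private theorem conj_into_pbig {H : Type} [Group H] [Finite H] {r : ℕ} (hr : r.Prime)
    {B S : Subgroup H} (hB : ¬ r ∣ B.index) (hS : IsPGroup r S) :
    ∃ g : H, ∀ s ∈ S, g * s * g⁻¹ ∈ B := by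
  have := Fact.mk hr
  have h1 : ¬ r ∣ Nat.card (H ⧸ B) := hB
  obtain ⟨x, hx⟩ := hS.nonempty_fixed_point_of_prime_not_dvd_card (H ⧸ B) h1
  obtain ⟨g, rfl⟩ := QuotientGroup.mk_surjective x
  refine ⟨g⁻¹, fun s hs => ?_⟩
  have h2 := hx ⟨s, hs⟩
  have h3 : ((s * g : H) : H ⧸ B) = (g : H ⧸ B) := h2
  rw [QuotientGroup.eq] at h3
  have h4 := B.inv_mem h3
  simpa [mul_assoc] using h4

section polar

variable {F V H : Type} [Field F] [Finite F] [AddCommGroup V] [Module F V] [Finite V]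
  [Group H] [Finite H] {P : Polar F V H} {Z : Subgroup H}

namespace Polar

omit [Finite F] [Finite V] [Finite H] in
theorem f_zero_left (y : V) : P.f 0 y = 0 := by
  have h := P.f_smul_left 0 0 y
  rw [zero_smul, zero_mul] at h
  exact h

omit [Finite F] [Finite V] [Finite H] in
theorem f_zero_right (y : V) : P.f y 0 = 0 := P.f_symm _ _ (P.f_zero_left y)

omit [Finite F] [Finite V] [Finite H] in
theorem f_sub_left (x y z : V) : P.f (x - y) z = P.f x z - P.f y z := by
  have h := P.f_add_left (x - y) y z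
  rw [sub_add_cancel] at h
  rw [h, add_sub_cancel_right]

omit [Finite F] [Finite V] [Finite H] in
theorem ρ_mul (a b : H) (z : V) : P.ρ (a * b) z = P.ρ a (P.ρ b z) := by
  rw [map_mul, Module.End.mul_apply]

omit [Finite F] [Finite V] [Finite H] in
theorem ρ_inv_apply (a : H) (z : V) : P.ρ a⁻¹ (P.ρ a z) = z := by
  rw [← ρ_mul, inv_mul_cancel, map_one, Module.End.one_apply]

omit [Finite F] [Finite V] [Finite H] in
theorem ρ_apply_inv (a : H) (z : V) : P.ρ a (P.ρ a⁻¹ z) = z := by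
  rw [← ρ_mul, mul_inv_cancel, map_one, Module.End.one_apply]

omit [Finite F] [Finite V] [Finite H] in
/-- `(h - 1) ^ 3 = 0` for the elements `h` of a root group -/
theorem root_cube (v : V) {h : H} (hh : h ∈ P.root v) (y : V) :
    (P.ρ h - 1) ((P.ρ h - 1) ((P.ρ h - 1) y)) = 0 := by
  obtain ⟨h1, h2⟩ := hh
  have h3 : P.f ((P.ρ h - 1) y) v = 0 := by
    rw [LinearMap.sub_apply, Module.End.one_apply, f_sub_left]
    conv_lhs =>
      congr
      · rw [← h1, P.f_inv]
      · skip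
    rw [sub_self]
  obtain ⟨c, hc⟩ := h2 _ h3
  have h4 : (P.ρ h - 1) ((P.ρ h - 1) y) = c • v := by
    rw [LinearMap.sub_apply _ _ ((P.ρ h - 1) y), Module.End.one_apply]
    exact hc
  rw [h4, LinearMap.sub_apply, Module.End.one_apply, map_smul, h1, sub_self]

omit [Finite F] [Finite V] [Finite H] in
theorem root_pow (v : V) {h : H} (hh : h ∈ P.root v) (y : V) (n : ℕ) :
    P.ρ (h ^ n) y = y + (n : F) • (P.ρ h - 1) y +
      ((n.choose 2 : ℕ) : F) • (P.ρ h - 1) ((P.ρ h - 1) y) := by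
  have hN : ∀ z, P.ρ h z = z + (P.ρ h - 1) z := by
    intro z
    rw [LinearMap.sub_apply, Module.End.one_apply]
    abel
  induction n with
  | zero => simp
  | succ n ih =>
    rw [pow_succ', ρ_mul, ih, map_add, map_add, map_smul, map_smul, hN y,
      hN ((P.ρ h - 1) y), hN ((P.ρ h - 1) ((P.ρ h - 1) y)), root_cube v hh, add_zero,
      Nat.choose_succ_succ' n 1, Nat.choose_one_right, Nat.cast_add, Nat.cast_add, Nat.cast_one]
    module

theorem root_isPGroup {r : ℕ} (hr : r.Prime) [CharP F r] (v : V) (hv : P.q v = 0) :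
    IsPGroup r (P.root v) := by
  rintro ⟨h, hh⟩
  refine ⟨2, ?_⟩
  apply Subtype.ext
  show h ^ r ^ 2 = 1
  apply P.inj
  rw [map_one]
  ext y
  rw [root_pow v hh y]
  have h1 : ((r ^ 2 : ℕ) : F) = 0 := by
    rw [CharP.cast_eq_zero_iff F r]
    exact dvd_pow_self r two_ne_zero
  have h2 : (((r ^ 2).choose 2 : ℕ) : F) = 0 := by
    rw [CharP.cast_eq_zero_iff F r]
    apply Nat.Prime.dvd_choose_pow hr two_ne_zero
    have := hr.two_le
    nlinarith
  rw [h1, h2, zero_smul, zero_smul, add_zero, add_zero, Module.End.one_apply]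

omit [Finite F] [Finite V] [Finite H] in
/-- conjugate root groups -/
theorem mem_root_conj (g : H) (v : V) {h : H} (hh : h ∈ P.root (P.ρ g v)) :
    g⁻¹ * h * g ∈ P.root v := by
  obtain ⟨h1, h2⟩ := hh
  constructor
  · rw [mul_assoc, ρ_mul, ρ_mul, h1, ρ_inv_apply]
  · intro y hy
    obtain ⟨c, hc⟩ := h2 (P.ρ g y) (by rw [P.f_inv]; exact hy)
    refine ⟨c, ?_⟩
    have h3 := congrArg (P.ρ g⁻¹) hc
    rw [map_sub, map_smul, ρ_inv_apply, ρ_inv_apply] at h3
    rw [mul_assoc, ρ_mul, ρ_mul]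
    exact h3

omit [Finite F] [Finite V] [Finite H] in
theorem root_conj_le {B : Subgroup H} {g : H} (hg : g ∈ B) {v : V} (hv : P.root v ≤ B) :
    P.root (P.ρ g v) ≤ B := by
  intro h hh
  have h1 := hv (mem_root_conj g v hh)
  have h2 : h = g * (g⁻¹ * h * g) * g⁻¹ := by group
  rw [h2]
  exact B.mul_mem (B.mul_mem hg h1) (B.inv_mem hg)

omit [Finite F] [Finite V] [Finite H] in
theorem root_smul_le (v : V) {c : F} (hc : c ≠ 0) : P.root v ≤ P.root (c • v) := by
  rintro h ⟨h1, h2⟩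
  constructor
  · rw [map_smul, h1]
  · intro y hy
    have hy' : P.f y v = 0 := by
      have h3 := P.f_smul_right c⁻¹ y (c • v) hy
      rwa [smul_smul, inv_mul_cancel₀ hc, one_smul] at h3
    obtain ⟨d, hd⟩ := h2 y hy'
    refine ⟨d * c⁻¹, ?_⟩
    rw [smul_smul, mul_assoc, inv_mul_cancel₀ hc, mul_one]
    exact hd

omit [Finite F] [Finite V] [Finite H] in
theorem root_smul_le' (v : V) {c : F} (hc : c ≠ 0) : P.root (c • v) ≤ P.root v := by
  have h := root_smul_le (P := P) (c • v) (inv_ne_zero hc)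
  rwa [smul_smul, inv_mul_cancel₀ hc, one_smul] at h

omit [Finite F] [Finite V] [Finite H] in
theorem q_zero {v : V} (hv : P.q v = 0) : P.q 0 = 0 := by
  have h := P.q_smul 0 v hv
  rwa [zero_smul] at h

omit [Finite F] [Finite V] [Finite H] in
theorem f_ne_symm {x y : V} (h : P.f x y ≠ 0) : P.f y x ≠ 0 := fun h' => h (P.f_symm _ _ h')

omit [Finite F] [Finite V] [Finite H] in
/-- an element without invariant totally singular subspaces moves every singular vector to a
nonorthogonal one by some power -/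
theorem exists_zpow_opp {x : H} (hNI : P.NI x) {v : V} (hv0 : v ≠ 0) (hv : P.q v = 0) :
    ∃ i : ℤ, P.f (P.ρ (x ^ i) v) v ≠ 0 := by
  by_contra hcon
  push Not at hcon
  have hij : ∀ i j : ℤ, P.f (P.ρ (x ^ i) v) (P.ρ (x ^ j) v) = 0 := by
    intro i j
    have h1 : x ^ i = x ^ j * x ^ (i - j) := by
      rw [← zpow_add]
      congr 1
      ring
    rw [h1, ρ_mul, P.f_inv]
    exact hcon _
  set T : Submodule F V := Submodule.span F (Set.range fun i : ℤ => P.ρ (x ^ i) v) with hT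
  have hfl : ∀ j : ℤ, ∀ s ∈ T, P.f s (P.ρ (x ^ j) v) = 0 := by
    intro j s hs
    induction hs using Submodule.span_induction with
    | mem s hs =>
      obtain ⟨i, rfl⟩ := hs
      exact hij i j
    | zero => exact P.f_zero_left _
    | add a b _ _ ha hb => rw [P.f_add_left, ha, hb, add_zero]
    | smul c a _ ha => rw [P.f_smul_left, ha, mul_zero]
  have hf : ∀ s ∈ T, ∀ t ∈ T, P.f s t = 0 := by
    intro s hs t ht
    induction ht using Submodule.span_induction with
    | mem t ht =>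
      obtain ⟨j, rfl⟩ := ht
      exact hfl j s hs
    | zero => exact P.f_zero_right _
    | add a b _ _ ha hb => rw [P.f_add_right, ha, hb, add_zero]
    | smul c a _ ha => exact P.f_smul_right c s a ha
  have hq : ∀ t ∈ T, P.q t = 0 := by
    intro t ht
    induction ht using Submodule.span_induction with
    | mem t ht =>
      obtain ⟨j, rfl⟩ := ht
      show P.q (P.ρ (x ^ j) v) = 0
      rw [P.q_inv]
      exact hv
    | zero => exact P.q_zero hv
    | add a b ha' hb' ha hb => exact P.q_add a b (hf a ha' b hb') ha hb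
    | smul c a _ ha => exact P.q_smul c a ha
  have hinv : ∀ t ∈ T, P.ρ x t ∈ T := by
    intro t ht
    induction ht using Submodule.span_induction with
    | mem t ht =>
      obtain ⟨j, rfl⟩ := ht
      show P.ρ x (P.ρ (x ^ j) v) ∈ T
      rw [← ρ_mul, ← zpow_one_add]
      exact Submodule.subset_span ⟨1 + j, rfl⟩
    | zero => rw [map_zero]; exact T.zero_mem
    | add a b _ _ ha hb => rw [map_add]; exact T.add_mem ha hb
    | smul c a _ ha => rw [map_smul]; exact T.smul_mem c ha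
  have hbot := hNI T hinv ⟨hf, hq⟩
  have hvT : v ∈ T := Submodule.subset_span ⟨0, by simp⟩
  rw [hbot, Submodule.mem_bot] at hvT
  exact hv0 hvT

theorem Geom.big (G : P.Geom Z) {p r : ℕ} (hp : p.Prime) (hr : r.Prime) [CharP F r]
    (hNI : ∀ x : H, orderOf x = p → P.NI x) (B : Subgroup H) (hZ : Z ≤ B)
    (hB : ¬ r ∣ B.index) (hpB : p ∣ Nat.card B) : B = ⊤ := by
  obtain ⟨v0, hv00, hv0⟩ := G.ex
  obtain ⟨g, hg⟩ := conj_into_pbig hr hB (root_isPGroup (P := P) hr v0 hv0)
  obtain ⟨v1, hv1⟩ : ∃ v1, v1 = P.ρ g v0 := ⟨_, rfl⟩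
  have hv10 : v1 ≠ 0 := by
    intro h
    apply hv00
    rw [← P.ρ_inv_apply g v0, ← hv1, h, map_zero]
  have hq1 : P.q v1 = 0 := by
    rw [hv1, P.q_inv]
    exact hv0
  have hr1 : P.root v1 ≤ B := by
    intro h hh
    rw [hv1] at hh
    have h1 := hg _ (mem_root_conj g v0 hh)
    have h2 : h = g * (g⁻¹ * h * g) * g⁻¹ := by group
    rw [h2]
    exact h1
  haveI : Fact p.Prime := ⟨hp⟩
  obtain ⟨x, hx⟩ := exists_prime_orderOf_dvd_card' (G := B) p hpB
  have hx' : orderOf (x : H) = p := by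
    rw [Subgroup.orderOf_coe]
    exact hx
  obtain ⟨i, hi⟩ := exists_zpow_opp (hNI x hx') hv10 hq1
  have hru : P.root (P.ρ ((x : H) ^ i) v1) ≤ B := root_conj_le (B.zpow_mem x.2 i) hr1
  have hqu : P.q (P.ρ ((x : H) ^ i) v1) = 0 := by rw [P.q_inv]; exact hq1
  -- singular vectors opposite to `v1`
  have hopp : ∀ w, P.q w = 0 → P.f w v1 ≠ 0 → P.root w ≤ B := by
    intro w hw hwv
    obtain ⟨h, hh, c, hc, hhc⟩ := G.trans _ v1 w hqu hq1 hw hi hwv
    have h1 : P.root (P.ρ h (P.ρ ((x : H) ^ i) v1)) ≤ B := root_conj_le (hr1 hh) hru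
    rw [hhc] at h1
    exact (root_smul_le w hc).trans h1
  apply G.gen B hZ
  intro w hw0 hw
  obtain ⟨u, hu, huv, huw⟩ := G.opp v1 w hv10 hw0 hq1 hw
  have hu' := hopp u hu huv
  obtain ⟨h, hh, c, hc, hhc⟩ := G.trans v1 u w hq1 hu hw (f_ne_symm huv) (f_ne_symm huw)
  have h1 : P.root (P.ρ h v1) ≤ B := root_conj_le (hu' hh) hr1
  rw [hhc] at h1
  exact (root_smul_le w hc).trans h1

theorem Geom.char_dvd (G : P.Geom Z) {r : ℕ} (hr : r.Prime) [CharP F r] :
    r ∣ Nat.card H := by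
  obtain ⟨v, hv0, hv⟩ := G.ex
  obtain ⟨u, hu, huv, _⟩ := G.opp v v hv0 hv0 hv hv
  have hu0 : u ≠ 0 := by
    rintro rfl
    exact huv (P.f_zero_left v)
  obtain ⟨w, hw, hwv, hwu⟩ := G.opp v u hv0 hu0 hv hu
  obtain ⟨h, hh, c, hc, hhc⟩ := G.trans u v w hu hv hw huv hwv
  have h1 : h ≠ 1 := by
    rintro rfl
    rw [map_one, Module.End.one_apply] at hhc
    apply hwu
    have h2 : w = c⁻¹ • u := by
      rw [hhc, smul_smul, inv_mul_cancel₀ hc, one_smul]
    rw [h2, P.f_smul_left, P.f_self u hu, mul_zero]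
  obtain ⟨k, hk⟩ := root_isPGroup (P := P) hr v hv ⟨h, hh⟩
  have hk' : h ^ r ^ k = 1 := congrArg Subtype.val hk
  obtain ⟨j, _, hj⟩ := (Nat.dvd_prime_pow hr).mp (orderOf_dvd_of_pow_eq_one hk')
  rcases Nat.eq_zero_or_pos j with h0 | h0
  · rw [h0, pow_zero, orderOf_eq_one_iff] at hj
    exact absurd hj h1
  · have h3 : r ∣ orderOf h := by
      rw [hj]
      exact dvd_pow_self r (by omega)
    exact h3.trans (orderOf_dvd_natCard h)

/-- `H × Fˣ` is transitive on the nonzero singular vectors -/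
theorem Geom.dvd_card (G : P.Geom Z) {p : ℕ} (hp : p.Prime) (hpq : ¬ p ∣ Nat.card F - 1)
    (hN : p ∣ Nat.card {v : V // v ≠ 0 ∧ P.q v = 0}) : p ∣ Nat.card H := by
  let act : MulAction (H × Fˣ) {v : V // v ≠ 0 ∧ P.q v = 0} :=
    { smul := fun a v => ⟨(a.2 : F) • P.ρ a.1 v.1, by
        intro h
        have h1 := (smul_eq_zero.mp h).resolve_left (Units.ne_zero a.2)
        apply v.2.1
        rw [← P.ρ_inv_apply a.1 v.1, h1, map_zero], by
        apply P.q_smul
        rw [P.q_inv]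
        exact v.2.2⟩
      one_smul := by
        intro v
        apply Subtype.ext
        show ((1 : Fˣ) : F) • P.ρ 1 v.1 = v.1
        rw [Units.val_one, one_smul, map_one, Module.End.one_apply]
      mul_smul := by
        intro a b v
        apply Subtype.ext
        show ((a.2 * b.2 : Fˣ) : F) • P.ρ (a.1 * b.1) v.1 =
          (a.2 : F) • P.ρ a.1 ((b.2 : F) • P.ρ b.1 v.1)
        rw [Units.val_mul, map_smul, ρ_mul, smul_smul] }
  have htrans : MulAction.IsPretransitive (H × Fˣ) {v : V // v ≠ 0 ∧ P.q v = 0} := by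
    constructor
    intro v w
    obtain ⟨u, hu, huv, huw⟩ := G.opp v.1 w.1 v.2.1 w.2.1 v.2.2 w.2.2
    obtain ⟨h, _, c, hc, hhc⟩ := G.trans v.1 u w.1 v.2.2 hu w.2.2 (f_ne_symm huv)
      (f_ne_symm huw)
    refine ⟨(h, Units.mk0 c⁻¹ (inv_ne_zero hc)), ?_⟩
    apply Subtype.ext
    show c⁻¹ • P.ρ h v.1 = w.1
    rw [hhc, smul_smul, inv_mul_cancel₀ hc, one_smul]
  obtain ⟨v, hv0, hv⟩ := G.ex
  have h1 := MulAction.index_stabilizer_of_transitive (H × Fˣ)
    (⟨v, hv0, hv⟩ : {v : V // v ≠ 0 ∧ P.q v = 0})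
  have h2 : Nat.card {v : V // v ≠ 0 ∧ P.q v = 0} ∣ Nat.card (H × Fˣ) := by
    rw [← h1]
    exact Subgroup.index_dvd_card _
  rw [Nat.card_prod, Nat.card_units] at h2
  exact ((hp.dvd_mul).mp (hN.trans h2)).resolve_right hpq

end Polar

end polar

end Pool.Agent.Lib.MP_bfe725_co
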