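import Pool.Agent.Lib.MP_bfe725_co.Lin
import Pool.Agent.Lib.MP_bfe725_co.PolarBig

/-!
# Elements of order `p` normalise no nontrivial `r`-subgroup (module PNORM)

(helper99, problem MP_bfe725_co)
-/

set_option autoImplicit false

namespace Pool.Agent.Lib.MP_bfe725_co

open Module

section polar

variable {F V H : Type} [Field F] [AddCommGroup V] [Module F V] [Group H] (P : Polar F V H)

namespace Polar

lemma f_sub_right (x y z : V) : P.f x (y - z) = P.f x y - P.f x z := by
  have h := P.f_add_right x (y - z) z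
  rw [sub_add_cancel] at h
  rw [h]; ring

/-- the common fixed vectors of `S` -/
def normFix (S : Subgroup H) : Submodule F V where
  carrier := {v | ∀ s ∈ S, P.ρ s v = v}
  add_mem' := by
    intro a b ha hb s hs
    rw [map_add, ha s hs, hb s hs]
  zero_mem' := by
    intro s _
    rw [map_zero]
  smul_mem' := by
    intro c a ha s hs
    rw [map_smul, ha s hs]

/-- the vectors orthogonal to `W` -/
def normPerp (W : Submodule F V) : Submodule F V where
  carrier := {y | ∀ t ∈ W, P.f t y = 0}
  add_mem' := by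
    intro a b ha hb t ht
    rw [P.f_add_right, ha t ht, hb t ht, add_zero]
  zero_mem' := by
    intro t _
    exact P.f_zero_right t
  smul_mem' := by
    intro c a ha t ht
    exact P.f_smul_right c t a (ha t ht)

lemma mem_normFix {S : Subgroup H} {v : V} : v ∈ P.normFix S ↔ ∀ s ∈ S, P.ρ s v = v := Iff.rfl

lemma mem_normPerp {W : Submodule F V} {y : V} : y ∈ P.normPerp W ↔ ∀ t ∈ W, P.f t y = 0 := Iff.rfl

/-- a proper subspace has a nonzero orthogonal vector -/
lemma normPerp_ne_bot [Finite V] [Finite F] {W : Submodule F V} (hW : W ≠ ⊤) : P.normPerp W ≠ ⊥ := by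
  intro hbot
  let Φ : V → Module.Dual F W := fun y =>
    { toFun := fun t => P.f t y
      map_add' := fun a b => by
        simp only [Submodule.coe_add]
        exact P.f_add_left _ _ _
      map_smul' := fun c a => by
        simp only [Submodule.coe_smul, RingHom.id_apply, smul_eq_mul]
        exact P.f_smul_left _ _ _ }
  have hinj : Function.Injective Φ := by
    intro y z hyz
    have h1 : y - z ∈ P.normPerp W := by
      intro t ht
      have h2 := LinearMap.congr_fun hyz ⟨t, ht⟩
      rw [P.f_sub_right]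
      exact sub_eq_zero.mpr h2
    rw [hbot, Submodule.mem_bot] at h1
    exact sub_eq_zero.mp h1
  have : Finite W := Finite.of_injective (fun w : W => (w : V)) Subtype.val_injective
  let e : W ≃ₗ[F] Module.Dual F W := (Module.finBasis F W).toDualEquiv
  have : Finite (Module.Dual F W) := Finite.of_equiv W e.toEquiv
  have h1 : Nat.card V ≤ Nat.card (Module.Dual F W) := Nat.card_le_card_of_injective Φ hinj
  have h2 : Nat.card (Module.Dual F W) = Nat.card W := (Nat.card_congr e.toEquiv).symm
  have h3 : (W : Set V) = Set.univ := by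
    apply Set.eq_of_subset_of_ncard_le (Set.subset_univ _)
    rw [Set.ncard_univ]
    exact h1.trans h2.le
  exact hW (SetLike.coe_injective (by simpa using h3))

end Polar

end polar

section polar

variable {F V H : Type} [Field F] [Finite F] [AddCommGroup V] [Module F V] [Finite V]
  [Group H] [Finite H] {P : Polar F V H} {Z : Subgroup H}


theorem Polar.norm (hq : ∀ x, P.f x x = 0 → P.q x = 0) {r : ℕ} (hr : r.Prime) [CharP F r]
    {x : H} (hNI : P.NI x) (S : Subgroup H) (hS : IsPGroup r S)
    (hxS : ∀ s ∈ S, x * s * x⁻¹ ∈ S) : S = ⊥ := by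
  by_contra hne
  -- `x⁻¹` also normalises `S`
  have hxS' : ∀ s ∈ S, x⁻¹ * s * x ∈ S := by
    have hk : ∀ k : ℕ, ∀ s ∈ S, x ^ k * s * (x ^ k)⁻¹ ∈ S := by
      intro k
      induction k with
      | zero => intro s hs; simpa using hs
      | succ k ih =>
        intro s hs
        have h1 := hxS _ (ih s hs)
        have h2 : x ^ (k + 1) * s * (x ^ (k + 1))⁻¹ = x * (x ^ k * s * (x ^ k)⁻¹) * x⁻¹ := by
          rw [pow_succ']; group
        rw [h2]; exact h1
    intro s hs
    have h1 := hk (orderOf x - 1) s hs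
    have h2 : x ^ (orderOf x - 1) = x⁻¹ := by
      rw [eq_inv_iff_mul_eq_one, ← pow_succ, Nat.sub_add_cancel (orderOf_pos x)]
      exact pow_orderOf_eq_one x
    rw [h2, inv_inv] at h1
    exact h1
  have hFixTop : P.normFix S ≠ ⊤ := by
    intro htop
    obtain ⟨s, hs, hs1⟩ : ∃ s : H, s ∈ S ∧ s ≠ 1 := by
      by_contra hcon
      push Not at hcon
      exact hne ((Subgroup.eq_bot_iff_forall S).mpr hcon)
    apply hs1
    apply P.inj
    rw [map_one]
    ext v
    have hv : v ∈ P.normFix S := by rw [htop]; exact Submodule.mem_top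
    exact hv s hs
  obtain ⟨w, hwp, hw0, hwF⟩ := lin_fixed P.ρ hr S hS (P.normPerp (P.normFix S)) (by
    intro s hs y hy t ht
    have h1 : P.ρ s t = t := ht s hs
    calc P.f t (P.ρ s y) = P.f (P.ρ s t) (P.ρ s y) := by rw [h1]
      _ = P.f t y := P.f_inv s t y
      _ = 0 := hy t ht) (P.normPerp_ne_bot hFixTop)
  have hR := hNI (P.normFix S ⊓ P.normPerp (P.normFix S)) (by
    rintro t ⟨ht1, ht2⟩
    refine ⟨?_, ?_⟩
    · intro s hs
      have h1 := ht1 _ (hxS' s hs)
      calc P.ρ s (P.ρ x t) = P.ρ x (P.ρ (x⁻¹ * s * x) t) := by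
            rw [← P.ρ_mul, ← P.ρ_mul]; congr 1; group
        _ = P.ρ x t := by rw [h1]
    · intro u hu
      have h1 : P.ρ x⁻¹ u ∈ P.normFix S := by
        intro s hs
        have h2 := hu _ (hxS s hs)
        calc P.ρ s (P.ρ x⁻¹ u) = P.ρ x⁻¹ (P.ρ (x * s * x⁻¹) u) := by
              rw [← P.ρ_mul, ← P.ρ_mul]; congr 1; group
          _ = P.ρ x⁻¹ u := by rw [h2]
      calc P.f u (P.ρ x t) = P.f (P.ρ x (P.ρ x⁻¹ u)) (P.ρ x t) := by rw [P.ρ_apply_inv]
        _ = P.f (P.ρ x⁻¹ u) t := P.f_inv _ _ _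
        _ = 0 := ht2 _ h1) ⟨fun s hs t ht => ht.2 s hs.1, fun t ht => hq t (ht.2 t ht.1)⟩
  have hw : w ∈ P.normFix S ⊓ P.normPerp (P.normFix S) := ⟨hwF, hwp⟩
  rw [hR, Submodule.mem_bot] at hw
  exact hw0 hw

theorem Polar.ni_of_le {p m : ℕ} (h : PPD p (Nat.card F) m) (hm : 2 ≤ m)
    (hV : finrank F V ≤ m + 1) {x : H} (hx : orderOf x = p) : P.NI x := by
  have hp := h.1
  have hfp : (P.ρ x) ^ p = 1 := by
    rw [← map_pow, ← hx, pow_orderOf_eq_one, map_one]
  have hf1 : P.ρ x ≠ 1 := by
    intro h1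
    have h2 : x = 1 := P.inj (by rw [h1, map_one])
    rw [h2, orderOf_one] at hx
    exact hp.one_lt.ne hx
  have hc := lin_isCompl h hfp
  have hle := lin_le_finrank h hfp hf1
  have hadd := Submodule.finrank_add_eq_of_isCompl hc
  have hker : finrank F (LinearMap.ker (P.ρ x - 1)) ≤ 1 := by omega
  -- fixed vectors are orthogonal to the range
  have hperp : ∀ u ∈ LinearMap.ker (P.ρ x - 1), ∀ y ∈ LinearMap.range (P.ρ x - 1),
      P.f u y = 0 := by
    rintro u hu _ ⟨z, rfl⟩
    have h1 : P.ρ x u = u := by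
      have := LinearMap.mem_ker.mp hu
      rw [LinearMap.sub_apply, Module.End.one_apply, sub_eq_zero] at this
      exact this
    rw [LinearMap.sub_apply, Module.End.one_apply, P.f_sub_right]
    have h2 : P.f u (P.ρ x z) = P.f u z := by
      conv_lhs => rw [← h1]
      exact P.f_inv x u z
    rw [h2, sub_self]
  have hall : ∀ t, (∀ a ∈ LinearMap.ker (P.ρ x - 1), P.f t a = 0) →
      (∀ b ∈ LinearMap.range (P.ρ x - 1), P.f t b = 0) → t = 0 := by
    intro t h1 h2
    apply P.f_nondeg
    intro y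
    obtain ⟨a, ha, b, hb, rfl⟩ := Submodule.mem_sup.mp
      (hc.sup_eq_top ▸ Submodule.mem_top : y ∈ _)
    rw [P.f_add_right, h1 a ha, h2 b hb, add_zero]
  intro T hT hTS
  rcases lin_or h hfp (by omega) hT with h1 | h1
  · -- `T` consists of fixed vectors
    by_contra hT0
    have hpos : 0 < finrank F T := Nat.pos_of_ne_zero (fun h0 =>
      hT0 (Submodule.finrank_eq_zero.mp h0))
    have hTk : T = LinearMap.ker (P.ρ x - 1) :=
      Submodule.eq_of_le_of_finrank_le h1 (by omega)
    apply hT0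
    rw [eq_bot_iff]
    intro t ht
    rw [Submodule.mem_bot]
    apply hall t
    · intro a ha
      exact hTS.1 t ht a (hTk ▸ ha)
    · intro b hb
      exact hperp t (h1 ht) b hb
  · exfalso
    have hb : LinearMap.range (P.ρ x - 1) = ⊥ := by
      rw [eq_bot_iff]
      intro t ht
      rw [Submodule.mem_bot]
      apply hall t
      · intro a ha
        exact P.f_symm _ _ (hperp a ha t ht)
      · intro b hb
        exact hTS.1 t (h1 ht) b (h1 hb)
    rw [hb, finrank_bot] at hle
    omega

theorem Polar.Geom.critZ (G : P.Geom Z) {p m r : ℕ} (hr : r.Prime) [CharP F r]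
    (h : PPD p (Nat.card F) m) (hm : 2 ≤ m) (hV : finrank F V ≤ m + 1)
    (hN : p ∣ Nat.card {v : V // v ≠ 0 ∧ P.q v = 0}) (hq : ∀ x, P.f x x = 0 → P.q x = 0) :
    CritZ H Z p r where
  hp := h.1
  hr := hr
  hpH := by
    refine G.dvd_card h.1 ?_ hN
    have h1 := h.2.2.2 1 one_pos (by omega)
    rwa [pow_one] at h1
  hrH := G.char_dvd hr
  cyc := fun Q hQ => lin_cyclic P.ρ P.inj h (by omega) Q hQ
  norm := fun x S hx hS hxS => Polar.norm hq hr (Polar.ni_of_le h hm hV hx) S hS hxS
  big := fun B hZ hB hpB => G.big h.1 hr (fun x hx => Polar.ni_of_le h hm hV hx) B hZ hB hpB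

end polar

end Pool.Agent.Lib.MP_bfe725_co
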