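import Mathlib
import Pool.Agent.Lib.MP_bfe725_co.Lin

/-!
# The special linear groups satisfy the criterion

(helper57, problem MP_bfe725_co, module SL)
-/

set_option autoImplicit false

namespace Pool.Agent.Lib.MP_bfe725_co

open Module Matrix

section slmod

variable {F : Type} [Field F] {n : ℕ}

/-- the natural representation -/
noncomputable def slRho : SpecialLinearGroup (Fin n) F →* ((Fin n → F) →ₗ[F] (Fin n → F)) where
  toFun g := Matrix.toLin' g.1
  map_one' := by
    simp
    rfl
  map_mul' a b := by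
    ext i j
    simp [Matrix.toLin'_mul]

theorem slRho_apply (g : SpecialLinearGroup (Fin n) F) (v : Fin n → F) :
    slRho g v = g.1 *ᵥ v := by
  simp [slRho]

theorem slRho_injective : Function.Injective (slRho : SpecialLinearGroup (Fin n) F →* _) := by
  intro a b h
  apply Subtype.ext
  exact Matrix.toLin'.injective h

theorem sl_ext {a b : SpecialLinearGroup (Fin n) F} (h : ∀ z, a.1 *ᵥ z = b.1 *ᵥ z) : a = b := by
  apply slRho_injective
  ext1
  refine LinearMap.ext fun z => ?_
  simp only [LinearMap.comp_apply, slRho_apply]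
  exact h _

theorem sl_mul_mulVec (a b : SpecialLinearGroup (Fin n) F) (z : Fin n → F) :
    (a * b).1 *ᵥ z = a.1 *ᵥ (b.1 *ᵥ z) := by
  rw [← slRho_apply, map_mul, Module.End.mul_apply, slRho_apply, slRho_apply]

theorem sl_one_mulVec (z : Fin n → F) :
    (1 : SpecialLinearGroup (Fin n) F).1 *ᵥ z = z := by
  rw [← slRho_apply, map_one]; rfl

theorem sl_inv_mulVec (a : SpecialLinearGroup (Fin n) F) (z : Fin n → F) :
    (a⁻¹).1 *ᵥ (a.1 *ᵥ z) = z := by
  rw [← sl_mul_mulVec, inv_mul_cancel, sl_one_mulVec]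

theorem sl_mulVec_inv (a : SpecialLinearGroup (Fin n) F) (z : Fin n → F) :
    a.1 *ᵥ ((a⁻¹).1 *ᵥ z) = z := by
  rw [← sl_mul_mulVec, mul_inv_cancel, sl_one_mulVec]

/-- the transvections with centre `v` -/
def slT (v : Fin n → F) : Subgroup (SpecialLinearGroup (Fin n) F) where
  carrier := {g | g.1 *ᵥ v = v ∧ ∀ z, ∃ c : F, g.1 *ᵥ z = z + c • v}
  one_mem' := ⟨sl_one_mulVec v, fun z => ⟨0, by rw [sl_one_mulVec]; simp⟩⟩
  mul_mem' := by
    rintro a b ⟨ha, ha'⟩ ⟨hb, hb'⟩
    refine ⟨by rw [sl_mul_mulVec, hb, ha], fun z => ?_⟩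
    obtain ⟨c, hc⟩ := hb' z
    obtain ⟨d, hd⟩ := ha' z
    refine ⟨d + c, ?_⟩
    rw [sl_mul_mulVec, hc, Matrix.mulVec_add, Matrix.mulVec_smul, ha, hd, add_smul]
    abel
  inv_mem' := by
    rintro a ⟨ha, ha'⟩
    have hv : (a⁻¹).1 *ᵥ v = v := by
      conv_lhs => rw [← ha]
      exact sl_inv_mulVec a v
    refine ⟨hv, fun z => ?_⟩
    obtain ⟨c, hc⟩ := ha' z
    refine ⟨-c, ?_⟩
    have h2 := sl_inv_mulVec a z
    rw [hc, Matrix.mulVec_add, Matrix.mulVec_smul, hv] at h2
    rw [eq_sub_of_add_eq h2, neg_smul]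
    abel

theorem mem_slT {v : Fin n → F} {g : SpecialLinearGroup (Fin n) F} :
    g ∈ slT v ↔ g.1 *ᵥ v = v ∧ ∀ z, ∃ c : F, g.1 *ᵥ z = z + c • v := Iff.rfl

theorem slT_conj {v : Fin n → F} {g h : SpecialLinearGroup (Fin n) F}
    (hh : h ∈ slT (g.1 *ᵥ v)) : g⁻¹ * h * g ∈ slT v := by
  obtain ⟨h1, h2⟩ := hh
  refine ⟨?_, fun z => ?_⟩
  · rw [sl_mul_mulVec, sl_mul_mulVec, h1, sl_inv_mulVec]
  · obtain ⟨c, hc⟩ := h2 (g.1 *ᵥ z)
    refine ⟨c, ?_⟩
    rw [sl_mul_mulVec, sl_mul_mulVec, hc, Matrix.mulVec_add, Matrix.mulVec_smul, sl_inv_mulVec,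
      sl_inv_mulVec]

theorem slT_le_of_mem {B : Subgroup (SpecialLinearGroup (Fin n) F)} {v : Fin n → F}
    (hv : slT v ≤ B) {g : SpecialLinearGroup (Fin n) F} (hg : g ∈ B) : slT (g.1 *ᵥ v) ≤ B := by
  intro h hh
  have h1 := hv (slT_conj hh)
  have h2 : h = g * (g⁻¹ * h * g) * g⁻¹ := by group
  rw [h2]
  exact B.mul_mem (B.mul_mem hg h1) (B.inv_mem hg)

/-- the transvection `z ↦ z + φ(z) u` -/
def slTv (u φ : Fin n → F) (h : φ ⬝ᵥ u = 0) : SpecialLinearGroup (Fin n) F :=
  ⟨1 + Matrix.vecMulVec u φ, by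
    have := Matrix.det_one_add_replicateCol_mul_replicateRow (ι := Unit) u φ
    rw [h, add_zero, ← Matrix.vecMulVec_eq Unit] at this
    exact this⟩

theorem slTv_mulVec (u φ : Fin n → F) (h : φ ⬝ᵥ u = 0) (z : Fin n → F) :
    (slTv u φ h).1 *ᵥ z = z + (φ ⬝ᵥ z) • u := by
  simp only [slTv]
  rw [Matrix.add_mulVec, Matrix.one_mulVec, Matrix.vecMulVec_mulVec]
  congr 1
  ext i
  simp [mul_comm]

theorem slTv_mem (u φ : Fin n → F) (h : φ ⬝ᵥ u = 0) : slTv u φ h ∈ slT u := by
  refine ⟨?_, fun z => ⟨φ ⬝ᵥ z, slTv_mulVec u φ h z⟩⟩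
  rw [slTv_mulVec, h, zero_smul, add_zero]

theorem sl_exists_dual {v w : Fin n → F} (h : v ∉ Submodule.span F {w}) :
    ∃ φ : Fin n → F, φ ⬝ᵥ w = 0 ∧ φ ⬝ᵥ v = 1 := by
  obtain ⟨f, hf, hfw⟩ := Submodule.exists_le_ker_of_notMem h
  have hw : f w = 0 := by
    have : w ∈ LinearMap.ker f := hfw (Submodule.mem_span_singleton_self w)
    exact this
  have key : ∀ z : Fin n → F, (fun i => f (Pi.single i 1)) ⬝ᵥ z = f z := by
    intro z
    rw [LinearMap.pi_apply_eq_sum_univ f z]
    simp only [dotProduct, smul_eq_mul]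
    refine Finset.sum_congr rfl fun i _ => ?_
    rw [mul_comm]
    congr 2
    ext j
    simp [Pi.single_apply, eq_comm]
  refine ⟨fun i => (f v)⁻¹ * f (Pi.single i 1), ?_, ?_⟩
  · have := key w
    simp only [dotProduct] at this ⊢
    simp only [mul_assoc, ← Finset.mul_sum]
    rw [this, hw, mul_zero]
  · have := key v
    simp only [dotProduct] at this ⊢
    simp only [mul_assoc, ← Finset.mul_sum]
    rw [this, inv_mul_cancel₀ hf]

/-- the span of the centres of the transvection groups contained in `B` -/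
def slDelta (B : Subgroup (SpecialLinearGroup (Fin n) F)) : Submodule F (Fin n → F) where
  carrier := {v | slT v ≤ B}
  zero_mem' := by
    intro g hg
    obtain ⟨_, h2⟩ := hg
    have : g = 1 := sl_ext fun z => by
      obtain ⟨c, hc⟩ := h2 z
      rw [hc, sl_one_mulVec]; simp
    rw [this]; exact B.one_mem
  smul_mem' := by
    intro c v hv g hg
    by_cases hc : c = 0
    · subst hc
      obtain ⟨_, h2⟩ := hg
      have : g = 1 := sl_ext fun z => by
        obtain ⟨c, hc⟩ := h2 z
        rw [hc, sl_one_mulVec]; simp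
      rw [this]; exact B.one_mem
    · apply hv
      obtain ⟨h1, h2⟩ := hg
      refine ⟨?_, fun z => ?_⟩
      · rw [Matrix.mulVec_smul] at h1
        exact smul_right_injective _ hc h1
      · obtain ⟨d, hd⟩ := h2 z
        exact ⟨d * c, by rw [hd, mul_smul]⟩
  add_mem' := by
    intro v w hv hw
    by_cases h : v ∈ Submodule.span F {w}
    · obtain ⟨c, rfl⟩ := Submodule.mem_span_singleton.1 h
      have e : c • w + w = (c + 1) • w := by rw [add_smul, one_smul]
      intro g hg
      rw [e] at hg
      by_cases hc : c + 1 = 0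
      · rw [hc] at hg
        obtain ⟨_, h2⟩ := hg
        have : g = 1 := sl_ext fun z => by
          obtain ⟨c, hc⟩ := h2 z
          rw [hc, sl_one_mulVec]; simp
        rw [this]; exact B.one_mem
      · apply hw
        obtain ⟨h1, h2⟩ := hg
        refine ⟨?_, fun z => ?_⟩
        · rw [Matrix.mulVec_smul] at h1
          exact smul_right_injective _ hc h1
        · obtain ⟨d, hd⟩ := h2 z
          exact ⟨d * (c + 1), by rw [hd, mul_smul]⟩
    · obtain ⟨φ, h1, h2⟩ := sl_exists_dual h
      have hg : slTv w φ h1 ∈ B := hw (slTv_mem w φ h1)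
      have := slT_le_of_mem hv hg
      rw [slTv_mulVec, h2, one_smul] at this
      exact this

/-- transvections have order dividing the characteristic -/
theorem slT_pow {r : ℕ} [CharP F r] {v : Fin n → F} {g : SpecialLinearGroup (Fin n) F}
    (hg : g ∈ slT v) : g ^ r = 1 := by
  obtain ⟨h1, h2⟩ := hg
  have key : ∀ (k : ℕ) (z : Fin n → F) (c : F), g.1 *ᵥ z = z + c • v →
      (g ^ k).1 *ᵥ z = z + ((k : F) * c) • v := by
    intro k z c hc
    induction k with
    | zero => rw [pow_zero, sl_one_mulVec]; simp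
    | succ k ih =>
      rw [pow_succ', sl_mul_mulVec, ih, Matrix.mulVec_add, Matrix.mulVec_smul, h1, hc]
      push_cast
      rw [add_mul, one_mul, add_smul]
      abel
  refine sl_ext fun z => ?_
  obtain ⟨c, hc⟩ := h2 z
  rw [key r z c hc, CharP.cast_eq_zero, sl_one_mulVec]
  simp

theorem slT_isPGroup {r : ℕ} [CharP F r] (v : Fin n → F) : IsPGroup r (slT v) := by
  intro g
  refine ⟨1, ?_⟩
  apply Subtype.ext
  rw [pow_one]
  exact slT_pow g.2

/-! ### generation -/

theorem sl_transvection_mulVec (i j : Fin n) (c : F) (z : Fin n → F) :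
    (Matrix.transvection i j c) *ᵥ z = Function.update z i (z i + c * z j) := by
  rw [Matrix.transvection, Matrix.add_mulVec, Matrix.one_mulVec]
  ext k
  by_cases hk : k = i
  · subst hk
    simp [Matrix.single_mulVec]
  · simp [Matrix.single_mulVec, hk]

/-- elementary transvection as an element of `SL` -/
def slE (i j : Fin n) (hij : i ≠ j) (c : F) : SpecialLinearGroup (Fin n) F :=
  ⟨Matrix.transvection i j c, Matrix.det_transvection_of_ne i j hij c⟩

theorem slE_mulVec (i j : Fin n) (hij : i ≠ j) (c : F) (z : Fin n → F) :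
    (slE i j hij c).1 *ᵥ z = Function.update z i (z i + c * z j) :=
  sl_transvection_mulVec i j c z

theorem slE_mem {B : Subgroup (SpecialLinearGroup (Fin n) F)}
    (hB : ∀ v : Fin n → F, v ≠ 0 → slT v ≤ B) (i j : Fin n) (hij : i ≠ j) (c : F) :
    slE i j hij c ∈ B := by
  refine hB (Pi.single i 1) (by simp) ⟨?_, fun z => ⟨c * z j, ?_⟩⟩
  · simp only [slE]
    rw [sl_transvection_mulVec]
    ext k
    by_cases hk : k = i
    · subst hk
      simp [hij.symm]
    · simp [hk]
  · simp only [slE]
    rw [sl_transvection_mulVec]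
    ext k
    by_cases hk : k = i
    · subst hk
      simp
    · simp [hk]

theorem sl_list_mem {B : Subgroup (SpecialLinearGroup (Fin n) F)}
    (hB : ∀ v : Fin n → F, v ≠ 0 → slT v ≤ B) (L : List (TransvectionStruct (Fin n) F)) :
    ∃ g ∈ B, g.1 = (L.map TransvectionStruct.toMatrix).prod := by
  induction L with
  | nil => exact ⟨1, B.one_mem, by simp⟩
  | cons t L ih =>
    obtain ⟨g, hg, hg'⟩ := ih
    obtain ⟨i, j, hij, c⟩ := t
    refine ⟨slE i j hij c * g, B.mul_mem (slE_mem hB i j hij c) hg, ?_⟩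
    rw [List.map_cons, List.prod_cons, ← hg']
    rfl

theorem sl_diag2_mem {B : Subgroup (SpecialLinearGroup (Fin n) F)}
    (hB : ∀ v : Fin n → F, v ≠ 0 → slT v ≤ B) (i j : Fin n) (hij : i ≠ j) (a : F) (ha : a ≠ 0) :
    ∃ g ∈ B, ∀ z, g.1 *ᵥ z = Function.update (Function.update z i (a * z i)) j (a⁻¹ * z j) := by
  refine ⟨slE i j hij a * slE j i hij.symm (-a⁻¹) * slE i j hij a * slE i j hij (-1) *
    slE j i hij.symm 1 * slE i j hij (-1), ?_, fun z => ?_⟩
  · have h := slE_mem hB
    exact B.mul_mem (B.mul_mem (B.mul_mem (B.mul_mem (B.mul_mem (h _ _ _ _) (h _ _ _ _))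
      (h _ _ _ _)) (h _ _ _ _)) (h _ _ _ _)) (h _ _ _ _)
  · simp only [sl_mul_mulVec, slE_mulVec]
    ext k
    by_cases hk : k = i
    · subst hk
      simp only [Function.update_self, Function.update_of_ne hij, Function.update_of_ne hij.symm]
      field_simp
      ring
    · by_cases hk' : k = j
      · subst hk'
        simp only [Function.update_self, Function.update_of_ne hij, Function.update_of_ne hij.symm]
        field_simp
        ring
      · simp only [Function.update_of_ne hk, Function.update_of_ne hk']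

theorem sl_diag_mem {B : Subgroup (SpecialLinearGroup (Fin n) F)}
    (hB : ∀ v : Fin n → F, v ≠ 0 → slT v ≤ B) (D : Fin n → F) (hD : ∏ i, D i = 1)
    (g : SpecialLinearGroup (Fin n) F) (hg : g.1 = Matrix.diagonal D) : g ∈ B := by
  classical
  have hne : ∀ i, D i ≠ 0 := by
    intro i hi
    have : ∏ i, D i = 0 := Finset.prod_eq_zero (Finset.mem_univ i) hi
    rw [this] at hD
    exact zero_ne_one hD
  rcases Nat.eq_zero_or_pos n with hn | hn
  · subst hn
    have : g = 1 := Subsingleton.elim _ _
    rw [this]; exact B.one_mem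
  · let i0 : Fin n := ⟨0, hn⟩
    have key : ∀ s : Finset (Fin n), i0 ∉ s → ∃ h ∈ B, ∀ z : Fin n → F, h.1 *ᵥ z =
        fun k => (if k = i0 then (∏ j ∈ s, D j)⁻¹ else if k ∈ s then D k else 1) * z k := by
      intro s
      induction s using Finset.induction_on with
      | empty =>
        intro _
        refine ⟨1, B.one_mem, fun z => ?_⟩
        rw [sl_one_mulVec]
        ext k
        simp
      | insert j s hj ih =>
        intro h0
        rw [Finset.mem_insert, not_or] at h0
        obtain ⟨h, hh, hh'⟩ := ih h0.2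
        obtain ⟨e, he, he'⟩ := sl_diag2_mem hB j i0 (Ne.symm h0.1) (D j) (hne j)
        refine ⟨e * h, B.mul_mem he hh, fun z => ?_⟩
        rw [sl_mul_mulVec, he', hh']
        ext k
        by_cases hk : k = i0
        · rw [hk]
          simp only [Function.update_self, if_true]
          rw [Finset.prod_insert hj, mul_inv]
          ring
        · rw [Function.update_of_ne hk]
          by_cases hkj : k = j
          · subst hkj
            simp [Function.update_self, hk, hj]
          · rw [Function.update_of_ne hkj]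
            simp [hk, hkj]
    obtain ⟨h, hh, hh'⟩ := key (Finset.univ.erase i0) (Finset.notMem_erase _ _)
    have : g = h := sl_ext fun z => by
      rw [hg, hh']
      ext k
      rw [Matrix.mulVec_diagonal]
      by_cases hk : k = i0
      · rw [if_pos hk, hk]
        congr 1
        rw [← Finset.mul_prod_erase Finset.univ D (Finset.mem_univ i0)] at hD
        exact eq_inv_of_mul_eq_one_left hD
      · rw [if_neg hk, if_pos (Finset.mem_erase.2 ⟨hk, Finset.mem_univ _⟩)]
    rw [this]; exact hh

theorem sl_gen {B : Subgroup (SpecialLinearGroup (Fin n) F)}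
    (hB : ∀ v : Fin n → F, v ≠ 0 → slT v ≤ B) : B = ⊤ := by
  rw [eq_top_iff]
  intro M _
  obtain ⟨L, L', D, h⟩ := Matrix.Pivot.exists_list_transvec_mul_diagonal_mul_list_transvec M.1
  obtain ⟨g, hg, hg'⟩ := sl_list_mem hB L
  obtain ⟨g', hg1, hg1'⟩ := sl_list_mem hB L'
  rw [← hg', ← hg1'] at h
  have hdet : ∏ i, D i = 1 := by
    have h1 := congrArg Matrix.det h
    rw [Matrix.det_mul, Matrix.det_mul, g.2, g'.2, M.2, Matrix.det_diagonal] at h1
    simpa using h1.symm
  set d : SpecialLinearGroup (Fin n) F :=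
    ⟨Matrix.diagonal D, by rw [Matrix.det_diagonal]; exact hdet⟩ with hd
  have hdB : d ∈ B := sl_diag_mem hB D hdet d rfl
  have hM : M = g * d * g' := Subtype.ext h
  rw [hM]
  exact B.mul_mem (B.mul_mem hg hdB) hg1

end slmod

section slcrit

variable {F : Type} [Field F] [Finite F] {n : ℕ}

theorem sl_irred {p : ℕ} (h : PPD p (Nat.card F) n)
    {x : SpecialLinearGroup (Fin n) F} (hx : orderOf x = p) (W : Submodule F (Fin n → F))
    (hW : ∀ w ∈ W, x.1 *ᵥ w ∈ W) : W = ⊥ ∨ W = ⊤ := by
  have hf : (slRho x) ^ p = 1 := by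
    rw [← map_pow, ← hx, pow_orderOf_eq_one, map_one]
  have hx1 : x ≠ 1 := by
    rintro rfl
    rw [orderOf_one] at hx
    exact h.1.one_lt.ne hx
  have hf1 : slRho x ≠ 1 := by
    intro h1
    exact hx1 (slRho_injective (h1.trans (map_one _).symm))
  have hfin : finrank F (Fin n → F) = n := by simp
  have h0 := h.2.1
  have h1 := lin_le_finrank h hf hf1
  have htop : LinearMap.range (slRho x - 1) = ⊤ := by
    apply Submodule.eq_top_of_finrank_eq
    refine le_antisymm (Submodule.finrank_le _) ?_
    rw [hfin]; exact h1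
  rcases lin_or h hf (by rw [hfin]; omega) (W := W)
    (fun w hw => by rw [slRho_apply]; exact hW w hw) with h2 | h2
  · left
    have hker : LinearMap.ker (slRho x - 1) = ⊥ :=
      LinearMap.ker_eq_bot_iff_range_eq_top.2 htop
    rw [hker] at h2
    exact le_bot_iff.1 h2
  · right
    rw [htop] at h2
    exact top_le_iff.1 h2

theorem sl_card_dvd {p : ℕ} (hn : 2 ≤ n) (h : PPD p (Nat.card F) n) :
    p ∣ Nat.card (SpecialLinearGroup (Fin n) F) := by
  classical
  haveI : Fintype F := Fintype.ofFinite F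
  have hcard := Matrix.card_GL_field (𝔽 := F) n
  have hpGL : p ∣ Nat.card (GL (Fin n) F) := by
    rw [hcard]
    refine dvd_trans ?_ (Finset.dvd_prod_of_mem _ (Finset.mem_univ (⟨0, by omega⟩ : Fin n)))
    simp only [pow_zero]
    rw [← Nat.card_eq_fintype_card]
    exact h.2.2.1
  have hker : Nat.card (SpecialLinearGroup (Fin n) F) =
      Nat.card (Matrix.GeneralLinearGroup.det (n := Fin n) (R := F)).ker := by
    refine Nat.card_congr (Equiv.ofBijective (fun g => ⟨SpecialLinearGroup.toGL g, ?_⟩) ⟨?_, ?_⟩)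
    · rw [MonoidHom.mem_ker]
      ext
      simp [g.2]
    · intro a b hab
      exact SpecialLinearGroup.toGL_injective (congrArg Subtype.val hab)
    · rintro ⟨g, hg⟩
      rw [MonoidHom.mem_ker] at hg
      have hg' : Matrix.det g.1 = 1 := by
        have := congrArg Units.val hg
        simpa using this
      refine ⟨⟨g.1, hg'⟩, ?_⟩
      apply Subtype.ext
      ext
      rfl
  have hprod : Nat.card (GL (Fin n) F) =
      Nat.card (Matrix.GeneralLinearGroup.det (n := Fin n) (R := F)).range *
      Nat.card (Matrix.GeneralLinearGroup.det (n := Fin n) (R := F)).ker := by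
    rw [Subgroup.card_eq_card_quotient_mul_card_subgroup
      (Matrix.GeneralLinearGroup.det (n := Fin n) (R := F)).ker]
    congr 1
    exact Nat.card_congr (QuotientGroup.quotientKerEquivRange _).toEquiv
  have hr : Nat.card (Matrix.GeneralLinearGroup.det (n := Fin n) (R := F)).range ∣
      Nat.card F - 1 := by
    have := Subgroup.card_subgroup_dvd_card
      (Matrix.GeneralLinearGroup.det (n := Fin n) (R := F)).range
    rwa [Nat.card_units] at this
  rw [hker]
  rw [hprod] at hpGL
  rcases (Nat.Prime.dvd_mul h.1).1 hpGL with h1 | h1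
  · exfalso
    have := h.2.2.2 1 one_pos (by omega)
    rw [pow_one] at this
    exact this (h1.trans hr)
  · exact h1

theorem sl_critZ {F : Type} [Field F] [Finite F] {n p r : ℕ} (hr : r.Prime) [CharP F r]
    (hn : 2 ≤ n) (h : PPD p (Nat.card F) n) :
    CritZ (Matrix.SpecialLinearGroup (Fin n) F)
      (Subgroup.center (Matrix.SpecialLinearGroup (Fin n) F)) p r where
  hp := h.1
  hr := hr
  hpH := sl_card_dvd hn h
  hrH := by
    set g := slE (⟨0, by omega⟩ : Fin n) (⟨1, by omega⟩ : Fin n) (by simp) (1 : F) with hg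
    have h1 : g ∈ slT (F := F) (Pi.single (⟨0, by omega⟩ : Fin n) 1) := by
      refine ⟨?_, fun z => ⟨1 * z (⟨1, by omega⟩ : Fin n), ?_⟩⟩
      · simp only [hg, slE]
        rw [sl_transvection_mulVec]
        ext k
        by_cases hk : k = ⟨0, by omega⟩
        · subst hk
          simp
        · simp [hk]
      · simp only [hg, slE]
        rw [sl_transvection_mulVec]
        ext k
        by_cases hk : k = ⟨0, by omega⟩
        · subst hk
          simp
        · simp [hk]
    have h2 : g ^ r = 1 := slT_pow h1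
    have h3 : g ≠ 1 := by
      intro h3
      have h4 : g.1 *ᵥ (Pi.single (⟨1, by omega⟩ : Fin n) 1) = Pi.single (⟨1, by omega⟩ : Fin n) 1 := by
        rw [h3, sl_one_mulVec]
      simp only [hg, slE] at h4
      rw [sl_transvection_mulVec] at h4
      have h5 := congrFun h4 (⟨0, by omega⟩ : Fin n)
      simp at h5
    have h4 : orderOf g = r := orderOf_eq_prime h2 h3 (hp := ⟨hr⟩)
    rw [← h4]
    exact orderOf_dvd_natCard g
  cyc := by
    intro P hP
    refine lin_cyclic slRho slRho_injective h ?_ P hP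
    have := h.2.1
    simp only [Module.finrank_fintype_fun_eq_card, Fintype.card_fin]
    omega
  norm := by
    intro x S hx hS hxS
    -- powers of x normalise S
    have hpow : ∀ (k : ℕ) (s : SpecialLinearGroup (Fin n) F), s ∈ S → x ^ k * s * (x ^ k)⁻¹ ∈ S := by
      intro k
      induction k with
      | zero => intro s hs; simpa using hs
      | succ k ih =>
        intro s hs
        have := hxS _ (ih s hs)
        have e : x * (x ^ k * s * (x ^ k)⁻¹) * x⁻¹ = x ^ (k + 1) * s * (x ^ (k + 1))⁻¹ := by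
          rw [pow_succ']; group
        rwa [e] at this
    have hinv : ∀ s ∈ S, x⁻¹ * s * x ∈ S := by
      intro s hs
      have := hpow (orderOf x - 1) s hs
      have e : x ^ (orderOf x - 1) = x⁻¹ := by
        have h1 : 0 < orderOf x := by rw [hx]; exact h.1.pos
        rw [eq_inv_iff_mul_eq_one, ← pow_succ, Nat.sub_add_cancel h1, pow_orderOf_eq_one]
      rw [e, inv_inv] at this
      exact this
    let Fix : Submodule F (Fin n → F) :=
      { carrier := {w | ∀ s ∈ S, s.1 *ᵥ w = w}
        zero_mem' := fun s _ => by simp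
        add_mem' := fun {a b} ha hb s hs => by rw [Matrix.mulVec_add, ha s hs, hb s hs]
        smul_mem' := fun c a ha s hs => by rw [Matrix.mulVec_smul, ha s hs] }
    haveI : Nonempty (Fin n) := ⟨⟨0, by omega⟩⟩
    obtain ⟨w, -, hw0, hw⟩ := lin_fixed (F := F) slRho hr S hS ⊤ (fun _ _ _ _ => trivial)
      (by
        intro hb
        exact bot_ne_top hb.symm)
    have hFix : Fix = ⊥ ∨ Fix = ⊤ := by
      refine sl_irred h hx Fix fun w hw s hs => ?_
      have h1 := hw _ (hinv s hs)
      rw [sl_mul_mulVec, sl_mul_mulVec] at h1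
      have h2 := congrArg (fun y => x.1 *ᵥ y) h1
      simp only [sl_mulVec_inv] at h2
      exact h2
    rcases hFix with h1 | h1
    · exfalso
      have : w ∈ Fix := fun s hs => by
        have := hw s hs
        rwa [slRho_apply] at this
      rw [h1] at this
      exact hw0 ((Submodule.mem_bot F).1 this)
    · rw [eq_bot_iff]
      intro s hs
      rw [Subgroup.mem_bot]
      refine sl_ext fun z => ?_
      have : z ∈ Fix := by rw [h1]; trivial
      rw [this s hs, sl_one_mulVec]
  big := by
    intro B _ hB hpB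
    haveI : Nonempty (Fin n) := ⟨⟨0, by omega⟩⟩
    set e : Fin n → F := Pi.single (⟨0, by omega⟩ : Fin n) 1 with he
    have he0 : e ≠ 0 := by simp [he]
    obtain ⟨g, hg⟩ := conj_into hr hB (slT_isPGroup (r := r) e)
    have h1 : slT (g.1 *ᵥ e) ≤ B := by
      intro k hk
      have h2 := hg _ (slT_conj hk)
      have h3 : g * (g⁻¹ * k * g) * g⁻¹ = k := by group
      rwa [h3] at h2
    have hge : g.1 *ᵥ e ≠ 0 := by
      intro h0
      have := sl_inv_mulVec g e
      rw [h0, Matrix.mulVec_zero] at this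
      exact he0 this.symm
    haveI : Fact p.Prime := ⟨h.1⟩
    obtain ⟨x, hx⟩ := exists_prime_orderOf_dvd_card' p hpB
    have hx' : orderOf (x : SpecialLinearGroup (Fin n) F) = p := by
      rw [Subgroup.orderOf_coe]; exact hx
    have hΔ : slDelta B = ⊥ ∨ slDelta B = ⊤ := by
      refine sl_irred h hx' (slDelta B) fun w hw => ?_
      exact slT_le_of_mem hw x.2
    have hmem : g.1 *ᵥ e ∈ slDelta B := h1
    rcases hΔ with h2 | h2
    · rw [h2] at hmem
      exact absurd ((Submodule.mem_bot F).1 hmem) hge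
    · refine sl_gen fun v _ => ?_
      have : v ∈ slDelta B := by rw [h2]; trivial
      exact this

end slcrit

end Pool.Agent.Lib.MP_bfe725_co
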