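import Pool.Agent.Lib.MP_bfe725_co.SUGen

/-!
# The action of `SU_n` on its natural module (module SU)

(helper32, problem MP_bfe725_co)
-/

set_option autoImplicit false

namespace Pool.Agent.Lib.MP_bfe725_co

open Module

/-! ### The field -/

section field

variable {F : Type} [Field F] [StarRing F]

/-- the trace is surjective onto the fixed field -/
theorem SU_trace (hs : ∃ a : F, star a ≠ a) (c : F) (hc : star c = c) :
    ∃ a : F, a + star a = c := by
  obtain ⟨a0, ha0⟩ := hs
  have h : ∃ t : F, t + star t ≠ 0 := by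
    by_contra hcon
    push Not at hcon
    have h1 : (1 : F) + 1 = 0 := by simpa using hcon 1
    apply ha0
    have h2 := hcon a0
    have h3 : a0 + a0 = 0 := by
      have : a0 + a0 = (1 + 1) * a0 := by ring
      rw [this, h1, zero_mul]
    have h4 : star a0 = a0 + star a0 - a0 := by ring
    rw [h4, h2]
    have : (0 : F) - a0 = a0 - (a0 + a0) := by ring
    rw [this, h3, sub_zero]
  obtain ⟨t, ht⟩ := h
  refine ⟨c * (t / (t + star t)), ?_⟩
  rw [star_mul', star_div₀, star_add, star_star, hc, add_comm (star t) t]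
  field_simp

theorem SU_skew (hs : ∃ a : F, star a ≠ a) : ∃ b : F, b ≠ 0 ∧ b + star b = 0 := by
  obtain ⟨a, ha⟩ := hs
  refine ⟨a - star a, fun h => ha (sub_eq_zero.1 h).symm, ?_⟩
  rw [star_sub, star_star]
  ring

/-- the norm is surjective onto the fixed field -/
theorem SU_norm [Finite F] (hs : ∃ a : F, star a ≠ a) (c : F) (hc : star c = c) (hc0 : c ≠ 0) :
    ∃ a : F, a * star a = c := by
  classical
  -- the norm and `b ↦ b / star b` as endomorphisms of the group of units
  let S : Fˣ →* Fˣ := Units.map (starRingEnd F : F →+* F)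
  have hS : ∀ u : Fˣ, ((S u : Fˣ) : F) = star (u : F) := fun u => rfl
  let N : Fˣ →* Fˣ := MonoidHom.mk' (fun u => u * S u) (by
    intro a b
    rw [map_mul]
    exact mul_mul_mul_comm _ _ _ _)
  let Q : Fˣ →* Fˣ := MonoidHom.mk' (fun u => u * (S u)⁻¹) (by
    intro a b
    rw [map_mul, mul_inv]
    exact mul_mul_mul_comm _ _ _ _)
  have hN : ∀ u, N u = u * S u := fun u => rfl
  have hQ : ∀ u, Q u = u * (S u)⁻¹ := fun u => rfl
  -- Hilbert 90
  have h90 : N.ker = Q.range := by
    ext u
    rw [MonoidHom.mem_ker, MonoidHom.mem_range]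
    constructor
    · intro hu
      rw [hN] at hu
      have hu' : (u : F) * star (u : F) = 1 := by
        have := congrArg (fun z : Fˣ => (z : F)) hu
        simpa [hS] using this
      have h : ∃ t : F, t + u * star t ≠ 0 := by
        by_contra hcon
        push Not at hcon
        have h1 := hcon 1
        rw [star_one, mul_one] at h1
        obtain ⟨a, ha⟩ := hs
        apply ha
        have h2 := hcon a
        have h3 : (u : F) = -1 := by
          rw [add_comm] at h1
          exact eq_neg_of_add_eq_zero_left h1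
        rw [h3] at h2
        have : a - star a = 0 := by
          rw [← h2]; ring
        exact (sub_eq_zero.1 this).symm
      obtain ⟨t, ht⟩ := h
      refine ⟨Units.mk0 _ ht, ?_⟩
      rw [hQ, mul_inv_eq_iff_eq_mul]
      ext
      rw [Units.val_mul, hS, Units.val_mk0, star_add, star_mul', star_star]
      have : (u : F) * (star t + star (u : F) * t) = u * star t + (u * star (u : F)) * t := by ring
      rw [this, hu']
      ring
    · rintro ⟨b, rfl⟩
      rw [hN, hQ, map_mul, map_inv]
      have : S (S b) = b := by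
        ext
        rw [hS, hS, star_star]
      rw [this]
      group
  let F0 : Subgroup Fˣ := Q.ker
  have hF0 : ∀ u, u ∈ F0 ↔ star (u : F) = u := by
    intro u
    change u ∈ Q.ker ↔ _
    rw [MonoidHom.mem_ker, hQ, mul_inv_eq_one]
    constructor
    · intro h
      rw [← hS, ← h]
    · intro h
      ext
      rw [hS, h]
  have hle : N.range ≤ F0 := by
    rintro _ ⟨u, rfl⟩
    rw [hF0, hN, Units.val_mul, hS, star_mul', star_star, mul_comm]
  have hcard : Nat.card N.range = Nat.card F0 := by
    have h1 : Nat.card N.range * Nat.card N.ker = Nat.card Fˣ := by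
      rw [← Subgroup.index_ker, mul_comm]
      exact Subgroup.card_mul_index _
    have h2 : Nat.card Q.range * Nat.card Q.ker = Nat.card Fˣ := by
      rw [← Subgroup.index_ker, mul_comm]
      exact Subgroup.card_mul_index _
    rw [h90] at h1
    have h3 : 0 < Nat.card Q.range := Nat.card_pos
    have h4 : Nat.card N.range * Nat.card Q.range = Nat.card Q.ker * Nat.card Q.range := by
      rw [h1, mul_comm, h2]
    exact Nat.eq_of_mul_eq_mul_right h3 h4
  have heq : N.range = F0 := Subgroup.eq_of_le_of_card_ge hle (le_of_eq hcard.symm)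
  have hmem : Units.mk0 c hc0 ∈ F0 := by
    rw [hF0]
    exact hc
  rw [← heq] at hmem
  obtain ⟨u, hu⟩ := hmem
  refine ⟨u, ?_⟩
  have := congrArg (fun z : Fˣ => (z : F)) hu
  simpa [hN, hS] using this

end field

/-! ### The form -/

section form

variable {F : Type} [Field F] [StarRing F] {n : ℕ}

/-- the standard hermitian form -/
def SU_f (x y : Fin n → F) : F := ∑ i, x i * star (y i)

theorem SU_f_add_left (x y z : Fin n → F) : SU_f (x + y) z = SU_f x z + SU_f y z := by
  simp [SU_f, add_mul, Finset.sum_add_distrib]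

theorem SU_f_smul_left (c : F) (x y : Fin n → F) : SU_f (c • x) y = c * SU_f x y := by
  simp [SU_f, Finset.mul_sum, mul_assoc]

theorem SU_f_symm (x y : Fin n → F) : SU_f y x = star (SU_f x y) := by
  unfold SU_f
  rw [star_sum]
  refine Finset.sum_congr rfl fun i _ => ?_
  rw [star_mul', star_star, mul_comm]

theorem SU_f_add_right (x y z : Fin n → F) : SU_f x (y + z) = SU_f x y + SU_f x z := by
  rw [SU_f_symm (y + z) x, SU_f_add_left, star_add, ← SU_f_symm, ← SU_f_symm]

theorem SU_f_smul_right (c : F) (x y : Fin n → F) : SU_f x (c • y) = star c * SU_f x y := by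
  rw [SU_f_symm (c • y) x, SU_f_smul_left, star_mul', ← SU_f_symm]

theorem SU_f_neg_left (x y : Fin n → F) : SU_f (-x) y = - SU_f x y := by
  have := SU_f_smul_left (-1 : F) x y
  simpa using this

theorem SU_f_neg_right (x y : Fin n → F) : SU_f x (-y) = - SU_f x y := by
  have := SU_f_smul_right (-1 : F) x y
  simpa using this

theorem SU_f_sub_left (x y z : Fin n → F) : SU_f (x - y) z = SU_f x z - SU_f y z := by
  rw [sub_eq_add_neg, SU_f_add_left, SU_f_neg_left, sub_eq_add_neg]

theorem SU_f_sub_right (x y z : Fin n → F) : SU_f x (y - z) = SU_f x y - SU_f x z := by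
  rw [sub_eq_add_neg, SU_f_add_right, SU_f_neg_right, sub_eq_add_neg]

theorem SU_f_nondeg (x : Fin n → F) (h : ∀ y, SU_f x y = 0) : x = 0 := by
  classical
  funext i
  have := h (Pi.single i 1)
  unfold SU_f at this
  rw [Finset.sum_eq_single i] at this
  · simpa using this
  · intro j _ hj
    simp [Pi.single_eq_of_ne hj]
  · simp

/-- the standard hermitian form as a `Herm` -/
def SU_herm (F : Type) [Field F] [StarRing F] (n : ℕ) : Herm F (Fin n → F) where
  f := SU_f
  add_left := SU_f_add_left
  smul_left := SU_f_smul_left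
  symm := SU_f_symm
  nondeg := SU_f_nondeg

theorem SU_f_dot (x y : Fin n → F) : SU_f x y = x ⬝ᵥ (star y) := rfl

theorem SU_f_mulVec (A : Matrix (Fin n) (Fin n) F) (hA : star A * A = 1) (x y : Fin n → F) :
    SU_f (A.mulVec x) (A.mulVec y) = SU_f x y := by
  rw [SU_f_dot, SU_f_dot, Matrix.star_mulVec, dotProduct_comm, ← Matrix.dotProduct_mulVec,
    Matrix.mulVec_mulVec, ← Matrix.star_eq_conjTranspose, hA, Matrix.one_mulVec, dotProduct_comm]

/-- a matrix preserving the form is unitary -/
theorem SU_unitary (A : Matrix (Fin n) (Fin n) F)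
    (hA : ∀ x y, SU_f (A.mulVec x) (A.mulVec y) = SU_f x y) : star A * A = 1 := by
  classical
  have key : ∀ x y, SU_f ((star A * A).mulVec x) y = SU_f x y := by
    intro x y
    rw [← hA x y, SU_f_dot, SU_f_dot, Matrix.star_mulVec, dotProduct_comm (A.mulVec x),
      ← Matrix.dotProduct_mulVec, Matrix.mulVec_mulVec, ← Matrix.star_eq_conjTranspose,
      dotProduct_comm]
  have key2 : ∀ x, (star A * A).mulVec x = x := by
    intro x
    rw [← sub_eq_zero]
    refine SU_f_nondeg _ fun y => ?_
    rw [SU_f_sub_left, key, sub_self]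
  apply Matrix.toLin'.injective
  rw [Matrix.toLin'_one]
  apply LinearMap.ext
  intro x
  rw [Matrix.toLin'_apply, key2, LinearMap.id_apply]

end form

/-! ### Root elements -/

section tau

variable {F : Type} [Field F] [StarRing F] {n : ℕ}

/-- the root element -/
def SU_tau (v d : Fin n → F) (b : F) : (Fin n → F) →ₗ[F] (Fin n → F) where
  toFun z := z + SU_f z v • d - SU_f z d • v + (b * SU_f z v) • v
  map_add' x y := by
    simp only [SU_f_add_left, add_smul, mul_add]
    abel
  map_smul' c x := by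
    simp only [SU_f_smul_left, RingHom.id_apply, smul_add, smul_sub, smul_smul]
    rw [show b * (c * SU_f x v) = c * (b * SU_f x v) by ring]

theorem SU_tau_apply (v d z : Fin n → F) (b : F) :
    SU_tau v d b z = z + SU_f z v • d - SU_f z d • v + (b * SU_f z v) • v := rfl

theorem SU_tau_isometry {v d : Fin n → F} {b : F} (hv : SU_f v v = 0) (hd : SU_f d v = 0)
    (hb : b + star b + SU_f d d = 0) (x y : Fin n → F) :
    SU_f (SU_tau v d b x) (SU_tau v d b y) = SU_f x y := by
  have hd' : SU_f v d = 0 := by rw [SU_f_symm d v, hd, star_zero]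
  simp only [SU_tau_apply, SU_f_add_left, SU_f_add_right, SU_f_sub_left, SU_f_sub_right,
    SU_f_smul_left, SU_f_smul_right, hv, hd, hd', mul_zero, sub_zero, add_zero, star_mul']
  rw [SU_f_symm y v, SU_f_symm y d]
  linear_combination (SU_f x v * star (SU_f y v)) * hb

theorem SU_tau_det {v d : Fin n → F} {b : F} (hv : SU_f v v = 0) (hd : SU_f d v = 0) :
    LinearMap.det (SU_tau v d b) = 1 := by
  have hd' : SU_f v d = 0 := by rw [SU_f_symm d v, hd, star_zero]
  -- `τ - 1` is nilpotent
  have hN : ∀ z, (SU_tau v d b - 1) z = SU_f z v • d - SU_f z d • v + (b * SU_f z v) • v := by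
    intro z
    rw [LinearMap.sub_apply, SU_tau_apply, Module.End.one_apply]
    abel
  have hNv : (SU_tau v d b - 1) v = 0 := by
    rw [hN, hv, hd']
    simp
  have hNN : ∀ z, (SU_tau v d b - 1) ((SU_tau v d b - 1) z) = -(SU_f z v * SU_f d d) • v := by
    intro z
    rw [hN z, map_add, map_sub, map_smul, map_smul, map_smul, hNv, hN d, hd]
    simp [smul_smul]
  have hnil : IsNilpotent (SU_tau v d b - 1) := by
    refine ⟨3, ?_⟩
    apply LinearMap.ext
    intro z
    rw [pow_succ, pow_two, Module.End.mul_apply, Module.End.mul_apply, hNN, hN z, SU_f_add_left,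
      SU_f_sub_left, SU_f_smul_left, SU_f_smul_left, SU_f_smul_left, hd, hv]
    simp
  have hnil' : IsNilpotent (1 - SU_tau v d b) := by
    have := hnil.neg
    rwa [neg_sub] at this
  have hch := hnil'.charpoly_eq_X_pow_finrank
  have hev : (LinearMap.charpoly (1 - SU_tau v d b)).eval 1 = LinearMap.det (SU_tau v d b) := by
    rw [LinearMap.eval_charpoly]
    congr 1
    simp
  rw [← hev, hch]
  simp

end tau

/-! ### The action -/

section geom

open Matrix

variable {F : Type} [Field F] [StarRing F] {n : ℕ}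

/-- the action of `SU_n` -/
def SU_rho (F : Type) [Field F] [StarRing F] (n : ℕ) :
    specialUnitaryGroup (Fin n) F →* ((Fin n → F) →ₗ[F] (Fin n → F)) where
  toFun A := Matrix.toLin' (A : Matrix (Fin n) (Fin n) F)
  map_one' := Matrix.toLin'_one
  map_mul' _ _ := Matrix.toLin'_mul _ _

theorem SU_rho_apply (A : specialUnitaryGroup (Fin n) F) (x : Fin n → F) :
    SU_rho F n A x = (A : Matrix (Fin n) (Fin n) F).mulVec x := rfl

theorem SU_rho_inj : Function.Injective (SU_rho F n) := by
  intro A B h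
  exact Subtype.ext (Matrix.toLin'.injective h)

theorem SU_rho_f (A : specialUnitaryGroup (Fin n) F) (x y : Fin n → F) :
    SU_f (SU_rho F n A x) (SU_rho F n A y) = SU_f x y :=
  SU_f_mulVec _ (Matrix.mem_unitaryGroup_iff'.1 A.2.1) x y

/-- the polar data -/
def SU_polar (F : Type) [Field F] [StarRing F] (n : ℕ) :
    Polar F (Fin n → F) (specialUnitaryGroup (Fin n) F) where
  ρ := SU_rho F n
  inj := SU_rho_inj
  f := SU_f
  q := fun v => SU_f v v
  f_add_left := SU_f_add_left
  f_smul_left := SU_f_smul_left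
  f_add_right := SU_f_add_right
  f_smul_right c x y h := by rw [SU_f_smul_right, h, mul_zero]
  f_symm x y h := by rw [SU_f_symm x y, h, star_zero]
  f_nondeg := SU_f_nondeg
  f_inv := SU_rho_f
  q_inv h x := SU_rho_f h x x
  q_add x y h hx hy := by
    rw [SU_f_add_left, SU_f_add_right, SU_f_add_right, hx, hy, h, SU_f_symm x y, h]
    simp
  q_smul c x hx := by
    rw [SU_f_smul_left, SU_f_smul_right, hx]
    simp
  f_self _ h := h

theorem SU_exists_tau {v d : Fin n → F} {b : F} (hv : SU_f v v = 0) (hd : SU_f d v = 0)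
    (hb : b + star b + SU_f d d = 0) :
    ∃ h ∈ (SU_polar F n).root v, SU_rho F n h = SU_tau v d b := by
  have hd' : SU_f v d = 0 := by rw [SU_f_symm d v, hd, star_zero]
  have hmul : ∀ x, (LinearMap.toMatrix' (SU_tau v d b)).mulVec x = SU_tau v d b x := by
    intro x
    rw [← Matrix.toLin'_apply, Matrix.toLin'_toMatrix']
  have hu : LinearMap.toMatrix' (SU_tau v d b) ∈ specialUnitaryGroup (Fin n) F := by
    rw [mem_specialUnitaryGroup_iff]
    refine ⟨?_, ?_⟩
    · rw [Matrix.mem_unitaryGroup_iff']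
      apply SU_unitary
      intro x y
      rw [hmul, hmul]
      exact SU_tau_isometry hv hd hb x y
    · rw [LinearMap.det_toMatrix']
      exact SU_tau_det hv hd
  have hrho : SU_rho F n ⟨_, hu⟩ = SU_tau v d b := Matrix.toLin'_toMatrix' _
  refine ⟨⟨_, hu⟩, ⟨?_, ?_⟩, hrho⟩
  · change SU_rho F n ⟨_, hu⟩ v = v
    rw [hrho, SU_tau_apply, hv, hd']
    simp
  · intro y hy
    replace hy : SU_f y v = 0 := hy
    refine ⟨- SU_f y d, ?_⟩
    change SU_rho F n ⟨_, hu⟩ y - y = _
    rw [hrho, SU_tau_apply, hy]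
    simp

theorem SU_trans {u v w : Fin n → F} (hu : SU_f u u = 0) (hv : SU_f v v = 0)
    (hw : SU_f w w = 0) (huv : SU_f u v ≠ 0) (hwv : SU_f w v ≠ 0) :
    ∃ h ∈ (SU_polar F n).root v, ∃ c : F, c ≠ 0 ∧ SU_rho F n h u = c • w := by
  set u' : Fin n → F := (SU_f u v)⁻¹ • u with hu'
  set w' : Fin n → F := (SU_f w v)⁻¹ • w with hw'
  have h1 : SU_f u' v = 1 := by rw [hu', SU_f_smul_left, inv_mul_cancel₀ huv]
  have h2 : SU_f w' v = 1 := by rw [hw', SU_f_smul_left, inv_mul_cancel₀ hwv]
  have h3 : SU_f u' u' = 0 := by rw [hu', SU_f_smul_left, SU_f_smul_right, hu]; simp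
  have h4 : SU_f w' w' = 0 := by rw [hw', SU_f_smul_left, SU_f_smul_right, hw]; simp
  have hd : SU_f (w' - u') v = 0 := by rw [SU_f_sub_left, h1, h2, sub_self]
  have hb : SU_f u' w' + star (SU_f u' w') + SU_f (w' - u') (w' - u') = 0 := by
    rw [← SU_f_symm u' w', SU_f_sub_left, SU_f_sub_right, SU_f_sub_right, h3, h4]
    ring
  obtain ⟨h, hh, hrho⟩ := SU_exists_tau hv hd hb
  refine ⟨h, hh, SU_f u v * (SU_f w v)⁻¹, mul_ne_zero huv (inv_ne_zero hwv), ?_⟩
  have hu2 : u = SU_f u v • u' := by rw [hu', smul_smul, mul_inv_cancel₀ huv, one_smul]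
  have hkey : SU_tau v (w' - u') (SU_f u' w') u' = w' := by
    rw [SU_tau_apply, h1, SU_f_sub_right, h3, one_smul, mul_one, sub_zero]
    abel
  rw [hrho]
  conv_lhs => rw [hu2]
  rw [map_smul, hkey, hw', smul_smul]

theorem SU_opp (hs : ∃ a : F, star a ≠ a) {v w : Fin n → F} (hv0 : v ≠ 0) (hw0 : w ≠ 0)
    (hv : SU_f v v = 0) :
    ∃ u, SU_f u u = 0 ∧ SU_f u v ≠ 0 ∧ SU_f u w ≠ 0 := by
  by_contra hcon
  push Not at hcon
  -- a vector `u0` with `f u0 v = 1`
  obtain ⟨u1, hu1⟩ : ∃ u1, SU_f u1 v ≠ 0 := by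
    by_contra h
    push Not at h
    exact hv0 (SU_f_nondeg v fun y => by rw [SU_f_symm y v, h y, star_zero])
  obtain ⟨u0, hu0⟩ : ∃ u0, SU_f u0 v = 1 :=
    ⟨(SU_f u1 v)⁻¹ • u1, by rw [SU_f_smul_left, inv_mul_cancel₀ hu1]⟩
  have hvu0 : SU_f v u0 = 1 := by rw [SU_f_symm u0 v, hu0, star_one]
  -- the family of isotropic vectors `u0 + d + λ v`
  have key : ∀ d, SU_f d v = 0 → ∃ l : F, ∀ b : F, b + star b = 0 →
      SU_f (u0 + d + (l + b) • v) w = 0 := by
    intro d hd
    have hd' : SU_f v d = 0 := by rw [SU_f_symm d v, hd, star_zero]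
    obtain ⟨l, hl⟩ := SU_trace hs (-(SU_f (u0 + d) (u0 + d))) (by
      rw [star_neg, ← SU_f_symm])
    refine ⟨l, fun b hb => hcon _ ?_ ?_⟩
    · rw [SU_f_add_left _ _ (u0 + d + (l + b) • v), SU_f_add_right _ (u0 + d) ((l + b) • v),
        SU_f_smul_left, SU_f_smul_right, SU_f_add_right v, SU_f_smul_right, SU_f_add_right v,
        SU_f_add_left u0 d v, hu0, hd, hvu0, hd', hv, star_add]
      linear_combination hl + hb
    · rw [SU_f_add_left, SU_f_add_left, SU_f_smul_left, hu0, hd, hv]
      simp
  obtain ⟨b, hb0, hb⟩ := SU_skew hs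
  -- `f v w = 0`
  have hvw : SU_f v w = 0 := by
    obtain ⟨l, hl⟩ := key 0 (by simp [SU_f])
    have h1 := hl 0 (by simp)
    have h2 := hl b hb
    rw [SU_f_add_left, SU_f_smul_left] at h1 h2
    have h3 : b * SU_f v w = 0 := by linear_combination h2 - h1
    exact (mul_eq_zero.1 h3).resolve_left hb0
  have hu0w : SU_f u0 w = 0 := by
    obtain ⟨l, hl⟩ := key 0 (by simp [SU_f])
    have h1 := hl 0 (by simp)
    rw [SU_f_add_left, SU_f_smul_left, hvw, add_zero, mul_zero, add_zero] at h1
    exact h1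
  have hdw : ∀ d, SU_f d v = 0 → SU_f d w = 0 := by
    intro d hd
    obtain ⟨l, hl⟩ := key d hd
    have h1 := hl 0 (by simp)
    rw [SU_f_add_left, SU_f_smul_left, hvw, mul_zero, add_zero, SU_f_add_left, hu0w,
      zero_add] at h1
    exact h1
  have hall : ∀ z, SU_f z w = 0 := by
    intro z
    have h1 : SU_f (z - SU_f z v • u0) v = 0 := by
      rw [SU_f_sub_left, SU_f_smul_left, hu0, mul_one, sub_self]
    have h2 := hdw _ h1
    rw [SU_f_sub_left, SU_f_smul_left, hu0w, mul_zero, sub_zero] at h2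
    exact h2
  exact hw0 (SU_f_nondeg w fun y => by rw [SU_f_symm y w, hall y, star_zero])

theorem SU_ex [Finite F] (hs : ∃ a : F, star a ≠ a) (hn : 2 ≤ n) :
    ∃ v : Fin n → F, v ≠ 0 ∧ SU_f v v = 0 := by
  classical
  obtain ⟨a, ha⟩ := SU_norm hs (-1 : F) (by simp) (by simp)
  let i : Fin n := ⟨0, by omega⟩
  let j : Fin n := ⟨1, by omega⟩
  have hij : i ≠ j := by
    intro h
    have := congrArg Fin.val h
    simp [i, j] at this
  have hsing : ∀ (k l : Fin n) (c e : F),
      SU_f (Pi.single k c) (Pi.single l e) = if k = l then c * star e else 0 := by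
    intro k l c e
    unfold SU_f
    rw [Finset.sum_eq_single k]
    · by_cases h : k = l
      · subst h
        simp
      · simp [h]
    · intro m _ hm
      simp [Pi.single_eq_of_ne hm]
    · simp
  refine ⟨Pi.single i 1 + Pi.single j a, ?_, ?_⟩
  · intro h
    have := congrFun h i
    simp [Pi.single_eq_of_ne hij] at this
  · rw [SU_f_add_left, SU_f_add_right, SU_f_add_right, hsing, hsing, hsing, hsing, if_pos rfl,
      if_neg hij, if_neg hij.symm, if_pos rfl, ha]
    simp

/-- the action by linear equivalences -/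
def SU_equiv (F : Type) [Field F] [StarRing F] (n : ℕ) :
    specialUnitaryGroup (Fin n) F →* ((Fin n → F) ≃ₗ[F] (Fin n → F)) :=
  (LinearMap.GeneralLinearGroup.generalLinearEquiv F (Fin n → F)).toMonoidHom.comp
    (SU_rho F n).toHomUnits

theorem SU_equiv_apply (A : specialUnitaryGroup (Fin n) F) (x : Fin n → F) :
    SU_equiv F n A x = SU_rho F n A x := rfl

theorem SU_gen [Finite F] (hs : ∃ a : F, star a ≠ a) (hn : 2 ≤ n)
    (B : Subgroup (specialUnitaryGroup (Fin n) F))
    (hB : ∀ v, v ≠ 0 → SU_f v v = 0 → (SU_polar F n).root v ≤ B) : B = ⊤ := by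
  rw [eq_top_iff]
  intro A _
  have hmem : SU_equiv F n A ∈ B.map (SU_equiv F n) := by
    refine su_gen hs (SU_herm F n) (B.map (SU_equiv F n)) ?_ (by simpa using hn) _ ?_ ?_
    · rintro g v d b ⟨hv, hd, hb, hg⟩
      by_cases hv0 : v = 0
      · have : g = 1 := by
          apply LinearEquiv.ext
          intro z
          rw [hg z, hv0]
          have h0 : (SU_herm F n).f z 0 = 0 := by simp [SU_herm, SU_f]
          rw [h0]
          simp
        rw [this]
        exact Subgroup.one_mem _
      · obtain ⟨h, hh, hrho⟩ := SU_exists_tau (v := v) (d := d) (b := b) hv hd hb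
        refine ⟨h, hB v hv0 hv hh, ?_⟩
        apply LinearEquiv.ext
        intro z
        rw [SU_equiv_apply, hrho, hg z]
        rfl
    · intro x y
      exact SU_rho_f A x y
    · have : ((SU_equiv F n A : (Fin n → F) ≃ₗ[F] (Fin n → F)) : (Fin n → F) →ₗ[F] (Fin n → F)) =
          Matrix.toLin' (A : Matrix (Fin n) (Fin n) F) := by
        apply LinearMap.ext
        intro x
        rfl
      rw [this, LinearMap.det_toLin']
      exact (mem_specialUnitaryGroup_iff.1 A.2).2
  obtain ⟨A', hA', hAA⟩ := hmem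
  have : A' = A := by
    apply SU_rho_inj
    apply LinearMap.ext
    intro x
    rw [← SU_equiv_apply, ← SU_equiv_apply, hAA]
  rw [← this]
  exact hA'

/-- the action of `SU_n` on its natural module -/
theorem su_geom {F : Type} [Field F] [Finite F] [StarRing F] (hs : ∃ a : F, star a ≠ a)
    {n : ℕ} (hn : 2 ≤ n) :
    ∃ P : Polar F (Fin n → F) (Matrix.specialUnitaryGroup (Fin n) F),
      P.Geom (Subgroup.center _) ∧ (∀ v, P.q v = ∑ i, v i * star (v i)) ∧
      ∀ v, P.f v v = P.q v := by
  refine ⟨SU_polar F n, ⟨SU_ex hs hn, ?_, ?_, ?_⟩, fun v => rfl, fun v => rfl⟩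
  · intro u v w hu hv hw huv hwv
    exact SU_trans hu hv hw huv hwv
  · intro v w hv0 hw0 hv _
    exact SU_opp hs hv0 hw0 hv
  · intro B _ hB
    exact SU_gen hs hn B hB

end geom

end Pool.Agent.Lib.MP_bfe725_co
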