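import Mathlib

/-!
# The number of isotropic vectors of the standard hermitian form over a finite field

(problem MP_bfe725_co, module SUCOUNT)
-/

set_option autoImplicit false

namespace Pool.Agent.Lib.MP_bfe725_co

section sucount

variable {F : Type} [Field F] [StarRing F]

theorem sucount_star_ne_zero {x : F} (hx : x ≠ 0) : star x ≠ 0 := by
  intro h
  exact hx (by rw [← star_star x, h, star_zero])

theorem sucount_star_inv (x : F) : star (x⁻¹) = (star x)⁻¹ := by
  by_cases hx : x = 0
  · rw [hx]; simp
  · have h1 : star x * star (x⁻¹) = 1 := by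
      rw [← star_mul', mul_inv_cancel₀ hx, star_one]
    exact eq_inv_of_mul_eq_one_right h1

/-- the norm on units -/
def sucountN : Fˣ →* Fˣ where
  toFun x := ⟨(x : F) * star (x : F), ((x⁻¹ : Fˣ) : F) * star ((x⁻¹ : Fˣ) : F), by
      rw [mul_mul_mul_comm, ← star_mul', Units.mul_inv, star_one, one_mul], by
      rw [mul_mul_mul_comm, ← star_mul', Units.inv_mul, star_one, one_mul]⟩
  map_one' := by
    ext
    simp
  map_mul' x y := by
    ext
    simp [star_mul']
    ring

theorem sucountN_val (x : Fˣ) : ((sucountN x : Fˣ) : F) = (x : F) * star (x : F) := rfl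

/-- `y ↦ y / star y` on units -/
def sucountD : Fˣ →* Fˣ where
  toFun x := ⟨(x : F) * star ((x⁻¹ : Fˣ) : F), ((x⁻¹ : Fˣ) : F) * star (x : F), by
      rw [mul_mul_mul_comm, ← star_mul', Units.mul_inv, Units.inv_mul, star_one, one_mul], by
      rw [mul_mul_mul_comm, ← star_mul', Units.inv_mul, Units.mul_inv, star_one, one_mul]⟩
  map_one' := by
    ext
    simp
  map_mul' x y := by
    ext
    simp [star_mul']
    ring

theorem sucountD_val (x : Fˣ) : ((sucountD x : Fˣ) : F) = (x : F) * star ((x⁻¹ : Fˣ) : F) := rfl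

theorem sucount_mem_kerD (x : Fˣ) : x ∈ (sucountD (F := F)).ker ↔ star (x : F) = x := by
  rw [MonoidHom.mem_ker]
  constructor
  · intro h
    have h1 : (x : F) * star ((x⁻¹ : Fˣ) : F) = 1 := by
      rw [← sucountD_val, h, Units.val_one]
    have h2 : (x : F) * star ((x⁻¹ : Fˣ) : F) * star (x : F) = star (x : F) := by rw [h1, one_mul]
    rw [mul_assoc, ← star_mul', Units.inv_mul, star_one, mul_one] at h2
    exact h2.symm
  · intro h
    ext
    rw [sucountD_val, Units.val_one]
    have h2 : star (x : F) * star ((x⁻¹ : Fˣ) : F) = 1 := by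
      rw [← star_mul', Units.mul_inv, star_one]
    rw [h] at h2
    exact h2

theorem sucount_mem_kerN (x : Fˣ) : x ∈ (sucountN (F := F)).ker ↔ (x : F) * star (x : F) = 1 := by
  rw [MonoidHom.mem_ker]
  constructor
  · intro h
    rw [← sucountN_val, h, Units.val_one]
  · intro h
    ext
    rw [sucountN_val, Units.val_one]
    exact h

/-- Hilbert 90 -/
theorem sucount_rangeD (hs : ∃ a : F, star a ≠ a) :
    (sucountD (F := F)).range = (sucountN (F := F)).ker := by
  ext x
  rw [sucount_mem_kerN, MonoidHom.mem_range]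
  constructor
  · rintro ⟨y, rfl⟩
    rw [sucountD_val, star_mul', star_star]
    have h1 : (y : F) * ((y⁻¹ : Fˣ) : F) = 1 := Units.mul_inv y
    have h2 : star (y : F) * star ((y⁻¹ : Fˣ) : F) = 1 := by rw [← star_mul', h1, star_one]
    calc (y : F) * star ((y⁻¹ : Fˣ) : F) * (star (y : F) * ((y⁻¹ : Fˣ) : F))
        = ((y : F) * ((y⁻¹ : Fˣ) : F)) * (star (y : F) * star ((y⁻¹ : Fˣ) : F)) := by ring
      _ = 1 := by rw [h1, h2, one_mul]
  · intro hx
    -- choose `z` with `z + x star z ≠ 0`
    have hex : ∃ z : F, z + (x : F) * star z ≠ 0 := by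
      by_contra hcon
      push Not at hcon
      have h1 := hcon 1
      rw [star_one, mul_one] at h1
      have h2 : (x : F) = -1 := by linear_combination h1
      obtain ⟨a, ha⟩ := hs
      have h3 := hcon a
      rw [h2] at h3
      exact ha (by linear_combination -h3)
    obtain ⟨z, hz⟩ := hex
    refine ⟨Units.mk0 _ hz, ?_⟩
    ext
    rw [sucountD_val]
    have h4 : star (z + (x : F) * star z) = star (x : F) * (z + (x : F) * star z) := by
      rw [star_add, star_mul', star_star]
      linear_combination (-star z) * hx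
    have h5 : (((Units.mk0 _ hz)⁻¹ : Fˣ) : F) = (z + (x : F) * star z)⁻¹ := rfl
    rw [h5, sucount_star_inv, h4, Units.val_mk0]
    have hxs : star (x : F) ≠ 0 := sucount_star_ne_zero x.ne_zero
    field_simp
    linear_combination -hx

theorem sucount_cards [Finite F] (hs : ∃ a : F, star a ≠ a) :
    Nat.card Fˣ = Nat.card (sucountD (F := F)).ker * Nat.card (sucountN (F := F)).ker ∧
    (sucountN (F := F)).range = (sucountD (F := F)).ker := by
  have h1 : Nat.card (sucountD (F := F)).ker * Nat.card (sucountD (F := F)).range = Nat.card Fˣ := by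
    rw [← Subgroup.index_ker, Subgroup.card_mul_index]
  have h2 : Nat.card (sucountN (F := F)).ker * Nat.card (sucountN (F := F)).range = Nat.card Fˣ := by
    rw [← Subgroup.index_ker, Subgroup.card_mul_index]
  rw [sucount_rangeD hs] at h1
  refine ⟨h1.symm, ?_⟩
  have hle : (sucountN (F := F)).range ≤ (sucountD (F := F)).ker := by
    rintro _ ⟨x, rfl⟩
    rw [sucount_mem_kerD, sucountN_val, star_mul', star_star, mul_comm]
  apply Subgroup.eq_of_le_of_card_ge hle
  have h3 : 0 < Nat.card (sucountN (F := F)).ker := Nat.card_pos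
  have h4 : Nat.card (sucountN (F := F)).ker * Nat.card (sucountN (F := F)).range =
      Nat.card (sucountN (F := F)).ker * Nat.card (sucountD (F := F)).ker := by
    rw [h2, ← h1, mul_comm]
  exact (Nat.eq_of_mul_eq_mul_left h3 h4).ge

/-- the number of fixed elements of `star` -/
theorem sucount_card_eq [Finite F] (hs : ∃ a : F, star a ≠ a) :
    Nat.card F = Nat.card {x : F // star x = x} ^ 2 := by
  obtain ⟨a, ha⟩ := hs
  have hδ : a - star a ≠ 0 := fun h => ha (by linear_combination -h)
  have hbij : Function.Bijective (fun p : {x : F // star x = x} × {x : F // star x = x} =>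
      (p.1 : F) + (p.2 : F) * a) := by
    constructor
    · rintro ⟨⟨u, hu⟩, ⟨w, hw⟩⟩ ⟨⟨u', hu'⟩, ⟨w', hw'⟩⟩ h
      have h1 : u + w * a = u' + w' * a := h
      have h2 : star (u + w * a) = star (u' + w' * a) := by rw [h1]
      rw [star_add, star_mul', star_add, star_mul', hu, hw, hu', hw'] at h2
      have h3 : (w - w') * (a - star a) = 0 := by linear_combination h1 - h2
      have h4 : w = w' := by
        rcases mul_eq_zero.1 h3 with h5 | h5
        · exact sub_eq_zero.1 h5
        · exact absurd h5 hδ
      subst h4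
      have h6 : u = u' := by linear_combination h1
      subst h6
      rfl
    · intro x
      have hw : star ((x - star x) / (a - star a)) = (x - star x) / (a - star a) := by
        rw [div_eq_mul_inv, star_mul', sucount_star_inv, star_sub, star_sub, star_star, star_star]
        have hδ' : star a - a ≠ 0 := fun h => ha (by linear_combination h)
        field_simp
        ring
      refine ⟨(⟨x - (x - star x) / (a - star a) * a, ?_⟩, ⟨(x - star x) / (a - star a), hw⟩), ?_⟩
      · rw [star_sub, star_mul', hw]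
        field_simp
        ring
      · show x - (x - star x) / (a - star a) * a + (x - star x) / (a - star a) * a = x
        ring
  rw [← Nat.card_congr (Equiv.ofBijective _ hbij), Nat.card_prod, sq]

theorem sucount_card_kerD [Finite F] :
    Nat.card (sucountD (F := F)).ker + 1 = Nat.card {x : F // star x = x} := by
  classical
  have : Fintype F := Fintype.ofFinite F
  have h1 : Nat.card (sucountD (F := F)).ker = Nat.card {x : F // star x = x ∧ x ≠ 0} := by
    refine Nat.card_congr (Equiv.ofBijective (fun u : (sucountD (F := F)).ker =>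
      (⟨(u : Fˣ), (sucount_mem_kerD _).1 u.2, Units.ne_zero _⟩ : {x : F // star x = x ∧ x ≠ 0}))
      ⟨?_, ?_⟩)
    · intro u v h
      have h2 : ((u : Fˣ) : F) = ((v : Fˣ) : F) := congrArg Subtype.val h
      exact Subtype.ext (Units.ext h2)
    · rintro ⟨x, hx, hx0⟩
      exact ⟨⟨Units.mk0 x hx0, (sucount_mem_kerD _).2 hx⟩, rfl⟩
  rw [h1, Nat.card_eq_fintype_card, Nat.card_eq_fintype_card, Fintype.card_subtype,
    Fintype.card_subtype]
  have h2 : (Finset.univ.filter (fun x : F => star x = x ∧ x ≠ 0)) =
      (Finset.univ.filter (fun x : F => star x = x)).erase 0 := by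
    ext x
    simp only [Finset.mem_filter, Finset.mem_univ, true_and, Finset.mem_erase, ne_eq]
    tauto
  rw [h2]
  exact Finset.card_erase_add_one (by simp)

/-- fibres of the norm -/
theorem sucount_fibre [Finite F] (hs : ∃ a : F, star a ≠ a) (c : F) (hc : star c = c)
    (hc0 : c ≠ 0) : Nat.card {x : F // x * star x = c} = Nat.card (sucountN (F := F)).ker := by
  obtain ⟨_, hr⟩ := sucount_cards hs
  have hmem : Units.mk0 c hc0 ∈ (sucountN (F := F)).range := by
    rw [hr, sucount_mem_kerD]
    exact hc
  obtain ⟨y, hy⟩ := hmem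
  have hy' : (y : F) * star (y : F) = c := by
    rw [← sucountN_val, hy, Units.val_mk0]
  symm
  refine Nat.card_congr (Equiv.ofBijective (fun u : (sucountN (F := F)).ker =>
      (⟨((u : Fˣ) : F) * (y : F), ?_⟩ : {x : F // x * star x = c})) ⟨?_, ?_⟩)
  · have hu : ((u : Fˣ) : F) * star ((u : Fˣ) : F) = 1 := (sucount_mem_kerN _).1 u.2
    rw [star_mul', mul_mul_mul_comm, hu, one_mul, hy']
  · intro u v h
    have h2 : ((u : Fˣ) : F) * (y : F) = ((v : Fˣ) : F) * (y : F) := congrArg Subtype.val h
    exact Subtype.ext (Units.ext (mul_right_cancel₀ y.ne_zero h2))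
  · rintro ⟨x, hx⟩
    have hx0 : x ≠ 0 := by
      rintro rfl
      rw [zero_mul] at hx
      exact hc0 hx.symm
    refine ⟨⟨Units.mk0 x hx0 * y⁻¹, ?_⟩, ?_⟩
    · have h3 : sucountN (Units.mk0 x hx0) = sucountN y := by
        rw [hy]
        ext
        rw [sucountN_val, Units.val_mk0, Units.val_mk0]
        exact hx
      rw [MonoidHom.mem_ker, map_mul, map_inv, h3, mul_inv_cancel]
    · apply Subtype.ext
      show ((Units.mk0 x hx0 * y⁻¹ : Fˣ) : F) * (y : F) = x
      rw [Units.val_mul, mul_assoc, Units.inv_mul, mul_one, Units.val_mk0]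

theorem sucount_step [Finite F] (hs : ∃ a : F, star a ≠ a) (n : ℕ) :
    Nat.card {v : Fin (n+1) → F // ∑ i, v i * star (v i) = 0} =
      Nat.card {v : Fin n → F // ∑ i, v i * star (v i) = 0} +
      Nat.card (sucountN (F := F)).ker *
        (Nat.card (Fin n → F) - Nat.card {v : Fin n → F // ∑ i, v i * star (v i) = 0}) := by
  classical
  have : Fintype F := Fintype.ofFinite F
  have hfix : ∀ v : Fin n → F, star (∑ i, v i * star (v i)) = ∑ i, v i * star (v i) := by
    intro v
    rw [star_sum]
    refine Finset.sum_congr rfl fun i _ => ?_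
    rw [star_mul', star_star, mul_comm]
  have e1 : {v : Fin (n+1) → F // ∑ i, v i * star (v i) = 0} ≃
      Σ v : Fin n → F, {x : F // x * star x = - ∑ i, v i * star (v i)} :=
    { toFun := fun v => ⟨fun i => v.1 i.succ, ⟨v.1 0, by
        have h := v.2
        rw [Fin.sum_univ_succ] at h
        exact eq_neg_of_add_eq_zero_left h⟩⟩
      invFun := fun p => ⟨Fin.cons p.2.1 p.1, by
        rw [Fin.sum_univ_succ]
        simp only [Fin.cons_zero, Fin.cons_succ]
        rw [p.2.2, neg_add_cancel]⟩
      left_inv := by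
        rintro ⟨v, hv⟩
        apply Subtype.ext
        funext i
        refine Fin.cases ?_ (fun j => ?_) i
        · rfl
        · rfl
      right_inv := by
        rintro ⟨v, x, hx⟩
        rfl }
  rw [Nat.card_congr e1, Nat.card_sigma]
  have h2 : ∀ v : Fin n → F, Nat.card {x : F // x * star x = - ∑ i, v i * star (v i)} =
      if ∑ i, v i * star (v i) = 0 then 1 else Nat.card (sucountN (F := F)).ker := by
    intro v
    by_cases hv : ∑ i, v i * star (v i) = 0
    · rw [if_pos hv, hv, neg_zero, Nat.card_eq_fintype_card, Fintype.card_subtype]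
      rw [Finset.card_eq_one]
      refine ⟨0, ?_⟩
      ext x
      simp only [Finset.mem_filter, Finset.mem_univ, true_and, Finset.mem_singleton]
      constructor
      · intro h
        rcases mul_eq_zero.1 h with h | h
        · exact h
        · by_contra hx
          exact sucount_star_ne_zero hx h
      · rintro rfl
        rw [zero_mul]
    · rw [if_neg hv]
      apply sucount_fibre hs
      · rw [star_neg, hfix]
      · exact neg_ne_zero.2 hv
  rw [Finset.sum_congr rfl fun v _ => h2 v, Finset.sum_ite, Finset.sum_const, Finset.sum_const,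
    smul_eq_mul, smul_eq_mul, mul_one]
  have h3 : Nat.card {v : Fin n → F // ∑ i, v i * star (v i) = 0} =
      (Finset.univ.filter (fun v : Fin n → F => ∑ i, v i * star (v i) = 0)).card := by
    rw [Nat.card_eq_fintype_card, Fintype.card_subtype]
  have h4 : (Finset.univ.filter (fun v : Fin n → F => ∑ i, v i * star (v i) = 0)).card +
      (Finset.univ.filter (fun v : Fin n → F => ¬ ∑ i, v i * star (v i) = 0)).card =
      Nat.card (Fin n → F) := by
    rw [Finset.card_filter_add_card_filter_not, Finset.card_univ, Nat.card_eq_fintype_card]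
  rw [h3, ← h4, Nat.add_sub_cancel_left, mul_comm]

theorem su_count {F : Type} [Field F] [Finite F] [StarRing F] (hs : ∃ a : F, star a ≠ a) :
    ∃ q₀ : ℕ, 2 ≤ q₀ ∧ Nat.card F = q₀ ^ 2 ∧ ∀ n : ℕ,
      (Nat.card {v : Fin n → F // ∑ i, v i * star (v i) = 0} : ℤ) =
        if n = 0 then 1 else
          (q₀ : ℤ) ^ (2 * n - 1) + (-1) ^ n * ((q₀ : ℤ) ^ n - (q₀ : ℤ) ^ (n - 1)) := by
  have hcard := sucount_card_eq hs
  have hD := sucount_card_kerD (F := F)
  obtain ⟨hU, _⟩ := sucount_cards hs
  set q₀ := Nat.card {x : F // star x = x} with hq₀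
  have hF : 1 < Nat.card F := Finite.one_lt_card
  have hq2 : 2 ≤ q₀ := by
    by_contra hlt
    have h1 : q₀ ≤ 1 := by omega
    have h2 : q₀ ^ 2 ≤ 1 ^ 2 := Nat.pow_le_pow_left h1 2
    omega
  have hUn : Nat.card Fˣ + 1 = Nat.card F := by
    have := Nat.card_units F
    omega
  have hN : Nat.card (sucountN (F := F)).ker = q₀ + 1 := by
    have h1 : Nat.card (sucountD (F := F)).ker = q₀ - 1 := by omega
    have h2 : (q₀ - 1) * Nat.card (sucountN (F := F)).ker = (q₀ - 1) * (q₀ + 1) := by
      rw [← h1, ← hU]
      have h3 : Nat.card Fˣ = q₀ ^ 2 - 1 := by omega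
      rw [h3, h1]
      obtain ⟨m, hm⟩ : ∃ m, q₀ = m + 1 := ⟨q₀ - 1, by omega⟩
      rw [hm, Nat.add_sub_cancel]
      have : (m + 1) ^ 2 = m * (m + 1 + 1) + 1 := by ring
      omega
    exact Nat.eq_of_mul_eq_mul_left (by omega) h2
  refine ⟨q₀, hq2, hcard, ?_⟩
  have hrec : ∀ n : ℕ, (Nat.card {v : Fin (n+1) → F // ∑ i, v i * star (v i) = 0} : ℤ) =
      ((q₀ : ℤ) + 1) * (q₀ : ℤ) ^ (2 * n) -
        q₀ * (Nat.card {v : Fin n → F // ∑ i, v i * star (v i) = 0} : ℤ) := by
    intro n
    have h1 := sucount_step hs n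
    have h2 : Nat.card (Fin n → F) = q₀ ^ (2 * n) := by
      rw [Nat.card_fun, Nat.card_fin, hcard, ← pow_mul]
    have h3 : Nat.card {v : Fin n → F // ∑ i, v i * star (v i) = 0} ≤ Nat.card (Fin n → F) :=
      Nat.card_le_card_of_injective _ Subtype.val_injective
    rw [h1, hN]
    rw [h2] at h3 ⊢
    push_cast [Nat.cast_sub h3]
    ring
  intro n
  induction n with
  | zero => simp
  | succ n ih =>
    rw [hrec n, ih, if_neg (Nat.succ_ne_zero n)]
    rcases n with _ | m
    · simp
    · rw [if_neg (Nat.succ_ne_zero m)]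
      have e1 : 2 * (m + 1) - 1 = 2 * m + 1 := by omega
      have e2 : 2 * (m + 1 + 1) - 1 = 2 * m + 3 := by omega
      have e3 : m + 1 + 1 - 1 = m + 1 := by omega
      have e4 : m + 1 - 1 = m := by omega
      rw [e1, e2, e3, e4]
      ring

end sucount

end Pool.Agent.Lib.MP_bfe725_co
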