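import Pool.Agent.Lib.MP_bfe725_co.SpGen

/-!
# The symplectic groups (module SP, problem MP_bfe725_co)
-/

set_option autoImplicit false

namespace Pool.Agent.Lib.MP_bfe725_co

open Module Matrix

namespace SpMod

variable {F : Type} [Field F] {n : ℕ}

/-- the natural module -/
abbrev VV (F : Type) (n : ℕ) : Type := Fin n ⊕ Fin n → F

/-- the symplectic form -/
def sf (x y : VV F n) : F := x ⬝ᵥ (J (Fin n) F *ᵥ y)

/-- the action -/
def rho : Matrix.symplecticGroup (Fin n) F →* (VV F n →ₗ[F] VV F n) :=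
  ((Matrix.toLinAlgEquiv' : Matrix (Fin n ⊕ Fin n) (Fin n ⊕ Fin n) F ≃ₐ[F]
    (VV F n →ₗ[F] VV F n)) : Matrix (Fin n ⊕ Fin n) (Fin n ⊕ Fin n) F →*
      (VV F n →ₗ[F] VV F n)).comp (Matrix.symplecticGroup (Fin n) F).subtype

theorem rho_apply (h : Matrix.symplecticGroup (Fin n) F) (x : VV F n) :
    rho h x = (h : Matrix (Fin n ⊕ Fin n) (Fin n ⊕ Fin n) F) *ᵥ x := rfl

theorem rho_inj : Function.Injective (rho : Matrix.symplecticGroup (Fin n) F →* _) := by
  intro a b hab
  apply Subtype.ext
  exact (Matrix.toLinAlgEquiv' : Matrix (Fin n ⊕ Fin n) (Fin n ⊕ Fin n) F ≃ₐ[F]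
    (VV F n →ₗ[F] VV F n)).injective hab

theorem sf_add_left (x y z : VV F n) : sf (x + y) z = sf x z + sf y z := by
  unfold sf
  rw [add_dotProduct]

theorem sf_smul_left (c : F) (x y : VV F n) : sf (c • x) y = c * sf x y := by
  unfold sf
  rw [smul_dotProduct, smul_eq_mul]

theorem sf_add_right (x y z : VV F n) : sf x (y + z) = sf x y + sf x z := by
  unfold sf
  rw [mulVec_add, dotProduct_add]

theorem sf_smul_right (c : F) (x y : VV F n) : sf x (c • y) = c * sf x y := by
  unfold sf
  rw [mulVec_smul, dotProduct_smul, smul_eq_mul]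

theorem sf_self (x : VV F n) : sf x x = 0 := by
  unfold sf J
  rw [fromBlocks_mulVec]
  simp only [dotProduct, Fintype.sum_sum_type, Sum.elim_inl, Sum.elim_inr]
  simp only [zero_mulVec, one_mulVec, neg_mulVec, zero_add, add_zero, Pi.neg_apply,
    Function.comp]
  rw [← Finset.sum_add_distrib]
  apply Finset.sum_eq_zero
  intro i _
  ring

theorem sf_anti (x y : VV F n) : sf y x = - sf x y := by
  have h := sf_self (x + y)
  rw [sf_add_left, sf_add_right, sf_add_right, sf_self, sf_self] at h
  linear_combination h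

theorem sf_nondeg (x : VV F n) (h : ∀ y, sf x y = 0) : x = 0 := by
  have h1 : ∀ z : VV F n, x ⬝ᵥ z = 0 := by
    intro z
    have h2 := h (-(J (Fin n) F *ᵥ z))
    unfold sf at h2
    rw [mulVec_neg, mulVec_mulVec, J_squared, neg_mulVec, one_mulVec, neg_neg] at h2
    exact h2
  exact dotProduct_eq_zero_iff.1 h1

theorem key (A : Matrix (Fin n ⊕ Fin n) (Fin n ⊕ Fin n) F) (x y : VV F n) :
    sf (A *ᵥ x) (A *ᵥ y) = x ⬝ᵥ ((Aᵀ * J (Fin n) F * A) *ᵥ y) := by
  unfold sf
  rw [← mulVec_mulVec, ← mulVec_mulVec, dotProduct_mulVec x, vecMul_transpose]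

theorem sf_inv (h : Matrix.symplecticGroup (Fin n) F) (x y : VV F n) :
    sf (rho h x) (rho h y) = sf x y := by
  have h1 := (SymplecticGroup.mem_iff' (A := (h : Matrix (Fin n ⊕ Fin n) (Fin n ⊕ Fin n) F))).1 h.2
  rw [rho_apply, rho_apply, key, h1]
  rfl

/-- an isometry comes from the symplectic group -/
theorem mk_sp (g : VV F n →ₗ[F] VV F n) (hg : ∀ x y, sf (g x) (g y) = sf x y) :
    ∃ h : Matrix.symplecticGroup (Fin n) F, rho h = g := by
  obtain ⟨A, hA⟩ := (Matrix.toLinAlgEquiv' : Matrix (Fin n ⊕ Fin n) (Fin n ⊕ Fin n) F ≃ₐ[F]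
    (VV F n →ₗ[F] VV F n)).surjective g
  have hA' : ∀ x, g x = A *ᵥ x := by
    intro x
    rw [← hA]
    rfl
  have h1 : Aᵀ * J (Fin n) F * A = J (Fin n) F := by
    apply Matrix.ext_of_mulVec_single
    intro j
    have h2 : ∀ x : VV F n, x ⬝ᵥ ((Aᵀ * J (Fin n) F * A) *ᵥ (Pi.single j 1)) =
        x ⬝ᵥ (J (Fin n) F *ᵥ (Pi.single j 1)) := by
      intro x
      rw [← key, ← hA', ← hA']
      exact hg x _
    exact dotProduct_eq _ _ (fun u => by rw [dotProduct_comm _ u, dotProduct_comm _ u]; exact h2 u)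
  refine ⟨⟨A, SymplecticGroup.mem_iff'.2 h1⟩, ?_⟩
  exact hA

/-- the transvection-like isometry of a root group -/
def tr (v d : VV F n) (a l : F) : VV F n →ₗ[F] VV F n where
  toFun z := z + (a⁻¹ * sf z v) • d + (a⁻¹ * sf z d + l * sf z v) • v
  map_add' x y := by
    rw [sf_add_left, sf_add_left]
    module
  map_smul' c x := by
    rw [sf_smul_left, sf_smul_left, RingHom.id_apply]
    module

theorem tr_apply (v d z : VV F n) (a l : F) :
    tr v d a l z = z + (a⁻¹ * sf z v) • d + (a⁻¹ * sf z d + l * sf z v) • v := rfl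

theorem tr_isom (v d : VV F n) (a l : F) (hd : sf d v = 0) (x y : VV F n) :
    sf (tr v d a l x) (tr v d a l y) = sf x y := by
  have hvd : sf v d = 0 := by rw [sf_anti, hd, neg_zero]
  rw [tr_apply, tr_apply]
  simp only [sf_add_left, sf_add_right, sf_smul_left, sf_smul_right]
  rw [sf_self, sf_self, hd, hvd, sf_anti y d, sf_anti y v]
  ring

/-- the polar space of the symplectic group -/
def pol (F : Type) [Field F] (n : ℕ) : Polar F (VV F n) (Matrix.symplecticGroup (Fin n) F) where
  ρ := rho
  inj := rho_inj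
  f := sf
  q := fun _ => 0
  f_add_left := sf_add_left
  f_smul_left := sf_smul_left
  f_add_right := sf_add_right
  f_smul_right := fun c x y h => by rw [sf_smul_right, h, mul_zero]
  f_symm := fun x y h => by rw [sf_anti, h, neg_zero]
  f_nondeg := sf_nondeg
  f_inv := sf_inv
  q_inv := fun _ _ => rfl
  q_add := fun _ _ _ _ _ => rfl
  q_smul := fun _ _ _ => rfl
  f_self := fun x _ => sf_self x

theorem mem_root (v : VV F n) (h : Matrix.symplecticGroup (Fin n) F)
    (h1 : rho h v = v) (h2 : ∀ y, sf y v = 0 → ∃ c : F, rho h y - y = c • v) :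
    h ∈ (pol F n).root v := ⟨h1, h2⟩

end SpMod

open SpMod

/-- the action of the symplectic group on its natural module -/
theorem sp_geom {F : Type} [Field F] [Finite F] {n : ℕ} (hn : 1 ≤ n) :
    ∃ P : Polar F (Fin n ⊕ Fin n → F) (Matrix.symplecticGroup (Fin n) F),
      P.Geom (Subgroup.center _) ∧ (∀ v, P.q v = 0) := by
  refine ⟨pol F n, ⟨?_, ?_, ?_, ?_⟩, fun _ => rfl⟩
  · refine ⟨Pi.single (Sum.inl ⟨0, hn⟩) 1, ?_, rfl⟩
    intro h
    have := congrFun h (Sum.inl ⟨0, hn⟩)
    rw [Pi.single_eq_same] at this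
    exact one_ne_zero this
  · intro u v w _ _ _ huv hwv
    have huv' : sf u v ≠ 0 := huv
    have hwv' : sf w v ≠ 0 := hwv
    set a := sf u v with ha
    set b := sf w v with hb
    set d : VV F n := (a * b⁻¹) • w - u with hd
    have hdv : sf d v = 0 := by
      rw [hd, sub_eq_add_neg, ← neg_one_smul F u, sf_add_left, sf_smul_left, sf_smul_left, ← ha,
        ← hb]
      field_simp
      ring
    have hvd : sf v d = 0 := by rw [sf_anti, hdv, neg_zero]
    obtain ⟨h, hh⟩ := mk_sp (tr v d a (-(a⁻¹ * a⁻¹ * sf u d))) (tr_isom v d a _ hdv)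
    refine ⟨h, mem_root v h ?_ ?_, a * b⁻¹, mul_ne_zero huv' (inv_ne_zero hwv'), ?_⟩
    · rw [hh, tr_apply, sf_self, hvd]
      simp
    · intro y hy
      rw [hh, tr_apply, hy]
      refine ⟨a⁻¹ * sf y d, ?_⟩
      module
    · show rho h u = _
      rw [hh, tr_apply, ← ha]
      have h1 : a⁻¹ * a = 1 := inv_mul_cancel₀ huv'
      have h2 : a⁻¹ * sf u d + -(a⁻¹ * a⁻¹ * sf u d) * a = 0 := by
        linear_combination (-(a⁻¹ * sf u d)) * h1
      rw [h1, h2, hd]
      module
  · intro v w hv hw _ _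
    have key1 : ∀ z : VV F n, z ≠ 0 → ∃ u, sf u z ≠ 0 := by
      intro z hz
      by_contra hcon
      push Not at hcon
      apply hz
      apply sf_nondeg
      intro y
      rw [sf_anti, hcon y, neg_zero]
    obtain ⟨u1, h1⟩ := key1 v hv
    obtain ⟨u2, h2⟩ := key1 w hw
    by_cases h3 : sf u1 w = 0
    · by_cases h4 : sf u2 v = 0
      · refine ⟨u1 + u2, rfl, ?_, ?_⟩
        · show sf (u1 + u2) v ≠ 0
          rw [sf_add_left, h4, add_zero]
          exact h1
        · show sf (u1 + u2) w ≠ 0
          rw [sf_add_left, h3, zero_add]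
          exact h2
      · exact ⟨u2, rfl, h4, h2⟩
    · exact ⟨u1, rfl, h1, h3⟩
  · intro B _ hB
    let A : Alt F (VV F n) :=
      { f := sf
        add_left := sf_add_left
        smul_left := sf_smul_left
        self := sf_self
        nondeg := sf_nondeg
        add_right := sf_add_right
        smul_right := sf_smul_right }
    let E : Subgroup (VV F n ≃ₗ[F] VV F n) :=
      { carrier := {g | ∃ h ∈ B, rho h = (g : VV F n →ₗ[F] VV F n)}
        one_mem' := ⟨1, B.one_mem, by rw [map_one]; rfl⟩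
        mul_mem' := by
          rintro g g' ⟨h, hh, h1⟩ ⟨h', hh', h1'⟩
          refine ⟨h * h', B.mul_mem hh hh', ?_⟩
          rw [map_mul, h1, h1']
          rfl
        inv_mem' := by
          rintro g ⟨h, hh, h1⟩
          refine ⟨h⁻¹, B.inv_mem hh, ?_⟩
          apply LinearMap.ext
          intro x
          have h2 : rho h⁻¹ (rho h (g⁻¹ x)) = g⁻¹ x := by
            rw [← Module.End.mul_apply, ← map_mul, inv_mul_cancel, map_one]
            rfl
          rw [h1] at h2
          have h3 : (g : VV F n →ₗ[F] VV F n) (g⁻¹ x) = x := by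
            show g (g⁻¹ x) = x
            rw [← LinearEquiv.mul_apply, mul_inv_cancel]
            rfl
          rw [h3] at h2
          exact h2 }
    have hE : ∀ (g : VV F n ≃ₗ[F] VV F n) (v : VV F n) (a : F),
        (∀ z, g z = z + (a * A.f z v) • v) → g ∈ E := by
      intro g v a hg
      have hg' : ∀ z, g z = z + (a * sf z v) • v := hg
      obtain ⟨h, hh⟩ := mk_sp (g : VV F n →ₗ[F] VV F n) (by
        intro x y
        rw [LinearEquiv.coe_coe, hg', hg']
        simp only [sf_add_left, sf_add_right, sf_smul_left, sf_smul_right]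
        rw [sf_self, sf_anti y v]
        ring)
      refine ⟨h, ?_, hh⟩
      by_cases hv : v = 0
      · have : h = 1 := by
          apply rho_inj
          rw [hh, map_one]
          apply LinearMap.ext
          intro z
          rw [LinearEquiv.coe_coe, hg', hv, smul_zero, add_zero]
          rfl
        rw [this]
        exact B.one_mem
      · apply hB v hv rfl
        apply mem_root
        · rw [hh, LinearEquiv.coe_coe, hg', sf_self]
          simp
        · intro y hy
          refine ⟨0, ?_⟩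
          rw [hh, LinearEquiv.coe_coe, hg', hy]
          simp
    rw [eq_top_iff]
    intro h _
    let g : VV F n ≃ₗ[F] VV F n := LinearEquiv.ofLinearMap (rho h) (rho h⁻¹)
      (by
        rw [← Module.End.mul_eq_comp, ← map_mul, mul_inv_cancel, map_one]
        rfl)
      (by
        rw [← Module.End.mul_eq_comp, ← map_mul, inv_mul_cancel, map_one]
        rfl)
    have hg : ∀ x, g x = rho h x := fun x => rfl
    obtain ⟨h', hh', h1⟩ := sp_gen A E hE g (by
      intro x y
      show sf (g x) (g y) = sf x y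
      rw [hg, hg, sf_inv])
    have : h' = h := by
      apply rho_inj
      rw [h1]
      rfl
    rw [← this]
    exact hh'

end Pool.Agent.Lib.MP_bfe725_co
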