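import Mathlib
import Pool.Agent.Lib.MP_bfe725_co.CDefs

/-!
# Module ZSIG: Zsigmondy's theorem (for `q ^ m - 1`, `m ≥ 3`)
-/

set_option autoImplicit false

namespace Pool.Agent.Lib.MP_bfe725_co

open Polynomial

theorem zsig_dvd_iff {p q : ℕ} (hq : 1 ≤ q) (n : ℕ) :
    p ∣ q ^ n - 1 ↔ (q : ZMod p) ^ n = 1 := by
  rw [← ZMod.natCast_eq_zero_iff, Nat.cast_sub (Nat.one_le_pow _ _ hq), Nat.cast_pow, Nat.cast_one,
    sub_eq_zero]

/-- a prime divisor of the cyclotomic value that is not primitive is the large prime of `m` -/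
theorem zsig_shape {q m p : ℕ} (hq : 2 ≤ q) (hm : 3 ≤ m) (hp : p.Prime)
    (hd : (p : ℤ) ∣ (cyclotomic m ℤ).eval (q : ℤ)) (hno : ¬ PPD p q m) :
    ∃ k l : ℕ, 0 < k ∧ 0 < l ∧ m = p ^ k * l ∧ ¬ p ∣ l ∧ l ∣ p - 1 ∧
      IsPrimitiveRoot (q : ZMod p) l := by
  have : Fact p.Prime := ⟨hp⟩
  obtain ⟨k, l, hpl, hml⟩ := Nat.exists_eq_pow_mul_and_not_dvd (n := m) (by omega) p hp.ne_one
  have : NeZero ((l : ℕ) : ZMod p) := NeZero.of_not_dvd (ZMod p) hpl
  have hl0 : 0 < l := by
    rcases Nat.eq_zero_or_pos l with h | h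
    · rw [h] at hpl; exact absurd (dvd_zero p) hpl
    · exact h
  have hroot : (cyclotomic (p ^ k * l) (ZMod p)).IsRoot (q : ZMod p) := by
    rw [← hml, IsRoot.def]
    have h1 := cyclotomic.eval_apply (q : ℤ) m (Int.castRingHom (ZMod p))
    simp only [eq_intCast, Int.cast_natCast] at h1
    rw [h1]
    exact (ZMod.intCast_zmod_eq_zero_iff_dvd _ _).mpr hd
  have hprim : IsPrimitiveRoot (q : ZMod p) l :=
    isRoot_cyclotomic_prime_pow_mul_iff_of_charP.mp hroot
  have hk : 0 < k := by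
    rcases Nat.eq_zero_or_pos k with h | h
    · exfalso
      apply hno
      have hlm : m = l := by rw [hml, h]; simp
      refine ⟨hp, by omega, ?_, ?_⟩
      · rw [zsig_dvd_iff (by omega), hlm]
        exact hprim.pow_eq_one
      · intro k' hk' hkm h2
        rw [zsig_dvd_iff (by omega)] at h2
        have h3 := (hprim.pow_eq_one_iff_dvd k').mp h2
        have := Nat.le_of_dvd hk' h3
        omega
    · exact h
  have hq0 : (q : ZMod p) ≠ 0 := by
    intro h0
    have h1 := hprim.pow_eq_one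
    rw [h0, zero_pow hl0.ne'] at h1
    exact zero_ne_one h1
  exact ⟨k, l, hk, hl0, hml, hpl,
    (hprim.pow_eq_one_iff_dvd _).mp (ZMod.pow_card_sub_one_eq_one hq0), hprim⟩

/-- such a prime divides the cyclotomic value only once -/
theorem zsig_sq {q m p k l : ℕ} (hq : 2 ≤ q) (hm : 3 ≤ m) (hp : p.Prime) (hk : 0 < k) (hl : 0 < l)
    (hml : m = p ^ k * l) (hlp : l ∣ p - 1) (hprim : IsPrimitiveRoot (q : ZMod p) l) :
    ¬ ((p : ℤ) ^ 2 ∣ (cyclotomic m ℤ).eval (q : ℤ)) := by
  intro hdvd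
  have : Fact p.Prime := ⟨hp⟩
  set d := p ^ (k - 1) * l with hdd
  have hmd : m = d * p := by
    rw [hml, hdd]
    obtain ⟨k', rfl⟩ : ∃ k', k = k' + 1 := ⟨k - 1, by omega⟩
    simp only [Nat.add_sub_cancel]
    ring
  have hd0 : 0 < d := by
    rw [hdd]; exact Nat.mul_pos (Nat.pow_pos hp.pos) hl
  have hdm : d ∈ m.properDivisors := by
    rw [Nat.mem_properDivisors]
    refine ⟨⟨p, hmd⟩, ?_⟩
    rw [hmd]
    exact (Nat.lt_mul_iff_one_lt_right hd0).mpr hp.one_lt
  have h1 := X_pow_sub_one_mul_cyclotomic_dvd_X_pow_sub_one_of_dvd ℤ hdm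
  have h2 : ((q : ℤ) ^ d - 1) * (cyclotomic m ℤ).eval (q : ℤ) ∣ (q : ℤ) ^ m - 1 := by
    have := eval_dvd (x := (q : ℤ)) h1
    simpa using this
  set x : ℤ := (q : ℤ) ^ d with hx
  have hx1 : 1 < x := by
    rw [hx]
    exact one_lt_pow₀ (by exact_mod_cast (by omega : 1 < q)) hd0.ne'
  have h3 : (q : ℤ) ^ m - 1 = (x - 1) * ∑ i ∈ Finset.range p, x ^ i := by
    rw [mul_comm, geom_sum_mul, hx, ← pow_mul, ← hmd]
  rw [h3] at h2
  have h4 : (cyclotomic m ℤ).eval (q : ℤ) ∣ ∑ i ∈ Finset.range p, x ^ i :=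
    (mul_dvd_mul_iff_left (by omega)).mp h2
  have h5 : (p : ℤ) ^ 2 ∣ ∑ i ∈ Finset.range p, x ^ i := hdvd.trans h4
  -- `x ≡ 1 mod p`
  have h6 : (p : ℤ) ∣ x - 1 := by
    rw [← ZMod.intCast_zmod_eq_zero_iff_dvd, hx]
    push_cast
    rw [sub_eq_zero, hprim.pow_eq_one_iff_dvd, hdd]
    exact dvd_mul_left _ _
  rcases hp.eq_two_or_odd' with h2' | hodd
  · -- p = 2
    subst h2'
    have hl1 : l = 1 := by
      have : l ∣ 1 := hlp
      exact Nat.dvd_one.mp this
    subst hl1
    have hk2 : 2 ≤ k := by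
      by_contra hlt
      have : k = 1 := by omega
      subst this
      omega
    have hx2 : ∃ y : ℤ, x = y ^ 2 := by
      refine ⟨(q : ℤ) ^ (2 ^ (k - 2)), ?_⟩
      rw [hx, hdd, ← pow_mul, ← pow_succ, mul_one]
      have h7 : k - 1 = k - 2 + 1 := by omega
      rw [h7]
    obtain ⟨y, hy⟩ := hx2
    have h8 : (4 : ℤ) ∣ 1 + x := by
      have h9 := h5
      rw [Finset.sum_range_succ, Finset.sum_range_one] at h9
      simpa using h9
    have h10 : ∀ z : ZMod 4, 1 + z ^ 2 ≠ 0 := by decide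
    apply h10 (y : ZMod 4)
    have h11 := (ZMod.intCast_zmod_eq_zero_iff_dvd (1 + x) 4).mpr (by exact_mod_cast h8)
    rw [hy] at h11
    push_cast at h11
    exact h11
  · obtain ⟨t, ht⟩ := h6
    have hxt : x = 1 + p * t := by linarith
    have h7 := odd_sq_dvd_geom_sum₂_sub (1 : ℤ) t hodd
    simp only [one_pow, mul_one] at h7
    rw [← hxt] at h7
    have h8 : (p : ℤ) ^ 2 ∣ (p : ℤ) := by
      have := dvd_sub h5 h7
      simpa using this
    have h9 : p ^ 2 ∣ p := by exact_mod_cast h8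
    have h10 := Nat.le_of_dvd hp.pos h9
    nlinarith [hp.one_lt]

theorem zsig_real (q m : ℕ) :
    (((cyclotomic m ℤ).eval (q : ℤ) : ℤ) : ℝ) = (cyclotomic m ℝ).eval (q : ℝ) := by
  have h1 := cyclotomic.eval_apply (q : ℤ) m (Int.castRingHom ℝ)
  simp only [eq_intCast, Int.cast_natCast] at h1
  exact h1.symm

/-- the cyclotomic value is larger than `p` -/
theorem zsig_size {q m p k l : ℕ} (hq : 2 ≤ q) (hm : 3 ≤ m) (h26 : ¬ (q = 2 ∧ m = 6))
    (h23 : ¬ (q = 2 ∧ m = 3)) (hp : p.Prime) (hk : 0 < k) (hl : 0 < l)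
    (hml : m = p ^ k * l) (hpl : ¬ p ∣ l) (hlp : l ∣ p - 1) (hprim : IsPrimitiveRoot (q : ZMod p) l) :
    (p : ℝ) < (cyclotomic m ℝ).eval (q : ℝ) := by
  have : Fact p.Prime := ⟨hp⟩
  rcases Nat.lt_or_ge 2 q with hq3 | hq2
  · have h1 := sub_one_pow_totient_lt_cyclotomic_eval (n := m) (q := (q : ℝ)) (by omega)
      (by exact_mod_cast (by omega : 1 < q))
    refine lt_of_le_of_lt ?_ h1
    have hpm : p ∣ m := by
      rw [hml]
      exact Dvd.dvd.mul_right (dvd_pow_self p hk.ne') l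
    have h2 : p - 1 ≤ m.totient := by
      have h3 := Nat.totient_dvd_of_dvd hpm
      rw [Nat.totient_prime hp] at h3
      exact Nat.le_of_dvd (Nat.totient_pos.mpr (by omega)) h3
    have h4 : (2 : ℝ) ≤ (q : ℝ) - 1 := by
      have : (3 : ℝ) ≤ (q : ℝ) := by exact_mod_cast hq3
      linarith
    have h5 : p ≤ 2 ^ (p - 1) := by
      have := Nat.lt_two_pow_self (n := p - 1)
      have := hp.pos
      omega
    calc (p : ℝ) ≤ (2 : ℝ) ^ (p - 1) := by exact_mod_cast h5
      _ ≤ (2 : ℝ) ^ m.totient := pow_le_pow_right₀ (by norm_num) h2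
      _ ≤ ((q : ℝ) - 1) ^ m.totient := pow_le_pow_left₀ (by norm_num) h4 _
  · have hq' : q = 2 := by omega
    subst hq'
    have hpne2 : p ≠ 2 := by
      rintro rfl
      have h1 := hprim.pow_eq_one
      have h2 : ((2 : ℕ) : ZMod 2) = 0 := ZMod.natCast_self 2
      rw [h2, zero_pow hl.ne'] at h1
      exact zero_ne_one h1
    have hp3 : 3 ≤ p := by
      have := hp.two_le
      omega
    have hpow : ((2 : ℝ) ^ p) - 1 > p := by
      have h1 : ∀ n : ℕ, 3 ≤ n → n + 1 < 2 ^ n := by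
        intro n hn
        induction n, hn using Nat.le_induction with
        | base => norm_num
        | succ n _ ih => rw [pow_succ]; omega
      have h2 := h1 p hp3
      have h3 : ((p : ℝ) + 1) < 2 ^ p := by exact_mod_cast h2
      linarith
    have h2p : (1 : ℝ) < 2 ^ p := by
      have : (3 : ℝ) ≤ p := by exact_mod_cast hp3
      linarith
    rcases Nat.lt_or_ge 1 k with hk2 | hk1
    · -- `p ^ 2 ∣ m`
      set n := p ^ (k - 1) * l with hn
      have hmn : m = n * p := by
        rw [hml, hn]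
        obtain ⟨k', rfl⟩ : ∃ k', k = k' + 1 := ⟨k - 1, by omega⟩
        simp only [Nat.add_sub_cancel]
        ring
      have hpn : p ∣ n := by
        rw [hn]
        exact Dvd.dvd.mul_right (dvd_pow_self p (by omega)) l
      have h1 := cyclotomic_expand_eq_cyclotomic hp hpn ℝ
      rw [hmn, ← h1, expand_eval]
      have h2 := sub_one_pow_totient_le_cyclotomic_eval (q := (2 : ℝ) ^ p) h2p n
      have hn0 : 0 < n := by
        rw [hn]; exact Nat.mul_pos (Nat.pow_pos hp.pos) hl
      have h3 : ((2 : ℝ) ^ p - 1) ≤ ((2 : ℝ) ^ p - 1) ^ n.totient := by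
        apply le_self_pow₀
        · have : (3 : ℝ) ≤ p := by exact_mod_cast hp3
          linarith
        · exact (Nat.totient_pos.mpr hn0).ne'
      push_cast
      linarith
    · have hk' : k = 1 := by omega
      subst hk'
      have hmn : m = l * p := by rw [hml]; ring
      have hp5 : 5 ≤ p := by
        by_contra hlt
        have h3 : p = 3 := by
          have h4 : p ≠ 4 := by rintro rfl; exact absurd hp (by norm_num)
          omega
        subst h3
        have h5 : l ∣ 2 := hlp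
        have h6 : l ≤ 2 := Nat.le_of_dvd (by norm_num) h5
        interval_cases l
        · exact h23 ⟨rfl, by omega⟩
        · exact h26 ⟨rfl, by omega⟩
      have h1 := cyclotomic_expand_eq_cyclotomic_mul hp hpl ℝ
      have h2 := congrArg (eval (2 : ℝ)) h1
      rw [expand_eval, eval_mul, ← hmn] at h2
      have h3 := sub_one_pow_totient_le_cyclotomic_eval (q := (2 : ℝ) ^ p) h2p l
      have h4 := cyclotomic_eval_le_add_one_pow_totient (q := (2 : ℝ)) (by norm_num) l
      have h5 : 0 < eval (2 : ℝ) (cyclotomic l ℝ) := cyclotomic_pos' l (by norm_num)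
      have hbig : ((2 : ℝ) ^ p) - 1 > 3 * p := by
        have h6 : ∀ n : ℕ, 5 ≤ n → 3 * n + 1 < 2 ^ n := by
          intro n hn
          induction n, hn using Nat.le_induction with
          | base => norm_num
          | succ n _ ih => rw [pow_succ]; omega
        have h7 := h6 p hp5
        have h8 : (3 * (p : ℝ) + 1) < 2 ^ p := by exact_mod_cast h7
        linarith
      have hφ : l.totient ≠ 0 := (Nat.totient_pos.mpr hl).ne'
      by_contra hle
      push Not at hle
      push_cast at hle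
      have hp0 : (1 : ℝ) ≤ p := by exact_mod_cast hp.one_lt.le
      have h9 : ((2 : ℝ) ^ p - 1) ^ l.totient ≤ (3 * (p : ℝ)) ^ l.totient := by
        calc ((2 : ℝ) ^ p - 1) ^ l.totient ≤ eval (2 ^ p) (cyclotomic l ℝ) := h3
          _ = eval 2 (cyclotomic m ℝ) * eval 2 (cyclotomic l ℝ) := h2
          _ ≤ p * (2 + 1) ^ l.totient := by
            apply mul_le_mul hle h4 h5.le (by linarith)
          _ ≤ (p : ℝ) ^ l.totient * 3 ^ l.totient := by
            apply mul_le_mul
            · exact le_self_pow₀ hp0 hφ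
            · norm_num
            · positivity
            · positivity
          _ = (3 * (p : ℝ)) ^ l.totient := by rw [mul_pow]; ring
      have h10 : (3 * (p : ℝ)) ^ l.totient < ((2 : ℝ) ^ p - 1) ^ l.totient :=
        pow_lt_pow_left₀ hbig (by positivity) hφ
      linarith

/-- Zsigmondy's theorem -/
theorem exists_ppd {q m : ℕ} (hq : 2 ≤ q) (hm : 3 ≤ m) (h : ¬ (q = 2 ∧ m = 6)) :
    ∃ p, PPD p q m := by
  by_cases h23 : q = 2 ∧ m = 3
  · obtain ⟨rfl, rfl⟩ := h23
    refine ⟨7, by norm_num, by norm_num, by norm_num, ?_⟩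
    intro k hk hk3
    interval_cases k <;> norm_num
  by_contra hno
  push Not at hno
  set N : ℤ := (cyclotomic m ℤ).eval (q : ℤ) with hN
  have hNabs := sub_one_lt_natAbs_cyclotomic_eval (n := m) (q := q) (by omega) (by omega)
  rw [← hN] at hNabs
  have hNpos : 0 < N := cyclotomic_pos' m (by exact_mod_cast (by omega : 1 < q))
  have hN1 : N.natAbs ≠ 1 := by omega
  set p := N.natAbs.minFac with hpdef
  have hp : p.Prime := Nat.minFac_prime hN1
  have hpN : (p : ℤ) ∣ N := by
    rw [Int.natCast_dvd]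
    exact Nat.minFac_dvd _
  obtain ⟨k, l, hk, hl, hml, hpl, hlp, hprim⟩ := zsig_shape hq hm hp hpN (hno p)
  have hsq := zsig_sq hq hm hp hk hl hml hlp hprim
  have hsize := zsig_size hq hm h h23 hp hk hl hml hpl hlp hprim
  -- all prime divisors are equal to `p`
  have huniq : ∀ p' : ℕ, p'.Prime → (p' : ℤ) ∣ N → p' = p := by
    intro p' hp' hd'
    obtain ⟨k', l', hk', hl', hml', hpl', hlp', -⟩ := zsig_shape hq hm hp' hd' (hno p')
    by_contra hne
    have hpm : p ∣ p' ^ k' * l' := by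
      rw [← hml', hml]
      exact Dvd.dvd.mul_right (dvd_pow_self p hk.ne') l
    have hpm' : p' ∣ p ^ k * l := by
      rw [← hml, hml']
      exact Dvd.dvd.mul_right (dvd_pow_self p' hk'.ne') l'
    have h1 : p ∣ l' := by
      rcases (Nat.Prime.dvd_mul hp).mp hpm with h1 | h1
      · exact absurd ((Nat.prime_dvd_prime_iff_eq hp hp').mp (hp.dvd_of_dvd_pow h1)) (Ne.symm hne)
      · exact h1
    have h2 : p' ∣ l := by
      rcases (Nat.Prime.dvd_mul hp').mp hpm' with h1 | h1
      · exact absurd ((Nat.prime_dvd_prime_iff_eq hp' hp).mp (hp'.dvd_of_dvd_pow h1)) hne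
      · exact h1
    have h3 := Nat.le_of_dvd (by have := hp'.one_lt; omega) (h1.trans hlp')
    have h4 := Nat.le_of_dvd (by have := hp.one_lt; omega) (h2.trans hlp)
    have := hp.one_lt
    have := hp'.one_lt
    omega
  -- hence `N = p`
  obtain ⟨t, ht⟩ := hpN
  have ht0 : 0 < t := by
    by_contra hle
    have : (p : ℤ) * t ≤ 0 := mul_nonpos_of_nonneg_of_nonpos (by positivity) (by omega)
    omega
  have ht1 : t.natAbs = 1 := by
    by_contra hne
    have hq' := Nat.minFac_prime hne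
    have hd1 : ((t.natAbs.minFac : ℕ) : ℤ) ∣ t := by
      rw [Int.natCast_dvd]
      exact Nat.minFac_dvd _
    have h1 := huniq _ hq' (hd1.trans ⟨p, by rw [ht]; ring⟩)
    rw [h1] at hd1
    apply hsq
    rw [← hN, ht, pow_two]
    exact mul_dvd_mul_left _ hd1
  have hNp : N = p := by
    have : t = 1 := by omega
    rw [ht, this, mul_one]
  rw [← zsig_real, ← hN, hNp] at hsize
  simp at hsize

end Pool.Agent.Lib.MP_bfe725_co
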