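import Pool.Agent.Lib.MP_bfe725_co.FinalCls
import Pool.Agent.Lib.MP_bfe725_co.SL
import Pool.Agent.Lib.MP_bfe725_co.Sp
import Pool.Agent.Lib.MP_bfe725_co.SU
import Pool.Agent.Lib.MP_bfe725_co.SUCount
import Pool.Agent.Lib.MP_bfe725_co.PolarNorm
import Pool.Agent.Lib.MP_bfe725_co.Exc
import Pool.Agent.Lib.MP_bfe725_co.Zsig
import Pool.Agent.Lib.MP_bfe725_co.PSLTwoLib

/-!
# The linear, symplectic and unitary groups, assembly

(helper93, problem MP_bfe725_co)
-/

set_option autoImplicit false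

namespace Pool.Agent.Lib.MP_bfe725_co

/-- For every finite field `F` and every `n ≥ 2` the largest degree of a partial congruence
partition of `PSL(n, F) × PSL(n, F)` is three. -/
theorem fam_linear (F : Type) [Field F] [Finite F] (n : ℕ) (hn : 2 ≤ n) :
    IsGreatest (pcpDegrees (Matrix.ProjectiveSpecialLinearGroup (Fin n) F ×
      Matrix.ProjectiveSpecialLinearGroup (Fin n) F)) 3 := by
  rcases Nat.eq_or_lt_of_le hn with rfl | h3
  · exact PSLTwoLib.psl_two F
  by_cases h6 : Nat.card F = 2 ∧ n = 6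
  · obtain ⟨hF, rfl⟩ := h6
    exact fin_five (fun x y => sl6_conj hF x y) (sl6_dvd hF)
  · obtain ⟨r, hr, hc⟩ := fin_char F
    obtain ⟨p, hp⟩ := exists_ppd (fin_card_ge F) h3 h6
    exact (sl_critZ hr hn hp).isGreatest

/-- The projective symplectic group `PSp(2n, F)`: the symplectic group modulo its centre. -/
abbrev PSp (n : ℕ) (F : Type) [Field F] : Type :=
  Matrix.symplecticGroup (Fin n) F ⧸ Subgroup.center (Matrix.symplecticGroup (Fin n) F)

/-- For every finite field `F` and every `n ≥ 2` the largest degree of a partial congruence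
partition of `PSp(2n, F) × PSp(2n, F)` is three. -/
theorem fam_symplectic (F : Type) [Field F] [Finite F] (n : ℕ) (hn : 2 ≤ n) :
    IsGreatest (pcpDegrees (PSp n F × PSp n F)) 3 := by
  by_cases h6 : Nat.card F = 2 ∧ 2 * n = 6
  · obtain ⟨hF, h6⟩ := h6
    obtain rfl : n = 3 := by omega
    exact fin_five (fun x y => sp6_conj hF x y) (sp6_dvd hF)
  · obtain ⟨r, hr, hc⟩ := fin_char F
    obtain ⟨p, hp⟩ := exists_ppd (fin_card_ge F) (m := 2 * n) (by omega) h6
    obtain ⟨P, hG, hq⟩ := sp_geom (F := F) (n := n) (by omega)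
    refine (hG.critZ (m := 2 * n) hr hp (by omega) ?_ ?_ (fun x _ => hq x)).isGreatest
    · rw [Module.finrank_fintype_fun_eq_card, Fintype.card_sum, Fintype.card_fin]; omega
    · have h1 := fin_count (V := Fin n ⊕ Fin n → F) (fun v => P.q v = 0) (hq 0)
      have h2 : Nat.card {v : Fin n ⊕ Fin n → F // P.q v = 0} = Nat.card F ^ (2 * n) := by
        rw [Nat.card_congr (Equiv.subtypeUnivEquiv hq), Nat.card_fun, Nat.card_sum, Nat.card_fin]
        congr 1; omega
      rw [h2] at h1
      have h3 : Nat.card {v : Fin n ⊕ Fin n → F // v ≠ 0 ∧ P.q v = 0} =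
          Nat.card F ^ (2 * n) - 1 := by omega
      rw [h3]
      exact hp.2.2.1

/-- The projective special unitary group of degree `n` over the field `F` with involution: the
matrices `A` with `A * star A = 1` and determinant one, modulo the centre of this group. -/
abbrev PSU (n : ℕ) (F : Type) [Field F] [StarRing F] : Type :=
  Matrix.specialUnitaryGroup (Fin n) F ⧸ Subgroup.center (Matrix.specialUnitaryGroup (Fin n) F)

/-- Let `F` be a finite field with a nontrivial involution `star` (so `F` has `q ^ 2` elements and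
`star a = a ^ q`) and `n ≥ 3`, `(n, q) ≠ (3, 2), (4, 2)`. The largest degree of a partial
congruence partition of `PSU(n, q) × PSU(n, q)` is three. -/
theorem fam_unitary (F : Type) [Field F] [Finite F] [StarRing F] (hs : ∃ a : F, star a ≠ a)
    (n : ℕ) (hn : 3 ≤ n) (hex : ¬ (Nat.card F = 4 ∧ n ≤ 4)) :
    IsGreatest (pcpDegrees (PSU n F × PSU n F)) 3 := by
  obtain ⟨q₀, hq₀, hF, hcount⟩ := su_count hs
  obtain ⟨r, hr, hc⟩ := fin_char F
  obtain ⟨P, hG, hq, hf⟩ := su_geom hs (n := n) (by omega)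
  have h1 := fin_count (V := Fin n → F) (fun v => P.q v = 0) (by
    show P.q 0 = 0
    rw [hq]; simp)
  have h2 : Nat.card {v : Fin n → F // P.q v = 0} =
      Nat.card {v : Fin n → F // ∑ i, v i * star (v i) = 0} :=
    Nat.card_congr (Equiv.subtypeEquivRight fun v => by rw [hq])
  have h3 := hcount n
  rw [← h2, h1, if_neg (by omega)] at h3
  have hq0 : ¬ (q₀ = 2 ∧ n ≤ 4) := by
    rintro ⟨rfl, h⟩
    exact hex ⟨by rw [hF]; norm_num, h⟩
  have key : ∀ m : ℕ, 2 ≤ m → n ≤ m + 1 → m ≤ n → ¬ (q₀ = 2 ∧ 2 * m = 6) →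
      (∀ p : ℕ, (p : ℤ) ∣ (q₀ : ℤ) ^ m + 1 →
        (p : ℤ) ∣ (Nat.card {v : Fin n → F // v ≠ 0 ∧ P.q v = 0} : ℤ)) →
      IsGreatest (pcpDegrees (PSU n F × PSU n F)) 3 := by
    intro m hm hnm hmn h26 hdvd
    obtain ⟨p, hp⟩ := exists_ppd hq₀ (m := 2 * m) (by omega) h26
    have hp' : PPD p (Nat.card F) m := by rw [hF]; exact fin_ppd_sq (by omega) hp
    refine (hG.critZ (m := m) hr hp' hm ?_ ?_ ?_).isGreatest
    · rw [Module.finrank_fin_fun]; exact hnm
    · exact Int.natCast_dvd_natCast.mp (hdvd p (fin_ppd_plus hq₀ (by omega) hp))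
    · intro x hx
      rw [← hf]; exact hx
  generalize Nat.card {v : Fin n → F // v ≠ 0 ∧ P.q v = 0} = N at h3 key
  obtain ⟨k, hk | hk⟩ := Nat.even_or_odd' n
  · -- `n = 2 k`
    obtain ⟨l, rfl⟩ : ∃ l, k = l + 1 := ⟨k - 1, by omega⟩
    apply key (2 * l + 1) (by omega) (by omega) (by omega) (by omega)
    intro p hp
    have e : (N : ℤ) = ((q₀ : ℤ) ^ (2 * l + 1) + 1) * ((q₀ : ℤ) ^ (2 * l + 2) - 1) := by
      have e1 : (-1 : ℤ) ^ n = 1 := by rw [hk, pow_mul]; norm_num
      rw [e1, show 2 * n - 1 = (2 * l + 1) + (2 * l + 2) by omega,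
        show n - 1 = 2 * l + 1 by omega, show n = 2 * l + 2 by omega] at h3
      push_cast at h3
      linear_combination h3
    rw [e]
    exact hp.mul_right _
  · -- `n = 2 k + 1`
    apply key (2 * k + 1) (by omega) (by omega) (by omega) (by omega)
    intro p hp
    have e : (N : ℤ) = ((q₀ : ℤ) ^ (2 * k + 1) + 1) * ((q₀ : ℤ) ^ (2 * k) - 1) := by
      have e1 : (-1 : ℤ) ^ n = -1 := by rw [hk, pow_succ, pow_mul]; norm_num
      rw [e1, show 2 * n - 1 = (2 * k + 1) + 2 * k by omega,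
        show n - 1 = 2 * k by omega, show n = 2 * k + 1 by omega] at h3
      push_cast at h3
      linear_combination h3
    rw [e]
    exact hp.mul_right _

end Pool.Agent.Lib.MP_bfe725_co
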