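import Pool.Agent.Lib.MP_bfe725_co.CDefs
import Pool.Agent.Lib.MP_bfe725_co.Lin

/-!
# OCHAR2: orthogonal groups in characteristic two (helper82)

`reflection_notMem`: no reflection lies in the group generated by the Siegel transformations
(parity of the dimension of the space of fixed vectors); `o_norm_char2`.
-/

set_option autoImplicit false

namespace Pool.Agent.Lib.MP_bfe725_co

open Module QuadraticMap

namespace OC2

section lin

variable {F V : Type} [Field F] [AddCommGroup V] [Module F V] [FiniteDimensional F V]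

lemma finrank_succ (W W' : Submodule F V) (u : V) (hu : u ∉ W') (hle : W' ≤ W) (huW : u ∈ W)
    (h : ∀ w ∈ W, ∃ c : F, w - c • u ∈ W') : finrank F W = finrank F W' + 1 := by
  have hu0 : u ≠ 0 := by
    rintro rfl
    exact hu W'.zero_mem
  have h1 : W = W' ⊔ Submodule.span F {u} := by
    apply le_antisymm
    · intro w hw
      obtain ⟨c, hc⟩ := h w hw
      rw [Submodule.mem_sup]
      exact ⟨w - c • u, hc, c • u, Submodule.smul_mem _ _ (Submodule.mem_span_singleton_self u),
        by abel⟩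
    · apply sup_le hle
      rw [Submodule.span_singleton_le_iff_mem]
      exact huW
  have h2 : W' ⊓ Submodule.span F {u} = ⊥ := by
    rw [eq_bot_iff]
    rintro y ⟨hy1, hy2⟩
    obtain ⟨c, rfl⟩ := Submodule.mem_span_singleton.1 hy2
    by_cases hc : c = 0
    · rw [hc, zero_smul]; exact Submodule.zero_mem _
    · exfalso
      apply hu
      have := W'.smul_mem c⁻¹ hy1
      rwa [smul_smul, inv_mul_cancel₀ hc, one_smul] at this
  have h3 := Submodule.finrank_sup_add_finrank_inf_eq W' (Submodule.span F {u})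
  rw [h2, ← h1, finrank_bot, finrank_span_singleton hu0] at h3
  omega

lemma le_span_pair (C : Submodule F V) (hC : finrank F C ≤ 2) (a c : V) (ha : a ≠ 0)
    (haC : a ∈ C) (hcC : c ∈ C) (hc : c ∉ Submodule.span F {a}) :
    C ≤ Submodule.span F {a, c} := by
  have h1 : Submodule.span F {a, c} ≤ C := by
    rw [Submodule.span_le]
    intro z hz
    rcases hz with rfl | hz
    · exact haC
    · rw [Set.mem_singleton_iff] at hz
      rw [hz]; exact hcC
  have h2 : finrank F (Submodule.span F {a, c}) = finrank F (Submodule.span F {a}) + 1 := by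
    apply finrank_succ _ _ c hc
    · apply Submodule.span_mono
      simp
    · exact Submodule.subset_span (by simp)
    · intro w hw
      obtain ⟨α, β, rfl⟩ := Submodule.mem_span_pair.1 hw
      refine ⟨β, ?_⟩
      have : α • a + β • c - β • c = α • a := by abel
      rw [this]
      exact Submodule.smul_mem _ _ (Submodule.mem_span_singleton_self a)
  rw [finrank_span_singleton ha] at h2
  rw [Submodule.eq_of_le_of_finrank_le h1 (by omega)]

end lin

variable {F V : Type} [Field F] [AddCommGroup V] [Module F V] (Q : QuadraticForm F V)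

/-- isometries -/
def Iso (g : V ≃ₗ[F] V) : Prop := ∀ z, Q (g z) = Q z

variable {Q}

lemma Iso.pol {g : V ≃ₗ[F] V} (hg : Iso Q g) (x y : V) : polar Q (g x) (g y) = polar Q x y := by
  unfold QuadraticMap.polar
  rw [← map_add, hg, hg, hg]

lemma Iso.one : Iso Q 1 := fun _ => rfl

lemma Iso.mul {g h : V ≃ₗ[F] V} (hg : Iso Q g) (hh : Iso Q h) : Iso Q (g * h) := by
  intro z
  rw [LinearEquiv.mul_apply, hg, hh]

lemma Iso.inv {g : V ≃ₗ[F] V} (hg : Iso Q g) : Iso Q g⁻¹ := by
  intro z
  have := hg (g⁻¹ z)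
  rw [← LinearEquiv.mul_apply, mul_inv_cancel] at this
  exact this.symm

lemma Q_sub_smul (z a : V) (c : F) :
    Q (z - c • a) = Q z + c * c * Q a - c * polar Q z a := by
  have h1 : z - c • a = z + (-c) • a := by rw [neg_smul, sub_eq_add_neg]
  rw [h1, QuadraticMap.map_add Q z, QuadraticMap.map_smul, polar_smul_right]
  simp only [smul_eq_mul]
  ring

lemma nondeg (hQ : ∀ x, (∀ y, polar Q x y = 0) → x = 0) : (polarBilin Q).Nondegenerate :=
  ⟨fun x h => hQ x h, fun x h => hQ x (fun y => by rw [polar_comm]; exact h y)⟩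

lemma refl' : (polarBilin Q).IsRefl := by
  intro x y h
  change polar Q y x = 0
  rw [polar_comm]
  exact h

/-- fixed vectors -/
def fx (g : V ≃ₗ[F] V) : Submodule F V := LinearMap.ker ((g : V →ₗ[F] V) - 1)

lemma mem_fx {g : V ≃ₗ[F] V} {x : V} : x ∈ fx g ↔ g x = x := by
  unfold fx
  rw [LinearMap.mem_ker, LinearMap.sub_apply, sub_eq_zero]
  rfl

lemma range_eq [FiniteDimensional F V] (hQ : ∀ x, (∀ y, polar Q x y = 0) → x = 0)
    {g : V ≃ₗ[F] V} (hg : Iso Q g) :
    LinearMap.range ((g : V →ₗ[F] V) - 1) = LinearMap.BilinForm.orthogonal (polarBilin Q) (fx g) := by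
  apply Submodule.eq_of_le_of_finrank_le
  · rintro _ ⟨y, rfl⟩
    rw [LinearMap.BilinForm.mem_orthogonal_iff]
    intro n hn
    change polar Q n (g y - y) = 0
    rw [polar_sub_right]
    have := hg.pol n y
    rw [mem_fx.1 hn] at this
    rw [this, sub_self]
  · rw [LinearMap.BilinForm.finrank_orthogonal (nondeg hQ)]
    have := LinearMap.finrank_range_add_finrank_ker ((g : V →ₗ[F] V) - 1)
    unfold fx
    omega

/-- reflections -/
def IsR (Q : QuadraticForm F V) (s : V ≃ₗ[F] V) (a : V) : Prop :=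
  Q a ≠ 0 ∧ ∀ z, s z = z - ((Q a)⁻¹ * polar Q z a) • a

lemma IsR.iso {s : V ≃ₗ[F] V} {a : V} (h : IsR Q s a) : Iso Q s := by
  intro z
  rw [h.2, Q_sub_smul]
  have := h.1
  field_simp
  ring

lemma IsR.fix {s : V ≃ₗ[F] V} {a : V} (h : IsR Q s a) {z : V} (hz : polar Q z a = 0) :
    s z = z := by
  rw [h.2, hz, mul_zero, zero_smul, sub_zero]

lemma exists_refl {a : V} (ha : Q a ≠ 0) : ∃ s : V ≃ₗ[F] V, IsR Q s a := by
  let f : Module.Dual F V := (Q a)⁻¹ • (polarBilin Q a)
  have hf : f a = 2 := by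
    change (Q a)⁻¹ * polar Q a a = 2
    rw [polar_self, nsmul_eq_mul]
    field_simp
    norm_num
  refine ⟨Module.reflection hf, ha, ?_⟩
  intro z
  rw [Module.reflection_apply]
  change z - ((Q a)⁻¹ * polar Q a z) • a = _
  rw [polar_comm]

/-- multiplying by a reflection changes the parity of the dimension of the fixed space -/
lemma parity [FiniteDimensional F V] (hQ : ∀ x, (∀ y, polar Q x y = 0) → x = 0)
    {g s : V ≃ₗ[F] V} {a : V} (hg : Iso Q g) (hs : IsR Q s a) :
    (finrank F (fx (g * s)) + finrank F (fx g)) % 2 = 1 := by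
  by_cases ha : a ∈ LinearMap.range ((g : V →ₗ[F] V) - 1)
  · -- the fixed space grows
    have hperp : ∀ x ∈ fx g, polar Q x a = 0 := by
      intro x hx
      rw [range_eq hQ hg, LinearMap.BilinForm.mem_orthogonal_iff] at ha
      exact ha x hx
    obtain ⟨t, ht⟩ := ha
    have ht' : g t - t = a := ht
    have hgt : g t = a + t := by rw [← ht']; abel
    have hQt : Q t = Q (g t) := (hg t).symm
    have hua : polar Q (g t) a = Q a := by
      have e1 : Q a = Q (g t) + Q t - polar Q (g t) t := by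
        have := Q_sub_smul (Q := Q) (g t) t 1
        rw [one_smul, ht'] at this
        rw [this]; ring
      have e2 : polar Q (g t) a = polar Q (g t) (g t) - polar Q (g t) t := by
        rw [← ht', polar_sub_right]
      rw [e2, e1, polar_self, nsmul_eq_mul, ← hQt]
      push_cast
      ring
    have hfr : finrank F (fx (g * s)) = finrank F (fx g) + 1 := by
      apply finrank_succ _ _ (g t)
      · intro h
        have := hperp _ h
        rw [hua] at this
        exact hs.1 this
      · intro x hx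
        rw [mem_fx, LinearEquiv.mul_apply, hs.fix (hperp x hx)]
        exact mem_fx.1 hx
      · rw [mem_fx, LinearEquiv.mul_apply, hs.2, hua, inv_mul_cancel₀ hs.1, one_smul]
        have : g t - a = t := by rw [hgt]; abel
        rw [this]
      · intro w hw
        rw [mem_fx, LinearEquiv.mul_apply, hs.2, map_sub, map_smul] at hw
        refine ⟨(Q a)⁻¹ * polar Q w a, ?_⟩
        rw [mem_fx, map_sub, map_smul]
        set c := (Q a)⁻¹ * polar Q w a
        have hga : g a = g (g t) - g t := by rw [← map_sub, ht']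
        rw [hga, smul_sub] at hw
        have : g w = w + (c • g (g t) - c • g t) := eq_add_of_sub_eq hw
        rw [this]; abel
    omega
  · have hex : ∃ u ∈ fx g, polar Q u a ≠ 0 := by
      by_contra hcon
      push Not at hcon
      apply ha
      rw [range_eq hQ hg, LinearMap.BilinForm.mem_orthogonal_iff]
      exact hcon
    obtain ⟨u, hu, hua⟩ := hex
    have hkey : ∀ x ∈ fx (g * s), polar Q x a = 0 := by
      intro x hx
      by_contra hne
      apply ha
      rw [mem_fx, LinearEquiv.mul_apply, hs.2, map_sub, map_smul] at hx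
      set c := (Q a)⁻¹ * polar Q x a with hc
      have hc0 : c ≠ 0 := mul_ne_zero (inv_ne_zero hs.1) hne
      have h1 : g a = c⁻¹ • (g x - x) := by
        have : g x - x = c • g a := by
          nth_rewrite 2 [← hx]
          abel
        rw [this, smul_smul, inv_mul_cancel₀ hc0, one_smul]
      have h2 : g (c⁻¹ • x - a) - (c⁻¹ • x - a) = a - (c⁻¹ • x - c⁻¹ • x) := by
        rw [map_sub, map_smul, h1, smul_sub]
        abel
      exact ⟨c⁻¹ • x - a, by
        rw [sub_self, sub_zero] at h2
        exact h2⟩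
    have hfr : finrank F (fx g) = finrank F (fx (g * s)) + 1 := by
      apply finrank_succ _ _ u
      · intro h
        exact hua (hkey u h)
      · intro x hx
        have h1 := mem_fx.1 hx
        rw [LinearEquiv.mul_apply, hs.fix (hkey x hx)] at h1
        exact mem_fx.2 h1
      · exact hu
      · intro w hw
        refine ⟨polar Q w a / polar Q u a, ?_⟩
        have h1 : polar Q (w - (polar Q w a / polar Q u a) • u) a = 0 := by
          rw [polar_sub_left, polar_smul_left, smul_eq_mul, div_mul_cancel₀ _ hua, sub_self]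
        rw [mem_fx, LinearEquiv.mul_apply, hs.fix h1, map_sub, map_smul, mem_fx.1 hw, mem_fx.1 hu]
    omega

/-- the elements `g` such that multiplication by `g` preserves the parity of the dimension of the
fixed space -/
def E2 (Q : QuadraticForm F V) : Subgroup (V ≃ₗ[F] V) where
  carrier := {g | Iso Q g ∧ ∀ h, Iso Q h → (finrank F (fx (h * g)) + finrank F (fx h)) % 2 = 0}
  one_mem' := ⟨Iso.one, fun h _ => by rw [mul_one]; omega⟩
  mul_mem' := by
    rintro a b ⟨ha, ha'⟩ ⟨hb, hb'⟩
    refine ⟨ha.mul hb, fun h hh => ?_⟩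
    have h1 := ha' h hh
    have h2 := hb' (h * a) (hh.mul ha)
    rw [mul_assoc] at h2
    omega
  inv_mem' := by
    rintro a ⟨ha, ha'⟩
    refine ⟨ha.inv, fun h hh => ?_⟩
    have h1 := ha' (h * a⁻¹) (hh.mul ha.inv)
    rw [inv_mul_cancel_right] at h1
    omega

lemma mul_mem_E2 [FiniteDimensional F V] (hQ : ∀ x, (∀ y, polar Q x y = 0) → x = 0)
    {s t : V ≃ₗ[F] V} {a b : V} (hs : IsR Q s a) (ht : IsR Q t b) : s * t ∈ E2 Q := by
  refine ⟨hs.iso.mul ht.iso, fun h hh => ?_⟩
  have h1 := parity hQ hh hs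
  have h2 := parity hQ (hh.mul hs.iso) ht
  rw [mul_assoc] at h2
  omega

/-- Siegel transformation with `Q d ≠ 0` -/
lemma siegel_mem1 [FiniteDimensional F V] (hQ : ∀ x, (∀ y, polar Q x y = 0) → x = 0)
    {v d : V} (hv : Q v = 0) (hd : polar Q d v = 0) (hd0 : Q d ≠ 0) :
    ∃ g ∈ E2 Q, ∀ z, g z = z + polar Q z v • d - polar Q z d • v - (Q d * polar Q z v) • v := by
  have hQd' : Q (d + Q d • v) = Q d := by
    have := Q_sub_smul (Q := Q) d v (- Q d)
    rw [neg_smul, sub_neg_eq_add, hv, hd] at this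
    rw [this]; ring
  obtain ⟨s, hs⟩ := exists_refl hd0
  obtain ⟨t, ht⟩ := exists_refl (Q := Q) (a := d + Q d • v) (by rw [hQd']; exact hd0)
  refine ⟨s * t, mul_mem_E2 hQ hs ht, fun z => ?_⟩
  rw [LinearEquiv.mul_apply, ht.2, hs.2, hQd']
  simp only [polar_sub_left, polar_smul_left, polar_add_left, polar_add_right, polar_smul_right,
    smul_eq_mul, polar_self, nsmul_eq_mul]
  rw [polar_comm Q v d, hd]
  push_cast
  match_scalars <;> field_simp <;> ring

lemma siegel_mem [FiniteDimensional F V] (hQ : ∀ x, (∀ y, polar Q x y = 0) → x = 0)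
    (hV : 5 ≤ finrank F V) {g : V ≃ₗ[F] V} {v d : V} (h : IsSiegel Q g v d) : g ∈ E2 Q := by
  obtain ⟨hv, hd, hg⟩ := h
  by_cases hd0 : Q d ≠ 0
  · obtain ⟨g', hg', hf⟩ := siegel_mem1 hQ hv hd hd0
    have : g = g' := by
      ext z
      rw [hg, hf]
    rw [this]; exact hg'
  · push Not at hd0
    -- a nonsingular vector orthogonal to `v` and `d`
    obtain ⟨e, hev, hed, he⟩ : ∃ e, polar Q e v = 0 ∧ polar Q e d = 0 ∧ Q e ≠ 0 := by
      by_contra hcon
      push Not at hcon
      classical
      set T := Submodule.span F (({v, d} : Finset V) : Set V) with hT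
      set W := LinearMap.BilinForm.orthogonal (polarBilin Q) T with hW
      have hW0 : ∀ w ∈ W, Q w = 0 := by
        intro w hw
        rw [hW, LinearMap.BilinForm.mem_orthogonal_iff] at hw
        apply hcon
        · rw [polar_comm]
          exact hw v (Submodule.subset_span (by simp))
        · rw [polar_comm]
          exact hw d (Submodule.subset_span (by simp))
      have hle : W ≤ LinearMap.BilinForm.orthogonal (polarBilin Q) W := by
        intro w hw
        rw [LinearMap.BilinForm.mem_orthogonal_iff]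
        intro n hn
        change polar Q n w = 0
        unfold QuadraticMap.polar
        rw [hW0 _ (W.add_mem hn hw), hW0 _ hn, hW0 _ hw]
        ring
      have h1 := Submodule.finrank_mono hle
      have h1' : finrank F (LinearMap.BilinForm.orthogonal (polarBilin Q) W) =
          finrank F V - finrank F W := LinearMap.BilinForm.finrank_orthogonal (nondeg hQ) W
      have h2 : finrank F W = finrank F V - finrank F T :=
        LinearMap.BilinForm.finrank_orthogonal (nondeg hQ) T
      have h3 : finrank F T ≤ 2 :=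
        (finrank_span_finset_le_card ({v, d} : Finset V)).trans Finset.card_le_two
      omega
    obtain ⟨g1, hg1, hf1⟩ := siegel_mem1 hQ hv hev he
    have hQde : Q (d - e) = Q e := by
      have := Q_sub_smul (Q := Q) d e 1
      rw [one_smul, hd0, polar_comm, hed] at this
      rw [this]; ring
    obtain ⟨g2, hg2, hf2⟩ := siegel_mem1 (d := d - e) hQ hv
      (by rw [polar_sub_left, hd, hev, sub_zero]) (by rw [hQde]; exact he)
    have : g = g1 * g2 := by
      ext z
      rw [hg, LinearEquiv.mul_apply, hf2, hf1, hQde, hd0]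
      simp only [polar_sub_left, polar_smul_left, polar_add_left, polar_sub_right,
        smul_eq_mul, polar_self, nsmul_eq_mul, hv, hd, hev]
      rw [polar_comm Q v e, hev, polar_comm Q d e, hed]
      match_scalars <;> ring
    rw [this]
    exact (E2 Q).mul_mem hg1 hg2

lemma EO_le [FiniteDimensional F V] (hQ : ∀ x, (∀ y, polar Q x y = 0) → x = 0)
    (hV : 5 ≤ finrank F V) : EO Q ≤ E2 Q := by
  unfold EO
  rw [Subgroup.closure_le]
  rintro g ⟨v, d, h⟩
  exact siegel_mem hQ hV h

end OC2

/-- no reflection lies in `EO Q` (characteristic two) -/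
theorem reflection_notMem {F V : Type} [Field F] [Finite F] [CharP F 2] [AddCommGroup V]
    [Module F V] [Finite V] (Q : QuadraticForm F V)
    (hQ : ∀ x, (∀ y, QuadraticMap.polar Q x y = 0) → x = 0) (hV : 5 ≤ finrank F V) (a : V)
    (ha : Q a ≠ 0) (g : V ≃ₗ[F] V)
    (hg : ∀ z, g z = z - ((Q a)⁻¹ * QuadraticMap.polar Q z a) • a) : g ∉ EO Q := by
  intro hmem
  have : FiniteDimensional F V := inferInstance
  have h1 := (OC2.EO_le hQ hV hmem).2 1 OC2.Iso.one
  have h2 := OC2.parity hQ OC2.Iso.one (⟨ha, hg⟩ : OC2.IsR Q g a)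
  omega

theorem o_norm_char2 {F V : Type} [Field F] [Finite F] [CharP F 2] [AddCommGroup V]
    [Module F V] [Finite V] (Q : QuadraticForm F V)
    (hQ : ∀ x, (∀ y, QuadraticMap.polar Q x y = 0) → x = 0) (hV : 5 ≤ finrank F V)
    (P : Polar F V (EO Q)) (hPQ : ∀ v, P.q v = Q v)
    (hPB : ∀ x y, P.f x y = QuadraticMap.polar Q x y)
    (hP : ∀ (h : EO Q) v, P.ρ h v = (h : V ≃ₗ[F] V) v)
    {p m : ℕ} (h : PPD p (Nat.card F) m) (hm : 3 ≤ m) (hV' : finrank F V ≤ m + 2)
    {x : EO Q} (hx : orderOf x = p) (hNI : P.NI x) (S : Subgroup (EO Q)) (hS : IsPGroup 2 S)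
    (hxS : ∀ s ∈ S, x * s * x⁻¹ ∈ S) : S = ⊥ := by
  have hfin : Finite (V ≃ₗ[F] V) :=
    Finite.of_injective (fun g : V ≃ₗ[F] V => (g : V → V)) DFunLike.coe_injective
  have hiso : ∀ (g : EO Q) (z : V), Q ((g : V ≃ₗ[F] V) z) = Q z := by
    intro g z
    have := P.q_inv g z
    rwa [hPQ, hPQ, hP] at this
  have hpol : ∀ (g : EO Q) (y z : V), polar Q ((g : V ≃ₗ[F] V) y) ((g : V ≃ₗ[F] V) z) =
      polar Q y z := fun g => OC2.Iso.pol (hiso g)
  have hinv : ∀ (g : EO Q) (z : V), ((g⁻¹ : EO Q) : V ≃ₗ[F] V) ((g : V ≃ₗ[F] V) z) = z := by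
    intro g z
    rw [← LinearEquiv.mul_apply, ← Subgroup.coe_mul, inv_mul_cancel]
    rfl
  have hinv' : ∀ (g : EO Q) (z : V), (g : V ≃ₗ[F] V) (((g⁻¹ : EO Q) : V ≃ₗ[F] V) z) = z := by
    intro g z
    rw [← LinearEquiv.mul_apply, ← Subgroup.coe_mul, mul_inv_cancel]
    rfl
  have hmulx : ∀ (g g' : EO Q) (z : V), ((g * g' : EO Q) : V ≃ₗ[F] V) z =
      (g : V ≃ₗ[F] V) ((g' : V ≃ₗ[F] V) z) := fun g g' z => rfl
  -- the action of `x`
  have hρp : (P.ρ x) ^ p = 1 := by
    rw [← map_pow, ← hx, pow_orderOf_eq_one, map_one]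
  have hρ1 : P.ρ x ≠ 1 := by
    intro h1
    have : x = 1 := P.inj (by rw [h1, map_one])
    rw [this, orderOf_one] at hx
    exact h.1.one_lt.ne hx
  have hMv := lin_le_finrank h hρp hρ1
  have hrk := LinearMap.finrank_range_add_finrank_ker (P.ρ x - 1)
  set C := LinearMap.ker (P.ρ x - 1) with hC
  set Mv := LinearMap.range (P.ρ x - 1) with hMvd
  have hC2 : finrank F C ≤ 2 := by omega
  have memC : ∀ z, z ∈ C ↔ (x : V ≃ₗ[F] V) z = z := by
    intro z
    rw [hC, LinearMap.mem_ker, LinearMap.sub_apply, hP, sub_eq_zero]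
    rfl
  have perpCM : ∀ c ∈ C, ∀ w ∈ Mv, polar Q c w = 0 := by
    rintro c hc _ ⟨w, rfl⟩
    rw [LinearMap.sub_apply, hP]
    change polar Q c ((x : V ≃ₗ[F] V) w - w) = 0
    rw [polar_sub_right]
    have := hpol x c w
    rw [(memC c).1 hc] at this
    rw [this, sub_self]
  have hcompl : IsCompl C Mv := lin_isCompl h hρp
  have decomp : ∀ z : V, ∃ c ∈ C, ∃ w ∈ Mv, z = c + w := by
    intro z
    have : z ∈ C ⊔ Mv := by rw [hcompl.sup_eq_top]; trivial
    obtain ⟨c, hc, w, hw, e⟩ := Submodule.mem_sup.1 this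
    exact ⟨c, hc, w, hw, e.symm⟩
  have nonperp : ∀ a ∈ C, (∀ c ∈ C, polar Q c a = 0) → a = 0 := by
    intro a haC ha
    apply hQ
    intro y
    obtain ⟨c, hc, w, hw, rfl⟩ := decomp y
    rw [polar_add_right, perpCM a haC w hw, polar_comm, ha c hc, add_zero]
  by_contra hS1
  obtain ⟨s0, hs0, hs01⟩ : ∃ s ∈ S, s ≠ 1 := by
    by_contra hcon
    push Not at hcon
    exact hS1 ((Subgroup.eq_bot_iff_forall S).2 hcon)
  -- fixed vectors of `S`
  let Fix : Submodule F V :=
    { carrier := {v | ∀ s ∈ S, (s : V ≃ₗ[F] V) v = v}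
      add_mem' := by
        intro a b ha hb s hs
        rw [map_add, ha s hs, hb s hs]
      zero_mem' := fun s _ => map_zero _
      smul_mem' := by
        intro c a ha s hs
        rw [map_smul, ha s hs] }
  have hFix : Fix ≠ ⊤ := by
    intro htop
    apply hs01
    apply Subtype.ext
    ext v
    have : v ∈ Fix := by rw [htop]; trivial
    exact this s0 hs0
  set perp := LinearMap.BilinForm.orthogonal (polarBilin Q) Fix with hperp
  have hperp0 : perp ≠ ⊥ := by
    intro h0
    have h1 : finrank F perp = finrank F V - finrank F Fix :=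
      LinearMap.BilinForm.finrank_orthogonal (OC2.nondeg hQ) Fix
    rw [h0, finrank_bot] at h1
    have h2 := Submodule.finrank_lt hFix
    omega
  have memperp : ∀ z, z ∈ perp ↔ ∀ t ∈ Fix, polar Q t z = 0 := fun z => Iff.rfl
  obtain ⟨a, haperp, ha0, haS⟩ := lin_fixed P.ρ Nat.prime_two S hS perp (by
    intro s hs w hw
    rw [memperp] at hw ⊢
    intro t ht
    rw [hP]
    have := hpol s t w
    rw [ht s hs] at this
    rw [this]
    exact hw t ht) hperp0
  have haFix : a ∈ Fix := fun s hs => by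
    have := haS s hs
    rwa [hP] at this
  -- conjugation by `x` is onto `S`
  have hsurj : ∀ s ∈ S, ∃ s' ∈ S, x * s' * x⁻¹ = s := by
    have hinj : Function.Injective (fun s : S => (⟨x * s.1 * x⁻¹, hxS s.1 s.2⟩ : S)) := by
      intro s t hst
      have := congrArg Subtype.val hst
      apply Subtype.ext
      simpa using this
    have hsj := Finite.surjective_of_injective hinj
    intro s hs
    obtain ⟨t, ht⟩ := hsj ⟨s, hs⟩
    exact ⟨t.1, t.2, congrArg Subtype.val ht⟩
  have hcommx : ∀ s ∈ S, ∃ s' ∈ S, ∀ v : V, (s : V ≃ₗ[F] V) ((x : V ≃ₗ[F] V) v) =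
      (x : V ≃ₗ[F] V) ((s' : V ≃ₗ[F] V) v) := by
    intro s hs
    obtain ⟨s', hs', e⟩ := hsurj s hs
    refine ⟨s', hs', fun v => ?_⟩
    rw [← hmulx, ← hmulx, ← e]
    have : x * s' * x⁻¹ * x = x * s' := by group
    rw [this]
  have xFix : ∀ v ∈ Fix, (x : V ≃ₗ[F] V) v ∈ Fix := by
    intro v hv s hs
    obtain ⟨s', hs', e⟩ := hcommx s hs
    rw [e, hv s' hs']
  have xFix' : ∀ v ∈ Fix, ((x⁻¹ : EO Q) : V ≃ₗ[F] V) v ∈ Fix := by
    intro v hv s hs
    have h1 := hv _ (hxS s hs)
    rw [hmulx, hmulx] at h1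
    have h2 := congrArg (((x⁻¹ : EO Q) : V ≃ₗ[F] V)) h1
    rwa [hinv] at h2
  have xperp : ∀ v ∈ perp, (x : V ≃ₗ[F] V) v ∈ perp := by
    intro v hv
    rw [memperp] at hv ⊢
    intro t ht
    have := hpol x (((x⁻¹ : EO Q) : V ≃ₗ[F] V) t) v
    rw [hinv'] at this
    rw [this]
    exact hv _ (xFix' t ht)
  have hRR : ∀ r ∈ Fix ⊓ perp, ∀ r' ∈ Fix ⊓ perp, polar Q r r' = 0 := by
    intro r hr r' hr'
    exact (memperp r').1 hr'.2 r hr.1
  have hQadd : ∀ r ∈ Fix ⊓ perp, ∀ r' ∈ Fix ⊓ perp, Q (r + r') = Q r + Q r' := by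
    intro r hr r' hr'
    rw [QuadraticMap.map_add Q r, hRR r hr r' hr', add_zero]
  let R0 : Submodule F V :=
    { carrier := {r | r ∈ Fix ⊓ perp ∧ Q r = 0}
      add_mem' := by
        rintro r r' ⟨h1, h2⟩ ⟨h3, h4⟩
        exact ⟨Submodule.add_mem _ h1 h3, by rw [hQadd r h1 r' h3, h2, h4, add_zero]⟩
      zero_mem' := ⟨Submodule.zero_mem _, QuadraticMap.map_zero Q⟩
      smul_mem' := by
        rintro c r ⟨h1, h2⟩
        exact ⟨Submodule.smul_mem _ c h1, by rw [QuadraticMap.map_smul, h2, smul_zero]⟩ }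
  have hR0 : R0 = ⊥ := by
    apply hNI
    · rintro t ⟨h1, h2⟩
      rw [hP]
      exact ⟨⟨xFix t h1.1, xperp t h1.2⟩, by rw [hiso, h2]⟩
    · refine ⟨fun s hs t ht => ?_, fun t ht => ?_⟩
      · rw [hPB]; exact hRR s hs.1 t ht.1
      · rw [hPQ]; exact ht.2
  have haR : a ∈ Fix ⊓ perp := ⟨haFix, haperp⟩
  have hR0' : ∀ r ∈ Fix ⊓ perp, Q r = 0 → r = 0 := by
    intro r hr h0
    have : r ∈ R0 := ⟨hr, h0⟩
    rwa [hR0, Submodule.mem_bot] at this
  have hQa : Q a ≠ 0 := fun h0 => ha0 (hR0' a haR h0)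
  have two0 : (2 : F) = 0 := CharTwo.two_eq_zero
  have hmult : ∀ r ∈ Fix ⊓ perp, ∃ c : F, r = c • a := by
    intro r hr
    have hsq : IsSquare (Q r / Q a) := by
      have : Fintype F := Fintype.ofFinite F
      exact FiniteField.isSquare_of_char_two (ringChar.eq F 2) _
    obtain ⟨c, hc⟩ := hsq
    have hc' : Q r = c * c * Q a := by
      rw [← hc]; field_simp
    refine ⟨c, ?_⟩
    have h1 : Q (r - c • a) = 0 := by
      rw [OC2.Q_sub_smul, hRR r hr a haR, hc']
      linear_combination (c * c * Q a) * two0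
    have h2 := hR0' _ (Submodule.sub_mem _ hr (Submodule.smul_mem _ c haR)) h1
    exact sub_eq_zero.1 h2
  have hxa : (x : V ≃ₗ[F] V) a = a := by
    obtain ⟨μ, hμ⟩ := hmult _ ⟨xFix a haFix, xperp a haperp⟩
    have h1 := hiso x a
    rw [hμ, QuadraticMap.map_smul, smul_eq_mul] at h1
    have h2 : μ * μ = 1 := mul_right_cancel₀ hQa (by rw [h1, one_mul])
    have h3 : (μ - 1) * (μ - 1) = 0 := by linear_combination h2 + (1 - μ) * two0
    have h4 : μ = 1 := by
      rcases mul_eq_zero.1 h3 with h | h <;> exact sub_eq_zero.1 h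
    rw [hμ, h4, one_smul]
  have haC : a ∈ C := (memC a).2 hxa
  -- the space `Y`
  let Y : Submodule F V :=
    { carrier := {y | polar Q y a = 0 ∧ ∀ s ∈ S, ∃ c : F, (s : V ≃ₗ[F] V) y - y = c • a}
      add_mem' := by
        rintro y z ⟨h1, h2⟩ ⟨h3, h4⟩
        refine ⟨by rw [polar_add_left, h1, h3, add_zero], fun s hs => ?_⟩
        obtain ⟨c, hc⟩ := h2 s hs
        obtain ⟨d, hd⟩ := h4 s hs
        refine ⟨c + d, ?_⟩
        rw [map_add, add_smul, ← hc, ← hd]; abel
      zero_mem' := ⟨polar_zero_left _ _, fun s _ => ⟨0, by simp⟩⟩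
      smul_mem' := by
        rintro k y ⟨h1, h2⟩
        refine ⟨by rw [polar_smul_left, h1, smul_zero], fun s hs => ?_⟩
        obtain ⟨c, hc⟩ := h2 s hs
        refine ⟨k * c, ?_⟩
        rw [map_smul, ← smul_sub, hc, smul_smul] }
  have xY : ∀ y ∈ Y, P.ρ x y ∈ Y := by
    rintro y ⟨h1, h2⟩
    rw [hP]
    refine ⟨?_, fun s hs => ?_⟩
    · have := hpol x y a
      rw [hxa] at this
      rw [this, h1]
    · obtain ⟨s', hs', e⟩ := hcommx s hs
      obtain ⟨c, hc⟩ := h2 s' hs'
      refine ⟨c, ?_⟩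
      rw [e, ← map_sub, hc, map_smul, hxa]
  have hYbig : ∃ y ∈ Y, y ∉ Submodule.span F {a} := by
    set A := Submodule.span F {a} with hA
    have hAinv : ∀ s : S, A ≤ A.comap (P.ρ s.1) := by
      intro s
      rw [hA, Submodule.span_singleton_le_iff_mem, Submodule.mem_comap, hP, haFix s.1 s.2]
      exact Submodule.mem_span_singleton_self a
    let ρ' : S →* ((V ⧸ A) →ₗ[F] (V ⧸ A)) :=
      { toFun := fun s => A.mapQ A (P.ρ s.1) (hAinv s)
        map_one' := by
          ext v
          simp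
        map_mul' := by
          intro s t
          ext v
          simp }
    have hρ' : ∀ (s : S) (v : V), ρ' s (A.mkQ v) = A.mkQ ((s.1 : V ≃ₗ[F] V) v) := by
      intro s v
      change A.mapQ A (P.ρ s.1) (hAinv s) (A.mkQ v) = _
      rw [Submodule.mkQ_apply, Submodule.mapQ_apply, hP, Submodule.mkQ_apply]
    set ap : Submodule F V := LinearMap.ker (polarBilin Q a) with hap
    have memap : ∀ y, y ∈ ap ↔ polar Q a y = 0 := fun y => Iff.rfl
    have hnle : ¬ ap ≤ A := by
      intro hle
      have h1 := Submodule.finrank_mono hle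
      have h2 : finrank F A = 1 := finrank_span_singleton ha0
      have h3 := LinearMap.finrank_range_add_finrank_ker (polarBilin Q a)
      rw [← hap] at h3
      have h4 : finrank F (LinearMap.range (polarBilin Q a)) ≤ 1 := by
        have := Submodule.finrank_le (LinearMap.range (polarBilin Q a))
        rwa [finrank_self] at this
      omega
    have : Finite (V ⧸ A) := Finite.of_surjective A.mkQ A.mkQ_surjective
    obtain ⟨w, hw, hw0, hwS⟩ := lin_fixed ρ' Nat.prime_two ⊤ (hS.to_subgroup ⊤)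
      (ap.map A.mkQ) (by
        rintro s _ _ ⟨y, hy, rfl⟩
        rw [hρ']
        refine ⟨_, ?_, rfl⟩
        have hy' := (memap y).1 hy
        have := hpol s.1 a y
        rw [haFix s.1 s.2] at this
        change polar Q a _ = 0
        rw [this, hy']) (by
        intro hbot
        apply hnle
        intro y hy
        have : A.mkQ y ∈ ap.map A.mkQ := ⟨y, hy, rfl⟩
        rw [hbot, Submodule.mem_bot, Submodule.mkQ_apply, Submodule.Quotient.mk_eq_zero] at this
        exact this)
    obtain ⟨y, hy, rfl⟩ := hw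
    refine ⟨y, ⟨?_, ?_⟩, ?_⟩
    · rw [polar_comm]; exact hy
    · intro s hs
      have := hwS ⟨s, hs⟩ trivial
      rw [hρ', Submodule.mkQ_apply, Submodule.mkQ_apply, Submodule.Quotient.eq] at this
      obtain ⟨c, hc⟩ := Submodule.mem_span_singleton.1 this
      exact ⟨c, hc.symm⟩
    · intro hyA
      apply hw0
      rw [Submodule.mkQ_apply, Submodule.Quotient.mk_eq_zero]
      exact hyA
  -- two vectors of `C` orthogonal to `a` are proportional
  have hCa : ∀ c ∈ C, polar Q c a = 0 → c ∈ Submodule.span F {a} := by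
    intro c hc hca
    by_contra hcs
    apply ha0
    apply nonperp a haC
    intro z hz
    have hz' := OC2.le_span_pair C hC2 a c ha0 haC hc hcs hz
    obtain ⟨α, β, rfl⟩ := Submodule.mem_span_pair.1 hz'
    rw [polar_add_left, polar_smul_left, polar_smul_left, hca, polar_self, nsmul_eq_mul]
    push_cast
    rw [two0]
    simp
  have hMY : Mv ≤ Y := by
    rcases lin_or h hρp (by omega) xY with h1 | h1
    · exfalso
      obtain ⟨y, hy, hyA⟩ := hYbig
      exact hyA (hCa y (h1 hy) hy.1)
    · exact h1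
  have haY : a ∈ Y := by
    refine ⟨?_, fun s hs => ⟨0, by rw [haFix s hs]; simp⟩⟩
    rw [polar_self, nsmul_eq_mul]
    push_cast
    rw [two0, zero_mul]
  have hall : ∀ y, polar Q y a = 0 → y ∈ Y := by
    intro y hy
    obtain ⟨c, hc, w, hw, rfl⟩ := decomp y
    apply Y.add_mem _ (hMY hw)
    rw [polar_add_left, polar_comm Q w a, perpCM a haC w hw, add_zero] at hy
    have := hCa c hc hy
    obtain ⟨k, rfl⟩ := Submodule.mem_span_singleton.1 this
    exact Y.smul_mem k haY
  have hfixall : ∀ s ∈ S, ∀ y, polar Q y a = 0 → (s : V ≃ₗ[F] V) y = y := by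
    intro s hs y hy
    obtain ⟨c, hc⟩ := (hall y hy).2 s hs
    have e1 : (s : V ≃ₗ[F] V) y = y + c • a := by rw [← hc]; abel
    have e2 := hiso s y
    rw [e1, QuadraticMap.map_add Q y, QuadraticMap.map_smul, polar_smul_right, hy] at e2
    have e3 : c * c * Q a = 0 := by
      simp only [smul_eq_mul, mul_zero, add_zero] at e2
      linear_combination e2
    have e4 : c = 0 := by
      rcases mul_eq_zero.1 e3 with h | h
      · exact mul_self_eq_zero.1 h
      · exact absurd h hQa
    rw [e1, e4, zero_smul, add_zero]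
  -- conclusion for `s0`
  obtain ⟨b, hb⟩ : ∃ b, polar Q b a ≠ 0 := by
    by_contra hcon
    push Not at hcon
    exact ha0 (hQ a (fun y => by rw [polar_comm]; exact hcon y))
  have hsb : (s0 : V ≃ₗ[F] V) b - b ∈ Submodule.span F {a} := by
    have h1 := LinearMap.BilinForm.orthogonal_orthogonal (OC2.nondeg hQ) OC2.refl'
      (Submodule.span F {a})
    rw [← h1, LinearMap.BilinForm.mem_orthogonal_iff]
    intro n hn
    rw [LinearMap.BilinForm.mem_orthogonal_iff] at hn
    have hna : polar Q n a = 0 := by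
      rw [polar_comm]
      exact hn a (Submodule.mem_span_singleton_self a)
    change polar Q n _ = 0
    rw [polar_sub_right]
    have := hpol s0 n b
    rw [hfixall s0 hs0 n hna] at this
    rw [this, sub_self]
  obtain ⟨τ, hτ⟩ := Submodule.mem_span_singleton.1 hsb
  have hsb' : (s0 : V ≃ₗ[F] V) b = b + τ • a := by rw [hτ]; abel
  have hform : ∀ z, (s0 : V ≃ₗ[F] V) z = z + (polar Q z a / polar Q b a * τ) • a := by
    intro z
    have h1 : polar Q (z - (polar Q z a / polar Q b a) • b) a = 0 := by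
      rw [polar_sub_left, polar_smul_left, smul_eq_mul, div_mul_cancel₀ _ hb, sub_self]
    have h2 := hfixall s0 hs0 _ h1
    rw [map_sub, map_smul, hsb'] at h2
    have h3 := eq_add_of_sub_eq h2
    rw [h3, smul_add, smul_smul]
    abel
  have hτ' : τ * (τ * Q a + polar Q b a) = 0 := by
    have := hiso s0 b
    rw [hsb', QuadraticMap.map_add Q b, QuadraticMap.map_smul, polar_smul_right] at this
    simp only [smul_eq_mul] at this
    linear_combination this
  rcases mul_eq_zero.1 hτ' with h0 | h0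
  · apply hs01
    apply Subtype.ext
    ext z
    rw [hform, h0, mul_zero, zero_smul, add_zero]
    rfl
  · apply reflection_notMem Q hQ hV a hQa (s0 : V ≃ₗ[F] V) _ s0.2
    intro z
    rw [hform, sub_eq_add_neg, ← neg_smul]
    congr 2
    have : τ = - polar Q b a / Q a := by
      field_simp
      linear_combination h0
    rw [this]
    field_simp

end Pool.Agent.Lib.MP_bfe725_co
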