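import Pool.Agent.Lib.MP_bfe725_co.CDefs

/-!
# The number of singular vectors of a nondegenerate quadratic form over a finite field

(helper50, module OCOUNT of MP_bfe725_co)
-/

set_option autoImplicit false

namespace Pool.Agent.Lib.MP_bfe725_co

open Module QuadraticMap

section OCount

variable {F V : Type} [Field F] [AddCommGroup V] [Module F V]

/-- the orthogonal complement of a pair of vectors -/
def ocountW (Q : QuadraticForm F V) (u v : V) : Submodule F V where
  carrier := {x | polar Q x u = 0 ∧ polar Q x v = 0}
  zero_mem' := by simp [QuadraticMap.polar_zero_left]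
  add_mem' := by
    rintro a b ⟨h1, h2⟩ ⟨h3, h4⟩
    exact ⟨by rw [QuadraticMap.polar_add_left, h1, h3, add_zero],
      by rw [QuadraticMap.polar_add_left, h2, h4, add_zero]⟩
  smul_mem' := by
    rintro c a ⟨h1, h2⟩
    exact ⟨by rw [QuadraticMap.polar_smul_left, h1, smul_zero],
      by rw [QuadraticMap.polar_smul_left, h2, smul_zero]⟩

theorem ocount_self {Q : QuadraticForm F V} {v : V} (hv : Q v = 0) : polar Q v v = 0 := by
  rw [QuadraticMap.polar_self, hv, smul_zero]

/-- coordinates with respect to a hyperbolic pair -/
def ocountEquiv (Q : QuadraticForm F V) {u v : V} (hu : Q u = 0) (hv : Q v = 0)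
    (huv : polar Q u v = 1) : V ≃ F × F × ocountW Q u v where
  toFun z := (polar Q z v, polar Q z u, ⟨z - polar Q z v • u - polar Q z u • v, by
    have hvu : polar Q v u = 1 := by rw [QuadraticMap.polar_comm, huv]
    constructor
    · rw [QuadraticMap.polar_sub_left, QuadraticMap.polar_sub_left, QuadraticMap.polar_smul_left,
        QuadraticMap.polar_smul_left, ocount_self hu, hvu]
      simp
    · rw [QuadraticMap.polar_sub_left, QuadraticMap.polar_sub_left, QuadraticMap.polar_smul_left,
        QuadraticMap.polar_smul_left, ocount_self hv, huv]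
      simp⟩)
  invFun p := p.1 • u + p.2.1 • v + (p.2.2 : V)
  left_inv z := by simp
  right_inv := by
    rintro ⟨a, b, w, hw1, hw2⟩
    have hvu : polar Q v u = 1 := by rw [QuadraticMap.polar_comm, huv]
    have h1 : polar Q (a • u + b • v + w) v = a := by
      rw [QuadraticMap.polar_add_left, QuadraticMap.polar_add_left, QuadraticMap.polar_smul_left,
        QuadraticMap.polar_smul_left, ocount_self hv, huv, hw2]
      simp
    have h2 : polar Q (a • u + b • v + w) u = b := by
      rw [QuadraticMap.polar_add_left, QuadraticMap.polar_add_left, QuadraticMap.polar_smul_left,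
        QuadraticMap.polar_smul_left, ocount_self hu, hvu, hw1]
      simp
    refine Prod.ext h1 (Prod.ext h2 (Subtype.ext ?_))
    change a • u + b • v + w - polar Q (a • u + b • v + w) v • u -
      polar Q (a • u + b • v + w) u • v = w
    rw [h1, h2]
    abel

theorem ocount_Q (Q : QuadraticForm F V) {u v : V} (hu : Q u = 0) (hv : Q v = 0)
    (huv : polar Q u v = 1) (a b : F) (w : ocountW Q u v) :
    Q (a • u + b • v + (w : V)) = a * b + Q w := by
  have h1 : polar Q (a • u + b • v) (w : V) = 0 := by
    rw [QuadraticMap.polar_comm, QuadraticMap.polar_add_right, QuadraticMap.polar_smul_right,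
      QuadraticMap.polar_smul_right, w.2.1, w.2.2]
    simp
  rw [QuadraticMap.map_add (⇑Q) (a • u + b • v) (w : V), h1, add_zero,
    QuadraticMap.map_add (⇑Q) (a • u) (b • v), QuadraticMap.map_smul,
    QuadraticMap.map_smul, hu, hv, QuadraticMap.polar_smul_left, QuadraticMap.polar_smul_right, huv]
  simp

/-- solutions of `a b + Q w = 0` -/
noncomputable def ocountEquiv2 (Q : QuadraticForm F V) (W : Submodule F V) :
    {p : F × F × W // p.1 * p.2.1 + Q (p.2.2 : V) = 0} ≃
      (Fˣ × W) ⊕ (F × {w : W // Q (w : V) = 0}) := by
  classical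
  exact
  { toFun := fun p => if h : p.1.1 = 0 then Sum.inr (p.1.2.1, ⟨p.1.2.2, by
        have := p.2
        rw [h, zero_mul, zero_add] at this
        exact this⟩) else Sum.inl (Units.mk0 p.1.1 h, p.1.2.2)
    invFun := fun s => match s with
      | Sum.inl x => ⟨((x.1 : F), (-(Q (x.2 : V)) * ((x.1⁻¹ : Fˣ) : F), x.2)), by
          simp only
          rw [mul_comm, mul_assoc, ← Units.val_mul, inv_mul_cancel, Units.val_one, mul_one,
            neg_add_cancel]⟩
      | Sum.inr y => ⟨(0, (y.1, y.2.1)), by
          simp only
          rw [zero_mul, zero_add]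
          exact y.2.2⟩
    left_inv := by
      rintro ⟨⟨a, b, w⟩, h⟩
      by_cases ha : a = 0
      · subst ha
        simp
      · simp only [ha, dite_false, Units.val_mk0, Subtype.mk.injEq, Prod.mk.injEq, true_and,
          and_true]
        have h' : a * b + Q (w : V) = 0 := h
        have h2 : -(Q (w : V)) = a * b := by linear_combination -h'
        rw [h2, Units.val_inv_eq_inv_val, Units.val_mk0]
        field_simp
    right_inv := by
      rintro (⟨a, w⟩ | ⟨b, w, hw⟩)
      · simp [Units.ne_zero]
      · simp }

variable [Finite F] [Finite V]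

theorem ocount_step (Q : QuadraticForm F V) {u v : V} (hu : Q u = 0) (hv : Q v = 0)
    (huv : polar Q u v = 1) :
    Nat.card {z : V // Q z = 0} = (Nat.card F - 1) * Nat.card (ocountW Q u v) +
      Nat.card F * Nat.card {w : ocountW Q u v // Q (w : V) = 0} := by
  have e1 : {z : V // Q z = 0} ≃
      {p : F × F × ocountW Q u v // p.1 * p.2.1 + Q (p.2.2 : V) = 0} :=
    (ocountEquiv Q hu hv huv).subtypeEquiv (fun z => by
      have h1 : Q z = Q ((ocountEquiv Q hu hv huv).symm (ocountEquiv Q hu hv huv z)) := by
        rw [Equiv.symm_apply_apply]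
      rw [h1]
      rw [← ocount_Q Q hu hv huv]
      rfl)
  rw [Nat.card_congr (e1.trans (ocountEquiv2 Q _)), Nat.card_sum, Nat.card_prod, Nat.card_prod,
    Nat.card_units]

theorem ocount_finrank (Q : QuadraticForm F V) {u v : V} (hu : Q u = 0) (hv : Q v = 0)
    (huv : polar Q u v = 1) : finrank F V = finrank F (ocountW Q u v) + 2 := by
  have h1 := Nat.card_congr (ocountEquiv Q hu hv huv)
  rw [Nat.card_prod, Nat.card_prod, Module.natCard_eq_pow_finrank (K := F) (V := V),
    Module.natCard_eq_pow_finrank (K := F) (V := ocountW Q u v)] at h1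
  have h2 : 1 < Nat.card F := Finite.one_lt_card
  have h3 : Nat.card F ^ finrank F V = Nat.card F ^ (finrank F (ocountW Q u v) + 2) := by
    rw [h1]; ring
  exact Nat.pow_right_injective h2 h3

/-- a nondegenerate anisotropic form has rank at most two -/
theorem ocount_aniso (Q : QuadraticForm F V)
    (hQ : ∀ x, (∀ y, polar Q x y = 0) → x = 0) (hA : ∀ x, Q x = 0 → x = 0)
    (hV : 3 ≤ finrank F V) : False := by
  have hfd : FiniteDimensional F V := Module.Finite.of_finite
  have hker : ∀ x y : V, ∃ z : V, z ≠ 0 ∧ polar Q z x = 0 ∧ polar Q z y = 0 := by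
    intro x y
    let L : V →ₗ[F] (F × F) :=
      { toFun := fun z => (polar Q z x, polar Q z y)
        map_add' := fun a b => by simp [QuadraticMap.polar_add_left]
        map_smul' := fun c a => by simp [QuadraticMap.polar_smul_left] }
    have h1 : LinearMap.ker L ≠ ⊥ := by
      apply LinearMap.ker_ne_bot_of_finrank_lt
      rw [Module.finrank_prod, Module.finrank_self]
      omega
    obtain ⟨z, hz, hz0⟩ := Submodule.exists_mem_ne_zero_of_ne_bot h1
    have h2 : (polar Q z x, polar Q z y) = (0, 0) := hz
    rw [Prod.mk.injEq] at h2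
    exact ⟨z, hz0, h2.1, h2.2⟩
  have : Nontrivial V := Module.nontrivial_of_finrank_pos (R := F) (by omega)
  obtain ⟨x, hx⟩ := exists_ne (0 : V)
  by_cases h2 : (2 : F) = 0
  · -- characteristic two
    obtain ⟨u, hu⟩ : ∃ u, polar Q x u ≠ 0 := by
      by_contra hc
      push Not at hc
      exact hx (hQ x hc)
    obtain ⟨y, hy, hyx, hyu⟩ := hker x u
    have hQy : Q y ≠ 0 := fun h => hy (hA y h)
    have hchar : ringChar F = 2 := by
      have h3 : ringChar F ∣ 2 := ringChar.dvd (by exact_mod_cast h2)
      rcases (Nat.dvd_prime Nat.prime_two).1 h3 with h4 | h4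
      · have := CharP.ringChar_ne_one (R := F)
        exact absurd h4 this
      · exact h4
    obtain ⟨c, hc⟩ := FiniteField.isSquare_of_char_two hchar (-(Q x) / Q y)
    have h5 : Q (x + c • y) = 0 := by
      rw [QuadraticMap.map_add (⇑Q) x (c • y), QuadraticMap.map_smul,
        QuadraticMap.polar_smul_right, QuadraticMap.polar_comm, hyx, ← hc]
      simp only [smul_eq_mul, mul_zero, add_zero]
      field_simp
      ring
    have h6 := hA _ h5
    have h7 : polar Q (x + c • y) u = 0 := by rw [h6, QuadraticMap.polar_zero_left]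
    rw [QuadraticMap.polar_add_left, QuadraticMap.polar_smul_left, hyu, smul_zero, add_zero] at h7
    exact hu h7
  · -- odd characteristic
    obtain ⟨y, hy, hyx, -⟩ := hker x x
    obtain ⟨z, hz, hzx, hzy⟩ := hker x y
    have hQx : Q x ≠ 0 := fun h => hx (hA x h)
    have hQy : Q y ≠ 0 := fun h => hy (hA y h)
    have hQz : Q z ≠ 0 := fun h => hz (hA z h)
    have := Fintype.ofFinite F
    have hodd : Fintype.card F % 2 = 1 := by
      apply FiniteField.odd_card_of_char_ne_two
      intro h
      apply h2
      have : ((2 : ℕ) : F) = 0 := by rw [← h]; exact ringChar.Nat.cast_ringChar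
      exact_mod_cast this
    obtain ⟨a, b, hab⟩ := FiniteField.exists_root_sum_quadratic
      (f := Polynomial.C (Q x) * Polynomial.X ^ 2 + Polynomial.C 0 * Polynomial.X +
        Polynomial.C (Q z))
      (g := Polynomial.C (Q y) * Polynomial.X ^ 2 + Polynomial.C 0 * Polynomial.X +
        Polynomial.C 0)
      (Polynomial.degree_quadratic hQx) (Polynomial.degree_quadratic hQy) hodd
    have h5 : Q (z + (a • x + b • y)) = 0 := by
      have h6 : polar Q z (a • x + b • y) = 0 := by
        rw [QuadraticMap.polar_add_right, QuadraticMap.polar_smul_right,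
          QuadraticMap.polar_smul_right, hzx, hzy]
        simp
      have h7 : polar Q (a • x) (b • y) = 0 := by
        rw [QuadraticMap.polar_smul_left, QuadraticMap.polar_smul_right, QuadraticMap.polar_comm,
          hyx]
        simp
      rw [QuadraticMap.map_add (⇑Q) z _, h6, QuadraticMap.map_add (⇑Q) (a • x) _, h7,
        QuadraticMap.map_smul, QuadraticMap.map_smul]
      simp only [Polynomial.eval_add, Polynomial.eval_mul, Polynomial.eval_C, Polynomial.eval_pow,
        Polynomial.eval_X, zero_mul, add_zero] at hab
      simp only [smul_eq_mul, add_zero]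
      linear_combination hab
    have h6 := hA _ h5
    have h7 : polar Q (z + (a • x + b • y)) z = 0 := by rw [h6, QuadraticMap.polar_zero_left]
    rw [QuadraticMap.polar_add_left, QuadraticMap.polar_add_left, QuadraticMap.polar_smul_left,
      QuadraticMap.polar_smul_left, QuadraticMap.polar_comm Q x z, hzx,
      QuadraticMap.polar_comm Q y z, hzy, QuadraticMap.polar_self] at h7
    have h8 : (2 : F) * Q z = 0 := by
      rw [← h7, nsmul_eq_mul]
      simp
    rcases mul_eq_zero.1 h8 with h8 | h8
    · exact h2 h8
    · exact hQz h8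

/-- The number of singular vectors of a nondegenerate quadratic form over a finite field. -/
theorem o_count {F V : Type} [Field F] [Finite F] [AddCommGroup V] [Module F V] [Finite V]
    (Q : QuadraticForm F V) (hQ : ∀ x, (∀ y, QuadraticMap.polar Q x y = 0) → x = 0) :
    (∃ k, finrank F V = 2 * k + 1 ∧ Odd (Nat.card F) ∧
      Nat.card {v : V // Q v = 0} = Nat.card F ^ (2 * k)) ∨
    (∃ k, finrank F V = 2 * k ∧ Nat.card F ^ k + Nat.card {v : V // Q v = 0} * Nat.card F =
      Nat.card F ^ (2 * k) + Nat.card F ^ (k + 1)) ∨
    (∃ k, finrank F V = 2 * k ∧ 1 ≤ k ∧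
      Nat.card {v : V // Q v = 0} * Nat.card F + Nat.card F ^ (k + 1) =
      Nat.card F ^ (2 * k) + Nat.card F ^ k) := by
  induction hn : finrank F V using Nat.strong_induction_on generalizing V with
  | _ n ih =>
    by_cases hA : ∀ x, Q x = 0 → x = 0
    · have h1 : Nat.card {v : V // Q v = 0} = 1 := by
        rw [Nat.card_eq_one_iff_unique]
        refine ⟨⟨fun a b => Subtype.ext ?_⟩, ⟨⟨0, QuadraticMap.map_zero Q⟩⟩⟩
        rw [hA _ a.2, hA _ b.2]
      have h3 : n < 3 := by
        by_contra hc
        exact ocount_aniso Q hQ hA (by omega)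
      interval_cases n
      · right; left
        exact ⟨0, by omega, by rw [h1]; simp⟩
      · left
        refine ⟨0, by omega, ?_, by rw [h1]; simp⟩
        have := Fintype.ofFinite F
        rw [Nat.card_eq_fintype_card, Nat.odd_iff]
        apply FiniteField.odd_card_of_char_ne_two
        intro h
        have hnt : Nontrivial V := Module.nontrivial_of_finrank_pos (R := F) (by omega)
        obtain ⟨x, hx⟩ := exists_ne (0 : V)
        apply hx
        apply hQ
        intro y
        obtain ⟨c, hc⟩ := (finrank_eq_one_iff_of_nonzero' x hx).1 hn y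
        rw [← hc, QuadraticMap.polar_smul_right, QuadraticMap.polar_self]
        have h2 : ((2 : ℕ) : F) = 0 := by rw [← h]; exact ringChar.Nat.cast_ringChar
        have h3 : (2 : F) = 0 := by exact_mod_cast h2
        simp [h3]
      · right; right
        exact ⟨1, by omega, le_refl _, by rw [h1]; ring⟩
    · push Not at hA
      obtain ⟨v, hv, hv0⟩ := hA
      obtain ⟨u, hu, huv⟩ : ∃ u, Q u = 0 ∧ polar Q u v = 1 := by
        obtain ⟨u, hu⟩ : ∃ u, polar Q v u ≠ 0 := by
          by_contra hc
          push Not at hc
          exact hv0 (hQ v hc)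
        set c := (polar Q v u)⁻¹ with hc
        have h1 : polar Q (c • u) v = 1 := by
          rw [QuadraticMap.polar_smul_left, QuadraticMap.polar_comm, smul_eq_mul, hc,
            inv_mul_cancel₀ hu]
        refine ⟨c • u + (-(Q (c • u))) • v, ?_, ?_⟩
        · rw [QuadraticMap.map_add (⇑Q) (c • u) _, QuadraticMap.map_smul Q (-(Q (c • u))) v, hv,
            QuadraticMap.polar_smul_right, h1]
          simp
        · rw [QuadraticMap.polar_add_left, h1, QuadraticMap.polar_smul_left, ocount_self hv]
          simp
      have hcard := ocount_step Q hu hv huv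
      have hdim := ocount_finrank Q hu hv huv
      set W := ocountW Q u v with hW
      have hQW : ∀ w : W, (∀ y : W, polar (Q.comp W.subtype) w y = 0) → w = 0 := by
        intro w hw
        apply Subtype.ext
        apply hQ
        intro y
        have hy := (ocountEquiv Q hu hv huv).symm_apply_apply y
        rw [← hy]
        change polar Q (w : V) (_ • u + _ • v + _) = 0
        rw [QuadraticMap.polar_add_right, QuadraticMap.polar_add_right,
          QuadraticMap.polar_smul_right, QuadraticMap.polar_smul_right, w.2.1, w.2.2]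
        simp only [smul_zero, zero_add]
        exact hw _
      have h := ih (finrank F W) (by omega) (Q.comp W.subtype) hQW rfl
      have hc2 : Nat.card {w : W // (Q.comp W.subtype) w = 0} =
          Nat.card {w : W // Q (w : V) = 0} := rfl
      rw [hc2] at h
      have hWcard : Nat.card W = Nat.card F ^ finrank F W := Module.natCard_eq_pow_finrank
      rw [hWcard] at hcard
      have hq : 1 < Nat.card F := Finite.one_lt_card
      rw [hcard]
      obtain ⟨r, hr⟩ : ∃ r, Nat.card F = r + 1 := ⟨Nat.card F - 1, by omega⟩
      set N := Nat.card {w : W // Q (w : V) = 0} with hN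
      have hr1 : Nat.card F - 1 = r := by omega
      rw [hr1]
      rcases h with ⟨k, hk1, hk2, hk3⟩ | ⟨k, hk1, hk2⟩ | ⟨k, hk1, hk2, hk3⟩
      · left
        refine ⟨k + 1, by omega, hk2, ?_⟩
        rw [hk3, hk1, hr]
        ring
      · right; left
        refine ⟨k + 1, by omega, ?_⟩
        rw [hk1]
        rw [hr] at hk2 ⊢
        have e1 : (r + 1) ^ (k + 1) + (r * (r + 1) ^ (2 * k) + (r + 1) * N) * (r + 1) =
            (r + 1) * ((r + 1) ^ k + N * (r + 1)) + r * (r + 1) ^ (2 * k + 1) := by ring
        rw [e1, hk2]
        ring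
      · right; right
        refine ⟨k + 1, by omega, by omega, ?_⟩
        rw [hk1]
        rw [hr] at hk3 ⊢
        have e1 : (r * (r + 1) ^ (2 * k) + (r + 1) * N) * (r + 1) + (r + 1) ^ (k + 1 + 1) =
            (r + 1) * (N * (r + 1) + (r + 1) ^ (k + 1)) + r * (r + 1) ^ (2 * k + 1) := by ring
        rw [e1, hk3]
        ring

end OCount

end Pool.Agent.Lib.MP_bfe725_co
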