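import Pool.Agent.Lib.MP_bfe725_co.CDefs

/-!
# The geometry of the group generated by the Siegel transformations (module OGEOM, helper56)
-/

set_option autoImplicit false
set_option linter.unusedSectionVars false

namespace Pool.Agent.Lib.MP_bfe725_co

open Module QuadraticMap

section og

variable {F V : Type} [Field F] [AddCommGroup V] [Module F V] (Q : QuadraticForm F V)

/-- the Siegel transformation as a linear map -/
def ogMap (v d : V) : V →ₗ[F] V where
  toFun z := z + polar Q z v • d - polar Q z d • v - (Q d * polar Q z v) • v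
  map_add' x y := by
    rw [polar_add_left, polar_add_left, mul_add, add_smul, add_smul, add_smul]
    abel
  map_smul' c x := by
    simp only [polar_smul_left, RingHom.id_apply, smul_eq_mul]
    module

lemma ogMap_apply (v d z : V) : ogMap Q v d z =
    z + polar Q z v • d - polar Q z d • v - (Q d * polar Q z v) • v := rfl

variable {Q}

lemma og_self {v : V} (hv : Q v = 0) : polar Q v v = 0 := by
  rw [polar_self, hv, smul_zero]

lemma ogMap_inv {v d : V} (hv : Q v = 0) (hd : polar Q d v = 0) (z : V) :
    ogMap Q v (-d) (ogMap Q v d z) = z := by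
  have hdv : polar Q v d = 0 := by rw [polar_comm]; exact hd
  have h1 : polar Q (ogMap Q v d z) v = polar Q z v := by
    rw [ogMap_apply]
    simp only [polar_add_left, polar_sub_left, polar_smul_left, smul_eq_mul, hd, og_self hv]
    ring
  have h2 : polar Q (ogMap Q v d z) d = polar Q z d + 2 * (polar Q z v * Q d) := by
    rw [ogMap_apply]
    simp only [polar_add_left, polar_sub_left, polar_smul_left, smul_eq_mul, hdv, polar_self]
    simp only [nsmul_eq_mul, Nat.cast_ofNat]
    ring
  rw [ogMap_apply Q v (-d), h1, polar_neg_right, h2, QuadraticMap.map_neg, ogMap_apply]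
  have e : ∀ (a b c e' : F), z + a • d - b • v - c • v + a • -d - -e' • v - c • v =
      z + (e' - b - 2 * c) • v := by
    intro a b c e'
    module
  rw [e]
  have : polar Q z d + 2 * (polar Q z v * Q d) - polar Q z d - 2 * (Q d * polar Q z v) = 0 := by
    ring
  rw [this, zero_smul, add_zero]

/-- the Siegel transformation as a linear equivalence -/
def ogEquiv {v d : V} (hv : Q v = 0) (hd : polar Q d v = 0) : V ≃ₗ[F] V :=
  LinearEquiv.ofLinearMap (ogMap Q v d) (ogMap Q v (-d))
    (by
      ext z
      have := ogMap_inv (d := -d) hv (by rw [polar_neg_left, hd, neg_zero]) z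
      rw [neg_neg] at this
      exact this)
    (by
      ext z
      exact ogMap_inv hv hd z)

lemma ogEquiv_apply {v d : V} (hv : Q v = 0) (hd : polar Q d v = 0) (z : V) :
    ogEquiv hv hd z = z + polar Q z v • d - polar Q z d • v - (Q d * polar Q z v) • v := rfl

lemma ogEquiv_mem {v d : V} (hv : Q v = 0) (hd : polar Q d v = 0) : ogEquiv hv hd ∈ EO Q :=
  Subgroup.subset_closure ⟨v, d, hv, hd, fun z => ogEquiv_apply hv hd z⟩

lemma siegel_isometry {g : V → V} {v d : V} (h : IsSiegel Q g v d) (z : V) : Q (g z) = Q z := by
  obtain ⟨hv, hd, hg⟩ := h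
  have hdv : polar Q v d = 0 := by rw [polar_comm]; exact hd
  rw [hg]
  have e : z + polar Q z v • d - polar Q z d • v - (Q d * polar Q z v) • v =
      z + (polar Q z v • d + (-(polar Q z d + Q d * polar Q z v)) • v) := by module
  rw [e, QuadraticMap.map_add Q, QuadraticMap.map_add Q (polar Q z v • d)]
  simp only [QuadraticMap.map_smul, polar_smul_left, polar_smul_right, polar_add_right, hv, hd,
    smul_eq_mul]
  ring

lemma eo_isometry (g : V ≃ₗ[F] V) (hg : g ∈ EO Q) : ∀ z, Q (g z) = Q z := by
  unfold EO at hg
  induction hg using Subgroup.closure_induction with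
  | mem g hg =>
    obtain ⟨v, d, h⟩ := hg
    exact siegel_isometry h
  | one => intro z; rfl
  | mul a b _ _ ha hb =>
    intro z
    rw [LinearEquiv.mul_apply, ha, hb]
  | inv a _ ha =>
    intro z
    have h1 := ha (a⁻¹ z)
    have h2 : a (a⁻¹ z) = z := by
      rw [← LinearEquiv.mul_apply, mul_inv_cancel]
      rfl
    rw [h2] at h1
    exact h1.symm

lemma eo_polar (g : V ≃ₗ[F] V) (hg : g ∈ EO Q) (x y : V) :
    polar Q (g x) (g y) = polar Q x y := by
  unfold polar
  rw [← map_add, eo_isometry g hg, eo_isometry g hg, eo_isometry g hg]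

variable (Q)

/-- the polar space of a quadratic form -/
def ogPolar (hQ : ∀ x, (∀ y, polar Q x y = 0) → x = 0) : Polar F V (EO Q) where
  ρ := (LinearEquiv.automorphismGroup.toLinearMapMonoidHom).comp (EO Q).subtype
  inj := by
    intro a b h
    apply Subtype.ext
    apply LinearEquiv.toLinearMap_injective
    exact h
  f := fun x y => polar Q x y
  q := fun x => Q x
  f_add_left x y z := polar_add_left Q x y z
  f_smul_left c x y := by simp only [polar_smul_left, smul_eq_mul]
  f_add_right x y z := polar_add_right Q x y z
  f_smul_right c x y h := by simp only [polar_smul_right, h, smul_zero]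
  f_symm x y h := by rw [polar_comm]; exact h
  f_nondeg := hQ
  f_inv h x y := eo_polar h.1 h.2 x y
  q_inv h x := eo_isometry h.1 h.2 x
  q_add x y h hx hy := by rw [QuadraticMap.map_add Q, h, hx, hy]; simp
  q_smul c x h := by rw [QuadraticMap.map_smul, h, smul_zero]
  f_self x h := og_self h

end og

section geom

variable {F V : Type} [Field F] [Finite F] [AddCommGroup V] [Module F V] [Finite V]
    (Q : QuadraticForm F V)

/-- projection to the orthogonal complement of a hyperbolic pair -/
lemma og_proj {u v : V} (hu : Q u = 0) (hv : Q v = 0) (huv : polar Q u v = 1) (z : V) :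
    polar Q (z - polar Q z v • u - polar Q z u • v) u = 0 ∧
      polar Q (z - polar Q z v • u - polar Q z u • v) v = 0 := by
  have hvu : polar Q v u = 1 := by rw [polar_comm]; exact huv
  constructor
  · simp only [polar_sub_left, polar_smul_left, smul_eq_mul, og_self hu, hvu]
    ring
  · simp only [polar_sub_left, polar_smul_left, smul_eq_mul, og_self hv, huv]
    ring

/-- every nonzero singular vector is in a hyperbolic pair -/
lemma og_pair (hQ : ∀ x, (∀ y, polar Q x y = 0) → x = 0) {v : V} (hv0 : v ≠ 0) (hv : Q v = 0) :
    ∃ u, Q u = 0 ∧ polar Q u v = 1 := by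
  have h1 : ∃ y, polar Q v y ≠ 0 := by
    by_contra h
    push Not at h
    exact hv0 (hQ v h)
  obtain ⟨y, hy⟩ := h1
  obtain ⟨y', h2⟩ : ∃ y', polar Q y' v = 1 := by
    refine ⟨(polar Q v y)⁻¹ • y, ?_⟩
    rw [polar_smul_left, smul_eq_mul, polar_comm Q y v]
    exact inv_mul_cancel₀ hy
  refine ⟨y' + (- Q y') • v, ?_, ?_⟩
  · rw [QuadraticMap.map_add Q, QuadraticMap.map_smul, hv, polar_smul_right, h2]
    simp
  · rw [polar_add_left, h2, polar_smul_left, og_self hv]
    simp

/-- a vector outside a proper subspace -/
lemma og_not_mem (W : Submodule F V) (h : finrank F W < finrank F V) : ∃ z, z ∉ W := by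
  by_contra hcon
  push Not at hcon
  have : W = ⊤ := by
    rw [Submodule.eq_top_iff']
    exact hcon
  rw [this, finrank_top] at h
  exact lt_irrefl _ h

/-- finite fields: nondegenerate forms of dimension at least 3 are isotropic -/
lemma og_ex (hV : 5 ≤ finrank F V) : ∃ v, v ≠ 0 ∧ Q v = 0 := by
  classical
  haveI : Fintype F := Fintype.ofFinite F
  by_contra hcon
  push Not at hcon
  -- an orthogonal vector outside a given subspace of dimension at most 2
  have hperp : ∀ (x y : V) (W : Submodule F V), finrank F W ≤ 2 →
      ∃ z, z ∉ W ∧ polar Q z x = 0 ∧ polar Q z y = 0 := by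
    intro x y W hW
    by_contra hno
    push Not at hno
    -- the common kernel has dimension at least 3
    set φ : V →ₗ[F] F × F := LinearMap.prod (Q.polarBilin.flip x) (Q.polarBilin.flip y) with hφ
    have h1 : LinearMap.ker φ ≤ W := by
      intro z hz
      by_contra hzW
      rw [LinearMap.mem_ker, hφ, LinearMap.prod_apply] at hz
      have hz := Prod.mk_eq_zero.1 hz
      exact hno z hzW hz.1 hz.2
    have h2 := LinearMap.finrank_range_add_finrank_ker φ
    have h3 : finrank F (LinearMap.range φ) ≤ 2 := by
      have := Submodule.finrank_le (LinearMap.range φ)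
      simpa using this
    have h4 := Submodule.finrank_mono h1
    omega
  have hspan1 : ∀ x : V, finrank F (Submodule.span F {x}) ≤ 2 := by
    intro x
    have := finrank_span_le_card (R := F) ({x} : Set V)
    simp only [Set.toFinset_singleton, Finset.card_singleton] at this
    omega
  have hspan2 : ∀ x y : V, finrank F (Submodule.span F {x, y}) ≤ 2 := by
    intro x y
    have h1 := finrank_span_le_card (R := F) ({x, y} : Set V)
    have h2 : (({x, y} : Set V).toFinset).card ≤ 2 := by
      rw [Set.toFinset_insert, Set.toFinset_singleton]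
      exact Finset.card_le_two
    omega
  obtain ⟨x, hx, _⟩ := hperp 0 0 ⊥ (by simp)
  have hx0 : x ≠ 0 := hx
  obtain ⟨y, hy, hyx, _⟩ := hperp x 0 (Submodule.span F {x}) (hspan1 x)
  have hy0 : y ≠ 0 := fun h => hy (h ▸ Submodule.zero_mem _)
  have hne : ∀ a : F, y + a • x ≠ 0 := by
    intro a h
    apply hy
    rw [Submodule.mem_span_singleton]
    exact ⟨-a, by rw [neg_smul]; exact (eq_neg_of_add_eq_zero_left h).symm⟩
  by_cases h2 : ringChar F = 2
  · -- every element is a square
    obtain ⟨c, hc⟩ := FiniteField.isSquare_of_char_two h2 (-(Q y) / Q x)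
    apply hcon _ (hne c)
    rw [QuadraticMap.map_add Q, QuadraticMap.map_smul, polar_smul_right, hyx, ← hc, smul_zero,
      add_zero, smul_eq_mul, div_mul_cancel₀ _ (hcon x hx0)]
    ring
  · obtain ⟨z, hz, hzx, hzy⟩ := hperp x y (Submodule.span F {x, y}) (hspan2 x y)
    have hcard : Fintype.card F % 2 = 1 := FiniteField.odd_card_of_char_ne_two h2
    open Polynomial in
    obtain ⟨a, b, hab⟩ := FiniteField.exists_root_sum_quadratic (R := F)
      (f := (C (Q x) * X ^ 2 : F[X])) (g := C (Q y) * X ^ 2 + C (Q z))
      (by
        rw [degree_C_mul_X_pow 2 (hcon x hx0)]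
        rfl)
      (by
        have hd : degree (C (Q y) * X ^ 2 : F[X]) = 2 := by
          rw [degree_C_mul_X_pow 2 (hcon y hy0)]
          rfl
        rw [degree_add_eq_left_of_degree_lt, hd]
        rw [hd]
        exact lt_of_le_of_lt degree_C_le (by norm_num)) hcard
    simp only [Polynomial.eval_mul, Polynomial.eval_C, Polynomial.eval_pow, Polynomial.eval_X,
      Polynomial.eval_add] at hab
    have hne2 : z + (a • x + b • y) ≠ 0 := by
      intro h
      apply hz
      rw [eq_neg_of_add_eq_zero_left h]
      apply Submodule.neg_mem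
      exact Submodule.add_mem _
        (Submodule.smul_mem _ _ (Submodule.subset_span (by simp)))
        (Submodule.smul_mem _ _ (Submodule.subset_span (by simp)))
    apply hcon _ hne2
    have hxy : polar Q x y = 0 := by rw [polar_comm]; exact hyx
    rw [QuadraticMap.map_add Q, QuadraticMap.map_add Q (a • x)]
    simp only [QuadraticMap.map_smul, polar_smul_left, polar_smul_right, polar_add_right, hzx, hzy,
      hxy, smul_eq_mul]
    linear_combination hab

/-- the geometric hypotheses for `EO Q` -/
theorem eo_geom (hQ : ∀ x, (∀ y, QuadraticMap.polar Q x y = 0) → x = 0)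
    (hV : 5 ≤ finrank F V) :
    ∃ P : Polar F V (EO Q), P.Geom (Subgroup.center _) ∧ (∀ v, P.q v = Q v) ∧
      (∀ x y, P.f x y = QuadraticMap.polar Q x y) ∧
      (∀ (h : EO Q) v, P.ρ h v = (h : V ≃ₗ[F] V) v) := by
  -- Siegel transformations are in the root groups
  have hroot : ∀ (g : V ≃ₗ[F] V) (v d : V) (hg : g ∈ EO Q), IsSiegel Q g v d →
      (⟨g, hg⟩ : EO Q) ∈ (ogPolar Q hQ).root v := by
    rintro g v d hg ⟨hv, hd, h⟩
    have hvd : polar Q v d = 0 := by rw [polar_comm]; exact hd
    constructor
    · change g v = v
      rw [h, og_self hv, hvd]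
      simp
    · intro y hy
      change polar Q y v = 0 at hy
      refine ⟨-(polar Q y d), ?_⟩
      change g y - y = _
      rw [h, hy]
      module
  refine ⟨ogPolar Q hQ, ⟨?_, ?_, ?_, ?_⟩, fun _ => rfl, fun _ _ => rfl, fun _ _ => rfl⟩
  · exact og_ex Q hV
  · -- transitivity
    intro u v w hu hv hw huv hwv
    change Q u = 0 at hu
    change Q v = 0 at hv
    change Q w = 0 at hw
    change polar Q u v ≠ 0 at huv
    change polar Q w v ≠ 0 at hwv
    have hu' : Q ((polar Q u v)⁻¹ • u) = 0 := by rw [QuadraticMap.map_smul, hu, smul_zero]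
    have hw' : Q ((polar Q w v)⁻¹ • w) = 0 := by rw [QuadraticMap.map_smul, hw, smul_zero]
    have huv' : polar Q ((polar Q u v)⁻¹ • u) v = 1 := by
      rw [polar_smul_left, smul_eq_mul, inv_mul_cancel₀ huv]
    have hwv' : polar Q ((polar Q w v)⁻¹ • w) v = 1 := by
      rw [polar_smul_left, smul_eq_mul, inv_mul_cancel₀ hwv]
    have e1 : u = polar Q u v • ((polar Q u v)⁻¹ • u) := by
      rw [smul_smul, mul_inv_cancel₀ huv, one_smul]
    have e2 : w = polar Q w v • ((polar Q w v)⁻¹ • w) := by
      rw [smul_smul, mul_inv_cancel₀ hwv, one_smul]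
    set u' := (polar Q u v)⁻¹ • u with hu'def
    set w' := (polar Q w v)⁻¹ • w with hw'def
    have hd : polar Q (w' - u') v = 0 := by rw [polar_sub_left, huv', hwv', sub_self]
    have hQd : Q (w' - u') = - polar Q u' w' := by
      rw [sub_eq_add_neg, QuadraticMap.map_add Q, QuadraticMap.map_neg, hw', hu', polar_neg_right,
        polar_comm Q w' u']
      ring
    refine ⟨⟨ogEquiv hv hd, ogEquiv_mem hv hd⟩,
      hroot _ v (w' - u') _ ⟨hv, hd, fun z => ogEquiv_apply hv hd z⟩,
      polar Q u v * (polar Q w v)⁻¹, mul_ne_zero huv (inv_ne_zero hwv), ?_⟩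
    change ogEquiv hv hd u = _
    have h1 : ogEquiv hv hd u' = w' := by
      rw [ogEquiv_apply, huv', polar_sub_right, og_self hu', hQd]
      module
    have h2 : ogEquiv hv hd u = polar Q u v • ogEquiv hv hd u' := by
      rw [← map_smul, ← e1]
    rw [mul_smul, ← hw'def, h2, h1]
  · -- opposite points
    intro v w hv0 hw0 hv hw
    change Q v = 0 at hv
    change Q w = 0 at hw
    obtain ⟨u, hu, huv⟩ := og_pair Q hQ hv0 hv
    have hvu : polar Q v u = 1 := by rw [polar_comm]; exact huv
    have huv1 : polar Q u v ≠ 0 := by rw [huv]; exact one_ne_zero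
    by_contra hcon
    have hall : ∀ d, polar Q d v = 0 → polar Q u w + polar Q d w -
        (Q d + polar Q u d) * polar Q v w = 0 := by
      intro d hd
      by_contra hne
      apply hcon
      refine ⟨u + d - (Q d + polar Q u d) • v, ?_, ?_, ?_⟩
      · change Q _ = 0
        rw [sub_eq_add_neg, ← neg_smul, QuadraticMap.map_add Q, QuadraticMap.map_add Q u,
          QuadraticMap.map_smul, hv, hu, polar_smul_right, polar_add_left, huv, hd]
        simp only [smul_eq_mul]
        ring
      · change polar Q _ v ≠ 0
        rw [polar_sub_left, polar_add_left, polar_smul_left, huv, hd, og_self hv]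
        simp
      · change polar Q _ w ≠ 0
        rw [polar_sub_left, polar_add_left, polar_smul_left, smul_eq_mul]
        exact hne
    have huw : polar Q u w = 0 := by
      have := hall 0 (polar_zero_left Q v)
      simpa using this
    -- a nonzero vector orthogonal to `u` and `v`
    have hproj := og_proj Q hu hv huv
    obtain ⟨z, hz⟩ := og_not_mem (Submodule.span F {u, v}) (by
      classical
      have h1 := finrank_span_le_card (R := F) ({u, v} : Set V)
      have h2 : (({u, v} : Set V).toFinset).card ≤ 2 := by
        rw [Set.toFinset_insert, Set.toFinset_singleton]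
        exact Finset.card_le_two
      omega)
    set d := z - polar Q z v • u - polar Q z u • v with hddef
    have hd0 : d ≠ 0 := by
      intro h
      apply hz
      rw [hddef, sub_sub, sub_eq_zero] at h
      rw [h]
      exact Submodule.add_mem _
        (Submodule.smul_mem _ _ (Submodule.subset_span (by simp)))
        (Submodule.smul_mem _ _ (Submodule.subset_span (by simp)))
    obtain ⟨hdu, hdv⟩ := hproj z
    rw [← hddef] at hdu hdv
    obtain ⟨y, hy⟩ : ∃ y, polar Q d y ≠ 0 := by
      by_contra h
      push Not at h
      exact hd0 (hQ d h)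
    set d' := y - polar Q y v • u - polar Q y u • v with hd'def
    obtain ⟨hd'u, hd'v⟩ := hproj y
    rw [← hd'def] at hd'u hd'v
    have hdd' : polar Q d d' ≠ 0 := by
      rw [hd'def, polar_sub_right, polar_sub_right, polar_smul_right, polar_smul_right, hdu, hdv]
      simpa using hy
    have hud : polar Q u d = 0 := by rw [polar_comm]; exact hdu
    have hud' : polar Q u d' = 0 := by rw [polar_comm]; exact hd'u
    have h1 := hall d hdv
    have h2 := hall d' hd'v
    have h3 := hall (d + d') (by rw [polar_add_left, hdv, hd'v, add_zero])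
    rw [QuadraticMap.map_add Q, polar_add_left, polar_add_right, hud, hud', huw] at h3
    rw [hud, huw] at h1
    rw [hud', huw] at h2
    have hvw : polar Q v w = 0 := by
      have h4 : polar Q d d' * polar Q v w = 0 := by linear_combination h1 + h2 - h3
      exact (mul_eq_zero.1 h4).resolve_left hdd'
    apply hw0
    apply hQ
    intro y
    -- decompose `y`
    have h5 := hall (y - polar Q y v • u) (by
      rw [polar_sub_left, polar_smul_left, huv, smul_eq_mul, mul_one, sub_self])
    rw [hvw, huw, polar_sub_left, polar_smul_left, huw] at h5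
    rw [polar_comm]
    simpa using h5
  · -- generation
    intro B _ hB
    rw [eq_top_iff]
    rintro ⟨g, hg⟩ -
    have hg' := hg
    unfold EO at hg'
    induction hg' using Subgroup.closure_induction with
    | mem g hgS =>
      obtain ⟨v, d, h⟩ := hgS
      by_cases hv0 : v = 0
      · have : g = 1 := by
          ext z
          rw [h.2.2, hv0]
          simp
        subst this
        exact B.one_mem
      · exact hB v hv0 h.1 (hroot g v d hg h)
    | one => exact B.one_mem
    | mul a b ha hb iha ihb => exact B.mul_mem (iha ha) (ihb hb)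
    | inv a ha iha => exact B.inv_mem (iha ha)

end geom

end Pool.Agent.Lib.MP_bfe725_co
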