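import Pool.Agent.Lib.MP_bfe725_co.OComm
import Pool.Agent.Lib.MP_bfe725_co.OCount
import Pool.Agent.Lib.MP_bfe725_co.OGeom
import Pool.Agent.Lib.MP_bfe725_co.OChar2

/-!
# O8: the elements of order seven of `Ω_8^+(2)` (helper35)

`o8_conj`: all elements of order seven are conjugate; `o8_dvd`: seven divides the order.
-/

set_option autoImplicit false
set_option linter.unusedSectionVars false

namespace Pool.Agent.Lib.MP_bfe725_co

open Module QuadraticMap

namespace O8

/-- the pairing of the vectors of a hyperbolic basis -/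
def σ : Fin 8 → Fin 8 := ![1, 0, 5, 6, 7, 2, 3, 4]

/-- the action of an element of order seven on a hyperbolic basis -/
def S : Fin 8 → Finset (Fin 8) := ![{0}, {1}, {3}, {4}, {2, 3}, {5, 6}, {7}, {5}]

section frame

variable {F V : Type} [Field F] [AddCommGroup V] [Module F V] {Q : QuadraticForm F V}

/-- a hyperbolic basis adapted to an element of order seven -/
structure Frame (Q : QuadraticForm F V) (x : V ≃ₗ[F] V) (b : Fin 8 → V) : Prop where
  sing : ∀ i, Q (b i) = 0
  gram : ∀ i j, polar Q (b i) (b j) = if j = σ i then 1 else 0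
  act : ∀ i, x (b i) = ∑ j ∈ S i, b j

lemma σ_inj : Function.Injective σ := by
  unfold σ
  decide

lemma Frame.lin {x : V ≃ₗ[F] V} {b : Fin 8 → V} (h : Frame Q x b) : LinearIndependent F b := by
  rw [Fintype.linearIndependent_iff]
  intro c hc i
  have h1 : polarBilin Q (∑ j, c j • b j) (b (σ i)) = 0 := by
    rw [hc, map_zero]; rfl
  rw [map_sum, LinearMap.sum_apply] at h1
  have h2 : ∀ j, polarBilin Q (c j • b j) (b (σ i)) = if i = j then c j else 0 := by
    intro j
    rw [map_smul, LinearMap.smul_apply]
    change c j • polar Q (b j) (b (σ i)) = _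
    rw [h.gram]
    by_cases hij : i = j
    · rw [hij]; simp
    · rw [if_neg (fun h3 => hij (σ_inj h3)), if_neg hij, smul_zero]
  simp_rw [h2] at h1
  rw [Finset.sum_ite_eq] at h1
  simpa using h1

/-- the basis of a frame -/
noncomputable def Frame.basis {x : V ≃ₗ[F] V} {b : Fin 8 → V} (h : Frame Q x b)
    (h8 : finrank F V = 8) : Basis (Fin 8) F V :=
  basisOfLinearIndependentOfCardEqFinrank h.lin (by rw [h8]; rfl)

lemma Frame.basis_apply {x : V ≃ₗ[F] V} {b : Fin 8 → V} (h : Frame Q x b)
    (h8 : finrank F V = 8) (i : Fin 8) : h.basis h8 i = b i := by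
  unfold Frame.basis
  rw [coe_basisOfLinearIndependentOfCardEqFinrank]

/-- two elements with frames are conjugate in the orthogonal group; the conjugating element maps
the first frame to the second -/
lemma Frame.conj (h8 : finrank F V = 8) {x y : V ≃ₗ[F] V} {b b' : Fin 8 → V}
    (h : Frame Q x b) (h' : Frame Q y b') :
    ∃ g : V ≃ₗ[F] V, (∀ z, Q (g z) = Q z) ∧ g * x = y * g := by
  set g : V ≃ₗ[F] V := (h.basis h8).equiv (h'.basis h8) (Equiv.refl _) with hg
  have hgb : ∀ i, g (b i) = b' i := by
    intro i
    have h1 := (h.basis h8).equiv_apply i (h'.basis h8) (Equiv.refl _)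
    rw [h.basis_apply, Equiv.refl_apply, h'.basis_apply] at h1
    exact h1
  refine ⟨g, ?_, ?_⟩
  · intro z
    have hz := (h.basis h8).sum_repr z
    set c := (h.basis h8).repr z with hc
    have h1 : g z = ∑ i, c i • b' i := by
      conv_lhs => rw [← hz]
      rw [map_sum]
      refine Finset.sum_congr rfl fun i _ => ?_
      rw [map_smul, h.basis_apply, hgb]
    have h2 : z = ∑ i, c i • b i := by
      conv_lhs => rw [← hz]
      refine Finset.sum_congr rfl fun i _ => ?_
      rw [h.basis_apply]
    have key : ∀ s : Finset (Fin 8), Q (∑ i ∈ s, c i • b' i) = Q (∑ i ∈ s, c i • b i) ∧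
        ∀ j, polar Q (∑ i ∈ s, c i • b' i) (b' j) = polar Q (∑ i ∈ s, c i • b i) (b j) := by
      intro s
      induction s using Finset.induction_on with
      | empty => simp [polar_zero_left]
      | insert a s ha ih =>
        rw [Finset.sum_insert ha, Finset.sum_insert ha]
        constructor
        · rw [QuadraticMap.map_add Q, QuadraticMap.map_add Q, ih.1, QuadraticMap.map_smul,
            QuadraticMap.map_smul, h.sing, h'.sing, polar_smul_left, polar_smul_left,
            polar_comm Q (b' a), polar_comm Q (b a), ih.2]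
        · intro j
          rw [polar_add_left, polar_add_left, ih.2, polar_smul_left, polar_smul_left, h.gram,
            h'.gram]
    rw [h1]
    conv_rhs => rw [h2]
    exact (key _).1
  · apply LinearEquiv.toLinearMap_injective
    apply (h.basis h8).ext
    intro i
    rw [h.basis_apply]
    change g (x (b i)) = y (g (b i))
    rw [h.act, hgb, h'.act, map_sum]
    exact Finset.sum_congr rfl fun j _ => hgb j

end frame

section ex

variable {F V : Type} [Field F] [Finite F] [AddCommGroup V] [Module F V] [Finite V]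
  {Q : QuadraticForm F V}

lemma F_cases (hF : Nat.card F = 2) (a : F) : a = 0 ∨ a = 1 := by
  have := Fintype.ofFinite F
  classical
  by_contra hc
  push Not at hc
  have h1 : ({0, 1, a} : Finset F).card = 3 := by
    rw [Finset.card_insert_of_notMem, Finset.card_insert_of_notMem, Finset.card_singleton]
    · simpa using hc.2.symm
    · simp only [Finset.mem_insert, Finset.mem_singleton, not_or]
      exact ⟨zero_ne_one, hc.1.symm⟩
  have h2 := Finset.card_le_univ ({0, 1, a} : Finset F)
  rw [h1, ← Nat.card_eq_fintype_card, hF] at h2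
  omega

lemma two_eq (hF : Nat.card F = 2) : (2 : F) = 0 := by
  rcases F_cases hF (2 : F) with h | h
  · exact h
  · exfalso
    have h1 : (1 : F) = 0 := by linear_combination h
    exact one_ne_zero h1

/-- an isometry of order seven has a frame -/
lemma exists_frame (hQ : ∀ x, (∀ y, polar Q x y = 0) → x = 0) (hF : Nat.card F = 2)
    (hz : Nat.card {v : V // Q v = 0} = 136) (x : V ≃ₗ[F] V) (hx : ∀ z, Q (x z) = Q z)
    (hx7 : x ^ 7 = 1) (hx1 : x ≠ 1) : ∃ b, Frame Q x b := by
  have h2F : (2 : F) = 0 := two_eq hF
  have h2 : ∀ v : V, v + v = 0 := by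
    intro v
    rw [← two_smul F, h2F, zero_smul]
  have h7 : ∀ v, x (x (x (x (x (x (x v)))))) = v := by
    intro v
    have : (x ^ 7) v = v := by rw [hx7]; rfl
    exact this
  have hB : ∀ a b, polar Q (x a) (x b) = polar Q a b := by
    intro a b
    unfold polar
    rw [← map_add, hx, hx, hx]
  have hself : ∀ a, polar Q a a = 0 := by
    intro a
    rw [polar_self, two_smul, ← two_mul, h2F, zero_mul]
  have hB1 : ∀ a b, polar Q a (x b) = polar Q (x (x (x (x (x (x a)))))) b := by
    intro a b
    rw [← hB _ b, h7]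
  -- the vector `u`
  obtain ⟨v, hv⟩ : ∃ v, v + x v + x (x v) + x (x (x (x v))) ≠ 0 := by
    by_contra hcon
    push Not at hcon
    apply hx1
    have h3 : ∀ v, v + x (x (x v)) + x (x (x (x (x v)))) + x (x (x (x (x (x v))))) = 0 := by
      intro v
      apply hQ
      intro y
      have h4 := hcon y
      have h5 : polar Q v (y + x y + x (x y) + x (x (x (x y)))) = 0 := by
        rw [h4, polar_zero_right]
      simp only [polar_add_right] at h5
      simp only [polar_add_left]
      have e1 : polar Q v (x y) = polar Q (x (x (x (x (x (x v)))))) y := hB1 _ _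
      have e2 : polar Q v (x (x y)) = polar Q (x (x (x (x (x v))))) y := by
        rw [hB1, hB1, h7]
      have e4 : polar Q v (x (x (x (x y)))) = polar Q (x (x (x v))) y := by
        rw [hB1, hB1, hB1, hB1, h7, h7, h7]
      rw [e1, e2, e4] at h5
      linear_combination h5
    have hT : ∀ v, x v + x (x v) + x (x (x v)) + x (x (x (x v))) + x (x (x (x (x v)))) +
        x (x (x (x (x (x v))))) = 0 := by
      intro v
      linear_combination (norm := module) hcon v + h3 v - h2 v
    apply LinearEquiv.ext
    intro v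
    change x v = v
    have e1 := hT v
    have e2 := hT (x v)
    rw [h7] at e2
    linear_combination (norm := module) e1 - e2
  set u := v + x v + x (x v) + x (x (x (x v))) with hu_def
  have hu : x (x (x u)) = u + x u := by
    rw [hu_def]
    simp only [map_add, h7]
    linear_combination (norm := module) -(h2 (x v)) - h2 (x (x v))
  have hinj : ∀ v, x v = 0 → v = 0 := by
    intro v hv
    exact (map_eq_zero_iff x x.injective).1 hv
  -- the vector `z`
  have hnot : x (x u) ∉ Submodule.span F {u, x u} := by
    intro hmem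
    obtain ⟨a, b, hab⟩ := Submodule.mem_span_pair.1 hmem
    rcases F_cases hF a with rfl | rfl <;> rcases F_cases hF b with rfl | rfl
    · rw [zero_smul, zero_smul, zero_add] at hab
      exact hv (hinj _ (hinj _ hab.symm))
    · rw [zero_smul, one_smul, zero_add] at hab
      have h3 : u = x u := x.injective hab
      rw [← h3, ← h3, ← h3, h2] at hu
      exact hv hu
    · rw [zero_smul, one_smul, add_zero] at hab
      rw [← hab] at hu
      apply hv
      linear_combination (norm := module) -hu
    · rw [one_smul, one_smul] at hab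
      rw [← hab, map_add, ← hab] at hu
      apply hv
      apply hinj
      linear_combination (norm := module) hu
  obtain ⟨φ, hφ1, hφ2⟩ := Submodule.exists_le_ker_of_notMem hnot
  have hnd : (polarBilin Q).Nondegenerate :=
    ⟨fun x h => hQ x h, fun x h => hQ x (fun y => by rw [polar_comm]; exact h y)⟩
  obtain ⟨z, hzφ⟩ : ∃ z, ∀ y, polar Q z y = φ y :=
    ⟨(LinearMap.BilinForm.toDual (polarBilin Q) hnd).symm φ, fun y =>
      LinearMap.BilinForm.apply_toDual_symm_apply (B := polarBilin Q) (hB := hnd) φ y⟩
  have hz0 : polar Q u z = 0 := by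
    rw [polar_comm, hzφ]
    exact hφ2 (Submodule.subset_span (by simp))
  have hz1 : polar Q (x u) z = 0 := by
    rw [polar_comm, hzφ]
    exact hφ2 (Submodule.subset_span (by simp))
  have hz2 : polar Q (x (x u)) z = 1 := by
    rw [polar_comm, hzφ]
    exact (F_cases hF _).resolve_left hφ1
  clear hzφ hφ2 hφ1 hnot
  set w := z + x (x (x z)) + x (x (x (x (x z)))) + x (x (x (x (x (x z))))) with hw_def
  have hw : x (x (x w)) = w + x (x w) := by
    rw [hw_def]
    simp only [map_add, h7]
    linear_combination (norm := module) -(h2 z) - h2 (x (x (x (x (x z)))))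
  have hwp : ∀ a, x (x (x a)) = a + x a → polar Q a w = polar Q a z := by
    intro a ha
    rw [hw_def]
    simp only [polar_add_right]
    have e3 : polar Q a (x (x (x z))) = polar Q (x (x (x (x a)))) z := by
      rw [hB1, hB1, hB1, h7, h7]
    have e5 : polar Q a (x (x (x (x (x z))))) = polar Q (x (x a)) z := by
      rw [hB1, hB1, hB1, hB1, hB1, h7, h7, h7, h7]
    have e6 : polar Q a (x (x (x (x (x (x z)))))) = polar Q (x a) z := by
      rw [hB1, hB1, hB1, hB1, hB1, hB1, h7, h7, h7, h7, h7]
    rw [e3, e5, e6, ha, map_add, polar_add_left]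
    linear_combination (polar Q (x a) z + polar Q (x (x a)) z) * h2F
  have hu' : x (x (x (x u))) = x u + x (x u) := by rw [hu, map_add]
  have hu'' : x (x (x (x (x u)))) = x (x u) + (u + x u) := by rw [hu', map_add, hu]
  have hw0 : polar Q u w = 0 := by rw [hwp _ hu, hz0]
  have hw1 : polar Q (x u) w = 0 := by rw [hwp _ hu', hz1]
  have hw2 : polar Q (x (x u)) w = 1 := by rw [hwp _ (by rw [hu'', hu]), hz2]
  clear_value u w
  -- the subspace of `u` is totally singular
  have huu1 : polar Q u (x u) = 0 := by
    have e1 : polar Q (x u) (x (x (x u))) = polar Q (x u) (u + x u) := by rw [hu]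
    have e2 : polar Q (x (x u)) (x (x (x u))) = polar Q (x (x u)) (u + x u) := by rw [hu]
    have e3 : polar Q u (x (x (x u))) = polar Q u (u + x u) := by rw [hu]
    rw [hB, polar_add_right, hself, polar_comm Q (x u) u] at e1
    rw [hB, hB, polar_add_right, hB, polar_comm Q (x (x u)) u, polar_comm Q (x u) u] at e2
    rw [add_zero] at e1
    have e4 : polar Q u (x (x u)) = 0 := by linear_combination -e2
    rw [← e1, e4]
  have huu2 : polar Q u (x (x u)) = 0 := by
    have e2 : polar Q (x (x u)) (x (x (x u))) = polar Q (x (x u)) (u + x u) := by rw [hu]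
    rw [hB, hB, polar_add_right, hB, polar_comm Q (x (x u)) u, polar_comm Q (x u) u] at e2
    linear_combination -e2
  have hQu : Q u = 0 := by
    have e1 : Q (x (x (x u))) = Q (u + x u) := by rw [hu]
    rw [hx, hx, hx, QuadraticMap.map_add Q, hx, huu1] at e1
    linear_combination -e1
  have hww2 : polar Q w (x (x w)) = 0 := by
    have e1 : polar Q (x w) (x (x (x w))) = polar Q (x w) (w + x (x w)) := by rw [hw]
    rw [hB, polar_add_right, hB, polar_comm Q (x w) w] at e1
    linear_combination e1 + (polar Q w (x w)) * h2F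
  have hww1 : polar Q w (x w) = 0 := by
    have e1 : polar Q (x (x w)) (x (x (x w))) = polar Q (x (x w)) (w + x (x w)) := by rw [hw]
    rw [hB, hB, polar_add_right, hself, polar_comm Q (x (x w)) w, hww2] at e1
    linear_combination e1
  have hQw : Q w = 0 := by
    have e1 : Q (x (x (x w))) = Q (w + x (x w)) := by rw [hw]
    rw [hx, hx, hx, QuadraticMap.map_add Q, hx, hx, hww2] at e1
    linear_combination -e1
  -- the fixed vectors
  obtain ⟨e, he0, hQe, hxe⟩ : ∃ e, e ≠ 0 ∧ Q e = 0 ∧ x e = e := by
    classical
    by_contra hcon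
    push Not at hcon
    have : Fintype {v : V // Q v = 0} := Fintype.ofFinite _
    have : Fact (Nat.Prime 7) := ⟨by norm_num⟩
    let φ : Function.End {v : V // Q v = 0} := fun v => ⟨x v.1, by rw [hx]; exact v.2⟩
    have hφ : φ ^ 7 ^ 1 = 1 := by
      funext v
      apply Subtype.ext
      exact h7 v.1
    have hmod := Equiv.Perm.card_fixedPoints_modEq hφ
    rw [← Nat.card_eq_fintype_card, hz] at hmod
    have h1 : Fintype.card (Function.fixedPoints φ) = 1 := by
      rw [Fintype.card_eq_one_iff]
      refine ⟨⟨⟨0, QuadraticMap.map_zero Q⟩, Subtype.ext (map_zero x)⟩, ?_⟩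
      rintro ⟨⟨v, hv⟩, hfix⟩
      apply Subtype.ext
      apply Subtype.ext
      change v = 0
      by_contra hv0
      exact hcon v hv0 hv (congrArg Subtype.val hfix)
    rw [h1] at hmod
    exact absurd hmod (by decide)
  obtain ⟨f, hQf, hef, hxf⟩ : ∃ f, Q f = 0 ∧ polar Q e f = 1 ∧ x f = f := by
    obtain ⟨y, hy⟩ : ∃ y, polar Q e y ≠ 0 := by
      by_contra hc
      push Not at hc
      exact he0 (hQ e hc)
    have hy1 : polar Q e y = 1 := (F_cases hF _).resolve_left hy
    have hye : ∀ y, polar Q e (x y) = polar Q e y := by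
      intro y
      conv_lhs => rw [← hxe]
      exact hB _ _
    set f := y + x y + x (x y) + x (x (x y)) + x (x (x (x y))) + x (x (x (x (x y)))) +
      x (x (x (x (x (x y))))) with hf
    have hxf : x f = f := by
      rw [hf]
      simp only [map_add, h7]
      abel
    have hef : polar Q e f = 1 := by
      rw [hf]
      simp only [polar_add_right, hye, hy1]
      linear_combination 3 * h2F
    rcases F_cases hF (Q f) with h0 | h1
    · exact ⟨f, h0, hef, hxf⟩
    · refine ⟨f + e, ?_, ?_, ?_⟩
      · rw [QuadraticMap.map_add Q, h1, hQe, polar_comm, hef]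
        linear_combination h2F
      · rw [polar_add_right, hef, hself, add_zero]
      · rw [map_add, hxf, hxe]
  have hfix1 : ∀ a, x a = a → polar Q a u = 0 := by
    intro a ha
    have e1 : polar Q a (x u) = polar Q a u := by
      conv_lhs => rw [← ha]
      exact hB _ _
    have e2 : polar Q a (x (x (x u))) = polar Q a u := by
      conv_lhs => rw [← ha, hB, ← ha, hB, ← ha, hB]
    rw [hu, polar_add_right, e1] at e2
    linear_combination e2
  have hfix2 : ∀ a, x a = a → polar Q a w = 0 := by
    intro a ha
    have e1 : polar Q a (x (x w)) = polar Q a w := by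
      conv_lhs => rw [← ha, hB, ← ha, hB]
    have e2 : polar Q a (x (x (x w))) = polar Q a w := by
      conv_lhs => rw [← ha, hB, ← ha, hB, ← ha, hB]
    rw [hw, polar_add_right, e1] at e2
    linear_combination e2
  have hxw : polar Q (x w) (x (x w) + x w) = 0 := by
    rw [polar_add_right, hB, hww1, hself, add_zero]
  have hQw' : Q (x (x w) + x w) = 0 := by
    rw [QuadraticMap.map_add Q, hx, hx, hQw, hB, polar_comm, hww1]
    ring
  have huw00 : polar Q u (x w) = 1 := by
    have e1 : polar Q (x (x (x u))) (x w) = polar Q (u + x u) (x w) := by rw [hu]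
    rw [hB, hw2, polar_add_left, hB, hw0, add_zero] at e1
    exact e1.symm
  have huw10 : polar Q (x u) (x w) = 0 := by rw [hB, hw0]
  have huw20 : polar Q (x (x u)) (x w) = 0 := by rw [hB, hw1]
  have huw01 : polar Q u (x (x w) + x w) = 0 := by
    have e1 : polar Q (x (x (x u))) (x (x w)) = polar Q (u + x u) (x (x w)) := by rw [hu]
    rw [hB, hB, hw1, polar_add_left, hB, huw00] at e1
    rw [polar_add_right, huw00, ← e1]
  have huw11 : polar Q (x u) (x (x w) + x w) = 1 := by
    rw [polar_add_right, hB, huw00, huw10, add_zero]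
  have huw21 : polar Q (x (x u)) (x (x w) + x w) = 0 := by
    rw [polar_add_right, hB, huw10, huw20, add_zero]
  have heu : polar Q e u = 0 := hfix1 _ hxe
  have hfu : polar Q f u = 0 := hfix1 _ hxf
  have hew : polar Q e w = 0 := hfix2 _ hxe
  have hfw : polar Q f w = 0 := hfix2 _ hxf
  have key : ∀ a b, x a = a → polar Q a b = 0 → polar Q a (x b) = 0 := by
    intro a b ha hb
    rw [← ha, hB, hb]
  have heu1 := key _ _ hxe heu
  have heu2 := key _ _ hxe heu1
  have hfu1 := key _ _ hxf hfu
  have hfu2 := key _ _ hxf hfu1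
  have hew0 := key _ _ hxe hew
  have hfw0 := key _ _ hxf hfw
  have hew1 : polar Q e (x (x w) + x w) = 0 := by
    rw [polar_add_right, key _ _ hxe hew0, hew0, add_zero]
  have hfw1 : polar Q f (x (x w) + x w) = 0 := by
    rw [polar_add_right, key _ _ hxf hfw0, hfw0, add_zero]
  have hww0 : polar Q w (x (x w) + x w) = 0 := by
    rw [polar_add_right, hww2, hww1, add_zero]
  have huu3 : polar Q (x u) (x (x u)) = 0 := by rw [hB, huu1]
  refine ⟨![e, f, u, x u, x (x u), x w, x (x w) + x w, w], ?_, ?_, ?_⟩
  · intro i
    fin_cases i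
    · exact hQe
    · exact hQf
    · exact hQu
    · exact (hx _).trans hQu
    · exact ((hx _).trans (hx _)).trans hQu
    · exact (hx _).trans hQw
    · exact hQw'
    · exact hQw
  · have sym : ∀ {a b : V} {c : F}, polar Q a b = c → polar Q b a = c := by
      intro a b c h
      rw [polar_comm, h]
    intro i j
    fin_cases i <;> fin_cases j <;>
    first
    | exact hself _
    | exact hef
    | exact sym hef
    | exact heu
    | exact sym heu
    | exact heu1
    | exact sym heu1
    | exact heu2
    | exact sym heu2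
    | exact hew
    | exact sym hew
    | exact hew0
    | exact sym hew0
    | exact hew1
    | exact sym hew1
    | exact hfu
    | exact sym hfu
    | exact hfu1
    | exact sym hfu1
    | exact hfu2
    | exact sym hfu2
    | exact hfw
    | exact sym hfw
    | exact hfw0
    | exact sym hfw0
    | exact hfw1
    | exact sym hfw1
    | exact huu1
    | exact sym huu1
    | exact huu2
    | exact sym huu2
    | exact huu3
    | exact sym huu3
    | exact hww1
    | exact sym hww1
    | exact hxw
    | exact sym hxw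
    | exact hww0
    | exact sym hww0
    | exact hw0
    | exact sym hw0
    | exact hw1
    | exact sym hw1
    | exact hw2
    | exact sym hw2
    | exact huw00
    | exact sym huw00
    | exact huw10
    | exact sym huw10
    | exact huw20
    | exact sym huw20
    | exact huw01
    | exact sym huw01
    | exact huw11
    | exact sym huw11
    | exact huw21
    | exact sym huw21
  · intro i
    fin_cases i
    · simpa [S] using hxe
    · simpa [S] using hxf
    · simp [S]
    · simp [S]
    · simpa [S] using hu
    · have e1 : x (x w) = x w + (x (x w) + x w) := by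
        linear_combination (norm := module) -(h2 (x w))
      simpa [S] using e1
    · have e1 : x (x (x w) + x w) = w := by
        rw [map_add, hw]
        linear_combination (norm := module) h2 (x (x w))
      simpa [S] using e1
    · simp [S]

end ex

section hyp

variable {F : Type} [Field F] [Finite F]

/-- a nondegenerate form of dimension at least three has a hyperbolic pair -/
lemma hyp_one {V : Type} [AddCommGroup V] [Module F V] [Finite V] (Q : QuadraticForm F V)
    (hQ : ∀ x, (∀ y, polar Q x y = 0) → x = 0) (hV : 3 ≤ finrank F V) :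
    ∃ u v, Q u = 0 ∧ Q v = 0 ∧ polar Q u v = 1 := by
  have h1 : ∃ v, Q v = 0 ∧ v ≠ 0 := by
    by_contra hc
    push Not at hc
    exact ocount_aniso Q hQ hc hV
  obtain ⟨v, hv, hv0⟩ := h1
  obtain ⟨u, hu, huv⟩ := og_pair Q hQ hv0 hv
  exact ⟨u, v, hu, hv, huv⟩

/-- orthogonal hyperbolic pairs -/
lemma hyp_ex (k : ℕ) : ∀ (V : Type) [AddCommGroup V] [Module F V] [Finite V]
    (Q : QuadraticForm F V), (∀ x, (∀ y, polar Q x y = 0) → x = 0) → 2 * k + 1 ≤ finrank F V →
    ∃ e f : Fin k → V, (∀ i, Q (e i) = 0) ∧ (∀ i, Q (f i) = 0) ∧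
      (∀ i j, polar Q (e i) (e j) = 0) ∧ (∀ i j, polar Q (f i) (f j) = 0) ∧
      ∀ i j, polar Q (e i) (f j) = if i = j then 1 else 0 := by
  induction k with
  | zero =>
    intro V _ _ _ Q _ _
    exact ⟨fun i => i.elim0, fun i => i.elim0, fun i => i.elim0, fun i => i.elim0,
      fun i => i.elim0, fun i => i.elim0, fun i => i.elim0⟩
  | succ k ih =>
    intro V _ _ _ Q hQ hV
    obtain ⟨u, v, hu, hv, huv⟩ := hyp_one Q hQ (by omega)
    have hdim := ocount_finrank Q hu hv huv
    set W := ocountW Q u v with hW
    have hQW : ∀ w : W, (∀ y : W, polar (Q.comp W.subtype) w y = 0) → w = 0 := by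
      intro w hw
      apply Subtype.ext
      apply hQ
      intro y
      have hy := (ocountEquiv Q hu hv huv).symm_apply_apply y
      rw [← hy]
      change polar Q (w : V) (_ • u + _ • v + _) = 0
      rw [QuadraticMap.polar_add_right, QuadraticMap.polar_add_right,
        QuadraticMap.polar_smul_right, QuadraticMap.polar_smul_right, w.2.1, w.2.2]
      simp only [smul_zero, zero_add]
      exact hw _
    obtain ⟨e, f, h1, h2, h3, h4, h5⟩ := ih W (Q.comp W.subtype) hQW (by omega)
    have h3' : ∀ i j, polar Q (e i : V) (e j : V) = 0 := h3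
    have h4' : ∀ i j, polar Q (f i : V) (f j : V) = 0 := h4
    have h5' : ∀ i j, polar Q (e i : V) (f j : V) = if i = j then 1 else 0 := h5
    have hWu : ∀ w : W, polar Q u (w : V) = 0 := by
      intro w
      rw [polar_comm]
      exact w.2.1
    have hWv : ∀ w : W, polar Q v (w : V) = 0 := by
      intro w
      rw [polar_comm]
      exact w.2.2
    have hWu' : ∀ w : W, polar Q (w : V) u = 0 := fun w => w.2.1
    have hWv' : ∀ w : W, polar Q (w : V) v = 0 := fun w => w.2.2
    refine ⟨Fin.cons u fun i => (e i : V), Fin.cons v fun i => (f i : V), ?_, ?_, ?_, ?_, ?_⟩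
    · intro i
      refine Fin.cases ?_ (fun i => ?_) i
      · exact hu
      · exact h1 i
    · intro i
      refine Fin.cases ?_ (fun i => ?_) i
      · exact hv
      · exact h2 i
    · intro i j
      refine Fin.cases ?_ (fun i => ?_) i <;> refine Fin.cases ?_ (fun j => ?_) j
      · exact og_self hu
      · exact hWu _
      · exact hWu' _
      · exact h3' i j
    · intro i j
      refine Fin.cases ?_ (fun i => ?_) i <;> refine Fin.cases ?_ (fun j => ?_) j
      · exact og_self hv
      · exact hWv _
      · exact hWv' _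
      · exact h4' i j
    · intro i j
      refine Fin.cases ?_ (fun i => ?_) i <;> refine Fin.cases ?_ (fun j => ?_) j
      · simpa using huv
      · rw [if_neg (Fin.succ_ne_zero _).symm]
        exact hWu _
      · rw [if_neg (Fin.succ_ne_zero _)]
        exact hWv' _
      · simp only [Fin.cons_succ, Fin.succ_inj]
        exact h5' i j

end hyp

end O8

section main

variable {F V : Type} [Field F] [Finite F] [AddCommGroup V] [Module F V] [Finite V]
  (Q : QuadraticForm F V) (hQ : ∀ x, (∀ y, QuadraticMap.polar Q x y = 0) → x = 0)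
  (hF : Nat.card F = 2) (h8 : finrank F V = 8) (hz : Nat.card {v : V // Q v = 0} = 136)

include hQ hF h8 hz

/-- all elements of order seven of `Ω_8^+(2)` are conjugate -/
theorem o8_conj (x y : EO Q) (hx : orderOf x = 7) (hy : orderOf y = 7) : IsConj x y := by
  have frame : ∀ x : EO Q, orderOf x = 7 → ∃ b, O8.Frame Q (x : V ≃ₗ[F] V) b := by
    intro x hx
    apply O8.exists_frame hQ hF hz
    · exact eo_isometry x.1 x.2
    · rw [← Subgroup.coe_pow, ← hx, pow_orderOf_eq_one, Subgroup.coe_one]
    · intro h
      have h1 : x = 1 := Subtype.ext h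
      rw [h1, orderOf_one] at hx
      omega
  obtain ⟨b, hb⟩ := frame x hx
  obtain ⟨b', hb'⟩ := frame y hy
  obtain ⟨g, hg, hgx⟩ := hb.conj h8 hb'
  -- the reflection
  have hpol : polar Q (b 0) (b 1) = 1 := by
    rw [hb.gram]; rfl
  have ha : Q (b 0 + b 1) ≠ 0 := by
    rw [QuadraticMap.map_add Q, hb.sing, hb.sing, hpol]
    simp
  obtain ⟨s, -, hs⟩ := OC2.exists_refl ha
  have hxa : (x : V ≃ₗ[F] V) (b 0 + b 1) = b 0 + b 1 := by
    rw [map_add, hb.act, hb.act]
    simp [O8.S]
  have hsx : s * (x : V ≃ₗ[F] V) = (x : V ≃ₗ[F] V) * s := by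
    apply LinearEquiv.ext
    intro z
    rw [LinearEquiv.mul_apply, LinearEquiv.mul_apply, hs, hs, map_sub, map_smul, hxa]
    have h1 : polar Q ((x : V ≃ₗ[F] V) z) (b 0 + b 1) = polar Q z (b 0 + b 1) := by
      conv_lhs => rw [← hxa]
      exact eo_polar x.1 x.2 _ _
    rw [h1]
  rw [isConj_iff]
  rcases eo_or Q hQ (by omega) hF (g := g) hg (b 0 + b 1) ha hs with h | h
  · refine ⟨⟨g, h⟩, ?_⟩
    rw [mul_inv_eq_iff_eq_mul]
    exact Subtype.ext hgx
  · refine ⟨⟨g * s, h⟩, ?_⟩
    rw [mul_inv_eq_iff_eq_mul]
    apply Subtype.ext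
    change g * s * (x : V ≃ₗ[F] V) = (y : V ≃ₗ[F] V) * (g * s)
    rw [mul_assoc, hsx, ← mul_assoc, hgx, mul_assoc]

/-- seven divides the order of `Ω_8^+(2)` -/
theorem o8_dvd : 7 ∣ Nat.card (EO Q) := by
  have h2F : (2 : F) = 0 := O8.two_eq hF
  have h2 : ∀ v : V, v + v = 0 := by
    intro v
    rw [← two_smul F, h2F, zero_smul]
  obtain ⟨e, f, h1, h2', h3, h4, h5⟩ := O8.hyp_ex 3 V Q hQ (by omega)
  have hT : ∀ i j, i ≠ j → ∃ t : V ≃ₗ[F] V, t ∈ EO Q ∧ t (e j) = e j + e i ∧
      ∀ k, k ≠ j → t (e k) = e k := by
    intro i j hij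
    have hfe : polar Q (f j) (e i) = 0 := by
      rw [polar_comm, h5, if_neg hij]
    refine ⟨ogEquiv (h1 i) hfe, ogEquiv_mem _ _, ?_, ?_⟩
    · rw [ogEquiv_apply, h3, h5, if_pos rfl, h2']
      linear_combination (norm := module) -(h2 (e i))
    · intro k hk
      rw [ogEquiv_apply, h3, h5, if_neg hk, h2']
      simp
  obtain ⟨t1, ht1, ht1a, ht1b⟩ := hT 0 1 (by decide)
  obtain ⟨t2, ht2, ht2a, ht2b⟩ := hT 1 2 (by decide)
  obtain ⟨t3, ht3, ht3a, ht3b⟩ := hT 2 0 (by decide)
  set X : EO Q := ⟨t1 * t2 * t3, mul_mem (mul_mem ht1 ht2) ht3⟩ with hX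
  have hX0 : X.1 (e 0) = e 1 + e 2 := by
    change t1 (t2 (t3 (e 0))) = _
    rw [ht3a, map_add, map_add, ht2b 0 (by decide), ht2a, map_add, ht1b 0 (by decide), ht1a,
      ht1b 2 (by decide)]
    linear_combination (norm := module) h2 (e 0)
  have hX1 : X.1 (e 1) = e 0 + e 1 := by
    change t1 (t2 (t3 (e 1))) = _
    rw [ht3b 1 (by decide), ht2b 1 (by decide), ht1a]
    abel
  have hX2 : X.1 (e 2) = e 0 + e 1 + e 2 := by
    change t1 (t2 (t3 (e 2))) = _
    rw [ht3b 2 (by decide), ht2a, map_add, ht1a, ht1b 2 (by decide)]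
    abel
  have hper : Function.IsPeriodicPt X.1 7 (e 0) := by
    change X.1 (X.1 (X.1 (X.1 (X.1 (X.1 (X.1 (e 0))))))) = e 0
    simp only [hX0, hX1, hX2, map_add]
    linear_combination (norm := module) (43 : F) • h2 (e 0) + (63 : F) • h2 (e 1) +
      (35 : F) • h2 (e 2)
  have hne : ¬ Function.IsPeriodicPt X.1 1 (e 0) := by
    intro h
    have h6 : X.1 (e 0) = e 0 := h
    rw [hX0] at h6
    have h7 : polar Q (e 1 + e 2) (f 0) = polar Q (e 0) (f 0) := by rw [h6]
    rw [polar_add_left, h5, h5, h5] at h7
    simp at h7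
  have hmin : Function.minimalPeriod X.1 (e 0) = 7 := by
    rcases (Nat.dvd_prime (by norm_num : Nat.Prime 7)).1 hper.minimalPeriod_dvd with h | h
    · exfalso
      apply hne
      rw [← h]
      exact Function.isPeriodicPt_minimalPeriod _ _
    · exact h
  have hdvd : 7 ∣ orderOf X := by
    rw [← hmin]
    apply Function.IsPeriodicPt.minimalPeriod_dvd
    change X.1^[orderOf X] (e 0) = e 0
    rw [← LinearEquiv.pow_apply, ← Subgroup.coe_pow, pow_orderOf_eq_one]
    rfl
  exact hdvd.trans (orderOf_dvd_natCard X)

end main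

end Pool.Agent.Lib.MP_bfe725_co
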