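import Pool.Agent.Lib.MP_bfe725_co.OChar2
import Pool.Agent.Lib.MP_bfe725_co.OGeom

/-!
# OCOMM: the Siegel transformations generate the commutator subgroup (helper19)
-/

set_option autoImplicit false
set_option linter.unusedSectionVars false
set_option linter.unnecessarySeqFocus false

namespace Pool.Agent.Lib.MP_bfe725_co

open Module QuadraticMap

/-- the orthogonal group of a quadratic form -/
def orthG {F V : Type} [Field F] [AddCommGroup V] [Module F V] (Q : QuadraticForm F V) :
    Subgroup (V ≃ₗ[F] V) where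
  carrier := {g | ∀ v, Q (g v) = Q v}
  one_mem' := fun _ => rfl
  mul_mem' := by
    intro a b ha hb v
    rw [LinearEquiv.mul_apply, ha, hb]
  inv_mem' := by
    intro a ha v
    have h1 := ha (a⁻¹ v)
    have h2 : a (a⁻¹ v) = v := by
      rw [← LinearEquiv.mul_apply, mul_inv_cancel]; rfl
    rw [h2] at h1
    exact h1.symm

namespace OC3

open OC2
open scoped commutatorElement

section fin

variable {F V : Type} [Field F] [AddCommGroup V] [Module F V] [FiniteDimensional F V]
  {Q : QuadraticForm F V}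

/-- a vector with prescribed product -/
lemma exists_dual (hQ : ∀ x, (∀ y, polar Q x y = 0) → x = 0) (U : Submodule F V) {a : V}
    (ha : a ∉ U) (c : F) : ∃ d, (∀ u ∈ U, polar Q u d = 0) ∧ polar Q a d = c := by
  obtain ⟨d, hd, hd'⟩ : ∃ d, (∀ u ∈ U, polar Q u d = 0) ∧ polar Q a d ≠ 0 := by
    by_contra hcon
    push Not at hcon
    apply ha
    rw [← LinearMap.BilinForm.orthogonal_orthogonal (nondeg hQ) refl' U,
      LinearMap.BilinForm.mem_orthogonal_iff]
    intro d hd
    rw [LinearMap.BilinForm.mem_orthogonal_iff] at hd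
    change polar Q d a = 0
    rw [polar_comm]
    exact hcon d hd
  refine ⟨(c * (polar Q a d)⁻¹) • d, fun u hu => ?_, ?_⟩
  · rw [polar_smul_right, hd u hu, smul_zero]
  · rw [polar_smul_right, smul_eq_mul, mul_assoc, inv_mul_cancel₀ hd', mul_one]

/-- a vector of `W` outside `W'` orthogonal to `U` -/
lemma exists_perp (hQ : ∀ x, (∀ y, polar Q x y = 0) → x = 0) (U W W' : Submodule F V)
    (h : finrank F U + finrank F W' < finrank F W) :
    ∃ z ∈ W, z ∉ W' ∧ ∀ u ∈ U, polar Q u z = 0 := by
  by_contra hcon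
  push Not at hcon
  have h1 : W ⊓ LinearMap.BilinForm.orthogonal (polarBilin Q) U ≤ W' := by
    rintro z ⟨hz1, hz2⟩
    by_contra hz3
    obtain ⟨u, hu, hu'⟩ := hcon z hz1 hz3
    rw [SetLike.mem_coe, LinearMap.BilinForm.mem_orthogonal_iff] at hz2
    exact hu' (hz2 u hu)
  have h2 := Submodule.finrank_mono h1
  have h3 := Submodule.finrank_sup_add_finrank_inf_eq W
    (LinearMap.BilinForm.orthogonal (polarBilin Q) U)
  have h4 := Submodule.finrank_le (W ⊔ LinearMap.BilinForm.orthogonal (polarBilin Q) U)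
  have h5 : finrank F (LinearMap.BilinForm.orthogonal (polarBilin Q) U) =
      finrank F V - finrank F U := LinearMap.BilinForm.finrank_orthogonal (nondeg hQ) U
  have h6 := Submodule.finrank_le U
  omega

lemma finrank_span1 (x : V) : finrank F (Submodule.span F {x}) ≤ 1 := by
  classical
  have := finrank_span_le_card (R := F) ({x} : Set V)
  simpa using this

lemma finrank_span2 (x y : V) : finrank F (Submodule.span F {x, y}) ≤ 2 := by
  classical
  have h1 := finrank_span_le_card (R := F) ({x, y} : Set V)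
  have h2 : (({x, y} : Set V).toFinset).card ≤ 2 := by
    rw [Set.toFinset_insert, Set.toFinset_singleton]
    exact Finset.card_le_two
  omega

/-- finite fields: subspaces of dimension at least three contain nonzero singular vectors -/
lemma exists_sing [Finite F] (hQ : ∀ x, (∀ y, polar Q x y = 0) → x = 0) (W : Submodule F V)
    (hW : 3 ≤ finrank F W) : ∃ v ∈ W, v ≠ 0 ∧ Q v = 0 := by
  classical
  have : Fintype F := Fintype.ofFinite F
  by_contra hcon
  push Not at hcon
  obtain ⟨x, hxW, hx, -⟩ := exists_perp hQ ⊥ W ⊥ (by rw [finrank_bot]; omega)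
  have hx0 : x ≠ 0 := hx
  have hQx := hcon x hxW hx0
  obtain ⟨y, hyW, hy, hyx⟩ := exists_perp hQ (Submodule.span F {x}) W (Submodule.span F {x}) (by
    have := finrank_span1 (F := F) x
    omega)
  have hyx := hyx x (Submodule.mem_span_singleton_self x)
  have hy0 : y ≠ 0 := fun h => hy (h ▸ Submodule.zero_mem _)
  have hQy := hcon y hyW hy0
  by_cases h2 : ringChar F = 2
  · -- every element is a square
    obtain ⟨c, hc⟩ := FiniteField.isSquare_of_char_two h2 (-(Q y) / Q x)
    have hne : y + c • x ≠ 0 := by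
      intro h
      apply hy
      rw [Submodule.mem_span_singleton]
      exact ⟨-c, by rw [neg_smul]; exact (eq_neg_of_add_eq_zero_left h).symm⟩
    apply hcon _ (W.add_mem hyW (W.smul_mem c hxW)) hne
    rw [QuadraticMap.map_add Q, QuadraticMap.map_smul, polar_smul_right, polar_comm Q y x, hyx,
      ← hc, smul_zero, add_zero, smul_eq_mul, div_mul_cancel₀ _ hQx]
    ring
  · have h20 : (2 : F) ≠ 0 := Ring.two_ne_zero h2
    obtain ⟨z, hzW, hz, hzxy⟩ := exists_perp hQ (Submodule.span F {x, y}) W ⊥ (by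
      have := finrank_span2 (F := F) x y
      rw [finrank_bot]
      omega)
    have hz0 : z ≠ 0 := hz
    have hxz := hzxy x (Submodule.subset_span (by simp))
    have hyz := hzxy y (Submodule.subset_span (by simp))
    have hcard : Fintype.card F % 2 = 1 := FiniteField.odd_card_of_char_ne_two h2
    open Polynomial in
    obtain ⟨a, b, hab⟩ := FiniteField.exists_root_sum_quadratic (R := F)
      (f := (C (Q x) * X ^ 2 : F[X])) (g := C (Q y) * X ^ 2 + C (Q z))
      (by
        rw [degree_C_mul_X_pow 2 hQx]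
        rfl)
      (by
        have hd : degree (C (Q y) * X ^ 2 : F[X]) = 2 := by
          rw [degree_C_mul_X_pow 2 hQy]
          rfl
        rw [degree_add_eq_left_of_degree_lt, hd]
        rw [hd]
        exact lt_of_le_of_lt degree_C_le (by norm_num)) hcard
    simp only [Polynomial.eval_mul, Polynomial.eval_C, Polynomial.eval_pow, Polynomial.eval_X,
      Polynomial.eval_add] at hab
    have hzx : polar Q z x = 0 := by rw [polar_comm]; exact hxz
    have hzy : polar Q z y = 0 := by rw [polar_comm]; exact hyz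
    have hne2 : z + (a • x + b • y) ≠ 0 := by
      intro h
      have h3 : polar Q (z + (a • x + b • y)) z = 0 := by rw [h, polar_zero_left]
      rw [polar_add_left, polar_add_left, polar_smul_left, polar_smul_left, hxz, hyz, smul_zero,
        smul_zero, add_zero, add_zero, polar_self, nsmul_eq_mul] at h3
      rcases mul_eq_zero.1 h3 with h4 | h4
      · exact h20 (by exact_mod_cast h4)
      · exact hcon z hzW hz0 h4
    apply hcon _ (W.add_mem hzW (W.add_mem (W.smul_mem a hxW) (W.smul_mem b hyW))) hne2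
    rw [QuadraticMap.map_add Q, QuadraticMap.map_add Q (a • x)]
    simp only [QuadraticMap.map_smul, polar_smul_left, polar_smul_right, polar_add_right, hzx, hzy,
      hyx, smul_eq_mul]
    linear_combination hab

/-- hyperbolic pairs orthogonal to a nonsingular vector -/
lemma exists_hyp [Finite F] (hQ : ∀ x, (∀ y, polar Q x y = 0) → x = 0) (hV : 5 ≤ finrank F V)
    {a : V} (ha : Q a ≠ 0) : ∃ u v, Q u = 0 ∧ Q v = 0 ∧ polar Q u v = 1 ∧ polar Q a u = 0 ∧
      polar Q a v = 0 := by
  set W := LinearMap.BilinForm.orthogonal (polarBilin Q) (Submodule.span F {a}) with hW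
  have hmem : ∀ z, z ∈ W → polar Q a z = 0 := by
    intro z hz
    rw [hW, LinearMap.BilinForm.mem_orthogonal_iff] at hz
    exact hz a (Submodule.mem_span_singleton_self a)
  have h5 : finrank F W = finrank F V - finrank F (Submodule.span F {a}) :=
    LinearMap.BilinForm.finrank_orthogonal (nondeg hQ) _
  obtain ⟨v, hvW, hv0, hv⟩ := exists_sing hQ W (by
    have := finrank_span1 (F := F) a
    omega)
  have hva : v ∉ Submodule.span F {a} := by
    intro h
    obtain ⟨c, rfl⟩ := Submodule.mem_span_singleton.1 h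
    rw [QuadraticMap.map_smul, smul_eq_mul] at hv
    rcases mul_eq_zero.1 hv with h1 | h1
    · have : c = 0 := by rcases mul_eq_zero.1 h1 with h | h <;> exact h
      apply hv0
      rw [this, zero_smul]
    · exact ha h1
  obtain ⟨z, hz1, hz2⟩ := exists_dual hQ (Submodule.span F {a}) hva 1
  have hz3 := hz1 a (Submodule.mem_span_singleton_self a)
  have hzv : polar Q z v = 1 := by rw [polar_comm]; exact hz2
  have hav := hmem v hvW
  refine ⟨z - Q z • v, v, ?_, hv, ?_, ?_, hav⟩
  · rw [Q_sub_smul, hv, hzv]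
    ring
  · rw [polar_sub_left, polar_smul_left, hzv, polar_self, hv]
    simp
  · rw [polar_sub_right, polar_smul_right, hz3, hav]
    simp

/-- singular vectors orthogonal to `a` separate `b` from `⟨a⟩` -/
lemma exists_sing_dual [Finite F] (hQ : ∀ x, (∀ y, polar Q x y = 0) → x = 0)
    (hV : 5 ≤ finrank F V) {a b : V} (ha : Q a ≠ 0) (hb : b ∉ Submodule.span F {a}) (c : F) :
    ∃ e, Q e = 0 ∧ polar Q a e = 0 ∧ polar Q b e = c := by
  obtain ⟨e, he, hae, hbe⟩ : ∃ e, Q e = 0 ∧ polar Q a e = 0 ∧ polar Q b e ≠ 0 := by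
    obtain ⟨u, v, hu, hv, huv, hau, hav⟩ := exists_hyp hQ hV ha
    by_cases hbu : polar Q b u = 0
    · by_cases hbv : polar Q b v = 0
      · obtain ⟨w, hw1, hw2⟩ := exists_dual hQ (Submodule.span F {a}) hb 1
        have hw3 := hw1 a (Submodule.mem_span_singleton_self a)
        set w2 := w - (polar Q w v - 1) • u with hw2'
        have h1 : polar Q w2 v = 1 := by
          rw [hw2', polar_sub_left, polar_smul_left, huv, smul_eq_mul]
          ring
        refine ⟨w2 - Q w2 • v, ?_, ?_, ?_⟩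
        · rw [Q_sub_smul, hv, h1]
          ring
        · rw [hw2', polar_sub_right, polar_sub_right, polar_smul_right, polar_smul_right, hw3, hau,
            hav]
          simp
        · rw [polar_sub_right, hw2', polar_sub_right, polar_smul_right, polar_smul_right, hw2, hbu,
            hbv]
          simp
      · exact ⟨v, hv, hav, hbv⟩
    · exact ⟨u, hu, hau, hbu⟩
  refine ⟨(c * (polar Q b e)⁻¹) • e, ?_, ?_, ?_⟩
  · rw [QuadraticMap.map_smul, he, smul_zero]
  · rw [polar_smul_right, hae, smul_zero]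
  · rw [polar_smul_right, smul_eq_mul, mul_assoc, inv_mul_cancel₀ hbe, mul_one]

lemma trans1 (hQ : ∀ x, (∀ y, polar Q x y = 0) → x = 0) {a b : V} (ha : Q a ≠ 0)
    (hab : Q a = Q b) (h : Q (b - a) = 0) : ∃ t ∈ EO Q, t a = b := by
  set e := b - a with he
  have hb : b = a + e := by rw [he]; abel
  have hae : polar Q a e = 0 := by
    rw [hb, QuadraticMap.map_add Q, h] at hab
    linear_combination -hab
  have hane : a ∉ Submodule.span F {e} := by
    intro h1
    obtain ⟨c, hc⟩ := Submodule.mem_span_singleton.1 h1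
    apply ha
    rw [← hc, QuadraticMap.map_smul, h, smul_zero]
  obtain ⟨d, hd1, hd2⟩ := exists_dual hQ (Submodule.span F {e}) hane (-1)
  have hed := hd1 e (Submodule.mem_span_singleton_self e)
  have hde : polar Q d e = 0 := by rw [polar_comm]; exact hed
  refine ⟨ogEquiv h hde, ogEquiv_mem h hde, ?_⟩
  rw [ogEquiv_apply, hae, hd2, hb]
  simp

lemma trans2 [Finite F] (hQ : ∀ x, (∀ y, polar Q x y = 0) → x = 0) (hV : 5 ≤ finrank F V)
    {a b : V} (ha : Q a ≠ 0) (hab : Q a = Q b) (hb : b ∉ Submodule.span F {a}) :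
    ∃ t ∈ EO Q, t a = b := by
  obtain ⟨e, he, hae, hbe⟩ := exists_sing_dual hQ hV ha hb (Q (b - a))
  have h1 : Q (a + e) = Q a := by rw [QuadraticMap.map_add Q, he, hae]; ring
  have h2 : Q (b - (a + e)) = 0 := by
    have h3 : b - (a + e) = (b - a) - (1 : F) • e := by rw [one_smul]; abel
    rw [h3, Q_sub_smul, he, polar_sub_left, hae, hbe]
    ring
  obtain ⟨t1, ht1, ht1'⟩ := trans1 hQ (a := a) (b := a + e) ha h1.symm (by
    rw [add_sub_cancel_left]; exact he)
  obtain ⟨t2, ht2, ht2'⟩ := trans1 hQ (a := a + e) (b := b) (by rw [h1]; exact ha)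
    (by rw [h1, hab]) h2
  exact ⟨t2 * t1, (EO Q).mul_mem ht2 ht1, by rw [LinearEquiv.mul_apply, ht1', ht2']⟩

lemma trans3 [Finite F] (hQ : ∀ x, (∀ y, polar Q x y = 0) → x = 0) (hV : 5 ≤ finrank F V)
    {a b : V} (ha : Q a ≠ 0) (hab : Q a = Q b) : ∃ t ∈ EO Q, t a = b := by
  by_cases hb : b ∈ Submodule.span F {a}
  · obtain ⟨u, v, hu, hv, huv, hau, hav⟩ := exists_hyp hQ hV ha
    have h1 : Q (a + u) = Q a := by rw [QuadraticMap.map_add Q, hu, hau]; ring
    obtain ⟨t1, ht1, ht1'⟩ := trans1 hQ (a := a) (b := a + u) ha h1.symm (by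
      rw [add_sub_cancel_left]; exact hu)
    have h2 : b ∉ Submodule.span F {a + u} := by
      intro h
      obtain ⟨c, hc⟩ := Submodule.mem_span_singleton.1 h
      obtain ⟨c', hc'⟩ := Submodule.mem_span_singleton.1 hb
      have h3 : polar Q b v = 0 := by rw [← hc', polar_smul_left, hav, smul_zero]
      rw [← hc, polar_smul_left, polar_add_left, hav, huv, zero_add, smul_eq_mul, mul_one] at h3
      apply ha
      rw [hab, ← hc, h3, zero_smul, QuadraticMap.map_zero]
    obtain ⟨t2, ht2, ht2'⟩ := trans2 hQ hV (a := a + u) (b := b) (by rw [h1]; exact ha)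
      (by rw [h1, hab]) h2
    exact ⟨t2 * t1, (EO Q).mul_mem ht2 ht1, by rw [LinearEquiv.mul_apply, ht1', ht2']⟩
  · exact trans2 hQ hV ha hab hb

/-- Siegel transformation with `Q d ≠ 0` is a product of two reflections -/
lemma siegel_refl (S : Subgroup (V ≃ₗ[F] V))
    (hS : ∀ s t a b, IsR Q s a → IsR Q t b → Q a = Q b → s * t ∈ S)
    {v d : V} (hv : Q v = 0) (hd : polar Q d v = 0) (hd0 : Q d ≠ 0) :
    ∃ g ∈ S, ∀ z, g z = z + polar Q z v • d - polar Q z d • v - (Q d * polar Q z v) • v := by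
  have hQd' : Q (d + Q d • v) = Q d := by
    have := Q_sub_smul (Q := Q) d v (- Q d)
    rw [neg_smul, sub_neg_eq_add, hv, hd] at this
    rw [this]; ring
  obtain ⟨s, hs⟩ := exists_refl hd0
  obtain ⟨t, ht⟩ := exists_refl (Q := Q) (a := d + Q d • v) (by rw [hQd']; exact hd0)
  refine ⟨s * t, hS s t _ _ hs ht hQd'.symm, fun z => ?_⟩
  rw [LinearEquiv.mul_apply, ht.2, hs.2, hQd']
  simp only [polar_sub_left, polar_smul_left, polar_add_left, polar_add_right, polar_smul_right,
    smul_eq_mul, polar_self, nsmul_eq_mul]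
  rw [polar_comm Q v d, hd]
  push_cast
  match_scalars <;> field_simp <;> ring

lemma EO_le_of (hQ : ∀ x, (∀ y, polar Q x y = 0) → x = 0) (hV : 5 ≤ finrank F V)
    (S : Subgroup (V ≃ₗ[F] V))
    (hS : ∀ s t a b, IsR Q s a → IsR Q t b → Q a = Q b → s * t ∈ S) : EO Q ≤ S := by
  unfold EO
  rw [Subgroup.closure_le]
  rintro g ⟨v, d, hv, hd, hg⟩
  by_cases hd0 : Q d ≠ 0
  · obtain ⟨g', hg', hf⟩ := siegel_refl S hS hv hd hd0
    have : g = g' := by
      ext z
      rw [hg, hf]
    rw [this]; exact hg'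
  · push Not at hd0
    -- a nonsingular vector orthogonal to `v` and `d`
    obtain ⟨e, hev, hed, he⟩ : ∃ e, polar Q e v = 0 ∧ polar Q e d = 0 ∧ Q e ≠ 0 := by
      by_contra hcon
      push Not at hcon
      classical
      set T := Submodule.span F (({v, d} : Finset V) : Set V) with hT
      set W := LinearMap.BilinForm.orthogonal (polarBilin Q) T with hW
      have hW0 : ∀ w ∈ W, Q w = 0 := by
        intro w hw
        rw [hW, LinearMap.BilinForm.mem_orthogonal_iff] at hw
        apply hcon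
        · rw [polar_comm]
          exact hw v (Submodule.subset_span (by simp))
        · rw [polar_comm]
          exact hw d (Submodule.subset_span (by simp))
      have hle : W ≤ LinearMap.BilinForm.orthogonal (polarBilin Q) W := by
        intro w hw
        rw [LinearMap.BilinForm.mem_orthogonal_iff]
        intro n hn
        change polar Q n w = 0
        unfold QuadraticMap.polar
        rw [hW0 _ (W.add_mem hn hw), hW0 _ hn, hW0 _ hw]
        ring
      have h1 := Submodule.finrank_mono hle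
      have h1' : finrank F (LinearMap.BilinForm.orthogonal (polarBilin Q) W) =
          finrank F V - finrank F W := LinearMap.BilinForm.finrank_orthogonal (nondeg hQ) W
      have h2 : finrank F W = finrank F V - finrank F T :=
        LinearMap.BilinForm.finrank_orthogonal (nondeg hQ) T
      have h3 : finrank F T ≤ 2 :=
        (finrank_span_finset_le_card ({v, d} : Finset V)).trans Finset.card_le_two
      omega
    obtain ⟨g1, hg1, hf1⟩ := siegel_refl S hS hv hev he
    have hQde : Q (d - e) = Q e := by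
      have := Q_sub_smul (Q := Q) d e 1
      rw [one_smul, hd0, polar_comm, hed] at this
      rw [this]; ring
    obtain ⟨g2, hg2, hf2⟩ := siegel_refl S hS (d := d - e) hv
      (by rw [polar_sub_left, hd, hev, sub_zero]) (by rw [hQde]; exact he)
    have : g = g1 * g2 := by
      ext z
      rw [hg, LinearEquiv.mul_apply, hf2, hf1, hQde, hd0]
      simp only [polar_sub_left, polar_smul_left, polar_add_left, polar_sub_right,
        smul_eq_mul, polar_self, nsmul_eq_mul, hv, hd, hev]
      rw [polar_comm Q v e, hev, polar_comm Q d e, hed]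
      match_scalars <;> ring
    rw [this]
    exact S.mul_mem hg1 hg2

/-- `EO Q` is normal in the orthogonal group -/
lemma EO_normal {g t : V ≃ₗ[F] V} (hg : g ∈ orthG Q) (ht : t ∈ EO Q) : g * t * g⁻¹ ∈ EO Q := by
  unfold EO at ht
  induction ht using Subgroup.closure_induction with
  | mem t ht =>
    obtain ⟨v, d, hv, hd, h⟩ := ht
    refine Subgroup.subset_closure ⟨g v, g d, ?_, ?_, ?_⟩
    · rw [hg v, hv]
    · rw [Iso.pol hg, hd]
    · intro z
      have hgz : g (g⁻¹ z) = z := by
        rw [← LinearEquiv.mul_apply, mul_inv_cancel]; rfl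
      have h1 : polar Q z (g v) = polar Q (g⁻¹ z) v := by
        rw [← Iso.pol hg (g⁻¹ z) v, hgz]
      have h2 : polar Q z (g d) = polar Q (g⁻¹ z) d := by
        rw [← Iso.pol hg (g⁻¹ z) d, hgz]
      rw [LinearEquiv.mul_apply, LinearEquiv.mul_apply, h, h1, h2, hg d]
      simp only [map_add, map_sub, map_smul, hgz]
  | one => rw [mul_one, mul_inv_cancel]; exact (EO Q).one_mem
  | mul x y _ _ hx hy =>
    have : g * (x * y) * g⁻¹ = (g * x * g⁻¹) * (g * y * g⁻¹) := by group
    rw [this]
    exact (EO Q).mul_mem hx hy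
  | inv x _ hx =>
    have : g * x⁻¹ * g⁻¹ = (g * x * g⁻¹)⁻¹ := by group
    rw [this]
    exact (EO Q).inv_mem hx

lemma EO_le_orthG : EO Q ≤ orthG Q := fun g hg => eo_isometry g hg

/-- the group generated by the reflections -/
def RG (Q : QuadraticForm F V) : Subgroup (V ≃ₗ[F] V) :=
  Subgroup.closure {g : V ≃ₗ[F] V | ∃ a, Q a ≠ 0 ∧
    ∀ z, g z = z - ((Q a)⁻¹ * QuadraticMap.polar Q z a) • a}

lemma IsR.mem {s : V ≃ₗ[F] V} {a : V} (h : IsR Q s a) : s ∈ RG Q :=
  Subgroup.subset_closure ⟨a, h⟩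

lemma RG_le : RG Q ≤ orthG Q := by
  unfold RG
  rw [Subgroup.closure_le]
  rintro g ⟨a, ha⟩
  exact IsR.iso (s := g) (a := a) ha

lemma EO_le_RG (hQ : ∀ x, (∀ y, polar Q x y = 0) → x = 0) (hV : 5 ≤ finrank F V) :
    EO Q ≤ RG Q :=
  EO_le_of hQ hV (RG Q) (fun _ _ _ _ hs ht _ => (RG Q).mul_mem (IsR.mem hs) (IsR.mem ht))

/-- the inductive step: moving `g` closer to the identity -/
lemma step (hQ : ∀ x, (∀ y, polar Q x y = 0) → x = 0) (hV : 5 ≤ finrank F V)
    {g : V ≃ₗ[F] V} (hg : g ∈ orthG Q) (hne : fx g ≠ ⊤) :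
    ∃ r ∈ RG Q, finrank F (fx g) < finrank F (fx (r * g)) := by
  have hiso : Iso Q g := hg
  have hperp : ∀ u ∈ fx g, ∀ w, polar Q u (g w - w) = 0 := by
    intro u hu w
    rw [polar_sub_right]
    have := hiso.pol u w
    rw [mem_fx.1 hu] at this
    rw [this, sub_self]
  have hwe : ∀ w, polar Q w (g w - w) = - Q (g w - w) := by
    intro w
    have h1 : Q (g w) = Q (w + (g w - w)) := by congr 1; abel
    rw [QuadraticMap.map_add Q, hg w] at h1
    linear_combination -h1
  have key : ∀ (w : V) (r : V ≃ₗ[F] V), w ∉ fx g → r ∈ RG Q → (∀ u ∈ fx g, r u = u) →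
      r (g w) = w → ∃ r ∈ RG Q, finrank F (fx g) < finrank F (fx (r * g)) := by
    intro w r hw hr hru hrw
    refine ⟨r, hr, Submodule.finrank_lt_finrank_of_lt ?_⟩
    refine lt_of_le_of_ne ?_ ?_
    · intro u hu
      rw [mem_fx, LinearEquiv.mul_apply, mem_fx.1 hu]
      exact hru u hu
    · intro h
      apply hw
      rw [h, mem_fx, LinearEquiv.mul_apply]
      exact hrw
  by_cases h1 : ∃ w, Q (g w - w) ≠ 0
  · obtain ⟨w, hw⟩ := h1
    have hwf : w ∉ fx g := by
      intro h
      rw [mem_fx.1 h, sub_self, QuadraticMap.map_zero] at hw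
      exact hw rfl
    obtain ⟨s, hs⟩ := exists_refl hw
    refine key w s hwf (IsR.mem hs) (fun u hu => hs.fix (hperp u hu w)) ?_
    have h2 : polar Q (g w) (g w - w) = Q (g w - w) := by
      have h3 : polar Q (g w) (g w - w) = polar Q w (g w - w) + polar Q (g w - w) (g w - w) := by
        rw [← polar_add_left]
        congr 1
        abel
      rw [h3, hwe, polar_self, nsmul_eq_mul]
      push_cast
      ring
    rw [hs.2, h2, inv_mul_cancel₀ hw, one_smul]
    abel
  · push Not at h1
    -- the case of a totally singular residual space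
    obtain ⟨w, hw⟩ : ∃ w, w ∉ fx g ⊔ Submodule.span F {g w - w} := by
      by_contra hcon
      push Not at hcon
      apply hne
      have hN : LinearMap.range ((g : V →ₗ[F] V) - 1) ≤
          LinearMap.BilinForm.orthogonal (polarBilin Q)
            (LinearMap.range ((g : V →ₗ[F] V) - 1)) := by
        rintro _ ⟨y, rfl⟩
        rw [LinearMap.BilinForm.mem_orthogonal_iff]
        rintro _ ⟨x, rfl⟩
        change polar Q (g x - x) (g y - y) = 0
        unfold QuadraticMap.polar
        have h2 : g x - x + (g y - y) = g (x + y) - (x + y) := by rw [map_add]; abel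
        rw [h2, h1, h1, h1]
        ring
      have h3 : LinearMap.BilinForm.orthogonal (polarBilin Q)
          (LinearMap.range ((g : V →ₗ[F] V) - 1)) = fx g := by
        rw [range_eq hQ hiso, LinearMap.BilinForm.orthogonal_orthogonal (nondeg hQ) refl']
      rw [h3] at hN
      rw [Submodule.eq_top_iff']
      intro w
      have h4 := hcon w
      have h5 : fx g ⊔ Submodule.span F {g w - w} ≤ fx g := by
        refine sup_le le_rfl ?_
        rw [Submodule.span_singleton_le_iff_mem]
        exact hN ⟨w, rfl⟩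
      exact h5 h4
    have hwf : w ∉ fx g := fun h => hw (Submodule.mem_sup_left h)
    obtain ⟨d, hd1, hd2⟩ := exists_dual hQ _ hw (-1)
    have hde : polar Q d (g w - w) = 0 := by
      rw [polar_comm]
      exact hd1 _ (Submodule.mem_sup_right (Submodule.mem_span_singleton_self _))
    have hQe := h1 w
    set E := ogEquiv hQe hde with hE
    have hEw : E w = g w := by
      rw [hE, ogEquiv_apply, hwe, hQe, hd2]
      simp
    have hEu : ∀ u ∈ fx g, E u = u := by
      intro u hu
      rw [hE, ogEquiv_apply, hperp u hu w, hd1 u (Submodule.mem_sup_left hu)]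
      simp
    have hinv : ∀ z, E⁻¹ (E z) = z := by
      intro z
      rw [← LinearEquiv.mul_apply, inv_mul_cancel]; rfl
    refine key w E⁻¹ hwf ((RG Q).inv_mem (EO_le_RG hQ hV (ogEquiv_mem hQe hde))) ?_ ?_
    · intro u hu
      nth_rewrite 1 [← hEu u hu]
      exact hinv u
    · rw [← hEw]
      exact hinv w

lemma orthG_le (hQ : ∀ x, (∀ y, polar Q x y = 0) → x = 0) (hV : 5 ≤ finrank F V) :
    ∀ (k : ℕ) (g : V ≃ₗ[F] V), g ∈ orthG Q → finrank F V - finrank F (fx g) ≤ k → g ∈ RG Q := by
  intro k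
  induction k with
  | zero =>
    intro g _ hk
    have h1 : fx g = ⊤ := by
      apply Submodule.eq_top_of_finrank_eq
      have := Submodule.finrank_le (fx g)
      omega
    have h2 : g = 1 := by
      ext z
      have : z ∈ fx g := by rw [h1]; exact Submodule.mem_top
      exact mem_fx.1 this
    rw [h2]
    exact (RG Q).one_mem
  | succ k ih =>
    intro g hg hk
    by_cases h1 : fx g = ⊤
    · have h2 : g = 1 := by
        ext z
        have : z ∈ fx g := by rw [h1]; exact Submodule.mem_top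
        exact mem_fx.1 this
      rw [h2]
      exact (RG Q).one_mem
    · obtain ⟨r, hr, hr'⟩ := step hQ hV hg h1
      have h3 := ih (r * g) ((orthG Q).mul_mem (RG_le hr) hg) (by
        have := Submodule.finrank_le (fx (r * g))
        omega)
      have h4 : g = r⁻¹ * (r * g) := by group
      rw [h4]
      exact (RG Q).mul_mem ((RG Q).inv_mem hr) h3

lemma orthG_eq (hQ : ∀ x, (∀ y, polar Q x y = 0) → x = 0) (hV : 5 ≤ finrank F V) :
    orthG Q = RG Q :=
  le_antisymm (fun g hg => orthG_le hQ hV _ g hg le_rfl) RG_le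

/-- conjugate of a reflection -/
lemma IsR.conj {s g : V ≃ₗ[F] V} {a : V} (hs : IsR Q s a) (hg : g ∈ orthG Q) :
    IsR Q (g * s * g⁻¹) (g a) := by
  refine ⟨by rw [hg a]; exact hs.1, fun z => ?_⟩
  have hgz : g (g⁻¹ z) = z := by
    rw [← LinearEquiv.mul_apply, mul_inv_cancel]; rfl
  have h1 : polar Q z (g a) = polar Q (g⁻¹ z) a := by
    rw [← Iso.pol (g := g) hg (g⁻¹ z) a, hgz]
  rw [LinearEquiv.mul_apply, LinearEquiv.mul_apply, hs.2, h1, hg a]
  simp only [map_sub, map_smul, hgz]

lemma IsR.unique {s t : V ≃ₗ[F] V} {a : V} (hs : IsR Q s a) (ht : IsR Q t a) : s = t := by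
  ext z
  rw [hs.2, ht.2]

lemma IsR.sq {s : V ≃ₗ[F] V} {a : V} (hs : IsR Q s a) : s * s = 1 := by
  ext z
  rw [LinearEquiv.mul_apply, hs.2 (s z), hs.2 z]
  have h1 := hs.1
  simp only [polar_sub_left, polar_smul_left, smul_eq_mul, polar_self, nsmul_eq_mul]
  change _ = z
  push_cast
  match_scalars <;> field_simp <;> ring

lemma IsR.inv {s : V ≃ₗ[F] V} {a : V} (hs : IsR Q s a) : s⁻¹ = s :=
  inv_eq_of_mul_eq_one_left (IsR.sq hs)

/-- products of two reflections in vectors of the same norm -/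
lemma refl_mul_mem [Finite F] (hQ : ∀ x, (∀ y, polar Q x y = 0) → x = 0) (hV : 5 ≤ finrank F V)
    {s t : V ≃ₗ[F] V} {a b : V} (hs : IsR Q s a) (ht : IsR Q t b) (hab : Q a = Q b) :
    ∃ k ∈ EO Q, s * t = ⁅s, k⁆ := by
  obtain ⟨k, hk, hka⟩ := trans3 hQ hV hs.1 hab
  refine ⟨k, hk, ?_⟩
  have h1 := IsR.conj hs (EO_le_orthG hk)
  rw [hka] at h1
  have h2 := IsR.unique ht h1
  rw [h2, commutatorElement_def, IsR.inv hs]
  group

lemma comm_mul {s h k : V ≃ₗ[F] V} (hh : h ∈ orthG Q) (h1 : ⁅s, h⁆ ∈ EO Q)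
    (h2 : ⁅s, k⁆ ∈ EO Q) : ⁅s, h * k⁆ ∈ EO Q := by
  have : ⁅s, h * k⁆ = ⁅s, h⁆ * (h * ⁅s, k⁆ * h⁻¹) := by
    simp only [commutatorElement_def]
    group
  rw [this]
  exact (EO Q).mul_mem h1 (EO_normal hh h2)

lemma comm_inv {s h : V ≃ₗ[F] V} (hh : h ∈ orthG Q) (h1 : ⁅s, h⁆ ∈ EO Q) :
    ⁅s, h⁻¹⁆ ∈ EO Q := by
  have : ⁅s, h⁻¹⁆ = h⁻¹ * ⁅s, h⁆⁻¹ * h⁻¹⁻¹ := by
    simp only [commutatorElement_def]
    group
  rw [this]
  exact EO_normal ((orthG Q).inv_mem hh) ((EO Q).inv_mem h1)

lemma comm_EO {s k : V ≃ₗ[F] V} (hs : s ∈ orthG Q) (hk : k ∈ EO Q) : ⁅s, k⁆ ∈ EO Q := by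
  rw [commutatorElement_def]
  exact (EO Q).mul_mem (EO_normal hs hk) ((EO Q).inv_mem hk)

/-- two reflections commute modulo `EO Q` -/
lemma comm_refl [Finite F] (hQ : ∀ x, (∀ y, polar Q x y = 0) → x = 0) (hV : 5 ≤ finrank F V)
    {s t : V ≃ₗ[F] V} {a b : V} (hs : IsR Q s a) (ht : IsR Q t b) : ⁅s, t⁆ ∈ EO Q := by
  obtain ⟨u, v, hu, hv, huv, hau, hav⟩ := exists_hyp hQ hV hs.1
  set b' := u - (- Q b) • v with hb'
  have h1 : Q b' = Q b := by
    rw [hb', Q_sub_smul, hu, hv, huv]
    ring
  have hab' : polar Q a b' = 0 := by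
    rw [hb', polar_sub_right, polar_smul_right, hau, hav]
    simp
  obtain ⟨k, hk, hkb⟩ := trans3 hQ hV ht.1 h1.symm
  have h2 := IsR.conj ht (EO_le_orthG hk)
  rw [hkb] at h2
  set t' := k * t * k⁻¹ with ht'
  have hcomm : ⁅s, t'⁆ = 1 := by
    rw [commutatorElement_eq_one_iff_mul_comm]
    ext z
    have hb'a : polar Q b' a = 0 := by rw [polar_comm]; exact hab'
    rw [LinearEquiv.mul_apply s t' z, LinearEquiv.mul_apply t' s z, hs.2 (t' z), h2.2 z,
      h2.2 (s z), hs.2 z]
    simp only [polar_sub_left, polar_smul_left, smul_eq_mul, hab', hb'a]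
    match_scalars <;> ring
  have h3 : t = t' * (t'⁻¹ * k⁻¹ * t'⁻¹⁻¹ * k) := by
    rw [ht']
    group
  rw [h3]
  refine comm_mul h2.iso ?_ (comm_EO hs.iso ?_)
  · rw [hcomm]
    exact (EO Q).one_mem
  · exact (EO Q).mul_mem (EO_normal ((orthG Q).inv_mem h2.iso) ((EO Q).inv_mem hk)) hk

lemma comm_refl_orthG [Finite F] (hQ : ∀ x, (∀ y, polar Q x y = 0) → x = 0)
    (hV : 5 ≤ finrank F V) {s : V ≃ₗ[F] V} {a : V} (hs : IsR Q s a) {h : V ≃ₗ[F] V}
    (hh : h ∈ RG Q) : ⁅s, h⁆ ∈ EO Q := by
  unfold RG at hh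
  induction hh using Subgroup.closure_induction with
  | mem t ht =>
    obtain ⟨b, hb⟩ := ht
    exact comm_refl hQ hV hs (b := b) hb
  | one => rw [commutatorElement_one_right]; exact (EO Q).one_mem
  | mul x y hx _ h1 h2 => exact comm_mul (RG_le hx) h1 h2
  | inv x hx h1 => exact comm_inv (RG_le hx) h1

lemma comm_orthG [Finite F] (hQ : ∀ x, (∀ y, polar Q x y = 0) → x = 0)
    (hV : 5 ≤ finrank F V) {g h : V ≃ₗ[F] V} (hg : g ∈ RG Q) (hh : h ∈ RG Q) :
    ⁅g, h⁆ ∈ EO Q := by
  have hswap : ∀ x y : V ≃ₗ[F] V, ⁅x, y⁆ ∈ EO Q → ⁅y, x⁆ ∈ EO Q := by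
    intro x y hxy
    rw [← commutatorElement_inv]
    exact (EO Q).inv_mem hxy
  unfold RG at hg
  apply hswap
  induction hg using Subgroup.closure_induction with
  | mem s hs =>
    obtain ⟨a, ha⟩ := hs
    exact hswap _ _ (comm_refl_orthG hQ hV (a := a) ha hh)
  | one => rw [commutatorElement_one_right]; exact (EO Q).one_mem
  | mul x y hx _ h1 h2 => exact comm_mul (RG_le hx) h1 h2
  | inv x hx h1 => exact comm_inv (RG_le hx) h1

end fin

end OC3

section

variable {F V : Type} [Field F] [Finite F] [AddCommGroup V] [Module F V] [Finite V]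
  (Q : QuadraticForm F V) (hQ : ∀ x, (∀ y, QuadraticMap.polar Q x y = 0) → x = 0)
  (hV : 5 ≤ finrank F V)

include hQ hV

/-- `EO Q` is transitive on the vectors of norm `c ≠ 0` -/
theorem eo_trans_nonsing (a b : V) (ha : Q a ≠ 0) (hab : Q a = Q b) : ∃ t ∈ EO Q, t a = b :=
  OC3.trans3 hQ hV ha hab

/-- the orthogonal group is generated by reflections -/
theorem orthG_eq_closure : orthG Q = Subgroup.closure {g : V ≃ₗ[F] V | ∃ a, Q a ≠ 0 ∧
    ∀ z, g z = z - ((Q a)⁻¹ * QuadraticMap.polar Q z a) • a} :=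
  OC3.orthG_eq hQ hV

/-- `Ω(V, Q)` is generated by the Siegel transformations -/
theorem eo_eq_comm : EO Q = ⁅orthG Q, orthG Q⁆ := by
  apply le_antisymm
  · refine OC3.EO_le_of hQ hV _ ?_
    intro s t a b hs ht hab
    obtain ⟨k, hk, hkc⟩ := OC3.refl_mul_mem hQ hV hs ht hab
    rw [hkc]
    exact Subgroup.commutator_mem_commutator (show s ∈ orthG Q from hs.iso)
      (OC3.EO_le_orthG hk)
  · rw [Subgroup.commutator_le]
    intro g hg h hh
    rw [OC3.orthG_eq hQ hV] at hg hh
    exact OC3.comm_orthG hQ hV hg hh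

/-- over the field with two elements `EO Q` has index at most two in the orthogonal group -/
theorem eo_or (hF : Nat.card F = 2) {g s : V ≃ₗ[F] V} (hg : g ∈ orthG Q) (a : V) (ha : Q a ≠ 0)
    (hs : ∀ z, s z = z - ((Q a)⁻¹ * QuadraticMap.polar Q z a) • a) :
    g ∈ EO Q ∨ g * s ∈ EO Q := by
  have hone : ∀ x : F, x ≠ 0 → x = 1 := by
    intro x hx
    have : Fintype F := Fintype.ofFinite F
    have h1 := FiniteField.pow_card_sub_one_eq_one x hx
    rw [← Nat.card_eq_fintype_card, hF] at h1
    simpa using h1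
  have hsR : OC2.IsR Q s a := ⟨ha, hs⟩
  have hss : s * s = 1 := OC3.IsR.sq hsR
  have hsi : s⁻¹ = s := OC3.IsR.inv hsR
  have hsO : s ∈ orthG Q := hsR.iso
  rw [OC3.orthG_eq hQ hV] at hg
  unfold OC3.RG at hg
  induction hg using Subgroup.closure_induction with
  | mem t ht =>
    right
    obtain ⟨b, hb⟩ := ht
    have hbR : OC2.IsR Q t b := hb
    obtain ⟨k, hk, hkc⟩ := OC3.refl_mul_mem hQ hV hbR hsR (by
      rw [hone _ ha, hone _ hbR.1])
    rw [hkc]
    exact OC3.comm_EO hbR.iso hk
  | one => exact Or.inl (EO Q).one_mem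
  | mul x y hx hy h1 h2 =>
    rcases h1 with h1 | h1 <;> rcases h2 with h2 | h2
    · exact Or.inl ((EO Q).mul_mem h1 h2)
    · right
      rw [mul_assoc]
      exact (EO Q).mul_mem h1 h2
    · right
      have : x * y * s = (x * s) * (s * y * s⁻¹) := by
        rw [hsi]
        calc x * y * s = x * 1 * y * s := by rw [mul_one]
          _ = x * (s * s) * y * s := by rw [hss]
          _ = (x * s) * (s * y * s) := by group
      rw [this]
      exact (EO Q).mul_mem h1 (OC3.EO_normal hsO h2)
    · left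
      have : x * y = (x * s) * (s * (y * s) * s⁻¹) := by
        rw [hsi]
        calc x * y = x * 1 * y * 1 := by rw [mul_one, mul_one]
          _ = x * (s * s) * y * (s * s) := by rw [hss]
          _ = (x * s) * (s * (y * s) * s) := by group
      rw [this]
      exact (EO Q).mul_mem h1 (OC3.EO_normal hsO h2)
  | inv x hx h1 =>
    rcases h1 with h1 | h1
    · exact Or.inl ((EO Q).inv_mem h1)
    · right
      have : x⁻¹ * s = s * (x * s)⁻¹ * s⁻¹ := by
        rw [hsi, mul_inv_rev, hsi]
        calc x⁻¹ * s = 1 * x⁻¹ * s := by rw [one_mul]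
          _ = (s * s) * x⁻¹ * s := by rw [hss]
          _ = s * (s * x⁻¹) * s := by group
      rw [this]
      exact OC3.EO_normal hsO ((EO Q).inv_mem h1)

end

end Pool.Agent.Lib.MP_bfe725_co
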