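import Pool.Agent.Lib.MP_bfe725_co.Lin

/-!
# Module OPLUS: elements of order `p` leave no totally singular subspace invariant
-/

set_option autoImplicit false

namespace Pool.Agent.Lib.MP_bfe725_co

open Module

section oplus_aux

variable {F V : Type} [Field F] [Finite F] [AddCommGroup V] [Module F V] [Finite V]
  (Q : QuadraticForm F V)

/-- a plane with a hyperbolic pair has exactly `2 (q - 1)` nonzero singular vectors -/
theorem card_singular_plane (C : Submodule F V) (hC : finrank F C = 2) (t u : V) (ht : t ∈ C)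
    (hu : u ∈ C) (hQt : Q t = 0) (hQu : Q u = 0) (hB : QuadraticMap.polar Q t u ≠ 0) :
    Nat.card {v : V // (v ≠ 0 ∧ Q v = 0) ∧ v ∈ C} = 2 * (Nat.card F - 1) := by
  have hcomb : ∀ a b : F, Q (a • t + b • u) = a * b * QuadraticMap.polar Q t u := by
    intro a b
    rw [QuadraticMap.map_add (⇑Q) (a • t) (b • u), QuadraticMap.map_smul, QuadraticMap.map_smul,
      hQt, hQu,
      QuadraticMap.polar_smul_left, QuadraticMap.polar_smul_right]
    simp only [smul_eq_mul]
    ring
  have ht0 : t ≠ 0 := by
    rintro rfl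
    exact hB (QuadraticMap.polar_zero_left Q u)
  have hu0 : u ≠ 0 := by
    rintro rfl
    exact hB (QuadraticMap.polar_zero_right Q t)
  have hli : LinearIndependent F ![t, u] := by
    rw [LinearIndependent.pair_iff]
    intro a b hab
    have h1 : QuadraticMap.polar Q (a • t + b • u) u = 0 := by
      rw [hab, QuadraticMap.polar_zero_left]
    have h2 : QuadraticMap.polar Q t (a • t + b • u) = 0 := by
      rw [hab, QuadraticMap.polar_zero_right]
    rw [QuadraticMap.polar_add_left, QuadraticMap.polar_smul_left, QuadraticMap.polar_smul_left,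
      QuadraticMap.polar_self, hQu] at h1
    rw [QuadraticMap.polar_add_right, QuadraticMap.polar_smul_right,
      QuadraticMap.polar_smul_right, QuadraticMap.polar_self, hQt] at h2
    simp only [smul_eq_mul, mul_zero, smul_zero, add_zero, zero_add, mul_eq_zero] at h1 h2
    exact ⟨h1.resolve_right hB, h2.resolve_right hB⟩
  have hspan : Submodule.span F (Set.range ![t, u]) = C := by
    refine Submodule.eq_of_le_of_finrank_le ?_ ?_
    · rw [Submodule.span_le]
      rintro _ ⟨i, rfl⟩
      fin_cases i
      · exact ht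
      · exact hu
    · rw [hC, finrank_span_eq_card hli]
      simp
  have hrep : ∀ v ∈ C, ∃ a b : F, v = a • t + b • u := by
    intro v hv
    rw [← hspan, Submodule.mem_span_range_iff_exists_fun] at hv
    obtain ⟨c, hc⟩ := hv
    refine ⟨c 0, c 1, ?_⟩
    rw [← hc, Fin.sum_univ_two]
    simp
  let g : Fˣ ⊕ Fˣ → {v : V // (v ≠ 0 ∧ Q v = 0) ∧ v ∈ C} := fun s =>
    match s with
    | Sum.inl a => ⟨(a : F) • t, ⟨smul_ne_zero a.ne_zero ht0, by
        rw [QuadraticMap.map_smul, hQt, smul_zero]⟩, C.smul_mem _ ht⟩
    | Sum.inr b => ⟨(b : F) • u, ⟨smul_ne_zero b.ne_zero hu0, by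
        rw [QuadraticMap.map_smul, hQu, smul_zero]⟩, C.smul_mem _ hu⟩
  have hne : ∀ a b : Fˣ, (a : F) • t ≠ (b : F) • u := by
    intro a b h
    have h1 : QuadraticMap.polar Q ((a : F) • t) u = QuadraticMap.polar Q ((b : F) • u) u := by
      rw [h]
    rw [QuadraticMap.polar_smul_left, QuadraticMap.polar_smul_left, QuadraticMap.polar_self,
      hQu] at h1
    simp only [smul_eq_mul, mul_zero, smul_zero, mul_eq_zero] at h1
    rcases h1 with h1 | h1
    · exact a.ne_zero h1
    · exact hB h1
  have hbij : Function.Bijective g := by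
    constructor
    · rintro (a | a) (b | b) hab
      · have h1 : (a : F) • t = (b : F) • t := congrArg Subtype.val hab
        have h2 := smul_left_injective F ht0 h1
        rw [Units.ext h2]
      · exact absurd (congrArg Subtype.val hab) (hne a b)
      · exact absurd (congrArg Subtype.val hab).symm (hne b a)
      · have h1 : (a : F) • u = (b : F) • u := congrArg Subtype.val hab
        have h2 := smul_left_injective F hu0 h1
        rw [Units.ext h2]
    · rintro ⟨v, ⟨hv0, hQv⟩, hvC⟩
      obtain ⟨a, b, rfl⟩ := hrep v hvC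
      rw [hcomb] at hQv
      have h1 : a = 0 ∨ b = 0 := by
        rcases mul_eq_zero.1 hQv with h | h
        · exact mul_eq_zero.1 h
        · exact absurd h hB
      rcases h1 with rfl | rfl
      · have hb : b ≠ 0 := by
          rintro rfl
          simp at hv0
        refine ⟨Sum.inr (Units.mk0 b hb), ?_⟩
        apply Subtype.ext
        simp [g]
      · have ha : a ≠ 0 := by
          rintro rfl
          simp at hv0
        refine ⟨Sum.inl (Units.mk0 a ha), ?_⟩
        apply Subtype.ext
        simp [g]
  rw [← Nat.card_congr (Equiv.ofBijective g hbij), Nat.card_sum, Nat.card_units, two_mul]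

end oplus_aux

section oplus

variable {F V H : Type} [Field F] [Finite F] [AddCommGroup V] [Module F V] [Finite V]
  [Group H] [Finite H] (Q : QuadraticForm F V) (P : Polar F V H)

theorem o_ni (hPQ : ∀ v, P.q v = Q v) (hPB : ∀ x y, P.f x y = QuadraticMap.polar Q x y)
    {p m : ℕ} (h : PPD p (Nat.card F) m) (hm : 3 ≤ m) (hV : finrank F V ≤ m + 2)
    (hN : p ∣ Nat.card {v : V // v ≠ 0 ∧ Q v = 0}) {x : H} (hx : orderOf x = p) :
    P.NI x := by
  classical
  have hp : p.Prime := h.1
  have hfp : (P.ρ x) ^ p = 1 := by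
    rw [← map_pow, ← hx, pow_orderOf_eq_one, map_one]
  have hf1 : P.ρ x ≠ 1 := by
    intro h1
    have h2 : x = 1 := P.inj (by rw [h1, map_one])
    rw [h2, orderOf_one] at hx
    exact hp.one_lt.ne hx
  have hcompl := lin_isCompl h hfp
  have hrank := lin_le_finrank h hfp hf1
  set f := P.ρ x with hf
  set C := LinearMap.ker (f - 1) with hC
  set M := LinearMap.range (f - 1) with hM
  have hmemC : ∀ v, v ∈ C ↔ f v = v := by
    intro v
    rw [hC, LinearMap.mem_ker, LinearMap.sub_apply, Module.End.one_apply, sub_eq_zero]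
  have hsum : finrank F C + finrank F M = finrank F V := by
    rw [add_comm]
    exact LinearMap.finrank_range_add_finrank_ker (f - 1)
  have hC2 : finrank F C ≤ 2 := by omega
  have hBinv : ∀ y z, QuadraticMap.polar Q (f y) (f z) = QuadraticMap.polar Q y z := by
    intro y z
    rw [← hPB, ← hPB, hf, P.f_inv]
  have hQinv : ∀ y, Q (f y) = Q y := by
    intro y
    rw [← hPQ, ← hPQ, hf, P.q_inv]
  have hCM : ∀ y ∈ C, ∀ z ∈ M, QuadraticMap.polar Q y z = 0 := by
    rintro y hy z ⟨u, rfl⟩
    have h1 := (hmemC y).1 hy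
    have h2 : QuadraticMap.polar Q y (f u) = QuadraticMap.polar Q y u := by
      conv_lhs => rw [← h1]
      exact hBinv y u
    rw [LinearMap.sub_apply, Module.End.one_apply, QuadraticMap.polar_sub_right, h2, sub_self]
  have hdec : ∀ z : V, ∃ y ∈ C, ∃ w ∈ M, y + w = z := by
    intro z
    have h1 : z ∈ C ⊔ M := by rw [hcompl.sup_eq_top]; exact Submodule.mem_top
    exact Submodule.mem_sup.1 h1
  have hnd : ∀ y : V, (∀ z, QuadraticMap.polar Q y z = 0) → y = 0 := by
    intro y hy
    exact P.f_nondeg y fun z => by rw [hPB]; exact hy z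
  have hndC : ∀ y ∈ C, (∀ z ∈ C, QuadraticMap.polar Q y z = 0) → y = 0 := by
    intro y hy hz
    refine hnd y fun z => ?_
    obtain ⟨a, ha, b, hb, rfl⟩ := hdec z
    rw [QuadraticMap.polar_add_right, hz a ha, hCM y hy b hb, add_zero]
  intro T hTx hTs
  have hTB : ∀ s ∈ T, ∀ t ∈ T, QuadraticMap.polar Q s t = 0 := by
    intro s hs t ht
    rw [← hPB]; exact hTs.1 s hs t ht
  have hTQ : ∀ t ∈ T, Q t = 0 := by
    intro t ht
    rw [← hPQ]; exact hTs.2 t ht
  rcases lin_or h hfp (by omega) hTx with hle | hle
  · -- `T ≤ fix`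
    by_contra hT
    obtain ⟨t, htT, ht0⟩ := (Submodule.ne_bot_iff T).1 hT
    have htC : t ∈ C := hle htT
    have hQt := hTQ t htT
    obtain ⟨u, huC, hu⟩ : ∃ u ∈ C, QuadraticMap.polar Q t u ≠ 0 := by
      by_contra hcon
      push Not at hcon
      exact ht0 (hndC t htC hcon)
    -- hyperbolic pair
    set c : F := Q u / QuadraticMap.polar Q t u with hc
    set u' : V := u - c • t with hu'
    have hu'C : u' ∈ C := C.sub_mem huC (C.smul_mem _ htC)
    have hBu' : QuadraticMap.polar Q t u' = QuadraticMap.polar Q t u := by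
      rw [hu', QuadraticMap.polar_sub_right, QuadraticMap.polar_smul_right,
        QuadraticMap.polar_self, hQt]
      simp
    have hQu' : Q u' = 0 := by
      have h1 : Q u' = Q u + Q (-(c • t)) + QuadraticMap.polar Q u (-(c • t)) := by
        rw [hu', sub_eq_add_neg]
        exact QuadraticMap.map_add (⇑Q) u (-(c • t))
      rw [h1, QuadraticMap.map_neg, QuadraticMap.map_smul, hQt, QuadraticMap.polar_neg_right,
        QuadraticMap.polar_smul_right, QuadraticMap.polar_comm Q u t, hc]
      simp only [smul_eq_mul, mul_zero, add_zero]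
      rw [div_mul_cancel₀ _ hu, add_neg_cancel]
    have hBu'0 : QuadraticMap.polar Q t u' ≠ 0 := by rw [hBu']; exact hu
    have hC2' : finrank F C = 2 := by
      refine le_antisymm hC2 ?_
      by_contra hlt
      have hC1 : finrank F C ≤ 1 := by omega
      have h1 : ∃ a : F, a • t = u' := by
        have ht0' : (⟨t, htC⟩ : C) ≠ 0 := by
          intro h0
          exact ht0 (congrArg Subtype.val h0)
        obtain ⟨v, hv⟩ := finrank_le_one_iff.1 hC1
        obtain ⟨a, ha⟩ := hv ⟨t, htC⟩
        obtain ⟨b, hb⟩ := hv ⟨u', hu'C⟩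
        have ha0 : a ≠ 0 := by
          rintro rfl
          rw [zero_smul] at ha
          exact ht0' ha.symm
        refine ⟨b * a⁻¹, ?_⟩
        have ha' : t = a • (v : V) := by
          have := congrArg Subtype.val ha
          simpa using this.symm
        have hb' : u' = b • (v : V) := by
          have := congrArg Subtype.val hb
          simpa using this.symm
        rw [ha', hb', smul_smul, mul_assoc, inv_mul_cancel₀ ha0, mul_one]
      obtain ⟨a, ha⟩ := h1
      apply hBu'0
      rw [← ha, QuadraticMap.polar_smul_right, QuadraticMap.polar_self, hQt]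
      simp
    have hcard := card_singular_plane Q C hC2' t u' htC hu'C hQt hQu' hBu'0
    -- the action on the singular vectors
    have : Fact p.Prime := ⟨hp⟩
    let X := {v : V // v ≠ 0 ∧ Q v = 0}
    letI : Fintype X := Fintype.ofFinite X
    have hinjf : Function.Injective f := by
      intro a b hab
      have h1 : ∀ z, P.ρ x⁻¹ (f z) = z := by
        intro z
        rw [hf, ← Module.End.mul_apply, ← map_mul]
        simp
      rw [← h1 a, ← h1 b, hab]
    let σ : Function.End X := fun v => ⟨f v.1, ⟨fun h0 => v.2.1 (hinjf (by rw [h0, map_zero])),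
      by rw [hQinv]; exact v.2.2⟩⟩
    have hσn : ∀ (n : ℕ) (v : X), ((σ ^ n) v).1 = (f ^ n) v.1 := by
      intro n
      induction n with
      | zero => intro v; rfl
      | succ n ih =>
        intro v
        rw [pow_succ', pow_succ', Module.End.mul_apply, ← ih v]
        rfl
    have hσ : σ ^ p ^ 1 = 1 := by
      funext v
      apply Subtype.ext
      rw [hσn, pow_one, hfp]
      rfl
    have hmod := Equiv.Perm.card_fixedPoints_modEq hσ
    have hfix : Fintype.card (Function.fixedPoints σ) = 2 * (Nat.card F - 1) := by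
      rw [← hcard, ← Nat.card_eq_fintype_card]
      refine Nat.card_congr ?_
      refine
        { toFun := fun v => ⟨v.1.1, v.1.2, (hmemC _).2 (congrArg Subtype.val v.2)⟩
          invFun := fun v => ⟨⟨v.1, v.2.1⟩, Subtype.ext ((hmemC _).1 v.2.2)⟩
          left_inv := fun v => rfl
          right_inv := fun v => rfl }
    have hpX : p ∣ Fintype.card X := by
      rw [← Nat.card_eq_fintype_card]
      exact hN
    have hpfix : p ∣ 2 * (Nat.card F - 1) := by
      rw [← hfix]
      exact (Nat.modEq_zero_iff_dvd.1 (hmod.symm.trans (Nat.modEq_zero_iff_dvd.2 hpX)))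
    have hnot : ¬ p ∣ Nat.card F - 1 := by
      have := h.2.2.2 1 one_pos (by omega)
      rwa [pow_one] at this
    rcases (hp.dvd_mul).1 hpfix with h2 | h2
    · have hp2 : p = 2 := (Nat.prime_dvd_prime_iff_eq hp Nat.prime_two).1 h2
      -- `q` is odd because `2 ∣ q ^ m - 1`
      apply hnot
      have h3 := h.2.2.1
      rw [hp2] at h3 ⊢
      have hq1 : 1 ≤ Nat.card F := Nat.card_pos
      have hodd : Odd (Nat.card F) := by
        by_contra hne
        rw [Nat.not_odd_iff_even] at hne
        have h4 : Even (Nat.card F ^ m) := (Nat.even_pow.2 ⟨hne, by omega⟩)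
        have h5 : 1 ≤ Nat.card F ^ m := Nat.one_le_pow _ _ hq1
        obtain ⟨a, ha⟩ := h4
        obtain ⟨b, hb⟩ := h3
        omega
      obtain ⟨a, ha⟩ := hodd
      exact ⟨a, by omega⟩
    · exact hnot h2
  · -- `mov ≤ T`
    exfalso
    have h1 : ∀ y ∈ M, y = 0 := by
      intro y hy
      refine hnd y fun z => ?_
      obtain ⟨a, ha, b, hb, rfl⟩ := hdec z
      rw [QuadraticMap.polar_add_right, hTB y (hle hy) b (hle hb), add_zero,
        QuadraticMap.polar_comm]
      exact hCM a ha y hy
    have h2 : M = ⊥ := (Submodule.eq_bot_iff M).2 h1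
    rw [h2, finrank_bot] at hrank
    omega

end oplus

end Pool.Agent.Lib.MP_bfe725_co
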