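import Pool.Agent.Lib.MP_bfe725_co.FinalAux
import Pool.Agent.Lib.MP_bfe725_co.OGeom
import Pool.Agent.Lib.MP_bfe725_co.OCount
import Pool.Agent.Lib.MP_bfe725_co.OPlus
import Pool.Agent.Lib.MP_bfe725_co.OChar2
import Pool.Agent.Lib.MP_bfe725_co.PolarNorm
import Pool.Agent.Lib.MP_bfe725_co.Zsig

/-!
# The orthogonal groups, assembly

(helper93, problem MP_bfe725_co)
-/

set_option autoImplicit false

namespace Pool.Agent.Lib.MP_bfe725_co

open Module

variable {F V : Type} [Field F] [Finite F] [AddCommGroup V] [Module F V] [Finite V]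

theorem fin_equiv : Finite (V ≃ₗ[F] V) :=
  Finite.of_injective (fun g : V ≃ₗ[F] V => (g : V → V)) DFunLike.coe_injective

theorem fin_eo (Q : QuadraticForm F V) : Finite (EO Q) :=
  have := fin_equiv (F := F) (V := V)
  inferInstance

theorem o_critZ (Q : QuadraticForm F V) (hQ : ∀ x, (∀ y, QuadraticMap.polar Q x y = 0) → x = 0)
    (hV : 5 ≤ finrank F V) {p m r : ℕ} (hr : r.Prime) [CharP F r] (h : PPD p (Nat.card F) m)
    (hm : 3 ≤ m) (hV' : finrank F V ≤ m + 2) (hN : p ∣ Nat.card {v : V // v ≠ 0 ∧ Q v = 0}) :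
    CritZ (EO Q) (Subgroup.center (EO Q)) p r := by
  have hfin : Finite (EO Q) := fin_eo Q
  obtain ⟨P, hG, hq, hf, hρ⟩ := eo_geom Q hQ hV
  have hNI : ∀ x : EO Q, orderOf x = p → P.NI x := fun x hx => o_ni Q P hq hf h hm hV' hN hx
  have hcard : p ∣ Nat.card {v : V // v ≠ 0 ∧ P.q v = 0} := by
    have : Nat.card {v : V // v ≠ 0 ∧ P.q v = 0} = Nat.card {v : V // v ≠ 0 ∧ Q v = 0} :=
      Nat.card_congr (Equiv.subtypeEquivRight fun v => by rw [hq])
    rw [this]; exact hN
  refine ⟨h.1, hr, ?_, hG.char_dvd hr, fun R hR => lin_cyclic P.ρ P.inj h (by omega) R hR, ?_,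
    fun B hZ hB hpB => hG.big h.1 hr hNI B hZ hB hpB⟩
  · refine hG.dvd_card h.1 ?_ hcard
    have h1 := h.2.2.2 1 one_pos (by omega)
    rwa [pow_one] at h1
  · intro x S hx hS hxS
    by_cases h2 : r = 2
    · subst h2
      exact o_norm_char2 Q hQ hV P hq hf hρ h hm hV' hx (hNI x hx) S hS hxS
    · refine Polar.norm (fun v hv => ?_) hr (hNI x hx) S hS hxS
      rw [hf, QuadraticMap.polar_self] at hv
      rw [hq]
      have h3 : (2 : F) ≠ 0 := by
        intro h0
        have h4 : ((2 : ℕ) : F) = 0 := by exact_mod_cast h0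
        rw [CharP.cast_eq_zero_iff F r] at h4
        exact h2 ((Nat.prime_dvd_prime_iff_eq hr Nat.prime_two).mp h4)
      rw [nsmul_eq_mul, Nat.cast_ofNat] at hv
      exact (mul_eq_zero.mp hv).resolve_left h3

/-- `T(PΩ × PΩ) = 3`, with the two exceptions in which there is no suitable prime -/
theorem o_isGreatest (Q : QuadraticForm F V)
    (hQ : ∀ x, (∀ y, QuadraticMap.polar Q x y = 0) → x = 0) (hV : 5 ≤ finrank F V)
    (h6 : ¬ (Nat.card F = 2 ∧ finrank F V = 6 ∧ Nat.card {v : V // Q v = 0} = 28))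
    (h8 : ¬ (Nat.card F = 2 ∧ finrank F V = 8 ∧ Nat.card {v : V // Q v = 0} = 136)) :
    IsGreatest (pcpDegrees ((EO Q ⧸ Subgroup.center (EO Q)) ×
      (EO Q ⧸ Subgroup.center (EO Q)))) 3 := by
  have hfin : Finite (EO Q) := fin_eo Q
  obtain ⟨r, hr, hc⟩ := fin_char F
  have hq2 := fin_card_ge F
  have h1 := fin_count (V := V) (fun v => Q v = 0) (by simp)
  set N := Nat.card {v : V // v ≠ 0 ∧ Q v = 0} with hNdef
  rcases o_count Q hQ with ⟨k, hk, hodd, hcount⟩ | ⟨k, hk, hcount⟩ | ⟨k, hk, hk1, hcount⟩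
  · -- odd dimension
    have hne : ¬ (Nat.card F = 2 ∧ 2 * k = 6) := by
      rintro ⟨h, -⟩
      rw [h] at hodd
      exact absurd hodd (by decide)
    obtain ⟨p, hp⟩ := exists_ppd hq2 (m := 2 * k) (by omega) hne
    refine (o_critZ Q hQ hV hr hp (by omega) (by omega) ?_).isGreatest
    rw [← hNdef]
    have : N = Nat.card F ^ (2 * k) - 1 := by omega
    rw [this]
    exact hp.2.2.1
  · -- plus type
    obtain ⟨l, rfl⟩ : ∃ l, k = l + 1 := ⟨k - 1, by omega⟩
    have hne : ¬ (Nat.card F = 2 ∧ 2 * l = 6) := by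
      rintro ⟨h, hl⟩
      obtain rfl : l = 3 := by omega
      refine h8 ⟨h, hk, ?_⟩
      rw [h] at hcount
      norm_num at hcount
      omega
    obtain ⟨p, hp⟩ := exists_ppd hq2 (m := 2 * l) (by omega) hne
    refine (o_critZ Q hQ hV hr hp (by omega) (by omega) ?_).isGreatest
    rw [← hNdef]
    -- `N = (q^k - 1)(q^l + 1)`
    have e : (N : ℤ) = ((Nat.card F : ℤ) ^ l + 1) * ((Nat.card F : ℤ) ^ (l + 1) - 1) := by
      have hc' : ((Nat.card F : ℤ) ^ (l + 1) + (N + 1) * Nat.card F) =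
          (Nat.card F : ℤ) ^ (2 * (l + 1)) + (Nat.card F : ℤ) ^ (l + 1 + 1) := by
        rw [h1] at hcount
        exact_mod_cast hcount
      have hq0 : (Nat.card F : ℤ) ≠ 0 := by
        have : Nat.card F ≠ 0 := by omega
        exact_mod_cast this
      apply mul_right_cancel₀ hq0
      linear_combination hc'
    have hd := fin_ppd_plus hq2 (by omega) hp
    apply Int.natCast_dvd_natCast.mp
    rw [e]
    exact hd.mul_right _
  · -- minus type
    have hne : ¬ (Nat.card F = 2 ∧ 2 * k = 6) := by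
      rintro ⟨h, hl⟩
      obtain rfl : k = 3 := by omega
      refine h6 ⟨h, hk, ?_⟩
      rw [h] at hcount
      norm_num at hcount
      omega
    obtain ⟨l, rfl⟩ : ∃ l, k = l + 1 := ⟨k - 1, by omega⟩
    obtain ⟨p, hp⟩ := exists_ppd hq2 (m := 2 * (l + 1)) (by omega) hne
    refine (o_critZ Q hQ hV hr hp (by omega) (by omega) ?_).isGreatest
    rw [← hNdef]
    have e : (N : ℤ) = ((Nat.card F : ℤ) ^ (l + 1) + 1) * ((Nat.card F : ℤ) ^ l - 1) := by
      have hc' : (((N : ℤ) + 1) * Nat.card F + (Nat.card F : ℤ) ^ (l + 1 + 1)) =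
          (Nat.card F : ℤ) ^ (2 * (l + 1)) + (Nat.card F : ℤ) ^ (l + 1) := by
        rw [h1] at hcount
        exact_mod_cast hcount
      have hq0 : (Nat.card F : ℤ) ≠ 0 := by
        have : Nat.card F ≠ 0 := by omega
        exact_mod_cast this
      apply mul_right_cancel₀ hq0
      linear_combination hc'
    have hd := fin_ppd_plus hq2 (by omega) hp
    apply Int.natCast_dvd_natCast.mp
    rw [e]
    exact hd.mul_right _

end Pool.Agent.Lib.MP_bfe725_co
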