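import Pool.Agent.Lib.MP_bfe725_co.CDefs

/-!
# MP_bfe725_co, module SUGEN: `SU` is generated by unitary root elements
-/

set_option autoImplicit false

namespace Pool.Agent.Lib.MP_bfe725_co

open Module

section sugenField

variable {F : Type} [Field F] [StarRing F]

theorem sugen_trace (hs : ∃ a : F, star a ≠ a) (c : F) (hc : star c = c) :
    ∃ t : F, t + star t = c := by
  have h1 : ∃ s : F, s + star s ≠ 0 := by
    by_contra hcon
    push Not at hcon
    obtain ⟨a, ha⟩ := hs
    have h2 : (1 : F) + 1 = 0 := by simpa using hcon 1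
    apply ha
    have h3 := hcon a
    linear_combination h3 - a * h2
  obtain ⟨s, hs'⟩ := h1
  refine ⟨c * s / (s + star s), ?_⟩
  rw [star_div₀, star_mul', hc, star_add, star_star, add_comm (star s) s, ← add_div, ← mul_add]
  field_simp

theorem sugen_traceless (hs : ∃ a : F, star a ≠ a) : ∃ c : F, c ≠ 0 ∧ c + star c = 0 := by
  obtain ⟨a, ha⟩ := hs
  refine ⟨a - star a, sub_ne_zero.2 (Ne.symm ha), ?_⟩
  rw [star_sub, star_star]
  ring

theorem sugen_norm [Finite F] (hs : ∃ a : F, star a ≠ a) (c : F) (hc : star c = c) :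
    ∃ t : F, t * star t = c := by
  by_cases hc0 : c = 0
  · exact ⟨0, by simp [hc0]⟩
  let N : Fˣ →* Fˣ :=
    { toFun := fun x => x * star x
      map_one' := by simp
      map_mul' := fun x y => by
        rw [star_mul]
        rw [mul_comm (star y) (star x), mul_mul_mul_comm] }
  let D : Fˣ →* Fˣ :=
    { toFun := fun x => x * (star x)⁻¹
      map_one' := by simp
      map_mul' := fun x y => by
        rw [star_mul, mul_inv_rev, mul_mul_mul_comm] }
  have hN : ∀ x, N x = x * star x := fun x => rfl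
  have hD : ∀ x, D x = x * (star x)⁻¹ := fun x => rfl
  -- Hilbert 90
  have h90 : N.ker = D.range := by
    ext x
    rw [MonoidHom.mem_ker, MonoidHom.mem_range]
    constructor
    · intro hx
      rw [hN] at hx
      have hx' : (x : F) * star (x : F) = 1 := by
        have := congrArg (Units.val) hx
        simpa using this
      -- find `y ≠ 0` with `y = x * star y`
      have : ∃ y : F, y ≠ 0 ∧ y = x * star y := by
        by_cases h1 : (x : F) = -1
        · obtain ⟨a, ha0, ha⟩ := sugen_traceless hs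
          exact ⟨a, ha0, by rw [h1]; linear_combination ha⟩
        · refine ⟨1 + x, ?_, ?_⟩
          · intro h
            apply h1
            linear_combination h
          · rw [star_add, star_one]
            linear_combination -hx'
      obtain ⟨y, hy0, hy⟩ := this
      refine ⟨Units.mk0 y hy0, ?_⟩
      rw [hD]
      rw [mul_inv_eq_iff_eq_mul]
      ext
      simpa using hy
    · rintro ⟨y, rfl⟩
      rw [hN, hD]
      rw [star_mul, star_inv, star_star]
      rw [mul_comm (y⁻¹) (star y)]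
      rw [mul_assoc, ← mul_assoc (star y)⁻¹]
      simp
  have h3 : N.range ≤ D.ker := by
    rintro _ ⟨x, rfl⟩
    rw [MonoidHom.mem_ker, hN, hD, star_mul, star_star]
    simp
  have c1 := Subgroup.card_mul_index N.ker
  have c2 := Subgroup.card_mul_index D.ker
  rw [Subgroup.index_ker] at c1 c2
  rw [h90] at c1
  have c3 : Nat.card N.range = Nat.card D.ker := by
    have hpos : 0 < Nat.card D.range := Nat.card_pos
    have : Nat.card D.range * Nat.card N.range = Nat.card D.range * Nat.card D.ker := by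
      rw [c1, ← c2, mul_comm]
    exact Nat.eq_of_mul_eq_mul_left hpos this
  have h4 : N.range = D.ker := Subgroup.eq_of_le_of_card_ge h3 (le_of_eq c3.symm)
  have h5 : Units.mk0 c hc0 ∈ D.ker := by
    rw [MonoidHom.mem_ker, hD, mul_inv_eq_one]
    ext
    simpa using hc.symm
  rw [← h4] at h5
  obtain ⟨x, hx⟩ := h5
  refine ⟨x, ?_⟩
  have := congrArg (Units.val) hx
  simpa [hN] using this

end sugenField

section sugen

variable {F V : Type} [Field F] [StarRing F] [AddCommGroup V] [Module F V] (h : Herm F V)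

theorem sugen_add_right (x y z : V) : h.f x (y + z) = h.f x y + h.f x z := by
  rw [h.symm (y + z) x, h.add_left, star_add, ← h.symm, ← h.symm]

theorem sugen_smul_right (c : F) (x y : V) : h.f x (c • y) = star c * h.f x y := by
  rw [h.symm (c • y) x, h.smul_left, star_mul', ← h.symm]

theorem sugen_zero_left (y : V) : h.f 0 y = 0 := by
  have := h.smul_left 0 0 y
  simpa using this

theorem sugen_zero_right (y : V) : h.f y 0 = 0 := by
  rw [h.symm 0 y, sugen_zero_left, star_zero]

theorem sugen_neg_left (x y : V) : h.f (-x) y = - h.f x y := by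
  have := h.smul_left (-1) x y
  simpa using this

theorem sugen_neg_right (x y : V) : h.f x (-y) = - h.f x y := by
  have := sugen_smul_right h (-1) x y
  simpa using this

theorem sugen_sub_left (x y z : V) : h.f (x - y) z = h.f x z - h.f y z := by
  rw [sub_eq_add_neg, h.add_left, sugen_neg_left, sub_eq_add_neg]

theorem sugen_sub_right (x y z : V) : h.f x (y - z) = h.f x y - h.f x z := by
  rw [sub_eq_add_neg, sugen_add_right, sugen_neg_right, sub_eq_add_neg]

theorem sugen_symm0 {x y : V} (hxy : h.f x y = 0) : h.f y x = 0 := by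
  rw [h.symm x y, hxy, star_zero]

theorem sugen_self (x : V) : star (h.f x x) = h.f x x := (h.symm x x).symm

/-- the functional `z ↦ f z v` -/
def sugenL (v : V) : V →ₗ[F] F where
  toFun z := h.f z v
  map_add' x y := h.add_left x y v
  map_smul' c x := by simp [h.smul_left]

theorem sugenL_apply (v z : V) : sugenL h v z = h.f z v := rfl

theorem sugen_tau_exists [Finite V] (v d : V) (b : F) (hv : h.f v v = 0) (hd : h.f d v = 0)
    (hb : b + star b + h.f d d = 0) :
    ∃ g : V ≃ₗ[F] V, h.IsTau g v d b ∧ LinearEquiv.det g = 1 := by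
  have hd' : h.f v d = 0 := sugen_symm0 h hd
  set T : V →ₗ[F] V := (LinearMap.transvection (sugenL h d) (-v)).comp
    (LinearMap.transvection (sugenL h v) (d + (b + h.f d d) • v)) with hT
  have hdet : LinearMap.det T = 1 := by
    rw [hT, LinearMap.det_comp, LinearMap.transvection.det, LinearMap.transvection.det,
      sugenL_apply, sugenL_apply, h.add_left, h.smul_left, sugen_neg_left, hd', hd, hv]
    ring
  have hTz : ∀ z, T z = z + h.f z v • d - h.f z d • v + (b * h.f z v) • v := by
    intro z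
    rw [hT, LinearMap.comp_apply, LinearMap.transvection.apply, LinearMap.transvection.apply,
      sugenL_apply, sugenL_apply]
    rw [h.add_left, h.smul_left, h.add_left, h.smul_left, hd']
    module
  have hne : LinearMap.det T ≠ 0 := by rw [hdet]; exact one_ne_zero
  refine ⟨LinearMap.equivOfDetNeZero T hne, ⟨hv, hd, hb, fun z => hTz z⟩, ?_⟩
  ext
  rw [LinearEquiv.coe_det]
  change LinearMap.det T = 1
  exact hdet

theorem sugen_tau_isom {g : V → V} {v d : V} {b : F} (hg : h.IsTau g v d b) (x y : V) :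
    h.f (g x) (g y) = h.f x y := by
  obtain ⟨hv, hd, hb, hz⟩ := hg
  have hd' : h.f v d = 0 := sugen_symm0 h hd
  rw [hz x, hz y]
  simp only [h.add_left, h.smul_left, sugen_sub_left, sugen_add_right, sugen_smul_right,
    sugen_sub_right, hv, hd, hd', star_mul']
  rw [h.symm y d, h.symm y v]
  linear_combination (h.f x v * star (h.f y v)) * hb

/-- isometries of determinant one that fix `W^⊥` pointwise -/
def sugenS (W : Submodule F V) : Subgroup (V ≃ₗ[F] V) where
  carrier := {e | (∀ x y, h.f (e x) (e y) = h.f x y) ∧ LinearEquiv.det e = 1 ∧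
    ∀ z, (∀ w ∈ W, h.f z w = 0) → e z = z}
  one_mem' := ⟨fun _ _ => rfl, map_one _, fun _ _ => rfl⟩
  mul_mem' := by
    rintro a b ⟨a1, a2, a3⟩ ⟨b1, b2, b3⟩
    refine ⟨fun x y => ?_, by rw [map_mul, a2, b2, one_mul], fun z hz => ?_⟩
    · rw [LinearEquiv.mul_apply, LinearEquiv.mul_apply, a1, b1]
    · rw [LinearEquiv.mul_apply, b3 z hz, a3 z hz]
  inv_mem' := by
    rintro a ⟨a1, a2, a3⟩
    have hinv : ∀ z, a (a⁻¹ z) = z := fun z => a.apply_symm_apply z
    refine ⟨fun x y => ?_, by rw [map_inv, a2, inv_one], fun z hz => ?_⟩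
    · rw [← a1 (a⁻¹ x) (a⁻¹ y), hinv, hinv]
    · have := a3 z hz
      apply a.injective
      rw [hinv, this]

/-- `V = W ⊕ W^⊥` -/
def SugenSplit (W : Submodule F V) : Prop := ∀ z, ∃ y ∈ W, ∀ w ∈ W, h.f (z - y) w = 0

variable {h}

theorem SugenSplit.nondeg {W : Submodule F V} (hW : SugenSplit h W) {x : V} (hx : x ∈ W)
    (h0 : ∀ y ∈ W, h.f x y = 0) : x = 0 := by
  apply h.nondeg
  intro z
  obtain ⟨y, hy, hyz⟩ := hW z
  have h1 := sugen_symm0 h (hyz x hx)
  rw [sugen_sub_right] at h1
  rw [h0 y hy] at h1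
  simpa using h1

theorem SugenSplit.maps {W : Submodule F V} (hW : SugenSplit h W) {g : V ≃ₗ[F] V}
    (hg : g ∈ sugenS h W) {w : V} (hw : w ∈ W) : g w ∈ W := by
  obtain ⟨g1, g2, g3⟩ := hg
  obtain ⟨y, hy, hyz⟩ := hW (g w)
  have : g w - y = 0 := by
    apply h.nondeg
    intro z
    obtain ⟨y', hy', hyz'⟩ := hW z
    have e1 : h.f (g w - y) y' = 0 := hyz y' hy'
    have e2 : h.f (g w - y) (z - y') = 0 := by
      rw [sugen_sub_left]
      have e3 : h.f y (z - y') = 0 := sugen_symm0 h (hyz' y hy)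
      have e4 : g (z - y') = z - y' := g3 _ hyz'
      have e5 : h.f (g w) (z - y') = 0 := by
        rw [← e4, g1]
        exact sugen_symm0 h (hyz' w hw)
      rw [e3, e5, sub_zero]
    rw [sugen_sub_right, e1, sub_zero] at e2
    exact e2
  rw [sub_eq_zero.1 this]
  exact hy

/-- a hyperbolic partner -/
theorem SugenSplit.pair (hs : ∃ a : F, star a ≠ a) {W : Submodule F V} (hW : SugenSplit h W) {v : V}
    (hv : v ∈ W) (hv0 : v ≠ 0) (hvv : h.f v v = 0) : ∃ u ∈ W, h.f u u = 0 ∧ h.f u v = 1 := by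
  have : ∃ y ∈ W, h.f v y ≠ 0 := by
    by_contra hcon
    push Not at hcon
    exact hv0 (hW.nondeg hv hcon)
  obtain ⟨y, hy, hvy⟩ := this
  have hyv : h.f y v ≠ 0 := fun h0 => hvy (sugen_symm0 h h0)
  set w : V := (h.f y v)⁻¹ • y with hw
  have hwW : w ∈ W := W.smul_mem _ hy
  have hwv : h.f w v = 1 := by
    rw [hw, h.smul_left, inv_mul_cancel₀ hyv]
  have hvw : h.f v w = 1 := by rw [h.symm w v, hwv, star_one]
  obtain ⟨t, ht⟩ := sugen_trace hs (-h.f w w) (by rw [star_neg, sugen_self])
  refine ⟨w + t • v, W.add_mem hwW (W.smul_mem _ hv), ?_, ?_⟩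
  · simp only [h.add_left, h.smul_left, sugen_add_right, sugen_smul_right, hvv, hwv, hvw]
    linear_combination ht
  · rw [h.add_left, h.smul_left t v v, hwv, hvv]
    ring

/-- a common opposite -/
theorem SugenSplit.opp (hs : ∃ a : F, star a ≠ a) {W : Submodule F V} (hW : SugenSplit h W)
    {v w : V} (hv : v ∈ W) (hv0 : v ≠ 0) (hvv : h.f v v = 0) (hw : w ∈ W) (hw0 : w ≠ 0) :
    ∃ z ∈ W, h.f z z = 0 ∧ h.f z v ≠ 0 ∧ h.f z w ≠ 0 := by
  by_contra hcon
  push Not at hcon
  obtain ⟨u, hu, huu, huv⟩ := hW.pair hs hv hv0 hvv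
  have hvu : h.f v u = 1 := by rw [h.symm u v, huv, star_one]
  have huw : h.f u w = 0 := hcon u hu huu (by rw [huv]; exact one_ne_zero)
  obtain ⟨c, hc0, hc⟩ := sugen_traceless hs
  have hvw : h.f v w = 0 := by
    have := hcon (u + c • v) (W.add_mem hu (W.smul_mem _ hv)) (by
      simp only [h.add_left, h.smul_left, sugen_add_right, sugen_smul_right, hvv, huv, hvu, huu]
      linear_combination hc) (by
      rw [h.add_left, h.smul_left, huv, hvv]; simp)
    rw [h.add_left, h.smul_left, huw, zero_add] at this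
    exact (mul_eq_zero.1 this).resolve_left hc0
  have hdw : ∀ d ∈ W, h.f d v = 0 → h.f d w = 0 := by
    intro d hd hdv
    have hvd : h.f v d = 0 := sugen_symm0 h hdv
    obtain ⟨t, ht⟩ := sugen_trace hs (-(h.f u d + h.f d u + h.f d d)) (by
      rw [star_neg, star_add, star_add, sugen_self, ← h.symm, ← h.symm]
      ring)
    have := hcon (u + d + t • v) (W.add_mem (W.add_mem hu hd) (W.smul_mem _ hv)) (by
      simp only [h.add_left, h.smul_left, sugen_add_right, sugen_smul_right, hvv, huv, hvu, huu,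
        hdv, hvd]
      linear_combination ht) (by
      rw [h.add_left, h.add_left, h.smul_left, huv, hvv, hdv]; simp)
    rw [h.add_left, h.add_left, h.smul_left, huw, hvw] at this
    simpa using this
  apply hw0
  apply hW.nondeg hw
  intro y hy
  apply sugen_symm0 h
  have h1 := hdw (y - h.f y v • u) (W.sub_mem hy (W.smul_mem _ hu)) (by
    rw [sugen_sub_left, h.smul_left, huv]; ring)
  rw [sugen_sub_left, h.smul_left, huw] at h1
  simpa using h1

/-- an anisotropic vector -/
theorem SugenSplit.aniso (hs : ∃ a : F, star a ≠ a) {W : Submodule F V} (hW : SugenSplit h W)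
    (hW0 : W ≠ ⊥) : ∃ a ∈ W, h.f a a ≠ 0 := by
  by_contra hcon
  push Not at hcon
  obtain ⟨x, hx, hx0⟩ := (Submodule.ne_bot_iff W).1 hW0
  have : ∃ y ∈ W, h.f x y ≠ 0 := by
    by_contra hcon'
    push Not at hcon'
    exact hx0 (hW.nondeg hx hcon')
  obtain ⟨y, hy, hxy⟩ := this
  obtain ⟨a, ha⟩ := hs
  have h1 := hcon (x + y) (W.add_mem hx hy)
  have h2 := hcon (a • x + y) (W.add_mem (W.smul_mem _ hx) hy)
  simp only [h.add_left, h.smul_left, sugen_add_right, sugen_smul_right, hcon x hx,
    hcon y hy] at h1 h2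
  have h3 : (a - star a) * h.f x y = 0 := by linear_combination h2 - star a * h1
  rcases mul_eq_zero.1 h3 with h4 | h4
  · exact ha (sub_eq_zero.1 h4).symm
  · exact hxy h4

/-- the basic move -/
theorem sugen_move1 [Finite V] {E : Subgroup (V ≃ₗ[F] V)}
    (hE : ∀ (g : V ≃ₗ[F] V) (v d : V) (b : F), h.IsTau g v d b → g ∈ E) {W : Submodule F V}
    {u w v : V} (hu : u ∈ W) (hw : w ∈ W) (hv : v ∈ W) (huu : h.f u u = 0) (hww : h.f w w = 0)
    (hvv : h.f v v = 0) (huv : h.f u v = 1) (hwv : h.f w v = 1) :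
    ∃ e ∈ E, e ∈ sugenS h W ∧ e u = w ∧ e v = v := by
  have hd : h.f (w - u) v = 0 := by rw [sugen_sub_left, huv, hwv, sub_self]
  have hb : h.f u w + star (h.f u w) + h.f (w - u) (w - u) = 0 := by
    rw [← h.symm]
    simp only [sugen_sub_left, sugen_sub_right, huu, hww]
    ring
  obtain ⟨e, he, hdet⟩ := sugen_tau_exists h v (w - u) (h.f u w) hvv hd hb
  refine ⟨e, hE e _ _ _ he, ⟨sugen_tau_isom h he, hdet, ?_⟩, ?_, ?_⟩
  · intro z hz
    rw [he.2.2.2 z, hz v hv, hz _ (W.sub_mem hw hu)]
    simp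
  · rw [he.2.2.2 u, huv, sugen_sub_right, huu]
    module
  · rw [he.2.2.2 v, hvv, sugen_symm0 h hd]
    simp

theorem sugen_move [Finite V] {E : Subgroup (V ≃ₗ[F] V)}
    (hE : ∀ (g : V ≃ₗ[F] V) (v d : V) (b : F), h.IsTau g v d b → g ∈ E) {W : Submodule F V}
    {u w v : V} (hu : u ∈ W) (hw : w ∈ W) (hv : v ∈ W) (huu : h.f u u = 0) (hww : h.f w w = 0)
    (hvv : h.f v v = 0) (huv : h.f u v ≠ 0) (hwv : h.f w v = h.f u v) :
    ∃ e ∈ E, e ∈ sugenS h W ∧ e u = w ∧ e v = v := by
  set c : F := star ((h.f u v)⁻¹) with hc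
  have hc' : star c = (h.f u v)⁻¹ := by rw [hc, star_star]
  have hc0 : c ≠ 0 := by
    rw [hc]
    exact star_ne_zero.2 (inv_ne_zero huv)
  obtain ⟨e, he, he1, he2, he3⟩ := sugen_move1 (h := h) hE hu hw (W.smul_mem c hv) huu hww
    (by rw [h.smul_left, sugen_smul_right, hvv]; ring)
    (by rw [sugen_smul_right, hc', inv_mul_cancel₀ huv])
    (by rw [sugen_smul_right, hc', hwv, inv_mul_cancel₀ huv])
  refine ⟨e, he, he1, he2, ?_⟩
  rw [map_smul] at he3
  exact smul_right_injective V hc0 he3

/-- transitivity on isotropic points -/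
theorem sugen_point [Finite V] (hs : ∃ a : F, star a ≠ a) {E : Subgroup (V ≃ₗ[F] V)}
    (hE : ∀ (g : V ≃ₗ[F] V) (v d : V) (b : F), h.IsTau g v d b → g ∈ E) {W : Submodule F V}
    (hW : SugenSplit h W) {x y : V} (hx : x ∈ W) (hy : y ∈ W) (hx0 : x ≠ 0) (hy0 : y ≠ 0)
    (hxx : h.f x x = 0) (hyy : h.f y y = 0) :
    ∃ l : F, l ≠ 0 ∧ ∃ e ∈ E, e ∈ sugenS h W ∧ e (l • x) = y := by
  obtain ⟨z, hz, hzz, hzx, hzy⟩ := hW.opp hs hx hx0 hxx hy hy0
  have hxz : h.f x z ≠ 0 := fun h0 => hzx (sugen_symm0 h h0)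
  have hyz : h.f y z ≠ 0 := fun h0 => hzy (sugen_symm0 h h0)
  have e1 : h.f ((h.f y z / h.f x z) • x) z = h.f y z := by
    rw [h.smul_left, div_mul_cancel₀ _ hxz]
  obtain ⟨e, he, he1, he2, -⟩ := sugen_move (h := h) hE (u := (h.f y z / h.f x z) • x) (w := y)
    (v := z) (W.smul_mem _ hx) hy hz (by rw [h.smul_left, sugen_smul_right, hxx]; ring) hyy hzz
    (by rw [e1]; exact hyz) e1.symm
  exact ⟨_, div_ne_zero hyz hxz, e, he, he1, he2⟩

/-- moves `v` to `l v` in the presence of a third dimension -/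
theorem sugen_scale3 [Finite F] [Finite V] (hs : ∃ a : F, star a ≠ a) {E : Subgroup (V ≃ₗ[F] V)}
    (hE : ∀ (g : V ≃ₗ[F] V) (v d : V) (b : F), h.IsTau g v d b → g ∈ E) {W : Submodule F V}
    {u v a : V} (hu : u ∈ W) (hv : v ∈ W) (ha : a ∈ W) (huu : h.f u u = 0) (hvv : h.f v v = 0)
    (huv : h.f u v = 1) (hau : h.f a u = 0) (hav : h.f a v = 0) (haa : h.f a a ≠ 0) {l : F}
    (hl : l ≠ 0) : ∃ e ∈ E, e ∈ sugenS h W ∧ e v = l • v := by
  have hvu : h.f v u = 1 := by rw [h.symm u v, huv, star_one]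
  have hua : h.f u a = 0 := sugen_symm0 h hau
  have hva : h.f v a = 0 := sugen_symm0 h hav
  obtain ⟨c, hc0, hc⟩ := sugen_traceless hs
  have hcs0 : star c ≠ 0 := star_ne_zero.2 hc0
  set d : F := (l - 1) / star c with hd
  have hdc : d * star c = l - 1 := by rw [hd, div_mul_cancel₀ _ hcs0]
  obtain ⟨t, ht⟩ := sugen_norm hs (-(d + star d) / h.f a a) (by
    rw [star_div₀, sugen_self, star_neg, star_add, star_star, add_comm])
  have ht' : t * star t * h.f a a = -(d + star d) := by
    rw [ht, div_mul_cancel₀ _ haa]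
  -- the intermediate vector
  have hw1 : v + t • a + d • u ∈ W :=
    W.add_mem (W.add_mem hv (W.smul_mem _ ha)) (W.smul_mem _ hu)
  have hw11 : h.f (v + t • a + d • u) (v + t • a + d • u) = 0 := by
    simp only [h.add_left, h.smul_left, sugen_add_right, sugen_smul_right, hvv, huv, hvu, huu,
      hau, hav, hua, hva]
    linear_combination ht'
  have hw1u : h.f (v + t • a + d • u) u = 1 := by
    simp only [h.add_left, h.smul_left, hvu, hau, huu]
    ring
  have hu2 : u + c • v ∈ W := W.add_mem hu (W.smul_mem _ hv)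
  have hu22 : h.f (u + c • v) (u + c • v) = 0 := by
    simp only [h.add_left, h.smul_left, sugen_add_right, sugen_smul_right, hvv, huv, hvu, huu]
    linear_combination hc
  have hw1u2 : h.f (v + t • a + d • u) (u + c • v) = l := by
    simp only [h.add_left, h.smul_left, sugen_add_right, sugen_smul_right, hvv, huv, hvu, huu,
      hau, hav]
    linear_combination hdc
  obtain ⟨e1, q1, q2, q3, -⟩ := sugen_move (h := h) hE hv hw1 hu hvv hw11 huu
    (by rw [hvu]; exact one_ne_zero) (by rw [hvu, hw1u])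
  obtain ⟨e2, r1, r2, r3, -⟩ := sugen_move (h := h) hE (w := l • v) hw1 (W.smul_mem l hv) hu2 hw11
    (by rw [h.smul_left, sugen_smul_right, hvv]; ring) hu22 (by rw [hw1u2]; exact hl) (by
      rw [hw1u2, h.smul_left, sugen_add_right, sugen_smul_right, hvv, hvu]
      ring)
  refine ⟨e2 * e1, E.mul_mem r1 q1, (sugenS h W).mul_mem r2 q2, ?_⟩
  rw [LinearEquiv.mul_apply, q3, r3]

/-- moves `v` to `l v`, `l` in the fixed field -/
theorem sugen_scale2 [Finite V] (hs : ∃ a : F, star a ≠ a) {E : Subgroup (V ≃ₗ[F] V)}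
    (hE : ∀ (g : V ≃ₗ[F] V) (v d : V) (b : F), h.IsTau g v d b → g ∈ E) {W : Submodule F V}
    {u v : V} (hu : u ∈ W) (hv : v ∈ W) (huu : h.f u u = 0) (hvv : h.f v v = 0)
    (huv : h.f u v = 1) {l : F} (hl : l ≠ 0) (hls : star l = l) :
    ∃ e ∈ E, e ∈ sugenS h W ∧ e v = l • v := by
  have hvu : h.f v u = 1 := by rw [h.symm u v, huv, star_one]
  obtain ⟨c, hc0, hc⟩ := sugen_traceless hs
  have h1 : v + c • u ∈ W := W.add_mem hv (W.smul_mem _ hu)
  have h2 : l • v + c • u ∈ W := W.add_mem (W.smul_mem _ hv) (W.smul_mem _ hu)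
  have h3 : l • v ∈ W := W.smul_mem _ hv
  have h11 : h.f (v + c • u) (v + c • u) = 0 := by
    simp only [h.add_left, h.smul_left, sugen_add_right, sugen_smul_right, hvv, huv, hvu, huu]
    linear_combination hc
  have h22 : h.f (l • v + c • u) (l • v + c • u) = 0 := by
    simp only [h.add_left, h.smul_left, sugen_add_right, sugen_smul_right, hvv, huv, hvu, huu, hls]
    linear_combination l * hc
  have h33 : h.f (l • v) (l • v) = 0 := by
    rw [h.smul_left, sugen_smul_right, hvv]; ring
  obtain ⟨e1, q1, q2, q3, -⟩ := sugen_move (h := h) hE hv h1 hu hvv h11 huu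
    (by rw [hvu]; exact one_ne_zero) (by rw [hvu, h.add_left, h.smul_left, huu, hvu]; ring)
  have h1v : h.f (v + c • u) v = c := by
    rw [h.add_left, h.smul_left, hvv, huv]; ring
  obtain ⟨e2, r1, r2, r3, -⟩ := sugen_move (h := h) hE h1 h2 hv h11 h22 hvv
    (by rw [h1v]; exact hc0) (by
      rw [h1v]
      simp only [h.add_left, h.smul_left, hvv, huv]; ring)
  have h2u : h.f (l • v + c • u) u = l := by
    simp only [h.add_left, h.smul_left, huu, hvu]; ring
  obtain ⟨e3, s1, s2, s3, -⟩ := sugen_move (h := h) hE h2 h3 hu h22 h33 huu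
    (by rw [h2u]; exact hl) (by rw [h2u, h.smul_left, hvu]; ring)
  refine ⟨e3 * (e2 * e1), E.mul_mem s1 (E.mul_mem r1 q1),
    (sugenS h W).mul_mem s2 ((sugenS h W).mul_mem r2 q2), ?_⟩
  rw [LinearEquiv.mul_apply, LinearEquiv.mul_apply, q3, r3, s3]

/-- the anisotropic case: the group is trivial -/
theorem sugen_aniso_case [Finite F] [Finite V] (hs : ∃ a : F, star a ≠ a) {W : Submodule F V}
    (hW : SugenSplit h W) (hno : ∀ v ∈ W, h.f v v = 0 → v = 0) {g : V ≃ₗ[F] V}
    (hg : g ∈ sugenS h W) : g = 1 := by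
  by_cases hW0 : W = ⊥
  · ext z
    obtain ⟨y, hy, hyz⟩ := hW z
    rw [hW0, Submodule.mem_bot] at hy
    subst hy
    rw [sub_zero] at hyz
    exact hg.2.2 z hyz
  obtain ⟨w, hw, hww⟩ := hW.aniso hs hW0
  -- `W` is spanned by `w`
  have hspan : ∀ y ∈ W, y = (h.f y w / h.f w w) • w := by
    intro y hy
    have h1 : y - (h.f y w / h.f w w) • w ∈ W := W.sub_mem hy (W.smul_mem _ hw)
    have h2 : h.f (y - (h.f y w / h.f w w) • w) w = 0 := by
      rw [sugen_sub_left, h.smul_left, div_mul_cancel₀ _ hww, sub_self]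
    set y' := y - (h.f y w / h.f w w) • w with hy'
    by_contra hne
    have hy0 : y' ≠ 0 := by
      intro h0
      apply hne
      rw [hy'] at h0
      exact sub_eq_zero.1 h0
    have h3 : h.f y' y' ≠ 0 := fun h0 => hy0 (hno y' h1 h0)
    obtain ⟨t, ht⟩ := sugen_norm hs (-h.f w w / h.f y' y') (by
      rw [star_div₀, sugen_self, star_neg, sugen_self])
    have ht' : t * star t * h.f y' y' = -h.f w w := by
      rw [ht, div_mul_cancel₀ _ h3]
    have h4 : h.f (w + t • y') (w + t • y') = 0 := by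
      simp only [h.add_left, h.smul_left, sugen_add_right, sugen_smul_right, h2,
        sugen_symm0 h h2]
      linear_combination ht'
    have h5 := hno _ (W.add_mem hw (W.smul_mem t h1)) h4
    have h6 : h.f (w + t • y') w = 0 := by rw [h5, sugen_zero_left]
    rw [h.add_left, h.smul_left, h2] at h6
    apply hww
    simpa using h6
  have hgw : g w ∈ W := hW.maps hg hw
  set c := h.f (g w) w / h.f w w with hc
  have hgc : g w = c • w := hspan _ hgw
  have hform : (g : V →ₗ[F] V) = LinearMap.transvection (sugenL h w) (((c - 1) / h.f w w) • w) := by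
    ext z
    rw [LinearMap.transvection.apply, sugenL_apply]
    change g z = _
    obtain ⟨y, hy, hyz⟩ := hW z
    have e1 : g (z - y) = z - y := hg.2.2 _ hyz
    have e2 : h.f z w = h.f y w := by
      have := hyz w hw
      rw [sugen_sub_left] at this
      exact sub_eq_zero.1 this
    have e3 : g y = c • y := by
      have := hspan y hy
      rw [this, map_smul, hgc, smul_comm]
    have e4 : g z = (z - y) + g y := by
      have : g z = g (z - y) + g y := by rw [← map_add, sub_add_cancel]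
      rw [this, e1]
    rw [e4, e3, e2]
    have e5 : (h.f y w) • ((c - 1) / h.f w w) • w = (c - 1) • y := by
      conv_rhs => rw [hspan y hy]
      rw [smul_smul, smul_smul]
      congr 1
      ring
    rw [e5]
    module
  have hdet : LinearMap.det (g : V →ₗ[F] V) = 1 := by
    have := congrArg Units.val hg.2.1
    rw [LinearEquiv.coe_det] at this
    simpa using this
  rw [hform, LinearMap.transvection.det, sugenL_apply, h.smul_left, div_mul_cancel₀ _ hww] at hdet
  have hc1 : c = 1 := by linear_combination hdet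
  ext z
  have : (g : V →ₗ[F] V) z = z := by
    rw [hform, LinearMap.transvection.apply, hc1]
    simp
  simpa using this

theorem sugen_main [Finite F] [Finite V] (hs : ∃ a : F, star a ≠ a) {E : Subgroup (V ≃ₗ[F] V)}
    (hE : ∀ (g : V ≃ₗ[F] V) (v d : V) (b : F), h.IsTau g v d b → g ∈ E) :
    ∀ (n : ℕ) (W : Submodule F V), finrank F W = n → SugenSplit h W →
      ∀ g ∈ sugenS h W, g ∈ E := by
  intro n
  induction n using Nat.strong_induction_on with
  | _ n ih =>
  intro W hn hW g hg
  by_cases hno : ∀ v ∈ W, h.f v v = 0 → v = 0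
  · rw [sugen_aniso_case hs hW hno hg]
    exact E.one_mem
  push Not at hno
  obtain ⟨v, hv, hvv, hv0⟩ := hno
  obtain ⟨u, hu, huu, huv⟩ := hW.pair hs hv hv0 hvv
  have hvu : h.f v u = 1 := by rw [h.symm u v, huv, star_one]
  -- the subspace `W' = W ∩ ⟨u,v⟩^⊥`
  let W' : Submodule F V :=
    { carrier := {x | x ∈ W ∧ h.f x u = 0 ∧ h.f x v = 0}
      zero_mem' := ⟨W.zero_mem, sugen_zero_left h _, sugen_zero_left h _⟩
      add_mem' := by
        rintro a b ⟨a1, a2, a3⟩ ⟨b1, b2, b3⟩
        exact ⟨W.add_mem a1 b1, by rw [h.add_left, a2, b2, add_zero],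
          by rw [h.add_left, a3, b3, add_zero]⟩
      smul_mem' := by
        rintro c a ⟨a1, a2, a3⟩
        exact ⟨W.smul_mem c a1, by rw [h.smul_left, a2, mul_zero],
          by rw [h.smul_left, a3, mul_zero]⟩ }
  have hmemW' : ∀ x, x ∈ W' ↔ x ∈ W ∧ h.f x u = 0 ∧ h.f x v = 0 := fun x => Iff.rfl
  have hproj : ∀ y ∈ W, y - h.f y v • u - h.f y u • v ∈ W' := by
    intro y hy
    rw [hmemW']
    refine ⟨W.sub_mem (W.sub_mem hy (W.smul_mem _ hu)) (W.smul_mem _ hv), ?_, ?_⟩
    · rw [sugen_sub_left, sugen_sub_left, h.smul_left, h.smul_left, huu, hvu]; ring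
    · rw [sugen_sub_left, sugen_sub_left, h.smul_left, h.smul_left, huv, hvv]; ring
  have hW' : SugenSplit h W' := by
    intro z
    obtain ⟨y, hy, hyz⟩ := hW z
    refine ⟨_, hproj y hy, ?_⟩
    intro w hw
    have hw' := (hmemW' w).1 hw
    have e1 : z - (y - h.f y v • u - h.f y u • v) = (z - y) + h.f y v • u + h.f y u • v := by
      module
    rw [e1, h.add_left, h.add_left, h.smul_left, h.smul_left, hyz w hw'.1,
      sugen_symm0 h hw'.2.1, sugen_symm0 h hw'.2.2]
    ring
  have hlt : finrank F W' < n := by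
    rw [← hn]
    apply Submodule.finrank_lt_finrank_of_lt
    refine lt_of_le_of_ne (fun x hx => ((hmemW' x).1 hx).1) ?_
    intro heq
    rw [← heq] at hv
    have := ((hmemW' v).1 hv).2.1
    rw [hvu] at this
    exact one_ne_zero this
  -- step 1: `g v` is a multiple of `v`
  have hgv0 : g v ≠ 0 := by
    intro h0
    exact hv0 (g.map_eq_zero_iff.1 h0)
  obtain ⟨l, hl, e1, q1, q2, q3⟩ := sugen_point (h := h) hs hE hW hv (hW.maps hg hv) hv0 hgv0 hvv
    (by rw [hg.1, hvv])
  obtain ⟨g1, hg1⟩ : ∃ g1, g1 = e1⁻¹ * g := ⟨_, rfl⟩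
  have hg1S : g1 ∈ sugenS h W := by
    rw [hg1]; exact (sugenS h W).mul_mem ((sugenS h W).inv_mem q2) hg
  have hg1v : g1 v = l • v := by
    rw [hg1, LinearEquiv.mul_apply, ← q3]
    exact e1.symm_apply_apply _
  -- step 2
  have hls0 : star l ≠ 0 := star_ne_zero.2 hl
  have hg1uv : h.f (g1 u) v = (star l)⁻¹ := by
    have e2 : h.f (g1 u) (g1 v) = 1 := by rw [hg1S.1, huv]
    rw [hg1v, sugen_smul_right] at e2
    exact eq_inv_of_mul_eq_one_right e2
  obtain ⟨e2, r1, r2, r3, r4⟩ := sugen_move (h := h) hE (u := g1 u) (w := (star l)⁻¹ • u) (v := v)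
    (hW.maps hg1S hu) (W.smul_mem _ hu) hv (by rw [hg1S.1, huu])
    (by rw [h.smul_left, sugen_smul_right, huu]; ring) hvv
    (by rw [hg1uv]; exact inv_ne_zero hls0) (by rw [hg1uv, h.smul_left, huv, mul_one])
  obtain ⟨g2, hg2⟩ : ∃ g2, g2 = e2 * g1 := ⟨_, rfl⟩
  have hg2S : g2 ∈ sugenS h W := by
    rw [hg2]; exact (sugenS h W).mul_mem r2 hg1S
  have hg2v : g2 v = l • v := by
    rw [hg2, LinearEquiv.mul_apply, hg1v, map_smul, r4]
  have hg2u : g2 u = (star l)⁻¹ • u := by
    rw [hg2, LinearEquiv.mul_apply, r3]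
  -- step 3: scale
  have hscale : ∃ e ∈ E, e ∈ sugenS h W ∧ e v = l • v := by
    by_cases hW0 : W' = ⊥
    · -- the determinant shows that `l` is in the fixed field
      have hform : (g2 : V →ₗ[F] V) = (LinearMap.transvection (sugenL h u) ((l - 1) • v)).comp
          (LinearMap.transvection (sugenL h v) (((star l)⁻¹ - 1) • u)) := by
        ext z
        rw [LinearMap.comp_apply, LinearMap.transvection.apply, LinearMap.transvection.apply,
          sugenL_apply, sugenL_apply]
        change g2 z = _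
        obtain ⟨y, hy, hyz⟩ := hW z
        have f1 : g2 (z - y) = z - y := hg2S.2.2 _ hyz
        have f2 : y = h.f y v • u + h.f y u • v := by
          have := hproj y hy
          rw [hW0, Submodule.mem_bot] at this
          have h5 : y - (h.f y v • u + h.f y u • v) = 0 := by
            rw [← this]; module
          exact sub_eq_zero.1 h5
        have f3 : h.f z v = h.f y v := by
          have := hyz v hv
          rw [sugen_sub_left] at this
          exact sub_eq_zero.1 this
        have f4 : h.f z u = h.f y u := by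
          have := hyz u hu
          rw [sugen_sub_left] at this
          exact sub_eq_zero.1 this
        have f5 : g2 z = (z - y) + g2 y := by
          have : g2 z = g2 (z - y) + g2 y := by rw [← map_add, sub_add_cancel]
          rw [this, f1]
        have f6 : g2 y = (h.f y v * (star l)⁻¹) • u + (h.f y u * l) • v := by
          conv_lhs => rw [f2]
          rw [map_add, map_smul, map_smul, hg2v, hg2u, smul_smul, smul_smul]
        rw [f5, f6, h.add_left, h.smul_left, h.smul_left, huu, f3, f4]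
        generalize h.f y v = x1 at f2 ⊢
        generalize h.f y u = x2 at f2 ⊢
        rw [f2]
        module
      have hdet : LinearMap.det (g2 : V →ₗ[F] V) = 1 := by
        have := congrArg Units.val hg2S.2.1
        rw [LinearEquiv.coe_det] at this
        simpa using this
      rw [hform, LinearMap.det_comp, LinearMap.transvection.det, LinearMap.transvection.det,
        sugenL_apply, sugenL_apply, h.smul_left, h.smul_left, huv, hvu] at hdet
      have h6 : l * (star l)⁻¹ = 1 := by linear_combination hdet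
      have h7 : star l = l := (mul_inv_eq_one₀ hls0).1 h6 |>.symm
      exact sugen_scale2 (h := h) hs hE hu hv huu hvv huv hl h7
    · obtain ⟨a, ha, haa⟩ := hW'.aniso hs hW0
      have ha' := (hmemW' a).1 ha
      exact sugen_scale3 (h := h) hs hE hu hv ha'.1 huu hvv huv ha'.2.1 ha'.2.2 haa hl
  obtain ⟨e3, s1, s2, s3⟩ := hscale
  obtain ⟨g3, hg3⟩ : ∃ g3, g3 = e3⁻¹ * g2 := ⟨_, rfl⟩
  have hg3S : g3 ∈ sugenS h W := by
    rw [hg3]; exact (sugenS h W).mul_mem ((sugenS h W).inv_mem s2) hg2S
  have hg3v : g3 v = v := by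
    rw [hg3, LinearEquiv.mul_apply, hg2v, ← s3]
    exact e3.symm_apply_apply _
  -- step 4
  have hg3uv : h.f (g3 u) v = 1 := by
    have : h.f (g3 u) (g3 v) = 1 := by rw [hg3S.1, huv]
    rwa [hg3v] at this
  obtain ⟨e4, t1, t2, t3, t4⟩ := sugen_move (h := h) hE (u := g3 u) (w := u) (v := v)
    (hW.maps hg3S hu) hu hv (by rw [hg3S.1, huu]) huu hvv (by rw [hg3uv]; exact one_ne_zero)
    (by rw [hg3uv, huv])
  obtain ⟨g4, hg4⟩ : ∃ g4, g4 = e4 * g3 := ⟨_, rfl⟩
  have hg4S : g4 ∈ sugenS h W := by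
    rw [hg4]; exact (sugenS h W).mul_mem t2 hg3S
  have hg4v : g4 v = v := by rw [hg4, LinearEquiv.mul_apply, hg3v, t4]
  have hg4u : g4 u = u := by rw [hg4, LinearEquiv.mul_apply, t3]
  have hg4S' : g4 ∈ sugenS h W' := by
    refine ⟨hg4S.1, hg4S.2.1, ?_⟩
    intro z hz
    have e5 : g4 (z - h.f z v • u - h.f z u • v) = z - h.f z v • u - h.f z u • v := by
      apply hg4S.2.2
      intro w hw
      have e6 := hz _ (hproj w hw)
      rw [sugen_sub_right, sugen_sub_right, sugen_smul_right, sugen_smul_right, ← h.symm,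
        ← h.symm] at e6
      rw [sugen_sub_left, sugen_sub_left, h.smul_left, h.smul_left]
      linear_combination e6
    rw [map_sub, map_sub, map_smul, map_smul, hg4u, hg4v] at e5
    have e7 : g4 z - z = (g4 z - h.f z v • u - h.f z u • v) -
        (z - h.f z v • u - h.f z u • v) := by module
    rw [e5, sub_self] at e7
    exact sub_eq_zero.1 e7
  have hg4E : g4 ∈ E := ih _ hlt W' rfl hW' g4 hg4S'
  -- conclusion
  have f3 : g3 ∈ E := by
    have : g3 = e4⁻¹ * g4 := by rw [hg4]; group
    rw [this]; exact E.mul_mem (E.inv_mem t1) hg4E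
  have f2 : g2 ∈ E := by
    have : g2 = e3 * g3 := by rw [hg3]; group
    rw [this]; exact E.mul_mem s1 f3
  have f1 : g1 ∈ E := by
    have : g1 = e2⁻¹ * g2 := by rw [hg2]; group
    rw [this]; exact E.mul_mem (E.inv_mem r1) f2
  have : g = e1 * g1 := by rw [hg1]; group
  rw [this]
  exact E.mul_mem q1 f1

end sugen

/-- a group containing all unitary root elements contains `SU` -/
theorem su_gen {F V : Type} [Field F] [Finite F] [StarRing F] (hs : ∃ a : F, star a ≠ a)
    [AddCommGroup V] [Module F V] [Finite V] (h : Herm F V) (E : Subgroup (V ≃ₗ[F] V))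
    (hE : ∀ (g : V ≃ₗ[F] V) (v d : V) (b : F), h.IsTau g v d b → g ∈ E)
    (hn : 2 ≤ finrank F V) (g : V ≃ₗ[F] V) (hg : ∀ x y, h.f (g x) (g y) = h.f x y)
    (hdet : LinearMap.det (g : V →ₗ[F] V) = 1) : g ∈ E := by
  have _ := hn
  refine sugen_main (h := h) hs hE _ ⊤ rfl ?_ g ⟨hg, ?_, ?_⟩
  · intro z
    exact ⟨z, Submodule.mem_top, fun w _ => by rw [sub_self, sugen_zero_left]⟩
  · ext
    rw [LinearEquiv.coe_det, hdet]
    rfl
  · intro z hz
    have : z = 0 := h.nondeg z (fun y => hz y Submodule.mem_top)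
    rw [this, map_zero]

end Pool.Agent.Lib.MP_bfe725_co
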