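import Pool.Agent.Lib.MP_bfe725_co.CDefs

/-!
# Transvections generate the symplectic group (helper87, module SPGEN)
-/

set_option autoImplicit false

namespace Pool.Agent.Lib.MP_bfe725_co

open Module

namespace SpGen

variable {F V : Type} [Field F] [AddCommGroup V] [Module F V] (A : Alt F V)

theorem zero_left (y : V) : A.f 0 y = 0 := by
  have := A.smul_left 0 0 y
  simpa using this

theorem zero_right (y : V) : A.f y 0 = 0 := by
  have := A.smul_right 0 y 0
  simpa using this

theorem neg_left (x y : V) : A.f (-x) y = - A.f x y := by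
  have := A.smul_left (-1) x y
  simpa using this

theorem neg_right (x y : V) : A.f x (-y) = - A.f x y := by
  have := A.smul_right (-1) x y
  simpa using this

theorem sub_left (x y z : V) : A.f (x - y) z = A.f x z - A.f y z := by
  rw [sub_eq_add_neg, A.add_left, neg_left, ← sub_eq_add_neg]

theorem sub_right (x y z : V) : A.f x (y - z) = A.f x y - A.f x z := by
  rw [sub_eq_add_neg, A.add_right, neg_right, ← sub_eq_add_neg]

theorem anti (x y : V) : A.f y x = - A.f x y := by
  have h := A.self (x + y)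
  rw [A.add_left, A.add_right, A.add_right, A.self, A.self] at h
  linear_combination h

/-- the transvection `z ↦ z + a f(z,v) v` -/
noncomputable def tv (v : V) (a : F) : V ≃ₗ[F] V where
  toFun z := z + (a * A.f z v) • v
  invFun z := z + (-a * A.f z v) • v
  left_inv z := by
    simp only [A.add_left, A.smul_left, A.self, mul_zero, add_zero]
    rw [add_assoc, ← add_smul]
    simp
  right_inv z := by
    simp only [A.add_left, A.smul_left, A.self, mul_zero, add_zero]
    rw [add_assoc, ← add_smul]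
    simp
  map_add' x y := by
    simp only [A.add_left, mul_add, add_smul]
    abel
  map_smul' c x := by
    simp only [A.smul_left, RingHom.id_apply, smul_add, smul_smul]
    congr 2
    ring

theorem tv_apply (v z : V) (a : F) : tv A v a z = z + (a * A.f z v) • v := rfl

theorem tv_isom (v : V) (a : F) (x y : V) : A.f (tv A v a x) (tv A v a y) = A.f x y := by
  rw [tv_apply, tv_apply]
  simp only [A.add_left, A.add_right, A.smul_left, A.smul_right, A.self]
  rw [anti A y v]
  ring

/-- elements of `E` which are isometries and fix `U` pointwise -/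
def Good (E : Subgroup (V ≃ₗ[F] V)) (U : Submodule F V) (e : V ≃ₗ[F] V) : Prop :=
  e ∈ E ∧ (∀ x y, A.f (e x) (e y) = A.f x y) ∧ ∀ x ∈ U, e x = x

variable {A}

theorem Good.mul {E : Subgroup (V ≃ₗ[F] V)} {U : Submodule F V} {e e' : V ≃ₗ[F] V}
    (h : Good A E U e) (h' : Good A E U e') : Good A E U (e * e') := by
  refine ⟨E.mul_mem h.1 h'.1, ?_, ?_⟩
  · intro x y
    rw [LinearEquiv.mul_apply, LinearEquiv.mul_apply, h.2.1, h'.2.1]
  · intro x hx
    rw [LinearEquiv.mul_apply, h'.2.2 x hx, h.2.2 x hx]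

/-- every vector has an orthogonal projection to `U` -/
def ND (A : Alt F V) (U : Submodule F V) : Prop :=
  ∀ x : V, ∃ a ∈ U, ∀ y ∈ U, A.f (x - a) y = 0

/-- `v` is orthogonal to `U` -/
def Perp (A : Alt F V) (U : Submodule F V) (v : V) : Prop := ∀ y ∈ U, A.f v y = 0

theorem Perp.add {U : Submodule F V} {v w : V} (hv : Perp A U v) (hw : Perp A U w) :
    Perp A U (v + w) := fun y hy => by rw [A.add_left, hv y hy, hw y hy, add_zero]

theorem Perp.sub {U : Submodule F V} {v w : V} (hv : Perp A U v) (hw : Perp A U w) :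
    Perp A U (v - w) := fun y hy => by rw [sub_left, hv y hy, hw y hy, sub_zero]

theorem Perp.smul {U : Submodule F V} {v : V} (c : F) (hv : Perp A U v) :
    Perp A U (c • v) := fun y hy => by rw [A.smul_left, hv y hy, mul_zero]

theorem Perp.symm {U : Submodule F V} {v y : V} (hv : Perp A U v) (hy : y ∈ U) :
    A.f y v = 0 := by rw [anti, hv y hy, neg_zero]

theorem Good.perp {E : Subgroup (V ≃ₗ[F] V)} {U : Submodule F V} {e : V ≃ₗ[F] V} {v : V}
    (h1 : ∀ x y, A.f (e x) (e y) = A.f x y) (h2 : ∀ x ∈ U, e x = x) (hv : Perp A U v) :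
    Perp A U (e v) := by
  intro y hy
  rw [← h2 y hy, h1]
  exact hv y hy

variable {E : Subgroup (V ≃ₗ[F] V)}
  (hE : ∀ (g : V ≃ₗ[F] V) (v : V) (a : F), (∀ z, g z = z + (a * A.f z v) • v) → g ∈ E)

include hE

theorem good_tv {U : Submodule F V} {v : V} (hv : Perp A U v) (a : F) :
    Good A E U (tv A v a) := by
  refine ⟨hE _ v a (fun z => rfl), tv_isom A v a, ?_⟩
  intro x hx
  rw [tv_apply, hv.symm hx, mul_zero, zero_smul, add_zero]

theorem trans_aux {U : Submodule F V} {v w : V} (hv : Perp A U v) (hw : Perp A U w)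
    (h : A.f v w ≠ 0) : ∃ e, Good A E U e ∧ e v = w ∧ ∀ z, A.f z v = A.f z w → e z = z := by
  refine ⟨tv A (w - v) (A.f v w)⁻¹, good_tv hE (hw.sub hv) _, ?_, ?_⟩
  · rw [tv_apply, sub_right, A.self, sub_zero, inv_mul_cancel₀ h, one_smul]
    abel
  · intro z hz
    rw [tv_apply, sub_right, hz, sub_self, mul_zero, zero_smul, add_zero]

omit hE in
theorem exists_pair {U : Submodule F V} (hU : ND A U) {v : V} (hv : Perp A U v) (h0 : v ≠ 0) :
    ∃ u, Perp A U u ∧ A.f u v = 1 := by
  have h1 : ∃ y, A.f v y ≠ 0 := by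
    by_contra hc
    push Not at hc
    exact h0 (A.nondeg v hc)
  obtain ⟨y, hy⟩ := h1
  obtain ⟨a, ha, ha'⟩ := hU y
  have h2 : A.f v (y - a) = A.f v y := by rw [sub_right, hv a ha, sub_zero]
  have h3 : A.f (y - a) v ≠ 0 := by
    rw [anti, h2]
    exact neg_ne_zero.mpr hy
  refine ⟨(A.f (y - a) v)⁻¹ • (y - a), Perp.smul _ ha', ?_⟩
  rw [A.smul_left, inv_mul_cancel₀ h3]

theorem trans_one {U : Submodule F V} (hU : ND A U) {v w : V} (hv : Perp A U v)
    (hw : Perp A U w) (hv0 : v ≠ 0) (hw0 : w ≠ 0) : ∃ e, Good A E U e ∧ e v = w := by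
  by_cases h : A.f v w = 0
  · have h2 : ∃ u, Perp A U u ∧ A.f v u ≠ 0 ∧ A.f u w ≠ 0 := by
      obtain ⟨u1, hu1, h1⟩ := exists_pair hU hv hv0
      obtain ⟨u2, hu2, h2⟩ := exists_pair hU hw hw0
      have h1' : A.f v u1 ≠ 0 := by
        rw [anti, h1]; exact neg_ne_zero.mpr one_ne_zero
      have h2' : A.f u2 w ≠ 0 := by rw [h2]; exact one_ne_zero
      by_cases h3 : A.f u1 w = 0
      · by_cases h4 : A.f v u2 = 0
        · refine ⟨u1 + u2, hu1.add hu2, ?_, ?_⟩
          · rw [A.add_right, h4, add_zero]; exact h1'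
          · rw [A.add_left, h3, zero_add]; exact h2'
        · exact ⟨u2, hu2, h4, h2'⟩
      · exact ⟨u1, hu1, h1', h3⟩
    obtain ⟨u, hu, h3, h4⟩ := h2
    obtain ⟨e, he, hev, -⟩ := trans_aux hE hv hu h3
    obtain ⟨e', he', heu, -⟩ := trans_aux hE hu hw h4
    refine ⟨e' * e, he'.mul he, ?_⟩
    rw [LinearEquiv.mul_apply, hev, heu]
  · obtain ⟨e, he, hev, -⟩ := trans_aux hE hv hw h
    exact ⟨e, he, hev⟩

theorem trans_two {U : Submodule F V} {u v w : V} (hu : Perp A U u)
    (hv : Perp A U v) (hw : Perp A U w) (huv : A.f u v = 1) (hwv : A.f w v = 1) :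
    ∃ e, Good A E U e ∧ e v = v ∧ e u = w := by
  have key : ∀ u w, Perp A U u → Perp A U w → A.f u v = 1 → A.f w v = 1 → A.f u w ≠ 0 →
      ∃ e, Good A E U e ∧ e v = v ∧ e u = w := by
    intro u w hu hw huv hwv h
    obtain ⟨e, he, h1, h2⟩ := trans_aux hE hu hw h
    refine ⟨e, he, h2 v ?_, h1⟩
    rw [anti A u v, anti A w v, huv, hwv]
  by_cases h : A.f u w = 0
  · obtain ⟨e, he, h1, h2⟩ := key u (u + v) hu (hu.add hv) huv
      (by rw [A.add_left, huv, A.self, add_zero])
      (by rw [A.add_right, A.self, huv, zero_add]; exact one_ne_zero)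
    obtain ⟨e', he', h1', h2'⟩ := key (u + v) w (hu.add hv) hw
      (by rw [A.add_left, huv, A.self, add_zero]) hwv
      (by
        rw [A.add_left, h, zero_add, anti A w v, hwv]
        exact neg_ne_zero.mpr one_ne_zero)
    refine ⟨e' * e, he'.mul he, ?_, ?_⟩
    · rw [LinearEquiv.mul_apply, h1, h1']
    · rw [LinearEquiv.mul_apply, h2, h2']
  · exact key u w hu hw huv hwv h

omit hE in
theorem nd_sup {U : Submodule F V} (hU : ND A U) {u v : V} (hu : Perp A U u) (hv : Perp A U v)
    (huv : A.f u v = 1) : ND A (U ⊔ Submodule.span F {u, v}) := by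
  intro x
  obtain ⟨a, ha, ha'⟩ := hU x
  refine ⟨a + (A.f (x - a) v • u - A.f (x - a) u • v), ?_, ?_⟩
  · refine Submodule.add_mem_sup ha ?_
    refine Submodule.sub_mem _ (Submodule.smul_mem _ _ ?_) (Submodule.smul_mem _ _ ?_)
    · exact Submodule.subset_span (by simp)
    · exact Submodule.subset_span (by simp)
  · intro y hy
    obtain ⟨y1, hy1, y2, hy2, rfl⟩ := Submodule.mem_sup.mp hy
    obtain ⟨c, d, rfl⟩ := Submodule.mem_span_pair.mp hy2
    have hvu : A.f v u = -1 := by rw [anti A u v, huv]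
    have h1 := ha' y1 hy1
    have h2 := hu y1 hy1
    have h3 := hv y1 hy1
    have e : x - (a + (A.f (x - a) v • u - A.f (x - a) u • v)) =
      (x - a) - A.f (x - a) v • u + A.f (x - a) u • v := by abel
    rw [e]
    simp only [A.add_left, sub_left, A.smul_left, A.add_right, A.smul_right, huv, hvu, A.self,
      h2, h3]
    rw [sub_left] at h1
    rw [h1]
    ring

theorem main (n : ℕ) [FiniteDimensional F V] : ∀ U : Submodule F V, ND A U →
    finrank F V ≤ finrank F U + n → ∀ g : V ≃ₗ[F] V, (∀ x y, A.f (g x) (g y) = A.f x y) →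
    (∀ x ∈ U, g x = x) → g ∈ E := by
  induction n with
  | zero =>
    intro U _ hn g _ hgU
    have hU : U = ⊤ := by
      apply Submodule.eq_top_of_finrank_eq
      exact le_antisymm (Submodule.finrank_le U) (by omega)
    apply hE g 0 0
    intro z
    rw [hgU z (by rw [hU]; trivial)]
    simp
  | succ n ih =>
    intro U hU hn g hg hgU
    by_cases hW : ∀ v, Perp A U v → v = 0
    · apply ih U hU ?_ g hg hgU
      have hUt : U = ⊤ := by
        rw [eq_top_iff]
        intro x _
        obtain ⟨a, ha, ha'⟩ := hU x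
        have := hW (x - a) ha'
        rw [sub_eq_zero.mp this]
        exact ha
      rw [hUt, finrank_top]
      omega
    · push Not at hW
      obtain ⟨v, hv, hv0⟩ := hW
      obtain ⟨u, hu, huv⟩ := exists_pair hU hv hv0
      have hgv : Perp A U (g v) := Good.perp (E := E) hg hgU hv
      have hgv0 : g v ≠ 0 := by
        intro h
        exact hv0 (g.map_eq_zero_iff.mp h)
      obtain ⟨e1, he1, h1⟩ := trans_one hE hU hgv hv hgv0 hv0
      -- `g1 = e1 * g` fixes `v`
      have hg1 : ∀ x y, A.f ((e1 * g) x) ((e1 * g) y) = A.f x y := by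
        intro x y
        rw [LinearEquiv.mul_apply, LinearEquiv.mul_apply, he1.2.1, hg]
      have hg1U : ∀ x ∈ U, (e1 * g) x = x := by
        intro x hx
        rw [LinearEquiv.mul_apply, hgU x hx, he1.2.2 x hx]
      have hg1v : (e1 * g) v = v := by rw [LinearEquiv.mul_apply, h1]
      have hw : Perp A U ((e1 * g) u) := Good.perp (E := E) hg1 hg1U hu
      have hwv : A.f ((e1 * g) u) v = 1 := by
        have := hg1 u v
        rw [hg1v, huv] at this
        exact this
      obtain ⟨e2, he2, h2, h3⟩ := trans_two hE hw hv hu hwv huv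
      have hU' := nd_sup hU hu hv huv
      have hlt : U < U ⊔ Submodule.span F {u, v} := by
        refine lt_of_le_of_ne le_sup_left ?_
        intro h
        have hvU : v ∈ U := by
          rw [h]
          exact Submodule.mem_sup_right (Submodule.subset_span (by simp))
        have := hu v hvU
        rw [huv] at this
        exact one_ne_zero this
      have hfin := Submodule.finrank_lt_finrank_of_lt hlt
      have hmem := ih _ hU' (by omega) (e2 * (e1 * g)) (by
        intro x y
        rw [LinearEquiv.mul_apply, LinearEquiv.mul_apply e2, he2.2.1, hg1]) (by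
        intro x hx
        obtain ⟨y1, hy1, y2, hy2, rfl⟩ := Submodule.mem_sup.mp hx
        obtain ⟨c, d, rfl⟩ := Submodule.mem_span_pair.mp hy2
        simp only [map_add, map_smul]
        rw [LinearEquiv.mul_apply e2, LinearEquiv.mul_apply e2, LinearEquiv.mul_apply e2,
          hg1U y1 hy1, hg1v, h3, h2, he2.2.2 y1 hy1])
      have h5 : g = e1⁻¹ * (e2⁻¹ * (e2 * (e1 * g))) := by group
      rw [h5]
      exact E.mul_mem (E.inv_mem he1.1) (E.mul_mem (E.inv_mem he2.1) hmem)

end SpGen

/-- a group containing all transvections `z ↦ z + a f(z,v) v` contains all isometries -/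
theorem sp_gen {F V : Type} [Field F] [Finite F] [AddCommGroup V] [Module F V] [Finite V]
    (A : Alt F V) (E : Subgroup (V ≃ₗ[F] V))
    (hE : ∀ (g : V ≃ₗ[F] V) (v : V) (a : F), (∀ z, g z = z + (a * A.f z v) • v) → g ∈ E)
    (g : V ≃ₗ[F] V) (hg : ∀ x y, A.f (g x) (g y) = A.f x y) : g ∈ E := by
  have : FiniteDimensional F V := Module.Finite.of_finite
  refine SpGen.main hE (finrank F V) ⊥ ?_ (by omega) g hg ?_
  · intro x
    refine ⟨0, Submodule.zero_mem _, ?_⟩
    intro y hy
    rw [Submodule.mem_bot] at hy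
    rw [hy, SpGen.zero_right]
  · intro x hx
    rw [Submodule.mem_bot] at hx
    rw [hx, map_zero]

end Pool.Agent.Lib.MP_bfe725_co
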